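import Mathlib

/-!
The two-descent over `ℚ` by the quadratic field `ℚ(√-7)` for `y² = x³ + 21 D x² + 112 D² x`.
-/

set_option autoImplicit false
set_option linter.unusedSectionVars false

open WeierstrassCurve

namespace Pool.Agent.R413.CK

/-- the curve `y² = x³ + 21 D x² + 112 D² x` -/
def WD (D : ℚ) : WeierstrassCurve ℚ := ⟨0, 21 * D, 0, 112 * D ^ 2, 0⟩

theorem wd_eqn {D x y : ℚ} : (WD D).toAffine.Equation x y ↔
    y ^ 2 = x ^ 3 + 21 * D * x ^ 2 + 112 * D ^ 2 * x := by
  rw [Affine.equation_iff]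
  simp only [WD]
  constructor
  · intro h
    linear_combination h
  · intro h
    linear_combination h

theorem quad_pos {D x : ℚ} (hD : D ≠ 0) : 0 < x ^ 2 + 21 * D * x + 112 * D ^ 2 := by
  have h1 : 0 < D ^ 2 := by positivity
  nlinarith [sq_nonneg (2 * x + 21 * D)]

theorem wd_nonsing {D x y : ℚ} (hD : D ≠ 0)
    (h : y ^ 2 = x ^ 3 + 21 * D * x ^ 2 + 112 * D ^ 2 * x) : (WD D).toAffine.Nonsingular x y := by
  rw [Affine.nonsingular_iff]
  refine ⟨wd_eqn.2 h, ?_⟩
  by_cases hy : y = 0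
  · left
    simp only [WD]
    have h2 := quad_pos (x := x) hD
    have hx : x = 0 := by
      rw [hy] at h
      have h3 : x * (x ^ 2 + 21 * D * x + 112 * D ^ 2) = 0 := by linear_combination -h
      exact (mul_eq_zero.1 h3).resolve_right h2.ne'
    rw [hx, hy]
    have : 0 < D ^ 2 := by positivity
    intro h4
    have h5 : 112 * D ^ 2 = 0 := by linear_combination -h4
    linarith
  · right
    simp only [WD]
    intro h3
    apply hy
    linear_combination h3 / 2

/-- the halving -/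
theorem halfQ {D x y u v : ℚ} (hD : D ≠ 0) (h : (WD D).toAffine.Nonsingular x y)
    (h1 : u ^ 2 - 2 * v ^ 2 = x + 10 * D) (h2 : 2 * u * v + v ^ 2 = D) :
    ∃ Q : (WD D).toAffine.Point, Q + Q = .some x y h := by
  have he := wd_eqn.1 h.1
  have hq := quad_pos (x := x) hD
  -- the norm and the trace
  obtain ⟨n, hn⟩ : ∃ n, n = u ^ 2 + u * v + 2 * v ^ 2 := ⟨_, rfl⟩
  obtain ⟨t, ht⟩ : ∃ t, t = 2 * u + v := ⟨_, rfl⟩
  have hx : x = u ^ 2 - 2 * v ^ 2 - 10 * D := by linear_combination -h1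
  have hn2 : n ^ 2 = x ^ 2 + 21 * D * x + 112 * D ^ 2 := by
    rw [hn, hx, ← h2]
    ring
  have ht2 : t ^ 2 = 2 * x + 21 * D + 2 * n := by
    rw [hn, ht, hx, ← h2]
    ring
  have hn0 : n ≠ 0 := by
    rintro rfl
    rw [← hn2] at hq
    simp at hq
  obtain ⟨r, hr⟩ : ∃ r, r = y / n := ⟨_, rfl⟩
  have hrn : y = r * n := by rw [hr, div_mul_cancel₀ _ hn0]
  have hr2 : x = r ^ 2 := by
    rw [hr, div_pow, eq_div_iff (pow_ne_zero 2 hn0), hn2, he]
    ring
  have ht0 : t ≠ 0 := by
    intro h0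
    -- the discriminant
    have h3 : (21 * D) ^ 2 - 4 * (112 * D ^ 2) = t ^ 2 * (t ^ 2 - 4 * n) := by
      have e1 : 21 * D = t ^ 2 - 2 * x - 2 * n := by linear_combination -ht2
      have e2 : 112 * D ^ 2 = n ^ 2 - x ^ 2 - 21 * D * x := by linear_combination -hn2
      rw [e2, e1]
      ring
    rw [h0] at h3
    have h4 : D ^ 2 = 0 := by linear_combination -h3 / 7
    exact hD (pow_eq_zero_iff two_ne_zero |>.1 h4)
  have hX0 : x + r * t + n ≠ 0 := by
    intro h0
    have h3 : 112 * D ^ 2 = (x + n - r * t) * (x + r * t + n) := by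
      have e2 : 112 * D ^ 2 = n ^ 2 - x ^ 2 - 21 * D * x := by linear_combination -hn2
      have e1 : 21 * D = t ^ 2 - 2 * x - 2 * n := by linear_combination -ht2
      rw [e2, e1]
      linear_combination -t ^ 2 * hr2
    rw [h0, mul_zero] at h3
    have h4 : D ^ 2 = 0 := by linear_combination h3 / 112
    exact hD (pow_eq_zero_iff two_ne_zero |>.1 h4)
  have e1 : 21 * D = t ^ 2 - 2 * x - 2 * n := by linear_combination -ht2
  have e2 : 112 * D ^ 2 = n ^ 2 - x ^ 2 - 21 * D * x := by linear_combination -hn2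
  have e3 : 112 * D ^ 2 = n ^ 2 + x ^ 2 + 2 * x * n - x * t ^ 2 := by
    linear_combination e2 - x * e1
  set X := x + r * t + n with hX
  set Y := X * t with hY
  have hY0 : Y ≠ 0 := mul_ne_zero hX0 ht0
  have hXY : Y ^ 2 = X ^ 3 + 21 * D * X ^ 2 + 112 * D ^ 2 * X := by
    rw [hY, e1, e3, hX]
    linear_combination ((x + r * t + n) * t ^ 2) * hr2
  have hQ : (WD D).toAffine.Nonsingular X Y := wd_nonsing hD hXY
  refine ⟨.some X Y hQ, ?_⟩
  have hy' : Y ≠ (WD D).toAffine.negY X Y := by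
    simp only [Affine.negY, WD]
    intro hh
    apply hY0
    linear_combination hh / 2
  have hslope : (WD D).toAffine.slope X X Y Y = r + t := by
    rw [Affine.slope_of_Y_ne rfl hy']
    simp only [Affine.negY, WD]
    have e4 : Y - (-Y - 0 * X - 0) = 2 * Y := by ring
    have h2Y : (2 : ℚ) * Y ≠ 0 := mul_ne_zero (by norm_num) hY0
    rw [e4, div_eq_iff h2Y]
    rw [mul_comm (2 : ℚ) (21 * D), e1, e3, hY, hX]
    linear_combination (-t ^ 2) * hr2
  rw [Affine.Point.add_self_of_Y_ne hy']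
  simp only [Affine.Point.some.injEq]
  rw [hslope]
  have hXX : (WD D).toAffine.addX X X (r + t) = x := by
    simp only [Affine.addX, WD]
    rw [e1, hX]
    linear_combination -hr2
  refine ⟨hXX, ?_⟩
  simp only [Affine.addY, Affine.negAddY, hXX, Affine.negY]
  simp only [WD]
  rw [hY, hX, hrn]
  linear_combination -t * hr2

section
variable {F : Type} [Field F] [CharZero F] {a : F}

/-- `D e` -/
def ee (a : F) (D : ℚ) : F := (D : F) * (-10 - a)

theorem ee_root (ha : a ^ 2 = a - 2) (D : ℚ) :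
    ee a D ^ 2 + 21 * (D : F) * ee a D + 112 * (D : F) ^ 2 = 0 := by
  unfold ee
  linear_combination (D : F) ^ 2 * ha

/-- the map of the descent -/
noncomputable def kap (a : F) (D : ℚ) : (WD D).toAffine.Point → F
  | .zero => 1
  | .some x _ _ => (x : F) - ee a D

theorem ind (ha : a ^ 2 = a - 2) {u v : ℚ} (h : (u : F) + v * a = 0) : u = 0 ∧ v = 0 := by
  have h1 : v = 0 := by
    by_contra hv
    have hvF : (v : F) ≠ 0 := by exact_mod_cast hv
    have h2 : a = ((-u / v : ℚ) : F) := by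
      push_cast
      rw [eq_div_iff hvF]
      linear_combination h
    have h3 : ((-u / v) ^ 2 : ℚ) = (-u / v) - 2 := by
      rw [h2] at ha
      exact_mod_cast ha
    nlinarith [sq_nonneg (2 * (-u / v) - 1)]
  refine ⟨?_, h1⟩
  rw [h1] at h
  simpa using h

theorem kap_ne (ha : a ^ 2 = a - 2) {D : ℚ} (hD : D ≠ 0) (P : (WD D).toAffine.Point) :
    kap a D P ≠ 0 := by
  rcases P with _ | ⟨x, y, h⟩
  · exact one_ne_zero
  · intro h0
    have h1 : ((x + 10 * D : ℚ) : F) + (D : ℚ) * a = 0 := by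
      have h2 : (x : F) - ee a D = 0 := h0
      unfold ee at h2
      push_cast
      linear_combination h2
    exact hD (ind ha h1).2

/-- equality up to squares -/
def Sqr (x : F) : Prop := ∃ z : F, z ≠ 0 ∧ x = z ^ 2

theorem Sqr.mul {x y : F} (h : Sqr x) (h' : Sqr y) : Sqr (x * y) := by
  obtain ⟨z, hz, rfl⟩ := h
  obtain ⟨w, hw, rfl⟩ := h'
  exact ⟨z * w, mul_ne_zero hz hw, by ring⟩

/-- cancel -/
theorem Sqr.of_mul {x y : F} (h : Sqr (x * y)) (h' : Sqr y) : Sqr x := by
  obtain ⟨z, hz, h⟩ := h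
  obtain ⟨w, hw, rfl⟩ := h'
  exact ⟨z / w, div_ne_zero hz hw, by rw [div_pow, ← h]; field_simp⟩

theorem Sqr.sq {x : F} (h : x ≠ 0) : Sqr (x * x) := ⟨x, h, by ring⟩

/-- **the map is a homomorphism up to squares** -/
theorem kap_add (ha : a ^ 2 = a - 2) {D : ℚ} (hD : D ≠ 0) (P Q : (WD D).toAffine.Point) :
    Sqr (kap a D (P + Q) * (kap a D P * kap a D Q)) := by
  have hne := kap_ne ha hD
  rcases P with _ | ⟨x1, y1, h1⟩
  · have e : (Affine.Point.zero : (WD D).toAffine.Point) + Q = Q := zero_add Q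
    have e2 : kap a D (Affine.Point.zero : (WD D).toAffine.Point) = 1 := rfl
    rw [e, e2, one_mul]
    exact Sqr.sq (hne Q)
  rcases Q with _ | ⟨x2, y2, h2⟩
  · have e : (Affine.Point.some x1 y1 h1 : (WD D).toAffine.Point) + Affine.Point.zero =
      Affine.Point.some x1 y1 h1 := add_zero _
    have e2 : kap a D (Affine.Point.zero : (WD D).toAffine.Point) = 1 := rfl
    rw [e, e2, mul_one]
    exact Sqr.sq (hne _)
  have q1 := wd_eqn.1 h1.1
  have q2 := wd_eqn.1 h2.1
  have q1F : (y1 : F) ^ 2 = (x1 : F) ^ 3 + 21 * (D : F) * (x1 : F) ^ 2 + 112 * (D : F) ^ 2 * x1 := by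
    exact_mod_cast q1
  have q2F : (y2 : F) ^ 2 = (x2 : F) ^ 3 + 21 * (D : F) * (x2 : F) ^ 2 + 112 * (D : F) ^ 2 * x2 := by
    exact_mod_cast q2
  have he := ee_root ha D
  have n1 : (x1 : F) - ee a D ≠ 0 := hne (Affine.Point.some x1 y1 h1)
  have n2 : (x2 : F) - ee a D ≠ 0 := hne (Affine.Point.some x2 y2 h2)
  have k1 : kap a D (Affine.Point.some x1 y1 h1) = (x1 : F) - ee a D := rfl
  have k2 : kap a D (Affine.Point.some x2 y2 h2) = (x2 : F) - ee a D := rfl
  rw [k1, k2]
  by_cases hx : x1 = x2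
  · subst hx
    by_cases hy : y1 = -y2
    · have e : (Affine.Point.some x1 y1 h1 : (WD D).toAffine.Point) + Affine.Point.some x1 y2 h2 =
          0 := by
        apply Affine.Point.add_of_Y_eq rfl
        simp only [Affine.negY, WD]
        rw [hy]
        ring
      have e2 : kap a D (0 : (WD D).toAffine.Point) = 1 := rfl
      rw [e, e2, one_mul]
      exact Sqr.sq n1
    · have hyy : y1 = y2 := by
        have h3 : y1 ^ 2 = y2 ^ 2 := by rw [q1, q2]
        exact (sq_eq_sq_iff_eq_or_eq_neg.1 h3).resolve_right hy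
      subst hyy
      have hy0 : y1 ≠ 0 := by
        rintro rfl
        exact hy (by ring)
      have hy0F : (y1 : F) ≠ 0 := by exact_mod_cast hy0
      have hy' : y1 ≠ (WD D).toAffine.negY x1 y1 := by
        simp only [Affine.negY, WD]
        intro hh
        apply hy0
        linear_combination hh / 2
      have e := Affine.Point.add_self_of_Y_ne (W := (WD D).toAffine) (h₁ := h1) hy'
      have hX : (WD D).toAffine.addX x1 x1 ((WD D).toAffine.slope x1 x1 y1 y1) =
          ((x1 ^ 2 - 112 * D ^ 2) / (2 * y1)) ^ 2 := by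
        rw [Affine.slope_of_Y_ne rfl hy']
        simp only [Affine.negY, Affine.addX, WD]
        have e4 : y1 - (-y1 - 0 * x1 - 0) = 2 * y1 := by ring
        rw [e4]
        field_simp
        linear_combination (-4 * (21 * D + 2 * x1)) * q1
      have h3 : kap a D ((Affine.Point.some x1 y1 h1 : (WD D).toAffine.Point) +
          Affine.Point.some x1 y1 h1) = (((x1 : F) ^ 2 - 2 * ee a D * x1 + 112 * (D : F) ^ 2) /
          (2 * y1)) ^ 2 := by
        rw [e]
        change (((WD D).toAffine.addX x1 x1 ((WD D).toAffine.slope x1 x1 y1 y1) : ℚ) : F) - ee a D =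
          _
        rw [hX]
        push_cast
        field_simp
        linear_combination (-4 * ee a D) * q1F - 4 * (x1 : F) ^ 2 * he
      have h4 := hne ((Affine.Point.some x1 y1 h1 : (WD D).toAffine.Point) +
          Affine.Point.some x1 y1 h1)
      refine Sqr.mul ⟨_, ?_, h3⟩ (Sqr.sq n1)
      intro h5
      rw [h3, h5] at h4
      exact h4 (by ring)
  · have hxF : (x1 : F) - x2 ≠ 0 := by
      rw [sub_ne_zero]
      exact_mod_cast hx
    have hxQ : x1 - x2 ≠ 0 := sub_ne_zero.2 hx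
    have e := Affine.Point.add_of_X_ne (W := (WD D).toAffine) (h₁ := h1) (h₂ := h2) hx
    have hX : (WD D).toAffine.addX x1 x2 ((WD D).toAffine.slope x1 x2 y1 y2) =
        ((y1 - y2) / (x1 - x2)) ^ 2 - 21 * D - x1 - x2 := by
      rw [Affine.slope_of_X_ne hx]
      simp only [Affine.addX, WD]
      ring
    have h3 : kap a D ((Affine.Point.some x1 y1 h1 : (WD D).toAffine.Point) +
          Affine.Point.some x2 y2 h2) * (((x1 : F) - ee a D) * ((x2 : F) - ee a D)) =
        (((y1 : F) * (x2 - ee a D) - y2 * (x1 - ee a D)) / (x1 - x2)) ^ 2 := by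
      rw [e]
      change ((((WD D).toAffine.addX x1 x2 ((WD D).toAffine.slope x1 x2 y1 y2) : ℚ) : F) -
        ee a D) * _ = _
      rw [hX]
      push_cast
      field_simp
      linear_combination (((x1 : F) - x2) * (x2 - ee a D)) * q1F -
        (((x1 : F) - x2) * (x1 - ee a D)) * q2F - (ee a D * ((x1 : F) - x2) ^ 2) * he
    refine ⟨_, ?_, h3⟩
    intro h5
    have h4 := hne ((Affine.Point.some x1 y1 h1 : (WD D).toAffine.Point) +
          Affine.Point.some x2 y2 h2)
    rw [h5] at h3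
    exact mul_ne_zero h4 (mul_ne_zero n1 n2) (by rw [h3]; ring)

/-- **the kernel consists of the doubles** -/
theorem kap_ker (ha : a ^ 2 = a - 2) (hF : ∀ x : F, ∃ u v : ℚ, x = u + v * a) {D : ℚ} (hD : D ≠ 0)
    (P : (WD D).toAffine.Point) (h : Sqr (kap a D P)) : ∃ Q : (WD D).toAffine.Point, Q + Q = P := by
  rcases P with _ | ⟨x, y, hP⟩
  · exact ⟨0, add_zero 0⟩
  · obtain ⟨z, hz, h⟩ := h
    obtain ⟨u, v, rfl⟩ := hF z
    have h1 : (x : F) - ee a D = (u + v * a) ^ 2 := h
    have h2 : ((u ^ 2 - 2 * v ^ 2 - (x + 10 * D) : ℚ) : F) + ((2 * u * v + v ^ 2 - D : ℚ) : F) * a =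
        0 := by
      unfold ee at h1
      push_cast
      linear_combination -h1 - (v : F) ^ 2 * ha
    obtain ⟨h3, h4⟩ := ind ha h2
    exact halfQ (u := u) (v := v) hD hP (by linear_combination h3) (by linear_combination h4)

end

end Pool.Agent.R413.CK
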