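import Pool.Agent.R413.CK.Dq
import Pool.Agent.R413.SM.Law

/-!
The joint law of the coranks for the twists of `X_0(49)` by the numbers of the full class.
-/

set_option autoImplicit false

open Filter Topology

namespace Pool.Agent.R413.CK

open Finset
open Pool.Agent.R413.SQ
open Pool.Agent.R413.SQ.SM (Fa di)
open Pool.Agent.R413.SQ.Joint (tw ac_tw tw_pf adm_tw num num_true Ix)
open Pool.Agent.Y703.CQ (c2 nr)
open Pool.Agent.Y698.SG (n4 nq)
open Pool.Agent.Results.MP_4a9ea6_nt.TwoPartTwistsX49 (Adm mat inert split mat_eq)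

/-- the joint law for functions indexed by `Fin M` -/
theorem lawM {M : ℕ} (ρ : Fin M → ℕ) (I K : Finset ℕ)
    (F : Fin M → ℕ → ZMod 2) (V : Fin M → Finset ℕ) (W : Finset ℕ) (hO : Ok I K)
    (hW1 : ∀ u ∈ W, u.Prime ∧ u % 4 = 1) (hW2 : ∀ i, V i ⊆ W)
    (hpos : ∀ i j, i ≠ j → SM.Pos (SM.dd F V i j)) : Tendsto
    (fun X : ℕ => ((open Classical in ((SS I K X).filter (KdF ρ F V)).card : ℕ) : ℝ) /
      ((SS I K X).card : ℝ)) atTop (nhds (∏ i, mr (ρ i))) :=
  t_DQR Pool.Agent.R413.SQ.BIL.t_BIL Pool.Agent.Y356.CQ.t_EQ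
    Pool.Agent.R413.SQ.CNT.t_CNT Pool.Agent.Y488.CX.t_SIE Pool.Agent.R413.SQ.HAL.t_HAL
    SM.t_JBAD Pool.Agent.R413.SQ.FEW.t_FEW Pool.Agent.Y405.CQ.t_MER
    Pool.Agent.Y302.CQ.t_CHE Pool.Agent.R413.SQ.LOW.t_LOW ρ I K F V W hO hW1 hW2 hpos

open Classical in
/-- the joint law -/
theorem lawS {ι : Type} (I K : Finset ℕ) (hO : Ok I K) {F : ι → ℕ → ZMod 2} {V : ι → Finset ℕ}
    (h : Fa F V) (ρ : ι → ℕ) (P : Finset ι) : Tendsto
    (fun X : ℕ => (((SS I K X).filter fun S =>
      ∀ i ∈ P, Nat.card (Kd (F i) (symmDiff S (V i))) = 2 ^ ρ i).card : ℝ) /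
      ((SS I K X).card : ℝ)) atTop (nhds (∏ i ∈ P, mr (ρ i))) := by
  set e : Fin P.card ≃ P := P.equivFin.symm with he
  have h1 := lawM (fun k => ρ (e k)) I K (fun k => F (e k)) (fun k => V (e k)) (P.biUnion V) hO
    (fun u hu => by
      obtain ⟨i, -, hi⟩ := mem_biUnion.1 hu
      exact h.pr i u hi)
    (fun k => subset_biUnion_of_mem V (e k).2)
    (fun i j hij => h.sep _ _ fun h' => hij (e.injective (Subtype.ext h')))
  have h0 : ∏ i, mr (ρ (e i)) = ∏ i ∈ P, mr (ρ i) := by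
    rw [Equiv.prod_comp e fun k : P => mr (ρ k)]
    exact prod_coe_sort P fun k => mr (ρ k)
  rw [h0] at h1
  refine h1.congr fun X => ?_
  congr 2
  refine congrArg card (filter_congr fun S _ => ?_)
  unfold KdF
  constructor
  · intro h2 i hi
    have h3 := h2 (e.symm ⟨i, hi⟩)
    simp only [Equiv.apply_symm_apply] at h3
    exact h3
  · intro h2 k
    exact h2 _ (e k).2

section kernel

open Classical in
/-- the number of the elements of the kernel -/
theorem card_Kd (S : Finset ℕ) : Nat.card (Kd n4 S) =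
    2 ^ ((S.filter fun p => SQ.mk p = 1).card - (Pool.Agent.Y698.SG.mat
      (S.filter fun p => SQ.mk p ≠ 1) (S.filter fun p => SQ.mk p = 1)).rank) := by
  set Q := S.filter fun p => SQ.mk p ≠ 1 with hQ
  set P := S.filter fun p => SQ.mk p = 1 with hP
  have hdj : Disjoint Q P := by
    rw [Finset.disjoint_left]
    intro p h1 h2
    exact (Finset.mem_filter.1 h1).2 (Finset.mem_filter.1 h2).2
  have hPS : P ⊆ P := subset_rfl
  have key : ∀ x : P → ZMod 2, (∀ i : P, (n4 i + ∑ q ∈ Q, nq i q) * x i +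
      ∑ j : P, nq i j * (x i + x j) = 0) ↔
      x ∈ LinearMap.ker (Pool.Agent.Y698.SG.mat Q P).mulVecLin := by
    intro x
    have h := Pool.Agent.Y698.SG.matG_eqs (Q4 := ∅) hdj (Finset.empty_subset Q) (subset_rfl : P ⊆ P)
      (Finset.union_empty P).symm hPS x
    simp only [Finset.sdiff_empty] at h
    rw [Pool.Agent.R428.Q0.matG_mat] at h
    rw [LinearMap.mem_ker, ← h]
    constructor
    · intro h3
      funext i
      exact h3 i
    · intro h3 i
      exact congrFun h3 i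
  -- the equation
  have heq : ∀ (x : ℕ → ZMod 2) (p : ℕ), p ∈ P →
      (∑ q ∈ S, nr p q * (cu x q + x p) + n4 p * x p =
        (n4 p + ∑ q ∈ Q, nq p q) * x p + ∑ j : P, nq p j * (x p + x j)) := by
    intro x p hp
    rw [Finset.sum_coe_sort P (fun j => nq p j * (x p + x j))]
    have h1 : ∑ q ∈ S, nr p q * (cu x q + x p) =
        ∑ q ∈ Q, nr p q * (cu x q + x p) + ∑ q ∈ P, nr p q * (cu x q + x p) := by
      rw [hQ, hP, add_comm]
      exact (Finset.sum_filter_add_sum_filter_not S (fun q => SQ.mk q = 1) _).symm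
    have h2 : ∑ q ∈ Q, nr p q * (cu x q + x p) = (∑ q ∈ Q, nq p q) * x p := by
      rw [Finset.sum_mul]
      refine Finset.sum_congr rfl fun q hq => ?_
      have h3 : cu x q = 0 := if_neg (Finset.mem_filter.1 hq).2
      rw [h3, zero_add, Pool.Agent.R428.Q0.nr_nq]
    have h3 : ∑ q ∈ P, nr p q * (cu x q + x p) = ∑ q ∈ P, nq p q * (x p + x q) := by
      refine Finset.sum_congr rfl fun q hq => ?_
      have h3 : cu x q = x q := if_pos (Finset.mem_filter.1 hq).2
      rw [h3, Pool.Agent.R428.Q0.nr_nq, add_comm (x q)]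
    rw [h1, h2, h3]
    ring
  have h0 : Nat.card (LinearMap.ker (Pool.Agent.Y698.SG.mat Q P).mulVecLin) =
      2 ^ (P.card - (Pool.Agent.Y698.SG.mat Q P).rank) := by
    rw [Module.natCard_eq_pow_finrank (K := ZMod 2), Nat.card_zmod]
    congr 1
    have h1 := LinearMap.finrank_range_add_finrank_ker (Pool.Agent.Y698.SG.mat Q P).mulVecLin
    rw [Module.finrank_fintype_fun_eq_card, Fintype.card_coe] at h1
    have h2 : Module.finrank (ZMod 2) (LinearMap.range (Pool.Agent.Y698.SG.mat Q P).mulVecLin) =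
      (Pool.Agent.Y698.SG.mat Q P).rank := rfl
    omega
  rw [← h0]
  refine Nat.card_congr {
    toFun := fun x => ⟨fun i : P => x.1 i, (key _).1 fun i => ?_⟩
    invFun := fun x => ⟨fun i => if h : i ∈ P then x.1 ⟨i, h⟩ else 0, ?_, ?_⟩
    left_inv := ?_
    right_inv := ?_ }
  · have h2 := x.2.1 i (Finset.mem_filter.1 i.2).1 (Finset.mem_filter.1 i.2).2
    rw [heq x.1 i i.2] at h2
    exact h2
  · intro p hp h8
    have hpP : p ∈ P := Finset.mem_filter.2 ⟨hp, h8⟩
    rw [heq _ p hpP]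
    have h1 := (key x.1).2 x.2 ⟨p, hpP⟩
    have h2 : ∀ j : P, (if h : (j : ℕ) ∈ P then x.1 ⟨j, h⟩ else 0) = x.1 j := fun j =>
      dif_pos j.2
    simp only [h2, dif_pos hpP]
    exact h1
  · intro q hq
    exact dif_neg fun h => hq (Finset.mem_filter.1 h)
  · intro x
    refine Subtype.ext (funext fun i => ?_)
    show (if h : i ∈ P then x.1 i else 0) = x.1 i
    by_cases h : i ∈ P
    · rw [dif_pos h]
    · rw [dif_neg h, x.2.2 i fun h' => h (Finset.mem_filter.2 h')]
  · intro x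
    refine Subtype.ext (funext fun i => ?_)
    show (if h : (i : ℕ) ∈ P then x.1 ⟨i, h⟩ else 0) = x.1 i
    rw [dif_pos i.2]

end kernel

/-- the corank of the matrix of `D` -/
noncomputable def corank (D : ℕ) : ℕ := (split D).card - (mat D).rank

theorem card_corank {D : ℕ} (h : Adm D) : Nat.card (Kd n4 D.primeFactors) = 2 ^ corank D := by
  classical
  have key : ∀ p ∈ D.primeFactors, (IsSquare (-7 : ZMod p) ↔ SQ.mk p = 1) := fun p hp =>
    Cor.mk_iff (Nat.prime_of_mem_primeFactors hp) (h.2 p hp)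
  have e1 : inert D = D.primeFactors.filter fun p => SQ.mk p ≠ 1 := by
    unfold inert
    refine Finset.filter_congr fun p hp => ?_
    rw [key p hp]
  have e2 : split D = D.primeFactors.filter fun p => SQ.mk p = 1 := by
    unfold split
    refine Finset.filter_congr fun p hp => ?_
    rw [key p hp]
  unfold corank
  rw [← mat_eq, e1, e2, card_Kd]

theorem corank_zero {D : ℕ} : corank D = 0 ↔ (mat D).det ≠ 0 := by
  unfold corank
  have h1 : (mat D).rank ≤ (split D).card := by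
    have := Matrix.rank_le_card_width (mat D)
    rwa [Fintype.card_coe] at this
  constructor
  · intro h hd
    have h2 : (mat D).rank = (split D).card := by omega
    obtain ⟨x, hx0, hx⟩ := Matrix.exists_mulVec_eq_zero_iff.2 hd
    have h3 := LinearMap.finrank_range_add_finrank_ker (mat D).mulVecLin
    rw [Module.finrank_fintype_fun_eq_card, Fintype.card_coe] at h3
    have h4 : Module.finrank (ZMod 2) (LinearMap.range (mat D).mulVecLin) = (mat D).rank := rfl
    have h5 : Module.finrank (ZMod 2) (LinearMap.ker (mat D).mulVecLin) = 0 := by omega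
    rw [Submodule.finrank_eq_zero, LinearMap.ker_eq_bot'] at h5
    exact hx0 (h5 x hx)
  · intro hd
    have h2 : IsUnit (mat D) := (Matrix.isUnit_iff_isUnit_det _).2 (isUnit_iff_ne_zero.2 hd)
    have h3 := Matrix.rank_of_isUnit _ h2
    rw [Fintype.card_coe] at h3
    omega

/-- **the joint law of the coranks** -/
theorem law {T : Finset ℕ} (hT : ∀ M ∈ T, Adm M) (ρ : ℕ → ℕ) :
    Tendsto (fun X : ℕ => (num (fun D => ∀ M ∈ T, corank (tw M D) = ρ M) X : ℝ) /
      (num (fun _ => True) X : ℝ)) atTop (𝓝 (∏ M ∈ T, mr (ρ M))) := by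
  classical
  set P : Finset Ix := T.subtype Adm with hP
  have h := lawS ∅ ∅ trivial Joint.fa (fun i : Ix => ρ i.1) P
  have e0 : ∏ i ∈ P, mr (ρ i.1) = ∏ M ∈ T, mr (ρ M) := by
    rw [hP]
    exact Finset.prod_subtype_of_mem (fun M => mr (ρ M)) hT
  rw [e0] at h
  refine h.congr fun X => ?_
  have h1 := Pool.Agent.R413.SQ.NS.card_eq ∅ ∅ X (fun S =>
    ∀ i ∈ P, Nat.card (Kd n4 (symmDiff S i.1.primeFactors)) = 2 ^ ρ i.1)
  have h2 := Pool.Agent.R413.SQ.NS.card_eq ∅ ∅ X (fun _ => True)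
  rw [Finset.filter_true] at h2
  simp only [and_true] at h2
  rw [Joint.num_eq (Q := fun D => ∀ M ∈ T, corank (tw M D) = ρ M) (R := fun S =>
    ∀ i ∈ P, Nat.card (Kd n4 (symmDiff S i.1.primeFactors)) = 2 ^ ρ i.1) (fun D hD => ?_),
    num_true]
  · rw [← h2]
    congr 2
    convert h1.symm
  · constructor
    · intro h3 i hi
      rw [hP, Finset.mem_subtype] at hi
      have h4 := card_corank (adm_tw (hT i.1 hi) hD)
      rw [tw_pf (hT i.1 hi) hD, h3 i.1 hi] at h4
      exact h4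
    · intro h3 M hM
      have h4 := h3 ⟨M, hT M hM⟩ (by rw [hP, Finset.mem_subtype]; exact hM)
      have h5 := card_corank (adm_tw (hT M hM) hD)
      rw [tw_pf (hT M hM) hD] at h5
      exact Nat.pow_right_injective le_rfl (h5.symm.trans h4)

theorem mr_pos (r : ℕ) : 0 < mr r :=
  mul_pos (Pool.Agent.Y697.PQ.cf_pos r) (lt_of_lt_of_le (by norm_num) Pool.Agent.Y697.PQ.gi_ge)

theorem mr_eq (r : ℕ) : mr r = c2 / ∏ i ∈ range r, ((2 : ℝ) ^ (i + 1) - 1) := by
  unfold mr
  rw [Pool.Agent.Y697.CJ.gi_eq, mul_comm, div_eq_mul_inv]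
  congr 1
  induction r with
  | zero => simp [Pool.Agent.Y697.PQ.cf]
  | succ r ih =>
    rw [prod_range_succ, mul_inv, ← ih]
    rw [show Pool.Agent.Y697.PQ.cf (r + 1) = Pool.Agent.Y697.PQ.cf r / (2 ^ (r + 1) - 1) from rfl,
      div_eq_mul_inv]

end Pool.Agent.R413.CK
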