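import Pool.Agent.R413.CK.Nk
import Pool.Agent.R413.CK.Kp
import Pool.Agent.R413.CK.Lw
import Pool.Agent.Y700.VC
import Pool.Agent.H64R2.DC_MW
import Pool.Agent.R428.Q0.Fh

/-!
The rank of `E_D` over `ℚ` is at most twice the corank.
-/

set_option autoImplicit false
set_option linter.unusedSectionVars false

open WeierstrassCurve

namespace Pool.Agent.R413.CK

open Pool.Agent.Y698 Pool.Agent.Y698.SG Pool.Agent.R428.Q0
open Pool.Agent.Results.MP_4a9ea6_nt.TwoPartTwistsX49 (Adm mat inert split mat_eq inq spl union_eq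
  adm_mod E twist)

section algebra

/-- a homomorphism that kills the torsion -/
theorem exists_phi (A : Type) [AddCommGroup A] [Module.Finite ℤ A] :
    ∃ φ : A →+ (Fin (Module.finrank ℤ A) → ZMod 2), Function.Surjective φ ∧
      ∀ (x : A) (n : ℕ), 0 < n → n • x = 0 → φ x = 0 := by
  have hfree : Module.Free ℤ (A ⧸ Submodule.torsion ℤ A) := Module.free_iff_isTorsionFree.2
    inferInstance
  have hr : Module.finrank ℤ (A ⧸ Submodule.torsion ℤ A) = Module.finrank ℤ A :=
    finrank_quotient_eq_of_le_torsion le_rfl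
  let b := (Module.finBasis ℤ (A ⧸ Submodule.torsion ℤ A)).reindex (finCongr hr)
  let q : A →ₗ[ℤ] (Fin (Module.finrank ℤ A) → ℤ) :=
    b.equivFun.toLinearMap ∘ₗ (Submodule.torsion ℤ A).mkQ
  let c : (Fin (Module.finrank ℤ A) → ℤ) →+ (Fin (Module.finrank ℤ A) → ZMod 2) :=
    { toFun := fun v i => (v i : ZMod 2)
      map_zero' := by funext i; simp
      map_add' := fun v w => by funext i; simp }
  refine ⟨c.comp q.toAddMonoidHom, ?_, fun x n hn hx => ?_⟩
  · have h1 : Function.Surjective c := by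
      intro v
      choose w hw using fun i => ZMod.intCast_surjective (v i)
      exact ⟨w, funext hw⟩
    have h2 : Function.Surjective q :=
      b.equivFun.surjective.comp (Submodule.mkQ_surjective _)
    exact h1.comp h2
  · have h1 : (Submodule.torsion ℤ A).mkQ x = 0 := by
      rw [Submodule.mkQ_apply, Submodule.Quotient.mk_eq_zero]
      refine ⟨⟨(n : ℤ), mem_nonZeroDivisors_of_ne_zero (by exact_mod_cast hn.ne')⟩, ?_⟩
      change (n : ℤ) • x = 0
      rw [natCast_zsmul]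
      exact hx
    have h2 : q x = 0 := by
      change b.equivFun ((Submodule.torsion ℤ A).mkQ x) = 0
      rw [h1, map_zero]
    change c (q x) = 0
    rw [h2, map_zero]

/-- the rank is bounded by the number of the classes -/
theorem rank_le {A : Type} [AddCommGroup A] [Module.Finite ℤ A] {C : Type} [Finite C] (τ : A → C)
    (T : A) (hT : T + T = 0) (h : ∀ P Q : A, τ P = τ Q → (∃ R, R + R = P + Q) ∨
      ∃ R, R + R = P + Q + T) : 2 ^ Module.finrank ℤ A ≤ Nat.card C := by
  obtain ⟨φ, hφ, h0⟩ := exists_phi A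
  have hT0 : φ T = 0 := h0 T 2 two_pos (by rw [two_nsmul]; exact hT)
  have h2 : ∀ v : Fin (Module.finrank ℤ A) → ZMod 2, v + v = 0 := fun v => by
    funext i
    exact CharTwo.add_self_eq_zero _
  have key : ∀ P Q : A, τ P = τ Q → φ P = φ Q := by
    intro P Q hPQ
    have h3 : φ P + φ Q = 0 := by
      rcases h P Q hPQ with ⟨R, hR⟩ | ⟨R, hR⟩
      · rw [← map_add, ← hR, map_add, h2]
      · have h4 := congrArg φ hR
        rw [map_add, h2, map_add, hT0, add_zero, map_add] at h4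
        exact h4.symm
    have h4 : φ P + φ Q + φ Q = φ Q := by rw [h3, zero_add]
    rw [add_assoc, h2, add_zero] at h4
    exact h4
  choose s hs using hφ
  have hinj : Function.Injective fun v : Fin (Module.finrank ℤ A) → ZMod 2 => τ (s v) := by
    intro v w hvw
    rw [← hs v, ← hs w]
    exact key _ _ hvw
  have h5 := Nat.card_le_card_of_injective _ hinj
  rw [Nat.card_eq_fintype_card, Fintype.card_fun, ZMod.card, Fintype.card_fin] at h5
  exact h5

end algebra

section curve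

theorem wd_delta {D : ℚ} (hD : D ≠ 0) : (WD D).Δ ≠ 0 := by
  have h : (WD D).Δ = 16 * (112 * D ^ 2) ^ 2 * ((21 * D) ^ 2 - 4 * (112 * D ^ 2)) := by
    simp only [WeierstrassCurve.Δ, WeierstrassCurve.b₂, WeierstrassCurve.b₄, WeierstrassCurve.b₆,
      WeierstrassCurve.b₈, WD]
    ring
  rw [h]
  have h1 : (21 * D) ^ 2 - 4 * (112 * D ^ 2) = -7 * D ^ 2 := by ring
  rw [h1]
  have : D ^ 2 ≠ 0 := pow_ne_zero 2 hD
  positivity

/-- the group of points is finitely generated -/
theorem wd_fg {D : ℕ} (hD : D ≠ 0) : Module.Finite ℤ (WD (D : ℚ)).toAffine.Point := by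
  have hDQ : (D : ℚ) ≠ 0 := by exact_mod_cast hD
  have h1 := Pool.Agent.H64R2.DCMW.mw (-35 * (D : ℤ) ^ 2) (-98 * (D : ℤ) ^ 3) (by
    have : (D : ℤ) ^ 6 ≠ 0 := pow_ne_zero 6 (by exact_mod_cast hD)
    intro h
    apply this
    have h2 : 4 * (-35 * (D : ℤ) ^ 2) ^ 3 + 27 * (-98 * (D : ℤ) ^ 3) ^ 2 = 87808 * (D : ℤ) ^ 6 := by
      ring
    omega)
  have hv : Pool.Agent.Y700.VR (Pool.Agent.H925R3.DC.crv ℚ ((-35 * (D : ℤ) ^ 2 : ℤ) : ℚ)
      ((-98 * (D : ℤ) ^ 3 : ℤ) : ℚ)) (WD (D : ℚ)) 1 (7 * (D : ℚ)) 0 0 := by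
    refine ⟨one_ne_zero, ?_, ?_, ?_, ?_, ?_⟩ <;>
      simp only [Pool.Agent.H925R3.DC.crv, WD] <;> push_cast <;> ring
  rw [← Module.Finite.iff_addGroup_fg] at h1
  have e := hv.equiv (wd_delta hDQ)
  exact Module.Finite.of_injective (e.toAddMonoidHom.toIntLinearMap) e.injective

/-- the isomorphism -/
theorem wd_iso {D : ℕ} (hD : D ≠ 0) (h4 : D % 4 = 1) :
    Nonempty ((E D).toAffine.Point ≃+ (WD (D : ℚ)).toAffine.Point) := by
  have hDQ : (D : ℚ) ≠ 0 := by exact_mod_cast hD
  have hm : (((3 * (D : ℤ) + 1) / 4 : ℤ) : ℚ) = (3 * (D : ℚ) + 1) / 4 := by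
    have h1 : (4 : ℤ) ∣ 3 * D + 1 := by omega
    rw [Int.cast_div h1 (by norm_num)]
    push_cast
    rfl
  have e1 : (E D).a₁ = 1 := by simp [E, twist]
  have e2 : (E D).a₂ = -((3 * (D : ℚ) + 1) / 4) := by
    rw [← hm]
    simp [E, twist]
  have e3 : (E D).a₃ = 0 := by simp [E, twist]
  have e4 : (E D).a₄ = -2 * (D : ℚ) ^ 2 := by simp [E, twist]
  have e6 : (E D).a₆ = -(D : ℚ) ^ 3 := by simp [E, twist]
  have hv : Pool.Agent.Y700.VR (WD (D : ℚ)) (E D) 2 (-8 * (D : ℚ)) 1 0 := by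
    refine ⟨two_ne_zero, ?_, ?_, ?_, ?_, ?_⟩
    · rw [e1]
      simp only [WD]
      ring
    · rw [e2]
      simp only [WD]
      ring
    · rw [e3]
      simp only [WD]
      ring
    · rw [e4]
      simp only [WD]
      ring
    · rw [e6]
      simp only [WD]
      ring
  have hΔ : (E D).Δ ≠ 0 := by
    have h : (E D).Δ * 2 ^ 12 = 16 * (112 * (D : ℚ) ^ 2) ^ 2 * (-7 * (D : ℚ) ^ 2) := by
      simp only [WeierstrassCurve.Δ, WeierstrassCurve.b₂, WeierstrassCurve.b₄, WeierstrassCurve.b₆,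
        WeierstrassCurve.b₈, e1, e2, e3, e4, e6]
      ring
    intro h0
    rw [h0, zero_mul] at h
    have : (D : ℚ) ^ 2 ≠ 0 := pow_ne_zero 2 hDQ
    have h2 : 16 * (112 * (D : ℚ) ^ 2) ^ 2 * (-7 * (D : ℚ) ^ 2) ≠ 0 := by positivity
    exact h2 h.symm
  exact ⟨hv.equiv hΔ⟩

end curve

section main
variable {F : Type} [Field F] [NumberField F] {a : F} {ha : a ^ 2 = a - 2}
  {V : Set (Valuation F (WithZero (Multiplicative ℤ)))} {S : Finset ℕ}
  {I : Finset (ℕ × Bool)} {π : ℕ × Bool → RR}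

/-- the point of order two -/
def T0 {D : ℚ} (hD : D ≠ 0) : (WD D).toAffine.Point := .some 0 0 (wd_nonsing hD (by ring))

theorem T0_two {D : ℚ} (hD : D ≠ 0) : T0 hD + T0 hD = 0 := by
  apply Affine.Point.add_of_Y_eq rfl
  simp [Affine.negY, WD]

theorem eB_eq (ha : a ^ 2 = a - 2) (D : ℚ) : (D : F) * eB a = ee a D := by
  unfold eB ee
  linear_combination (-(D : F) * (2 * a ^ 3 + a ^ 2 - 3 * a - 5)) * ha

theorem kap_T0 (ha : a ^ 2 = a - 2) {D : ℚ} (hD : D ≠ 0) :
    kap a D (T0 hD) = (D : F) * (2 * a - 1) * (a ^ 2) ^ 2 := by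
  change ((0 : ℚ) : F) - ee a D = _
  rw [← eB_eq ha]
  unfold eB
  push_cast
  ring

/-- the classes of the points -/
theorem cls (hC : C1 a ha V S I π) {D : ℕ} (hD : D ≠ 0) (hDS : DD F S = (D : F))
    (P : (WD (D : ℚ)).toAffine.Point) :
    ∃ (T : Finset (ℕ × Bool)) (e : Bool), KT I π T ∧ Cx a ha S π T e (kap a D P) := by
  have hDQ : (D : ℚ) ≠ 0 := by exact_mod_cast hD
  have hKT : KT I π ∅ := ⟨Finset.empty_subset _, fun i _ => Finset.sum_empty,
    fun i hi => absurd hi (Finset.notMem_empty i)⟩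
  rcases P with _ | ⟨x, y, h⟩
  · refine ⟨∅, false, hKT, ?_⟩
    exact ⟨1, one_ne_zero, by simp [kap]⟩
  · by_cases hy : y = 0
    · have he := wd_eqn.1 h.1
      have hx : x = 0 := by
        rw [hy] at he
        have h3 : x * (x ^ 2 + 21 * (D : ℚ) * x + 112 * (D : ℚ) ^ 2) = 0 := by
          linear_combination -he
        exact (mul_eq_zero.1 h3).resolve_right (quad_pos hDQ).ne'
      refine ⟨∅, true, hKT, ?_⟩
      have ha0 : a ≠ 0 := by
        rintro rfl
        norm_num at ha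
      refine ⟨a ^ 2, pow_ne_zero 2 ha0, ?_⟩
      have h1 : kap a (D : ℚ) (Affine.Point.some x y h) = (x : F) - ee a D := rfl
      have h2 := eB_eq ha (D : ℚ)
      rw [h1, hx, ← h2, hDS]
      unfold eB
      simp only [if_true, Finset.prod_empty, mul_one]
      push_cast
      ring
    · have he := wd_eqn.1 h.1
      have heF : (y : F) ^ 2 = (x : F) ^ 3 + 21 * (D : F) * (x : F) ^ 2 +
          112 * (D : F) ^ 2 * x := by
        exact_mod_cast he
      have hyF : (y : F) ≠ 0 := by exact_mod_cast hy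
      have hm := eA_mul ha
      have hadd := eA_add ha
      have h1 := hC.main (hC.pt_PDD (x := (x : F)) hyF (by
        rw [hDS, heF]
        linear_combination (D : F) * (x : F) ^ 2 * hadd - (D : F) ^ 2 * (x : F) * hm))
      rw [hDS] at h1
      have h2 : kap a (D : ℚ) (Affine.Point.some x y h) = (x : F) - (D : F) * eB a := by
        have h3 := eB_eq ha (D : ℚ)
        have h4 : kap a (D : ℚ) (Affine.Point.some x y h) = (x : F) - ee a D := rfl
        rw [h4, ← h3]
        push_cast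
        rfl
      rw [h2]
      exact h1

/-- two points of the same class -/
theorem same (ha' : a ^ 2 = a - 2) (hF : ∀ x : F, ∃ u v : ℚ, x = u + v * a) {D : ℕ} (hD : D ≠ 0)
    (hDS : DD F S = (D : F)) (hne : ∀ i ∈ I, ev a ha' (π i) ≠ 0)
    (P Q : (WD (D : ℚ)).toAffine.Point) {T : Finset (ℕ × Bool)} (hT : T ⊆ I) {e e' : Bool}
    (h1 : Cx a ha' S π T e (kap a D P)) (h2 : Cx a ha' S π T e' (kap a D Q)) :
    (∃ R, R + R = P + Q) ∨
      ∃ R, R + R = P + Q + T0 (D := (D : ℚ)) (by exact_mod_cast hD) := by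
  have hDQ : (D : ℚ) ≠ 0 := by exact_mod_cast hD
  have hDF : (D : F) ≠ 0 := by exact_mod_cast hD
  have hP0 : ∏ i ∈ T, ev a ha' (π i) ≠ 0 := Finset.prod_ne_zero_iff.2 fun i hi => hne i (hT hi)
  have hs0 := s_ne ha'
  have hadd := kap_add ha' hDQ P Q
  have hk : ∀ R : (WD (D : ℚ)).toAffine.Point, kap a D R ≠ 0 := kap_ne ha' hDQ
  obtain ⟨z, hz, e1⟩ := h1
  obtain ⟨w, hw, e2⟩ := h2
  by_cases hee : e = e'
  · left
    refine kap_ker ha' hF hDQ _ (Sqr.of_mul hadd ?_)
    subst hee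
    refine ⟨(if e then DD F S * (2 * a - 1) else 1) * (∏ i ∈ T, ev a ha' (π i)) * (z * w), ?_, ?_⟩
    · refine mul_ne_zero (mul_ne_zero ?_ hP0) (mul_ne_zero hz hw)
      cases e
      · simp
      · simp only [if_true]
        rw [hDS]
        exact mul_ne_zero hDF hs0
    · rw [e1, e2]
      ring
  · right
    have ha0 : a ≠ 0 := by
      rintro rfl
      norm_num at ha'
    have h3 := kap_add ha' hDQ (P + Q) (T0 hDQ)
    have h4 : Sqr (kap a D P * kap a D Q * kap a D (T0 hDQ)) := by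
      refine ⟨(D : F) * (2 * a - 1) * a ^ 2 * (∏ i ∈ T, ev a ha' (π i)) * (z * w), ?_, ?_⟩
      · exact mul_ne_zero (mul_ne_zero (mul_ne_zero (mul_ne_zero hDF hs0) (pow_ne_zero 2 ha0)) hP0)
          (mul_ne_zero hz hw)
      · have h5 := kap_T0 (a := a) ha' hDQ
        rw [h5, e1, e2, hDS]
        cases e <;> cases e'
        · exact absurd rfl hee
        · simp only [Bool.false_eq_true, if_false, if_true]
          push_cast
          ring
        · simp only [Bool.false_eq_true, if_false, if_true]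
          push_cast
          ring
        · exact absurd rfl hee
    refine kap_ker ha' hF hDQ _ ?_
    have h5 : Sqr (kap a (D : ℚ) (P + Q + T0 hDQ) * (kap a D (P + Q) * kap a D (P + Q) *
        (kap a D P * kap a D Q * kap a D (T0 hDQ)))) := by
      have h6 := h3.mul hadd
      have e : kap a (D : ℚ) (P + Q + T0 hDQ) * (kap a D (P + Q) * kap a D (T0 hDQ)) *
          (kap a D (P + Q) * (kap a D P * kap a D Q)) =
          kap a (D : ℚ) (P + Q + T0 hDQ) * (kap a D (P + Q) * kap a D (P + Q) *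
        (kap a D P * kap a D Q * kap a D (T0 hDQ))) := by ring
      rwa [e] at h6
    exact h5.of_mul ((Sqr.sq (hk _)).mul h4)

end main

/-- **the rank is at most twice the corank** -/
theorem rank_corank {D : ℕ} (h : Adm D) :
    Module.Finite ℤ (E D).toAffine.Point ∧
      Module.finrank ℤ (E D).toAffine.Point ≤ 2 * corank D := by
  classical
  have hD0 : D ≠ 0 := h.1.ne_zero
  have h4 := adm_mod h
  obtain ⟨iso⟩ := wd_iso hD0 h4
  have hfg := wd_fg hD0
  have hfgE : Module.Finite ℤ (E D).toAffine.Point :=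
    Module.Finite.of_injective iso.toAddMonoidHom.toIntLinearMap iso.injective
  refine ⟨hfgE, ?_⟩
  have hrk : Module.finrank ℤ (E D).toAffine.Point =
      Module.finrank ℤ (WD (D : ℚ)).toAffine.Point :=
    LinearEquiv.finrank_eq iso.toIntLinearEquiv
  rw [hrk]
  -- the field
  have hM : IsCyclotomicExtension {7} ℚ (CyclotomicField 7 ℚ) := cyc_inst 7
  obtain ⟨b, hb⟩ := exists_b7
  have hK : ∀ k : ℚ, k ^ 2 ≠ k - 2 := by
    intro u h1
    nlinarith [sq_nonneg (2 * u - 1)]
  set F := Fx ℚ b hb hK with hFd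
  have hNF : NumberField F := inferInstance
  have hbF : b ∈ F := ⟨0, 1, by simp⟩
  have ha : (⟨b, hbF⟩ : F) ^ 2 = ⟨b, hbF⟩ - 2 := by
    apply Subtype.ext
    push_cast
    exact hb
  have hFQ : ∀ x : F, ∃ u v : ℚ, x = u + v * ⟨b, hbF⟩ := by
    rintro ⟨x, k₁, k₂, hx⟩
    refine ⟨k₁, k₂, ?_⟩
    apply Subtype.ext
    push_cast
    rw [← eq_ratCast (algebraMap ℚ (CyclotomicField 7 ℚ)) k₁,
      ← eq_ratCast (algebraMap ℚ (CyclotomicField 7 ℚ)) k₂]
    exact hx
  set Q := inert D with hQd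
  set P := split D with hPd
  have hQ := inq h
  have hP := spl h
  obtain ⟨ϖ, hc⟩ := exists_cho inp.pi hP
  have hC := c1_of (M := CyclotomicField 7 ℚ) inp hQ hP hc ha hFQ
  have hsym := sym_dr inp.pd1 inp.pd2 hQ hP hc
  obtain ⟨hfin, hcard⟩ := card_KT hsym
  rw [xm_dr inp.pd1 inp.rc hQ hP hc] at hcard
  have hDS : DD F (Q ∪ P) = ((D : ℕ) : F) := by
    rw [DD_cast]
    congr 1
    rw [hQd, hPd, union_eq, Nat.prod_primeFactors_of_squarefree h.1]
  choose τ e h1 h2 using cls (F := F) hC hD0 hDS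
  have hfr : Module.finrank (ZMod 2) (LinearMap.ker (Pool.Agent.Y698.SG.mat Q P).mulVecLin) =
      corank D := by
    rw [hQd, hPd, mat_eq]
    unfold corank
    have h3 := LinearMap.finrank_range_add_finrank_ker (mat D).mulVecLin
    rw [Module.finrank_fintype_fun_eq_card, Fintype.card_coe] at h3
    have h4 : Module.finrank (ZMod 2) (LinearMap.range (mat D).mulVecLin) = (mat D).rank := rfl
    omega
  rw [hfr] at hcard
  have key := rank_le (A := (WD (D : ℚ)).toAffine.Point)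
    (C := {T : Finset (ℕ × Bool) // KT (ix Q P) (pf Q ϖ) T}) (fun R => ⟨τ R, h1 R⟩)
    (T0 (by exact_mod_cast hD0)) (T0_two _) fun R R' hRR => by
      have h3 : τ R = τ R' := congrArg Subtype.val hRR
      have h4 := h2 R'
      rw [← h3] at h4
      exact same (F := F) (I := ix Q P) ha hFQ hD0 hDS (fun i hi => ev_ne ha (hC.pr i hi).ne_zero)
        R R' (h1 R).1 (h2 R) h4
  have h5 : 2 ^ Module.finrank ℤ (WD (D : ℚ)).toAffine.Point ≤ 2 ^ (2 * corank D) := by
    refine (key.trans hcard).trans (le_of_eq ?_)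
    rw [pow_mul]
    norm_num
  exact (Nat.pow_le_pow_iff_right (by norm_num)).1 h5

end Pool.Agent.R413.CK
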