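import Pool.Agent.R413.CK.Ln
import Pool.Agent.R413.CK.Rk

/-!
Bounds of the ranks of many twists.
-/

set_option autoImplicit false

open Filter Topology Finset

namespace Pool.Agent.R413.CK

open Pool.Agent.R413.SQ.Joint (tw adm_tw num num_true)
open Pool.Agent.Results.MP_4a9ea6_nt.TwoPartTwistsX49 (Adm)
open Pool.Agent.R413.MQ.Bin (cnt cnt_mono cnt_union cnt_card cnt_congr)

/-- the proportion of the numbers such that all coranks are at most `r` -/
theorem law_le {T : Finset ℕ} (hT : ∀ M ∈ T, Adm M) (r : ℕ) :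
    Tendsto (fun X : ℕ => (num (fun D => ∀ M ∈ T, corank (tw M D) ≤ r) X : ℝ) /
      (num (fun _ => True) X : ℝ)) atTop (𝓝 ((∑ i ∈ range (r + 1), mr i) ^ T.card)) := by
  classical
  set Bx : Finset (T → ℕ) := Fintype.piFinset fun _ => range (r + 1) with hBx
  have hmass : ∑ ρ ∈ Bx, ∏ M, mr (ρ M) = (∑ i ∈ range (r + 1), mr i) ^ T.card := by
    rw [hBx, ← Finset.prod_univ_sum, prod_const, card_univ, Fintype.card_coe]
  have hlim : Tendsto (fun X : ℕ => (∑ ρ ∈ Bx, (num (fun D => ∀ M ∈ T,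
      corank (tw M D) = xt T ρ M) X : ℝ)) / (num (fun _ => True) X : ℝ)) atTop
      (𝓝 (∑ ρ ∈ Bx, ∏ M, mr (ρ M))) := by
    simp only [sum_div]
    refine tendsto_finsetSum _ fun ρ _ => ?_
    have h1 := law hT (xt T ρ)
    have h2 : ∏ M ∈ T, mr (xt T ρ M) = ∏ M, mr (ρ M) := by
      rw [← prod_coe_sort T (fun M => mr (xt T ρ M))]
      exact prod_congr rfl fun M _ => by rw [xt_coe]
    rwa [h2] at h1
  rw [hmass] at hlim
  refine hlim.congr fun X => ?_
  congr 1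
  rw [← Nat.cast_sum, Nat.cast_inj]
  have h3 : ∀ ρ : T → ℕ, ∃ t : Finset ℕ, (∀ D, D ∈ t ↔ D ∈ Icc 1 X ∧ Adm D ∧
      ∀ M ∈ T, corank (tw M D) = xt T ρ M) := fun ρ =>
    ⟨(Icc 1 X).filter fun D => Adm D ∧ ∀ M ∈ T, corank (tw M D) = xt T ρ M,
      fun D => by rw [mem_filter]⟩
  choose t ht using h3
  have h4 : ∀ ρ ∈ Bx, num (fun D => ∀ M ∈ T, corank (tw M D) = xt T ρ M) X = (t ρ).card :=
    fun ρ _ => by rw [num_cnt, cnt_card (ht ρ)]
  rw [sum_congr rfl h4, ← card_biUnion]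
  · rw [num_cnt]
    refine (cnt_card fun D => ?_).symm
    rw [mem_biUnion]
    constructor
    · rintro ⟨ρ, hρ, hD⟩
      obtain ⟨h5, h6, h7⟩ := (ht ρ D).1 hD
      refine ⟨h5, h6, fun M hM => ?_⟩
      rw [h7 M hM]
      have h8 : xt T ρ M = ρ ⟨M, hM⟩ := xt_coe ρ ⟨M, hM⟩
      rw [h8]
      rw [hBx, Fintype.mem_piFinset] at hρ
      have := hρ ⟨M, hM⟩
      rw [mem_range] at this
      omega
    · rintro ⟨h5, h6, h7⟩
      refine ⟨fun M => corank (tw M D), ?_, ?_⟩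
      · rw [hBx, Fintype.mem_piFinset]
        intro M
        rw [mem_range]
        have := h7 M M.2
        omega
      · rw [ht]
        refine ⟨h5, h6, fun M hM => ?_⟩
        exact (xt_coe (fun M : T => corank (tw M D)) ⟨M, hM⟩).symm
  · intro ρ _ ρ' _ hne
    rw [Function.onFun, Finset.disjoint_left]
    intro D hD hD'
    apply hne
    funext M
    have h5 := ((ht ρ D).1 hD).2.2 M M.2
    have h6 := ((ht ρ' D).1 hD').2.2 M M.2
    rw [xt_coe] at h5 h6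
    rw [← h5, h6]

theorem num_mono {Q R : ℕ → Prop} (h : ∀ D, Adm D → Q D → R D) (X : ℕ) : num Q X ≤ num R X := by
  rw [num_cnt, num_cnt]
  exact cnt_mono h X

/-- sums of the law -/
theorem mr_sums : mr 0 = Pool.Agent.Y703.CQ.c2 ∧ mr 1 = Pool.Agent.Y703.CQ.c2 ∧
    mr 2 = Pool.Agent.Y703.CQ.c2 / 3 ∧ mr 3 = Pool.Agent.Y703.CQ.c2 / 21 := by
  refine ⟨?_, ?_, ?_, ?_⟩ <;> rw [mr_pr] <;> simp only [pr, prod_range_succ, prod_range_zero] <;>
    norm_num

end Pool.Agent.R413.CK
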