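import Pool.Agent.R413.CK.La
import Pool.Agent.R413.SM.S1

/-!
Joint count in a box for the numbers of the solutions (after `Pool.Agent.R413.SM.S1`).
-/

set_option autoImplicit false

open scoped Classical

namespace Pool.Agent.R413.CK

open Finset
open Pool.Agent.R413.SQ
open Pool.Agent.Y703.CQ (nr sg prs HB S_EQ ext GdA S_SYM S_C2 S_LA c2 S_MER S_CHE)
open Pool.Agent.R413.SQ.BOX (Lb lb LN nr_self nr_symm nd_iff sum_un ext_sum HB_sub)
open Pool.Agent.Y697.JQ (pt mem_pt sum_pt add_pt sd_sd sd_union sd_sub)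
open Pool.Agent.R494.SQ (exA exB exC gdM_sum)
open Pool.Agent.R413.SQ.SM (ue mem_ue NdF LbF lbF LJF ndF_iff)

/-- the kernel of the matrix of the set `S` -/
def Kd (f : ℕ → ZMod 2) (S : Finset ℕ) : Set (ℕ → ZMod 2) :=
  {x | Sol f S x ∧ ∀ q, ¬ (q ∈ S ∧ mk q = 1) → x q = 0}

/-- the dimensions of the kernels are given -/
def KdF {M : ℕ} (ρ : Fin M → ℕ) (F : Fin M → ℕ → ZMod 2) (V : Fin M → Finset ℕ)
    (S : Finset ℕ) : Prop := ∀ i, Nat.card (Kd (F i) (symmDiff S (V i))) = 2 ^ ρ i

section one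
variable {ι : Type} [Fintype ι] [LinearOrder ι] {J1 : Finset ι} {S₁ T : Finset ℕ} {p : ι → ℕ}
  (f : ℕ → ZMod 2)

theorem cu_eq {x : ℕ → ZMod 2} {S : Finset ℕ} (h : ∀ q, ¬ (q ∈ S ∧ mk q = 1) → x q = 0) :
    cu x = x := by
  funext q
  unfold cu
  split_ifs with h1
  · rfl
  · exact (h q fun h2 => h1 h2.2).symm

theorem kM_card (hT : T ⊆ S₁) (hp : Function.Injective p)
    (hpr : ∀ i, ((p i).Prime ∧ p i % 4 = 1) ∧ p i ≠ 2)
    (hd : ∀ i, p i ∉ S₁) (hJ : ∀ i, mk (p i) = 1 ↔ i ∈ J1) :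
    Nat.card (Kd f (T ∪ univ.image p)) = Nat.card (KM (pt S₁ T) (ue S₁) J1
      (fun u v : S₁ => nr u v) (fun (u : S₁) l => nr u (p l)) (fun k (u : S₁) => nr (p k) u)
      (Pool.Agent.Y703.CQ.ext fun e : prs J1 => nr (p e.1.1) (p e.1.2))
      (fun u : S₁ => f u) (fun k => f (p k))) := by
  have hdT : ∀ i, p i ∉ T := fun i hi => hd i (hT hi)
  have hsol : ∀ x : ℕ → ZMod 2, Sol f (T ∪ univ.image p) x ↔
      (∀ u : S₁, (u : ℕ) ∈ T → mk (u : ℕ) = 1 →
        ∑ v ∈ pt S₁ T, nr u v * (cu x v + x u) +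
        ∑ l, nr u (p l) * (cu x (p l) + x u) + f u * x u = 0) ∧
      (∀ k ∈ J1, ∑ u ∈ pt S₁ T, nr (p k) u * (cu x u + x (p k)) +
        ∑ l, Pool.Agent.Y703.CQ.ext (fun e : prs J1 => nr (p e.1.1) (p e.1.2)) k l *
          (cu x (p l) + x (p k)) + f (p k) * x (p k) = 0) := by
    intro x
    have hs : ∀ h : ℕ → ZMod 2, ∑ x ∈ T ∪ univ.image p, h x =
        ∑ u ∈ pt S₁ T, h u + ∑ l, h (p l) := by
      intro h
      rw [sum_un hp hdT, Finset.sum_coe_sort T (fun x => h x), sum_pt hT]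
    unfold Sol
    constructor
    · intro h
      refine ⟨fun u huT hu => ?_, fun k hk => ?_⟩
      · have := h u (Finset.mem_union_left _ huT) hu
        rw [hs] at this
        exact this
      · have := h (p k) (Finset.mem_union_right _ (Finset.mem_image_of_mem _ (Finset.mem_univ _)))
          ((hJ k).2 hk)
        rw [hs] at this
        rw [ext_sum hpr hJ k hk (fun l => cu x (p l))]
        exact this
    · rintro ⟨h1, h2⟩ y hy hy1
      rw [hs]
      rw [Finset.mem_union, Finset.mem_image] at hy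
      rcases hy with hy | ⟨k, -, rfl⟩
      · exact h1 ⟨y, hT hy⟩ hy hy1
      · have hk := (hJ k).1 hy1
        have := h2 k hk
        rw [ext_sum hpr hJ k hk (fun l => cu x (p l))] at this
        exact this
  have hmem : ∀ x : ℕ → ZMod 2, x ∈ Kd f (T ∪ univ.image p) →
      ((fun u : S₁ => x u, fun l => x (p l)) : (S₁ → ZMod 2) × (ι → ZMod 2)) ∈
      KM (pt S₁ T) (ue S₁) J1
      (fun u v : S₁ => nr u v) (fun (u : S₁) l => nr u (p l)) (fun k (u : S₁) => nr (p k) u)
      (Pool.Agent.Y703.CQ.ext fun e : prs J1 => nr (p e.1.1) (p e.1.2))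
      (fun u : S₁ => f u) (fun k => f (p k)) := by
    rintro x ⟨hx1, hx2⟩
    have hcu := cu_eq hx2
    rw [hsol, hcu] at hx1
    refine ⟨fun u hu => hx2 _ fun h => hu ((mem_ue u).2 h.2), fun u hu => hx2 _ fun h => ?_,
      fun k hk => hx2 _ fun h => hk ((hJ k).1 h.2), fun u hu hum => ?_, hx1.2⟩
    · rcases Finset.mem_union.1 h.1 with h1 | h1
      · exact hu ((mem_pt u).2 h1)
      · obtain ⟨k, -, hk⟩ := Finset.mem_image.1 h1
        exact hd k (hk ▸ u.2)
    · exact hx1.1 u ((mem_pt u).1 hum) ((mem_ue u).1 hu)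
  refine Nat.card_congr (Equiv.ofBijective (fun x : Kd f (T ∪ univ.image p) =>
    (⟨((fun u : S₁ => x.1 u, fun l => x.1 (p l)) : (S₁ → ZMod 2) × (ι → ZMod 2)), hmem x.1 x.2⟩ :
      KM (pt S₁ T) (ue S₁) J1
      (fun u v : S₁ => nr u v) (fun (u : S₁) l => nr u (p l)) (fun k (u : S₁) => nr (p k) u)
      (Pool.Agent.Y703.CQ.ext fun e : prs J1 => nr (p e.1.1) (p e.1.2))
      (fun u : S₁ => f u) (fun k => f (p k)))) ⟨?_, ?_⟩)
  · rintro ⟨x, hx⟩ ⟨y, hy⟩ h
    have h1 := congrArg (fun z => z.1) h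
    have h2 := congrArg Prod.fst h1
    have h3 := congrArg Prod.snd h1
    refine Subtype.ext (funext fun q => ?_)
    by_cases hq : q ∈ T ∪ univ.image p
    · rcases Finset.mem_union.1 hq with h4 | h4
      · exact congrFun h2 ⟨q, hT h4⟩
      · obtain ⟨k, -, rfl⟩ := Finset.mem_image.1 h4
        exact congrFun h3 k
    · show x q = y q
      rw [hx.2 q fun h => hq h.1, hy.2 q fun h => hq h.1]
  · rintro ⟨⟨c, d⟩, hc0, hcm, hd0, h1, h2⟩
    simp only at hc0 hcm hd0 h1 h2
    set c' : ℕ → ZMod 2 := fun n => if h : n ∈ S₁ then c ⟨n, h⟩ else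
      if h : ∃ l, p l = n then d h.choose else 0 with hc'
    have e1 : ∀ u : S₁, c' u = c u := by
      intro u
      simp only [hc']
      rw [dif_pos u.2]
    have e2 : ∀ l, c' (p l) = d l := by
      intro l
      have hex : ∃ l', p l' = p l := ⟨l, rfl⟩
      simp only [hc']
      rw [dif_neg (hd l), dif_pos hex]
      exact congrArg d (hp hex.choose_spec)
    have e5 : ∀ q, ¬ (q ∈ T ∪ univ.image p ∧ mk q = 1) → c' q = 0 := by
      intro q hq
      by_cases hqS : q ∈ S₁
      · rw [show c' q = c ⟨q, hqS⟩ from e1 ⟨q, hqS⟩]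
        by_cases h8 : mk q = 1
        · refine hcm _ fun h9 => hq ⟨?_, h8⟩
          exact Finset.mem_union_left _ ((mem_pt _).1 h9)
        · exact hc0 _ fun h9 => h8 ((mem_ue _).1 h9)
      · by_cases hql : ∃ l, p l = q
        · obtain ⟨l, rfl⟩ := hql
          rw [e2]
          refine hd0 l fun hl => hq ⟨?_, (hJ l).2 hl⟩
          exact Finset.mem_union_right _ (Finset.mem_image_of_mem _ (Finset.mem_univ _))
        · simp only [hc']
          rw [dif_neg hqS, dif_neg hql]
    have hcu := cu_eq e5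
    have hs : Sol f (T ∪ univ.image p) c' := by
      rw [hsol, hcu]
      refine ⟨fun u huT hu => ?_, fun k hk => ?_⟩
      · simp only [e1, e2]
        exact h1 u ((mem_ue u).2 hu) ((mem_pt u).2 huT)
      · simp only [e1, e2]
        exact h2 k hk
    refine ⟨⟨c', hs, e5⟩, Subtype.ext (Prod.ext (funext fun u => e1 u) (funext fun l => e2 l))⟩

end one

section lin
variable {M : ℕ} {U J : Type} [Fintype U] [Fintype J]

theorem kM_sum (m U1 : Finset U) (J1 : Finset J) (A : U → U → ZMod 2) (B : U → J → ZMod 2)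
    (C : J → U → ZMod 2) (R : J → J → ZMod 2) (h : Fin M → U → ZMod 2) (G : J → Fin M → ZMod 2)
    (i : Fin M) :
    Nat.card (KM (m.disjSum {i}) (U1.disjSum ∅) J1 (exA A h) (exB B) (exC C G) R (fun _ => 0)
      (fun _ => 0)) = Nat.card (KM m U1 J1 A B C R (h i) (fun k => G k i)) := by
  have hr : ∀ z ∈ KM (m.disjSum {i}) (U1.disjSum ∅) J1 (exA A h) (exB B) (exC C G) R (fun _ => 0)
      (fun _ => 0), ∀ j, z.1 (.inr j) = 0 := fun z hz j =>
    hz.1 _ (by rw [inr_mem_disjSum]; exact notMem_empty _)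
  refine Nat.card_congr {
    toFun := fun z => ⟨(fun u => z.1.1 (.inl u), z.1.2), ?_⟩
    invFun := fun z => ⟨(Sum.elim z.1.1 fun _ => 0, z.1.2), ?_⟩
    left_inv := ?_
    right_inv := fun z => rfl }
  · obtain ⟨⟨x, y⟩, hz⟩ := z
    have hr' := hr _ hz
    obtain ⟨hx0, hxm, hy0, h1, h2⟩ := hz
    simp only at hr' hx0 hxm hy0 h1 h2 ⊢
    refine ⟨fun u hu => hx0 _ (by rw [inl_mem_disjSum]; exact hu),
      fun u hu => hxm _ (by rw [inl_mem_disjSum]; exact hu), hy0, fun u hu hum => ?_,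
      fun k hk => ?_⟩
    · have := h1 (.inl u) (by rw [inl_mem_disjSum]; exact hu) (by rw [inl_mem_disjSum]; exact hum)
      rw [sum_disjSum, sum_singleton] at this
      simp only [exA, exB, hr'] at this
      linear_combination this
    · have := h2 k hk
      rw [sum_disjSum, sum_singleton] at this
      simp only [exC, hr'] at this
      linear_combination this
  · obtain ⟨⟨x, y⟩, hx0, hxm, hy0, h1, h2⟩ := z
    simp only at hx0 hxm hy0 h1 h2 ⊢
    refine ⟨fun u hu => ?_, fun u hu => ?_, hy0, fun u hu hum => ?_, fun k hk => ?_⟩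
    · rcases u with u | u
      · exact hx0 u fun h => hu (by rw [inl_mem_disjSum]; exact h)
      · rfl
    · rcases u with u | u
      · exact hxm u fun h => hu (by rw [inl_mem_disjSum]; exact h)
      · rfl
    · rcases u with u | u
      · rw [inl_mem_disjSum] at hu hum
        have := h1 u hu hum
        rw [sum_disjSum, sum_singleton]
        simp only [Sum.elim_inl, Sum.elim_inr, exA, exB]
        linear_combination this
      · rw [inr_mem_disjSum] at hu
        exact absurd hu (notMem_empty _)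
    · have := h2 k hk
      rw [sum_disjSum, sum_singleton]
      simp only [Sum.elim_inl, Sum.elim_inr, exC]
      linear_combination this
  · rintro ⟨⟨x, y⟩, hz⟩
    have hr' := hr _ hz
    refine Subtype.ext (Prod.ext (funext fun u => ?_) rfl)
    rcases u with u | u
    · rfl
    · exact (hr' u).symm

end lin

/-- the joint count in a box, with the constants fixed -/
def BX {M : ℕ} (ρ : Fin M → ℕ) (ε : ℝ) (R : ℕ) : Prop := ∀ (F : Fin M → ℕ → ZMod 2) (V : Fin M → Finset ℕ)
  (ι : Type) [Fintype ι] [LinearOrder ι] (J1 : Finset ι) (C : ι → Finset ℕ) (X : ι → ℕ) (κ : ℝ)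
  (S₀ W : Finset ℕ), (∀ i, V i ⊆ W) → 0 ≤ κ →
  (∀ i, (C i).card ≤ X i) → HB J1 C X κ → (∀ u ∈ S₀ ∪ W, (u.Prime ∧ u % 4 = 1) ∧ u ≠ 2) →
  (∀ i, ∀ p ∈ C i, (p.Prime ∧ p % 4 = 1) ∧ p ≠ 2 ∧ p ∉ S₀ ∪ W ∧ (i ∈ J1 ↔ mk p = 1)) →
  (∀ i l, i ≠ l → Disjoint (C i) (C l)) → (∃ i, i ∉ J1) →
  |(((Fintype.piFinset C).filter fun p => NdF R W F V S₀ (univ.image p) ∧
      KdF ρ F V (S₀ ∪ univ.image p)).card : ℝ) -
      (∏ i, mr (ρ i)) * (((Fintype.piFinset C).filter fun p => NdF R W F V S₀ (univ.image p)).card : ℝ)| ≤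
    ε * (((Fintype.piFinset C).filter fun p => NdF R W F V S₀ (univ.image p)).card : ℝ) +
    2 ^ ((2 * (S₀ ∪ W).card + 1 + M) * Fintype.card ι + (prs J1).card) * (κ * ∏ j, (X j : ℝ))

theorem t_BX (hEQ : S_EQ) {M : ℕ} (ρ : Fin M → ℕ) (ε : ℝ) (hε : 0 < ε) : ∃ R : ℕ, BX ρ ε R := by
  obtain ⟨R₀, hLA⟩ := laj_r M ρ ε hε
  refine ⟨R₀, ?_⟩
  intro F V ι _ _ J1 C X κ S₀ W hVW hκ hCX hHB hS₁ hC hdis hne
  set S₁ := S₀ ∪ W with hS₁d
  set R : ℝ := 2 ^ (prs J1).card * (κ * ∏ j, (X j : ℝ)) with hR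
  have hR0 : 0 ≤ R := mul_nonneg (by positivity)
    (mul_nonneg hκ (Finset.prod_nonneg fun j _ => by positivity))
  -- facts on tuples
  have hinj : ∀ p ∈ Fintype.piFinset C, Function.Injective p := by
    intro p hp i j hij
    rw [Fintype.mem_piFinset] at hp
    by_contra hne
    have h1 := Finset.disjoint_left.1 (hdis i j hne) (hp i)
    rw [hij] at h1
    exact h1 (hp j)
  have hJ : ∀ p ∈ Fintype.piFinset C, ∀ i, mk (p i) = 1 ↔ i ∈ J1 := by
    intro p hp i
    rw [Fintype.mem_piFinset] at hp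
    exact (hC i _ (hp i)).2.2.2.symm
  have hd : ∀ p ∈ Fintype.piFinset C, ∀ i, p i ∉ S₁ := by
    intro p hp i
    rw [Fintype.mem_piFinset] at hp
    exact (hC i _ (hp i)).2.2.1
  have hpr : ∀ p ∈ Fintype.piFinset C, ∀ i, ((p i).Prime ∧ p i % 4 = 1) ∧ p i ≠ 2 := by
    intro p hp i
    rw [Fintype.mem_piFinset] at hp
    exact ⟨(hC i _ (hp i)).1, (hC i _ (hp i)).2.1⟩
  have hU1 : (ue S₁).card ≤ S₁.card := by
    refine (Finset.card_le_univ _).trans ?_
    rw [Fintype.card_coe]
  have hgd : ∀ p ∈ Fintype.piFinset C, (KdF ρ F V (S₀ ∪ univ.image p) ↔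
      ∀ i, Nat.card (KM (pt S₁ (symmDiff S₀ (V i))) (ue S₁) J1
      (fun u v : S₁ => nr u v) (fun (u : S₁) l => nr u (p l)) (fun k (u : S₁) => nr (p k) u)
      (Pool.Agent.Y703.CQ.ext fun e : prs J1 => nr (p e.1.1) (p e.1.2))
      (fun u : S₁ => F i u) (fun k => F i (p k))) = 2 ^ ρ i) := by
    intro p hp
    have hP : ∀ x ∈ univ.image p, x ∉ S₀ ∪ W := by
      intro x hx
      rw [Finset.mem_image] at hx
      obtain ⟨i, -, rfl⟩ := hx
      exact hd p hp i
    unfold KdF
    refine forall_congr' fun i => ?_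
    rw [sd_union (hVW i) hP,
      kM_card (F i) (sd_sub (hVW i)) (hinj p hp) (hpr p hp) (hd p hp) (hJ p hp)]
  -- the part with given labels
  have h1 : ∀ β : ι → LbF M S₁, LJF R₀ S₁ V J1 β →
      |(((Fintype.piFinset C).filter fun p => (fun i => lbF F S₁ (p i)) = β ∧
          KdF ρ F V (S₀ ∪ univ.image p)).card : ℝ) -
        (∏ i, mr (ρ i)) * (((Fintype.piFinset C).filter fun p =>
          (fun i => lbF F S₁ (p i)) = β).card : ℝ)| ≤
      ε * (((Fintype.piFinset C).filter fun p => (fun i => lbF F S₁ (p i)) = β).card : ℝ) + R := by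
    intro β hβ
    by_cases hemp : ((Fintype.piFinset C).filter fun p => (fun i => lbF F S₁ (p i)) = β) = ∅
    · have he2 : ((Fintype.piFinset C).filter fun p => (fun i => lbF F S₁ (p i)) = β ∧
          KdF ρ F V (S₀ ∪ univ.image p)) = ∅ := by
        rw [← Finset.filter_filter, hemp, Finset.filter_empty]
      rw [he2, hemp]
      simpa using hR0
    obtain ⟨p₀, hp₀⟩ := Finset.nonempty_iff_ne_empty.2 hemp
    rw [Finset.mem_filter] at hp₀
    obtain ⟨hp₀, hp₀β⟩ := hp₀
    set C' : ι → Finset ℕ := fun i => (C i).filter fun q => lbF F S₁ q = β i with hC'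
    have hpi : (Fintype.piFinset C).filter (fun p => (fun i => lbF F S₁ (p i)) = β) =
        Fintype.piFinset C' := by
      ext p
      simp only [Finset.mem_filter, Fintype.mem_piFinset, hC']
      constructor
      · rintro ⟨h2, h3⟩ i
        exact ⟨h2 i, congrFun h3 i⟩
      · intro h2
        exact ⟨fun i => (h2 i).1, funext fun i => (h2 i).2⟩
    have h2 := hLA (S₁ ⊕ Fin M) ι ((ue S₁).disjSum ∅) J1 hne
      (fun i => (pt S₁ (symmDiff S₀ (V i))).disjSum {i})
      (exA (fun u v : S₁ => nr u v) fun i u => F i u) (exB fun (u : S₁) l => (β l).1.1 u)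
      (exC (fun k (u : S₁) => (β k).1.2.1 u) fun k => (β k).2) (fun _ => 0) (fun _ => 0)
      (by
        rintro (u | u) hu (v | v) hv
        · rw [inl_mem_disjSum] at hu hv
          exact nr_symm (hS₁ u u.2).1.1 (hS₁ u u.2).1.2 (hS₁ v v.2).1.1 (hS₁ v v.2).2
        · rw [inr_mem_disjSum] at hv
          exact absurd hv (notMem_empty _)
        · rw [inr_mem_disjSum] at hu
          exact absurd hu (notMem_empty _)
        · rw [inr_mem_disjSum] at hu
          exact absurd hu (notMem_empty _))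
      (by
        rintro (u | u) hu k hk
        · rw [inl_mem_disjSum] at hu
          have h3 := congrFun hp₀β k
          show (β k).1.1 u = (β k).1.2.1 u
          rw [← h3]
          exact nr_symm (hS₁ u u.2).1.1 (hS₁ u u.2).1.2 (hpr p₀ hp₀ k).1.1 (hpr p₀ hp₀ k).2
        · rw [inr_mem_disjSum] at hu
          exact absurd hu (notMem_empty _))
      (by
        rintro w hw0 ⟨u, hu⟩
        have hwr : ∀ j, w (.inr j) = 0 := fun j => hw0 _ (by
          rw [inr_mem_disjSum]; exact notMem_empty _)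
        rcases u with u | u
        · have hu8 : mk (u : ℕ) = 1 := by
            by_contra h8
            exact hu (hw0 _ fun hu' => h8 ((mem_ue u).1 (by rwa [inl_mem_disjSum] at hu')))
          obtain ⟨k, hk, hk2⟩ := hβ.1 (fun u => w (.inl u)) ⟨u, hu8, hu⟩
          refine ⟨k, hk, ?_⟩
          rw [Finset.sum_filter] at hk2
          intro h0
          apply hk2
          refine Eq.trans ?_ h0
          rw [Fintype.sum_sum_type]
          have e0 : ∑ j : Fin M, w (.inr j) * exC (fun k (u : S₁) => (β k).1.2.1 u)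
              (fun k => (β k).2) k (.inr j) = 0 :=
            Finset.sum_eq_zero fun j _ => by rw [hwr, zero_mul]
          rw [e0, add_zero]
          refine Finset.sum_congr rfl fun v _ => ?_
          split_ifs with h8
          · rfl
          · rw [hw0 (.inl v) fun hv => h8 ((mem_ue v).1 (by rwa [inl_mem_disjSum] at hv)), zero_mul]
        · exact absurd (hwr u) hu)
      (by
        rw [card_disjSum, card_empty, add_zero]
        have h3 := hβ.2.1
        omega)
      (by
        intro i j hij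
        rw [card_disjSum, card_empty, add_zero]
        have h3 := hβ.2.2 i j hij
        have h4 : (J1.filter fun k =>
            ∑ u ∈ (pt S₁ (symmDiff S₀ (V i))).disjSum {i}, exC (fun k (u : S₁) => (β k).1.2.1 u)
              (fun k => (β k).2) k u +
            ∑ u ∈ (pt S₁ (symmDiff S₀ (V j))).disjSum {j}, exC (fun k (u : S₁) => (β k).1.2.1 u)
              (fun k => (β k).2) k u ≠ 0) =
            (J1.filter fun k => (β k).2 i + (β k).2 j +
              ∑ u ∈ pt S₁ (symmDiff (V i) (V j)), (β k).1.2.1 u ≠ 0) := by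
          refine Finset.filter_congr fun k _ => ?_
          rw [sum_disjSum, sum_disjSum, sum_singleton, sum_singleton]
          simp only [exC]
          have e1 := add_pt (S₁ := S₁) (A := symmDiff S₀ (V i)) (B := symmDiff S₀ (V j))
            (β k).1.2.1
          rw [sd_sd] at e1
          rw [← e1]
          ring_nf
        rw [h4]
        omega)
    obtain ⟨Q, hQ⟩ : ∃ Q : (prs J1 → ZMod 2) → Prop, ∀ α, Q α ↔ ∀ i,
      Nat.card (KM (pt S₁ (symmDiff S₀ (V i))) (ue S₁)
      J1 (fun u v : S₁ => nr u v) (fun (u : S₁) l => (β l).1.1 u) (fun k (u : S₁) => (β k).1.2.1 u)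
      (Pool.Agent.Y703.CQ.ext α) (fun u : S₁ => F i u) (fun k => (β k).2 i)) = 2 ^ ρ i :=
      ⟨_, fun _ => Iff.rfl⟩
    have h3 := hEQ ι J1 C' X κ hκ
      (fun i => (Finset.card_le_card (Finset.filter_subset _ _)).trans (hCX i))
      (HB_sub hHB fun i q => lbF F S₁ q = β i) Q
    have h4 : ((Fintype.piFinset C).filter fun p => (fun i => lbF F S₁ (p i)) = β ∧
        KdF ρ F V (S₀ ∪ univ.image p)) = ((Fintype.piFinset C').filter fun p =>
          Q fun e => nr (p e.1.1) (p e.1.2)) := by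
      rw [← hpi, Finset.filter_filter]
      refine Finset.filter_congr fun p hp => ?_
      refine and_congr_right fun hl => ?_
      rw [hgd p hp, hQ]
      subst hl
      exact Iff.rfl
    have h5 : (((Fintype.piFinset C').card : ℕ) : ℝ) = ∏ j, ((C' j).card : ℝ) := by
      rw [Fintype.card_piFinset]
      push_cast
      rfl
    rw [h4, hpi, h5]
    have h2' : |((univ.filter Q).card : ℝ) / 2 ^ (prs J1).card - (∏ i, mr (ρ i))| ≤ ε := by
      rw [Finset.filter_congr fun α _ => hQ α]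
      simp only [kM_sum] at h2
      exact h2
    set n : ℝ := (((Fintype.piFinset C').filter fun p =>
          Q fun e => nr (p e.1.1) (p e.1.2)).card : ℝ) with hn
    set q : ℝ := ((univ.filter Q).card : ℝ) / 2 ^ (prs J1).card with hq
    set P : ℝ := ∏ j, ((C' j).card : ℝ) with hP
    have hP0 : 0 ≤ P := Finset.prod_nonneg fun j _ => by positivity
    have h6 : |n - (∏ i, mr (ρ i)) * P| ≤ |n - q * P| + |q - (∏ i, mr (ρ i))| * P := by
      have h7 : n - (∏ i, mr (ρ i)) * P = (n - q * P) + (q - (∏ i, mr (ρ i))) * P := by ring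
      have h8 : |(q - (∏ i, mr (ρ i))) * P| = |q - (∏ i, mr (ρ i))| * P := by rw [abs_mul, abs_of_nonneg hP0]
      rw [h7, ← h8]
      exact abs_add_le _ _
    have h7 : |q - (∏ i, mr (ρ i))| * P ≤ ε * P := mul_le_mul_of_nonneg_right h2' hP0
    have h8 : |n - q * P| ≤ R := h3
    linarith
  -- sum over the labels
  set LL := univ.filter (fun β : ι → LbF M S₁ => LJF R₀ S₁ V J1 β) with hLL
  have hfib : ∀ T : (ι → ℕ) → Prop,
      (((Fintype.piFinset C).filter fun p => NdF R₀ W F V S₀ (univ.image p) ∧ T p).card : ℝ) =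
      ∑ β ∈ LL, (((Fintype.piFinset C).filter fun p =>
        (fun i => lbF F S₁ (p i)) = β ∧ T p).card : ℝ) := by
    intro T
    rw [Finset.card_eq_sum_card_fiberwise (f := fun (p : ι → ℕ) (i : ι) => lbF F S₁ (p i))
      (t := LL) (by
        intro p hp
        rw [Finset.mem_coe, Finset.mem_filter] at hp
        rw [Finset.mem_coe, hLL, Finset.mem_filter]
        exact ⟨Finset.mem_univ _, (ndF_iff F R₀ hVW (hinj p hp.1) (hJ p hp.1)).1 hp.2.1⟩)]
    push_cast
    refine Finset.sum_congr rfl fun β hβ => ?_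
    rw [hLL, Finset.mem_filter] at hβ
    congr 2
    ext p
    simp only [Finset.mem_filter]
    constructor
    · rintro ⟨⟨h3, h4, h4'⟩, h5⟩
      exact ⟨h3, h5, h4'⟩
    · rintro ⟨h3, h4, h5⟩
      refine ⟨⟨h3, ?_, h5⟩, h4⟩
      refine (ndF_iff F R₀ hVW (hinj p h3) (hJ p h3)).2 ?_
      rw [← hS₁d, h4]
      exact hβ.2
  have hf1 := hfib fun p => KdF ρ F V (S₀ ∪ univ.image p)
  have hf2 := hfib fun _ => True
  simp only [and_true] at hf2
  rw [hf1, hf2, Finset.mul_sum, ← Finset.sum_sub_distrib]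
  refine (Finset.abs_sum_le_sum_abs _ _).trans ?_
  refine (Finset.sum_le_sum fun β hβ => h1 β (Finset.mem_filter.1 hβ).2).trans ?_
  rw [Finset.sum_add_distrib, ← Finset.mul_sum, Finset.sum_const, nsmul_eq_mul]
  have h5 : ((LL.card : ℕ) : ℝ) ≤ 2 ^ ((2 * S₁.card + 1 + M) * Fintype.card ι) := by
    have h6 : LL.card ≤ Fintype.card (ι → LbF M S₁) := Finset.card_le_univ _
    rw [Fintype.card_fun, Fintype.card_prod, Fintype.card_prod, Fintype.card_prod, Fintype.card_fun,
      Fintype.card_fun, ZMod.card, Fintype.card_coe, Fintype.card_fin, ← pow_succ, ← pow_add,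
      ← pow_add, ← pow_mul] at h6
    have h7 : (S₁.card + (S₁.card + 1) + M) * Fintype.card ι =
        (2 * S₁.card + 1 + M) * Fintype.card ι := by
      ring
    rw [h7] at h6
    exact_mod_cast h6
  have h6 := mul_le_mul_of_nonneg_right h5 hR0
  rw [pow_add, mul_assoc]
  linarith

end Pool.Agent.R413.CK
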