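import Pool.Agent.R413.CK.Tl
import Pool.Agent.R413.CK.Bx

/-!
The count of the systems with many solutions in a box (after `Pool.Agent.R413.CK.Bx`).
-/

set_option autoImplicit false

open scoped Classical

namespace Pool.Agent.R413.CK

open Finset
open Pool.Agent.R413.SQ
open Pool.Agent.Y703.CQ (nr sg prs HB S_EQ ext GdA S_SYM S_C2 S_LA c2 S_MER S_CHE)
open Pool.Agent.R413.SQ.BOX (Lb lb LN nr_self nr_symm nd_iff sum_un ext_sum HB_sub)
open Pool.Agent.Y697.JQ (pt mem_pt sum_pt add_pt sd_sd sd_union sd_sub)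
open Pool.Agent.R494.SQ (exA exB exC gdM_sum)
open Pool.Agent.R413.SQ.SM (ue mem_ue NdF LbF lbF LJF ndF_iff)

/-- the kernel has at least `2 ^ s` elements -/
def KdT (s : ℕ) (F : Fin 1 → ℕ → ZMod 2) (V : Fin 1 → Finset ℕ) (S : Finset ℕ) : Prop :=
  2 ^ s ≤ Nat.card (Kd (F 0) (symmDiff S (V 0)))

/-- the joint count in a box, with the constants fixed -/
def BXT : Prop := ∀ (s : ℕ) (F : Fin 1 → ℕ → ZMod 2) (V : Fin 1 → Finset ℕ)
  (ι : Type) [Fintype ι] [LinearOrder ι] (J1 : Finset ι) (C : ι → Finset ℕ) (X : ι → ℕ) (κ : ℝ)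
  (S₀ W : Finset ℕ), (∀ i, V i ⊆ W) → 0 ≤ κ →
  (∀ i, (C i).card ≤ X i) → HB J1 C X κ → (∀ u ∈ S₀ ∪ W, (u.Prime ∧ u % 4 = 1) ∧ u ≠ 2) →
  (∀ i, ∀ p ∈ C i, (p.Prime ∧ p % 4 = 1) ∧ p ≠ 2 ∧ p ∉ S₀ ∪ W ∧ (i ∈ J1 ↔ mk p = 1)) →
  (∀ i l, i ≠ l → Disjoint (C i) (C l)) → (∃ i, i ∉ J1) →
  (((Fintype.piFinset C).filter fun p => NdF 1 W F V S₀ (univ.image p) ∧
      KdT s F V (S₀ ∪ univ.image p)).card : ℝ) ≤
    3 / 2 ^ s * (((Fintype.piFinset C).filter fun p => NdF 1 W F V S₀ (univ.image p)).card : ℝ) +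
    2 ^ ((2 * (S₀ ∪ W).card + 1 + 1) * Fintype.card ι + (prs J1).card) * (κ * ∏ j, (X j : ℝ))

theorem t_BXT (hEQ : S_EQ) : BXT := by
  intro s F V ι _ _ J1 C X κ S₀ W hVW hκ hCX hHB hS₁ hC hdis hne
  set S₁ := S₀ ∪ W with hS₁d
  set R : ℝ := 2 ^ (prs J1).card * (κ * ∏ j, (X j : ℝ)) with hR
  have hR0 : 0 ≤ R := mul_nonneg (by positivity)
    (mul_nonneg hκ (Finset.prod_nonneg fun j _ => by positivity))
  -- facts on tuples
  have hinj : ∀ p ∈ Fintype.piFinset C, Function.Injective p := by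
    intro p hp i j hij
    rw [Fintype.mem_piFinset] at hp
    by_contra hne
    have h1 := Finset.disjoint_left.1 (hdis i j hne) (hp i)
    rw [hij] at h1
    exact h1 (hp j)
  have hJ : ∀ p ∈ Fintype.piFinset C, ∀ i, mk (p i) = 1 ↔ i ∈ J1 := by
    intro p hp i
    rw [Fintype.mem_piFinset] at hp
    exact (hC i _ (hp i)).2.2.2.symm
  have hd : ∀ p ∈ Fintype.piFinset C, ∀ i, p i ∉ S₁ := by
    intro p hp i
    rw [Fintype.mem_piFinset] at hp
    exact (hC i _ (hp i)).2.2.1
  have hpr : ∀ p ∈ Fintype.piFinset C, ∀ i, ((p i).Prime ∧ p i % 4 = 1) ∧ p i ≠ 2 := by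
    intro p hp i
    rw [Fintype.mem_piFinset] at hp
    exact ⟨(hC i _ (hp i)).1, (hC i _ (hp i)).2.1⟩
  have hU1 : (ue S₁).card ≤ S₁.card := by
    refine (Finset.card_le_univ _).trans ?_
    rw [Fintype.card_coe]
  have hgd : ∀ p ∈ Fintype.piFinset C, (KdT s F V (S₀ ∪ univ.image p) ↔
      2 ^ s ≤ Nat.card (KM (pt S₁ (symmDiff S₀ (V 0))) (ue S₁) J1
      (fun u v : S₁ => nr u v) (fun (u : S₁) l => nr u (p l)) (fun k (u : S₁) => nr (p k) u)
      (Pool.Agent.Y703.CQ.ext fun e : prs J1 => nr (p e.1.1) (p e.1.2))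
      (fun u : S₁ => F 0 u) (fun k => F 0 (p k)))) := by
    intro p hp
    have hP : ∀ x ∈ univ.image p, x ∉ S₀ ∪ W := by
      intro x hx
      rw [Finset.mem_image] at hx
      obtain ⟨i, -, rfl⟩ := hx
      exact hd p hp i
    unfold KdT
    rw [sd_union (hVW 0) hP,
      kM_card (F 0) (sd_sub (hVW 0)) (hinj p hp) (hpr p hp) (hd p hp) (hJ p hp)]
  -- the part with given labels
  have h1 : ∀ β : ι → LbF 1 S₁, LJF 1 S₁ V J1 β →
      (((Fintype.piFinset C).filter fun p => (fun i => lbF F S₁ (p i)) = β ∧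
          KdT s F V (S₀ ∪ univ.image p)).card : ℝ) ≤
      3 / 2 ^ s * (((Fintype.piFinset C).filter fun p => (fun i => lbF F S₁ (p i)) = β).card : ℝ) + R := by
    intro β hβ
    by_cases hemp : ((Fintype.piFinset C).filter fun p => (fun i => lbF F S₁ (p i)) = β) = ∅
    · have he2 : ((Fintype.piFinset C).filter fun p => (fun i => lbF F S₁ (p i)) = β ∧
          KdT s F V (S₀ ∪ univ.image p)) = ∅ := by
        rw [← Finset.filter_filter, hemp, Finset.filter_empty]
      rw [he2, hemp]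
      simpa using hR0
    obtain ⟨p₀, hp₀⟩ := Finset.nonempty_iff_ne_empty.2 hemp
    rw [Finset.mem_filter] at hp₀
    obtain ⟨hp₀, hp₀β⟩ := hp₀
    set C' : ι → Finset ℕ := fun i => (C i).filter fun q => lbF F S₁ q = β i with hC'
    have hpi : (Fintype.piFinset C).filter (fun p => (fun i => lbF F S₁ (p i)) = β) =
        Fintype.piFinset C' := by
      ext p
      simp only [Finset.mem_filter, Fintype.mem_piFinset, hC']
      constructor
      · rintro ⟨h2, h3⟩ i
        exact ⟨h2 i, congrFun h3 i⟩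
      · intro h2
        exact ⟨fun i => (h2 i).1, funext fun i => (h2 i).2⟩
    have h2 := tailA (U := S₁ ⊕ Fin 1) (J := ι) ((ue S₁).disjSum ∅) J1 hne
      ((pt S₁ (symmDiff S₀ (V 0))).disjSum {0})
      (exA (fun u v : S₁ => nr u v) fun i u => F i u) (exB fun (u : S₁) l => (β l).1.1 u)
      (exC (fun k (u : S₁) => (β k).1.2.1 u) fun k => (β k).2) (fun _ => 0) (fun _ => 0)
      (by
        rintro (u | u) hu (v | v) hv
        · rw [inl_mem_disjSum] at hu hv
          exact nr_symm (hS₁ u u.2).1.1 (hS₁ u u.2).1.2 (hS₁ v v.2).1.1 (hS₁ v v.2).2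
        · rw [inr_mem_disjSum] at hv
          exact absurd hv (notMem_empty _)
        · rw [inr_mem_disjSum] at hu
          exact absurd hu (notMem_empty _)
        · rw [inr_mem_disjSum] at hu
          exact absurd hu (notMem_empty _))
      (by
        rintro (u | u) hu k hk
        · rw [inl_mem_disjSum] at hu
          have h3 := congrFun hp₀β k
          show (β k).1.1 u = (β k).1.2.1 u
          rw [← h3]
          exact nr_symm (hS₁ u u.2).1.1 (hS₁ u u.2).1.2 (hpr p₀ hp₀ k).1.1 (hpr p₀ hp₀ k).2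
        · rw [inr_mem_disjSum] at hu
          exact absurd hu (notMem_empty _))
      (by
        rintro w hw0 ⟨u, hu⟩
        have hwr : ∀ j, w (.inr j) = 0 := fun j => hw0 _ (by
          rw [inr_mem_disjSum]; exact notMem_empty _)
        rcases u with u | u
        · have hu8 : mk (u : ℕ) = 1 := by
            by_contra h8
            exact hu (hw0 _ fun hu' => h8 ((mem_ue u).1 (by rwa [inl_mem_disjSum] at hu')))
          obtain ⟨k, hk, hk2⟩ := hβ.1 (fun u => w (.inl u)) ⟨u, hu8, hu⟩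
          refine ⟨k, hk, ?_⟩
          rw [Finset.sum_filter] at hk2
          intro h0
          apply hk2
          refine Eq.trans ?_ h0
          rw [Fintype.sum_sum_type]
          have e0 : ∑ j : Fin 1, w (.inr j) * exC (fun k (u : S₁) => (β k).1.2.1 u)
              (fun k => (β k).2) k (.inr j) = 0 :=
            Finset.sum_eq_zero fun j _ => by rw [hwr, zero_mul]
          rw [e0, add_zero]
          refine Finset.sum_congr rfl fun v _ => ?_
          split_ifs with h8
          · rfl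
          · rw [hw0 (.inl v) fun hv => h8 ((mem_ue v).1 (by rwa [inl_mem_disjSum] at hv)), zero_mul]
        · exact absurd (hwr u) hu)
      (by
        rw [card_disjSum, card_empty, add_zero]
        have h3 := hβ.2.1
        omega)
      s
    obtain ⟨Q, hQ⟩ : ∃ Q : (prs J1 → ZMod 2) → Prop, ∀ α, Q α ↔
      2 ^ s ≤ Nat.card (KM (pt S₁ (symmDiff S₀ (V 0))) (ue S₁)
      J1 (fun u v : S₁ => nr u v) (fun (u : S₁) l => (β l).1.1 u) (fun k (u : S₁) => (β k).1.2.1 u)
      (Pool.Agent.Y703.CQ.ext α) (fun u : S₁ => F 0 u) (fun k => (β k).2 0)) :=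
      ⟨_, fun _ => Iff.rfl⟩
    have h3 := hEQ ι J1 C' X κ hκ
      (fun i => (Finset.card_le_card (Finset.filter_subset _ _)).trans (hCX i))
      (HB_sub hHB fun i q => lbF F S₁ q = β i) Q
    have h4 : ((Fintype.piFinset C).filter fun p => (fun i => lbF F S₁ (p i)) = β ∧
        KdT s F V (S₀ ∪ univ.image p)) = ((Fintype.piFinset C').filter fun p =>
          Q fun e => nr (p e.1.1) (p e.1.2)) := by
      rw [← hpi, Finset.filter_filter]
      refine Finset.filter_congr fun p hp => ?_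
      refine and_congr_right fun hl => ?_
      rw [hgd p hp, hQ]
      subst hl
      exact Iff.rfl
    have h5 : (((Fintype.piFinset C').card : ℕ) : ℝ) = ∏ j, ((C' j).card : ℝ) := by
      rw [Fintype.card_piFinset]
      push_cast
      rfl
    rw [h4, hpi, h5]
    have h2' : ((univ.filter Q).card : ℝ) / 2 ^ (prs J1).card ≤ 3 / 2 ^ s := by
      rw [Finset.filter_congr fun α _ => hQ α]
      simp only [kM_sum] at h2
      exact h2
    set n : ℝ := (((Fintype.piFinset C').filter fun p =>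
          Q fun e => nr (p e.1.1) (p e.1.2)).card : ℝ) with hn
    set q : ℝ := ((univ.filter Q).card : ℝ) / 2 ^ (prs J1).card with hq
    set P : ℝ := ∏ j, ((C' j).card : ℝ) with hP
    have hP0 : 0 ≤ P := Finset.prod_nonneg fun j _ => by positivity
    have h7 : q * P ≤ 3 / 2 ^ s * P := mul_le_mul_of_nonneg_right h2' hP0
    have h8 : |n - q * P| ≤ R := h3
    have h9 := (abs_le.1 h8).2
    linarith
  -- sum over the labels
  set LL := univ.filter (fun β : ι → LbF 1 S₁ => LJF 1 S₁ V J1 β) with hLL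
  have hfib : ∀ T : (ι → ℕ) → Prop,
      (((Fintype.piFinset C).filter fun p => NdF 1 W F V S₀ (univ.image p) ∧ T p).card : ℝ) =
      ∑ β ∈ LL, (((Fintype.piFinset C).filter fun p =>
        (fun i => lbF F S₁ (p i)) = β ∧ T p).card : ℝ) := by
    intro T
    rw [Finset.card_eq_sum_card_fiberwise (f := fun (p : ι → ℕ) (i : ι) => lbF F S₁ (p i))
      (t := LL) (by
        intro p hp
        rw [Finset.mem_coe, Finset.mem_filter] at hp
        rw [Finset.mem_coe, hLL, Finset.mem_filter]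
        exact ⟨Finset.mem_univ _, (ndF_iff F 1 hVW (hinj p hp.1) (hJ p hp.1)).1 hp.2.1⟩)]
    push_cast
    refine Finset.sum_congr rfl fun β hβ => ?_
    rw [hLL, Finset.mem_filter] at hβ
    congr 2
    ext p
    simp only [Finset.mem_filter]
    constructor
    · rintro ⟨⟨h3, h4, h4'⟩, h5⟩
      exact ⟨h3, h5, h4'⟩
    · rintro ⟨h3, h4, h5⟩
      refine ⟨⟨h3, ?_, h5⟩, h4⟩
      refine (ndF_iff F 1 hVW (hinj p h3) (hJ p h3)).2 ?_
      rw [← hS₁d, h4]
      exact hβ.2
  have hf1 := hfib fun p => KdT s F V (S₀ ∪ univ.image p)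
  have hf2 := hfib fun _ => True
  simp only [and_true] at hf2
  rw [hf1, hf2, Finset.mul_sum]
  refine (Finset.sum_le_sum fun β hβ => h1 β (Finset.mem_filter.1 hβ).2).trans ?_
  rw [Finset.sum_add_distrib, Finset.sum_const, nsmul_eq_mul]
  have h5 : ((LL.card : ℕ) : ℝ) ≤ 2 ^ ((2 * S₁.card + 1 + 1) * Fintype.card ι) := by
    have h6 : LL.card ≤ Fintype.card (ι → LbF 1 S₁) := Finset.card_le_univ _
    rw [Fintype.card_fun, Fintype.card_prod, Fintype.card_prod, Fintype.card_prod, Fintype.card_fun,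
      Fintype.card_fun, ZMod.card, Fintype.card_coe, Fintype.card_fin, ← pow_succ, ← pow_add,
      ← pow_add, ← pow_mul] at h6
    have h7 : (S₁.card + (S₁.card + 1) + 1) * Fintype.card ι =
        (2 * S₁.card + 1 + 1) * Fintype.card ι := by
      ring
    rw [h7] at h6
    exact_mod_cast h6
  have h6 := mul_le_mul_of_nonneg_right h5 hR0
  rw [pow_add, mul_assoc]
  linarith

end Pool.Agent.R413.CK
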