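import Pool.Agent.R413.CK.Ky
import Pool.Agent.R413.SM.S4

/-!
The final asymptotics for the numbers of the solutions (after `Pool.Agent.R413.SM.S4`)
-/

set_option autoImplicit false

open scoped Classical
open Finset Filter

namespace Pool.Agent.R413.CK

open Pool.Agent.Y703.CX (sm la jj XX eL zz kk S_SIE eL_tendsto logX_eq rpow_eL HH NN ev_eL one_le_exp
  HH_ge HH_le HH_pos kk_ge kk_le X_pos one_add_log lin_le kap zz_ge zz_pos kap_nonneg kap_pow kap_le)
open Pool.Agent.Y703.CQ (nr sg prs HB S_EQ ext GdA S_SYM S_C2 S_LA c2 S_MER S_CHE)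
open Pool.Agent.R413.SQ
open Pool.Agent.R413.SQ.SM

theorem t_DQR (h1 : S_BIL) (h3 : S_EQ)
    (hC : CntP) (hS : S_SIE) (hH : S_HAL) (hB : S_JBAD) (hF : S_FEW)
    (hM : S_MER) (hCh : S_CHE) (hLo : S_LOW) {M : ℕ} (ρ : Fin M → ℕ) (I K : Finset ℕ)
    (F : Fin M → ℕ → ZMod 2) (V : Fin M → Finset ℕ) (W : Finset ℕ) (hO : Ok I K)
    (hW1 : ∀ u ∈ W, u.Prime ∧ u % 4 = 1) (hW2 : ∀ i, V i ⊆ W)
    (hpos : ∀ i j, i ≠ j → Pos (dd F V i j)) : Tendsto
    (fun X : ℕ => (((SS I K X).filter (KdF ρ F V)).card : ℝ) / ((SS I K X).card : ℝ))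
    atTop (nhds ((∏ i, mr (ρ i)))) := by
  obtain ⟨c, X₀, hc, hlow⟩ := hLo hM hCh I K hO
  obtain ⟨δB, CB, XB, hδB, hbad⟩ := hB hS hH hM I K W hO hW1
  have hdp := dl_pos hO
  have hdl := dl_lt hO
  rw [Metric.tendsto_nhds]
  intro ε hε
  obtain ⟨R, C, hC1, hkey⟩ := t_KEYR h1 h3 ρ (ε / 4) (by linarith)
  set v : ℕ := 2 * W.card + R with hv
  obtain ⟨CF, XF, hfew⟩ := hF hS hM I K v hO
  have s1 := sml_many hO (t := 1 - dl I) (by linarith) hC
  have s2 := sml_cut hO (t := 1 - dl I) (by linarith) hC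
  have s3 := sml_coll hO (t := 1 - dl I) (by linarith) hC
  have s4 := sml_rpow (t := 1 - dl I) (by linarith) hfew
  have s5 := sml_rpow (t := 1 - dl I) (by linarith) hbad
  have s6 := sml_mainF M hC1 (t := 1 - dl I) (by linarith)
  have s7 : Sml (1 - dl I) fun X => ∑ e ∈ prF M,
      ((fewF I K X (zz X) v (dd F V e.1 e.2)).card : ℝ) := by
    refine sml_sum _ _ fun e he => ?_
    unfold prF at he
    rw [mem_filter] at he
    obtain ⟨δ, C', X', hδ, h⟩ := t_FEWF hS hM (hpos e.1 e.2 he.2) I K v hO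
    exact sml_rpow (t := 1 - dl I) (by linarith) h
  have s := sml_add (sml_add (sml_add (sml_add (sml_add (sml_add s1 s2) s3) s4) s5) s6) s7
  have hδ : (0 : ℝ) < c * ε / 4 := by positivity
  obtain ⟨WB, hWB⟩ : ∃ B : ℕ, ∀ u ∈ W, u ≤ B := ⟨W.sup id, fun u hu => Finset.le_sup (f := id) hu⟩
  have hzt : ∀ᶠ X : ℕ in atTop, WB ≤ zz X := by
    filter_upwards [ev_eL (WB + 1)] with X hX
    have h0 : (1 : ℝ) ≤ eL X := by
      have : (0 : ℝ) ≤ WB := Nat.cast_nonneg _
      linarith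
    unfold zz
    apply Nat.le_floor
    have h2 : (WB : ℝ) ≤ (eL X) ^ 3 := by
      have h3 : (1 : ℝ) * eL X ≤ (eL X) ^ 2 * eL X := by
        apply mul_le_mul_of_nonneg_right _ (by linarith)
        nlinarith
      have h4 : (eL X) ^ 3 = (eL X) ^ 2 * eL X := by ring
      linarith
    have h3 := Real.add_one_le_exp ((eL X) ^ 3)
    linarith
  have hkt : ∀ᶠ X : ℕ in atTop, W.card ≤ kk X := by
    filter_upwards [ev_eL (W.card + 1)] with X hX
    have h2 := kk_ge X
    have h0 : (0 : ℝ) ≤ W.card := Nat.cast_nonneg _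
    have : (W.card : ℝ) ≤ kk X := by linarith
    exact_mod_cast this
  filter_upwards [s (c * ε / 4) hδ, ev_eL 1, eventually_ge_atTop X₀, hzt, hkt] with X hX hl hX0 hz hk
  have hl0 : 0 < eL X := by linarith
  have hlo := hlow X hX0
  have e00 : (-1 + dl I : ℝ) = -(1 - dl I) := by ring
  rw [e00, rpow_eL hl0] at hlo
  have hXp := X_pos hl0
  have hXp' : (0 : ℝ) < X := by exact_mod_cast hXp
  have hSpos : (0 : ℝ) < ((SS I K X).card : ℝ) := by
    refine lt_of_lt_of_le ?_ hlo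
    positivity
  have hN : (HH X : ℝ) * Real.log X < NN X := by
    unfold NN
    push_cast
    exact Nat.lt_floor_add_one _
  have hmain := hkey I K F V X (zz X) (HH X) (kk X) v (NN X) (kap C X) W hW1 hW2
    (fun u hu => (hWB u hu).trans hz) hk hO hXp (HH_pos hl0) (zz_pos hl)
    (kap_nonneg hC1 X) (kap_pow hC1 hl) hN
  set T := (RR I K X (zz X) (HH X) (kk X) v).filter fun S =>
    NdF R W F V (sm (zz X) S) (la (zz X) S) with hT
  have hTG : (RR I K X (zz X) (HH X) (kk X) v).filter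
      (fun S => NdF R W F V (sm (zz X) S) (la (zz X) S) ∧ KdF ρ F V S) = T.filter (KdF ρ F V) := by
    rw [hT, filter_filter]
  rw [hTG] at hmain
  have hTS : T ⊆ SS I K X := (filter_subset _ _).trans (filter_subset _ _)
  have hRS : ((RR I K X (zz X) (HH X) (kk X) v).card : ℝ) ≤ ((SS I K X).card : ℝ) := by
    exact_mod_cast card_le_card (filter_subset _ _)
  have hp0 : 0 ≤ (∏ i, mr (ρ i)) := (prod_mr ρ).1
  have hp1 : (∏ i, mr (ρ i)) ≤ 1 := (prod_mr ρ).2
  have hcmp := cmp (KdF ρ F V) T (SS I K X) hTS ((∏ i, mr (ρ i))) hp0 hp1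
  have hout : ((SS I K X \ T).card : ℝ) ≤
      ((((SS I K X).filter fun S => kk X < S.card).card : ℝ) +
      (((SS I K X).filter fun S => S.card ≤ kk X ∧
        X < (∏ p ∈ sm (zz X) S, p) * ∏ p ∈ la (zz X) S, XX (HH X) (jj (HH X) p)).card : ℝ) +
      (((SS I K X).filter fun S => ¬ Set.InjOn (jj (HH X)) (la (zz X) S : Set ℕ)).card : ℝ) +
      (((SS I K X).filter fun S => ((la (zz X) S).filter fun p => Pool.Agent.R413.SQ.mk p = 1).card ≤
        2 * (sm (zz X) S).card + v ∨ ∀ p ∈ la (zz X) S, Pool.Agent.R413.SQ.mk p = 1).card : ℝ)) +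
      (((SS I K X).filter fun S => S.card ≤ kk X ∧
        ¬ Nd (sm (zz X) S ∪ W) (la (zz X) S)).card : ℝ) +
      ∑ e ∈ prF M, ((fewF I K X (zz X) v (dd F V e.1 e.2)).card : ℝ) := by
    have g := card_le_card (out_subF I K W F V X (zz X) (HH X) (kk X) R)
    rw [← hv, ← hT] at g
    have g3 := Finset.card_biUnion_le (s := prF M)
      (t := fun e => fewF I K X (zz X) v (dd F V e.1 e.2))
    have g2 := ((g.trans (card_union_le _ _)).trans (Nat.add_le_add_right
      ((card_union_le _ _).trans (Nat.add_le_add_right ((card_union_le _ _).trans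
      (Nat.add_le_add_right ((card_union_le _ _).trans
      (Nat.add_le_add_right (card_union_le _ _) _)) _)) _)) _)).trans (Nat.add_le_add_left g3 _)
    exact_mod_cast g2
  have htot : |(((SS I K X).filter (KdF ρ F V)).card : ℝ) - (∏ i, mr (ρ i)) * ((SS I K X).card : ℝ)| ≤
      ε / 4 * ((SS I K X).card : ℝ) +
        c * ε / 4 * (X * Real.exp (-(1 - dl I) * eL X)) := by
    have g1 : ε / 4 * ((RR I K X (zz X) (HH X) (kk X) v).card : ℝ) ≤
        ε / 4 * ((SS I K X).card : ℝ) := mul_le_mul_of_nonneg_left hRS (by positivity)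
    linarith
  rw [Real.dist_eq]
  have e3 : (((SS I K X).filter (KdF ρ F V)).card : ℝ) / ((SS I K X).card : ℝ) - (∏ i, mr (ρ i)) =
      ((((SS I K X).filter (KdF ρ F V)).card : ℝ) - (∏ i, mr (ρ i)) * ((SS I K X).card : ℝ)) /
        ((SS I K X).card : ℝ) := by
    field_simp
  rw [e3, abs_div, abs_of_pos hSpos, div_lt_iff₀ hSpos]
  refine lt_of_le_of_lt htot ?_
  have g2 : c * ε / 4 * (X * Real.exp (-(1 - dl I) * eL X)) ≤ ε / 4 * ((SS I K X).card : ℝ) := by
    calc c * ε / 4 * (X * Real.exp (-(1 - dl I) * eL X)) =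
          ε / 4 * (c * X * Real.exp (-(1 - dl I) * eL X)) := by ring
      _ ≤ _ := mul_le_mul_of_nonneg_left hlo (by linarith)
  have g4 : 0 < ε * ((SS I K X).card : ℝ) := by positivity
  linarith

end Pool.Agent.R413.CK
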