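import Pool.Agent.R428.Q0.Dat
import Pool.Agent.R428.Q0.Pu

/-!
The descent without the condition on the determinant: the classes of the points are given by the sets of
the kernel. Adaptation of `Y698/SG/Ck.lean`, `R428/Q0/Cy.lean`, `R428/Q0/Dat.lean`, `R428/Q0/Pu.lean`.
-/

set_option autoImplicit false
set_option linter.unusedSectionVars false

namespace Pool.Agent.R413.CK

open Pool.Agent.Y698 Pool.Agent.Y698.SG Pool.Agent.R428.Q0
open NumberField IsDedekindDomain Ideal IsCyclotomicExtension.Rat WithZero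
open Pool.Agent.H921R2.TatePole Pool.Agent.H82R3.EK
open Pool.Agent.W192.HK (sp)

/-- the sets of the kernel -/
def KT (I : Finset (ℕ × Bool)) (π : ℕ × Bool → RR) (T : Finset (ℕ × Bool)) : Prop :=
  T ⊆ I ∧ (∀ i ∈ I \ T, ∑ j ∈ T, dr π i j = 0) ∧ ∀ i ∈ T, dc π i + ∑ j ∈ I \ T, dr π i j = 0

section
variable {F : Type*} [Field F] [CharZero F]

/-- the classes -/
def Cx (b : F) (hb : b ^ 2 = b - 2) (S : Finset ℕ) (π : ℕ × Bool → RR) (T : Finset (ℕ × Bool))
    (e : Bool) (g : F) : Prop :=
  SqE g ((if e then DD F S * (2 * b - 1) else 1) * ∏ i ∈ T, ev b hb (π i))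

variable {b : F} (hb : b ^ 2 = b - 2)

/-- the finite part -/
def FinQ (V : Set (Valuation F ℤᵐ⁰)) (S : Finset ℕ)
    (I : Finset (ℕ × Bool)) (π : ℕ × Bool → RR) : Prop :=
  ∀ (g : F) (T : Finset (ℕ × Bool)) (e : Bool), T ⊆ I →
    SqE g ((if e then (2 * b - 1) else 1) * ∏ i ∈ T, ev b hb (π i)) →
    (∀ w ∈ V, w 7 = 1 → w (DD F S) < 1 → Sq w g ∨ Sq w (DD F S * (2 * b - 1) * g)) →
    ∃ (T' : Finset (ℕ × Bool)) (e' : Bool), KT I π T' ∧ Cx b hb S π T' e' g

include hb in
/-- the finite part -/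
theorem finQ_of {V : Set (Valuation F ℤᵐ⁰)} {S : Finset ℕ} {I : Finset (ℕ × Bool)}
    {π : ℕ × Bool → RR} (hf : Fam I π) (hprod : ∏ i ∈ I, π i = ((∏ q ∈ S, q : ℕ) : RR))
    (hA : ∀ i ∈ I, ∃ w ∈ V, w (ev b hb (π i)) = exp (-1) ∧ w 7 = 1 ∧
      ∀ x : RR, x ∉ sp (π i) → Sq w (ev b hb x) → sy (π i) x = 1) : FinQ hb V S I π := by
  classical
  intro g T e hT hg hloc
  have hDD := fam_DD (a := b) (ha := hb) hprod
  have hs : ev b hb fR = 2 * b - 1 := by
    unfold fR
    rw [map_sub, map_mul, map_ofNat, ev_aR, map_one]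
  have hfb : ∀ e : Bool, (if e then (2 * b - 1) else 1) = ev b hb (fb e) := by
    intro e
    cases e
    · exact (map_one _).symm
    · exact hs.symm
  have hs0 := s_ne hb
  have hev : ∀ (e : Bool) (U : Finset (ℕ × Bool)), (if e then (2 * b - 1) else 1) *
      ∏ i ∈ U, ev b hb (π i) = ev b hb (fb e * ∏ i ∈ U, π i) := by
    intro e U
    rw [map_mul, map_prod, hfb]
  have key : ∀ i ∈ I, (i ∉ T → (if e then dc π i else 0) + ∑ j ∈ T, dr π i j = 0) ∧
      (i ∈ T → (if !e then dc π i else 0) + ∑ j ∈ I \ T, dr π i j = 0) := by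
    intro i hi
    obtain ⟨w, hw, hwi, hw7, hsq⟩ := hA i hi
    have hlt : w (ev b hb (π i)) < 1 := by
      rw [hwi, ← exp_zero, exp_lt_exp]
      norm_num
    have hpi := (hf.pd i hi).pr
    -- units
    have hunit : ∀ (e : Bool) (U : Finset (ℕ × Bool)), U ⊆ I → i ∉ U →
        w (ev b hb (fb e * ∏ j ∈ U, π j)) = 1 := by
      intro e U hU hiU
      refine le_antisymm (w_ev hb w _) (not_lt.1 fun h1 => ?_)
      exact prod_notin hf hU hi hiU e (Ideal.mem_span_singleton.2 ((undr_eq hb hpi hlt _).1 h1))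
    have hU1 : ∀ (U : Finset (ℕ × Bool)), U ⊆ I → i ∉ U → w (∏ j ∈ U, ev b hb (π j)) = 1 := by
      intro U hU hiU
      have h1 := hunit false U hU hiU
      rw [← hev] at h1
      simpa using h1
    have hsu : w (2 * b - 1) = 1 := by
      have h3 : w (2 * b - 1) ^ 2 = 1 := by
        rw [← map_pow, s_sq hb, Valuation.map_neg, hw7]
      exact (pow_eq_one_iff_of_nonneg zero_le two_ne_zero).1 h3
    have hse : ∀ e : Bool, w (if e then (2 * b - 1) else 1) = 1 := by
      intro e
      cases e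
      · simp
      · simpa using hsu
    have hDe : w (DD F S) = exp (-1) := by
      rw [← hDD, ← Finset.mul_prod_erase I _ hi, map_mul, hwi,
        hU1 _ (Finset.erase_subset _ _) (Finset.notMem_erase _ _), mul_one]
    have hD1 : w (DD F S) < 1 := by
      rw [hDe, ← exp_zero, exp_lt_exp]
      norm_num
    have hodd : ∀ x : F, w x = exp (-1) → ¬ Ev w x := by
      rintro x hx ⟨z, hz, h⟩
      refine ev_odd_val hz h (k := -1) ?_
      rw [hx]
      congr 1
    have hl := hloc w hw hw7 hD1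
    constructor
    · intro hiT
      rcases hl with h1 | h1
      · have h2 := h1.sqE hg.symm
        rw [hev] at h2
        exact lg_sy hf hT hi hiT e (hsq _ (prod_notin hf hT hi hiT e) h2)
      · exfalso
        have h2 := (h1.sqE ((SqE.refl (DD F S * (2 * b - 1))).mul hg).symm).ev
        refine hodd _ ?_ h2
        rw [map_mul, map_mul, map_mul, hDe, hsu, hse, hU1 T hT hiT]
        simp
    · intro hiT
      have hiT' : i ∉ I \ T := fun h => (Finset.mem_sdiff.1 h).2 hiT
      rcases hl with h1 | h1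
      · exfalso
        have h2 := (h1.sqE hg.symm).ev
        refine hodd _ ?_ h2
        rw [map_mul, hse, one_mul, ← Finset.mul_prod_erase T _ hiT, map_mul, hwi,
          hU1 _ ((Finset.erase_subset _ _).trans hT) (Finset.notMem_erase _ _), mul_one]
      · have h2 := h1.sqE ((SqE.refl (DD F S * (2 * b - 1))).mul hg).symm
        have hne : ∀ j ∈ I, ev b hb (π j) ≠ 0 := by
          have hD0 : DD F S ≠ 0 := by
            intro h0
            rw [h0, map_zero] at hDe
            exact exp_ne_zero hDe.symm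
          rw [← hDD, Finset.prod_ne_zero_iff] at hD0
          exact hD0
        have hPT : ∏ j ∈ T, ev b hb (π j) ≠ 0 := by
          rw [Finset.prod_ne_zero_iff]
          exact fun j hj => hne j (hT hj)
        have h3 : Sq w ((if !e then (2 * b - 1) else 1) * ∏ j ∈ I \ T, ev b hb (π j)) := by
          refine h2.sqE ?_
          have e1 : DD F S = (∏ j ∈ I \ T, ev b hb (π j)) * ∏ j ∈ T, ev b hb (π j) := by
            rw [← hDD, Finset.prod_sdiff hT]
          rw [e1]
          cases e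
          · refine ⟨(∏ j ∈ T, ev b hb (π j))⁻¹, inv_ne_zero hPT, ?_⟩
            simp only [Bool.not_false, if_true, Bool.false_eq_true, if_false, one_mul]
            field_simp
          · refine ⟨((2 * b - 1) * ∏ j ∈ T, ev b hb (π j))⁻¹,
              inv_ne_zero (mul_ne_zero hs0 hPT), ?_⟩
            simp only [Bool.not_true, Bool.false_eq_true, if_false, if_true, one_mul]
            field_simp
        rw [hev] at h3
        exact lg_sy hf Finset.sdiff_subset hi hiT' (!e)
          (hsq _ (prod_notin hf Finset.sdiff_subset hi hiT' (!e)) h3)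
  cases e with
  | false =>
    refine ⟨T, false, ⟨hT, fun i hi => ?_, fun i hi => ?_⟩, hg⟩
    · rw [Finset.mem_sdiff] at hi
      simpa using (key i hi.1).1 hi.2
    · simpa using (key i (hT hi)).2 hi
  | true =>
    refine ⟨I \ T, true, ⟨Finset.sdiff_subset, fun i hi => ?_, fun i hi => ?_⟩, ?_⟩
    · rw [Finset.sdiff_sdiff_eq_self hT] at hi
      simpa using (key i (hT hi)).2 hi
    · rw [Finset.sdiff_sdiff_eq_self hT]
      rw [Finset.mem_sdiff] at hi
      simpa using (key i hi.1).1 hi.2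
    · unfold Cx
      refine hg.trans ?_
      have hne : ∀ i ∈ I, ev b hb (π i) ≠ 0 := fun i hi => ev_ne hb (hf.pd i hi).pr.ne_zero
      have hP0 : ∏ i ∈ I \ T, ev b hb (π i) ≠ 0 := by
        rw [Finset.prod_ne_zero_iff]
        exact fun i hi => hne i (Finset.mem_sdiff.1 hi).1
      have e1 : DD F S = (∏ j ∈ I \ T, ev b hb (π j)) * ∏ j ∈ T, ev b hb (π j) := by
        rw [← hDD, Finset.prod_sdiff hT]
      rw [e1]
      refine ⟨(∏ j ∈ I \ T, ev b hb (π j))⁻¹, inv_ne_zero hP0, ?_⟩
      simp only [if_true]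
      field_simp

end

section
variable {F : Type*} [Field F] [CharZero F]

/-- the data of the descent -/
structure C1 (a : F) (ha : a ^ 2 = a - 2) (V : Set (Valuation F ℤᵐ⁰)) (S : Finset ℕ)
    (I : Finset (ℕ × Bool)) (π : ℕ × Bool → RR) : Prop where
  big : Big a ha 1 V
  rat : ∀ x : F, ∃ u v : ℚ, x = u + v * a
  inS : ∀ q ∈ S, q.Prime ∧ q ≠ 7 ∧ q % 4 = 1
  pr : ∀ i ∈ I, Prime (π i)
  m4 : ∀ i ∈ I, ∃ u : RR, π i = 1 + 4 * u
  pi : ∏ i ∈ I, π i = ((∏ q ∈ S, q : ℕ) : RR)
  fin : FinQ ha V S I π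

variable {a : F} {ha : a ^ 2 = a - 2} {V : Set (Valuation F ℤᵐ⁰)} {S : Finset ℕ}
  {I : Finset (ℕ × Bool)} {π : ℕ × Bool → RR}

lemma C1.w_DD (hC : C1 a ha V S I π) {w : Valuation F ℤᵐ⁰} {p : ℕ} (hp : p.Prime)
    (hpS : p ∉ S) (hw : w (p : F) < 1) : w (DD F S) = 1 := by
  unfold DD
  refine w_prod_one fun q hq => w_nat_one ?_ hw
  exact (Nat.coprime_primes (hC.inS q hq).1 hp).2 (fun h => hpS (h ▸ hq))

lemma C1.two_notin (hC : C1 a ha V S I π) : 2 ∉ S := fun h => by
  have := (hC.inS 2 h).2.2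
  omega

/-- the valuation of `D` -/
lemma C1.w_DD_exp (hC : C1 a ha V S I π) {w : Valuation F ℤᵐ⁰} (hw : w ∈ V)
    (h : w (DD F S) < 1) : w (DD F S) = exp (-1) := by
  obtain ⟨q, hq, hlt⟩ : ∃ q ∈ S, w (q : F) < 1 := by
    by_contra hcon
    push Not at hcon
    have : w (DD F S) = 1 := w_prod_one fun q hq => le_antisymm (w_nat q) (hcon q hq)
    rw [this] at h
    exact lt_irrefl _ h
  obtain ⟨h1, h3, h5⟩ := hC.inS q hq
  have h6 := hC.big.un w hw q h1 h3 h1.ne_one hlt
  unfold DD
  rw [← Finset.mul_prod_erase S _ hq, map_mul, h6]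
  have h7 : w (∏ p ∈ S.erase q, (p : F)) = 1 := by
    refine w_prod_one fun p hp => w_nat_one ?_ hlt
    exact (Nat.coprime_primes (hC.inS p (Finset.mem_of_mem_erase hp)).1 h1).2
      (Finset.ne_of_mem_erase hp)
  rw [h7, mul_one]

lemma C1.w_DD_sub (hC : C1 a ha V S I π) (w : Valuation F ℤᵐ⁰) : w (DD F S - 1) ≤ w 4 := by
  rw [DD_cast]
  exact w_one_sub (prod_mod_four fun q hq => (hC.inS q hq).2.2)

/-- the classes of the elements of `R` -/
lemma C1.low (hC : C1 a ha V S I π) {g : RR} (hg0 : g ≠ 0)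
    (hEv : ∀ w ∈ V, w (7 : F) = 1 → w (DD F S) = 1 → Ev w (ev a ha g))
    (hUr : ∀ w ∈ V, w (7 : F) = 1 → w (DD F S) = 1 → w (1 - a) < 1 → Ur w (ev a ha g))
    (hSq : ∀ w ∈ V, w 7 = 1 → w (DD F S) < 1 → Sq w (ev a ha g) ∨
      Sq w (DD F S * (2 * a - 1) * (ev a ha g))) :
    ∃ (T' : Finset (ℕ × Bool)) (e' : Bool), KT I π T' ∧ Cx a ha S π T' e' (ev a ha g) := by
  have hs0 := s_ne ha
  have hI1 := hC.pr
  have hI2 := hC.m4
  have hI4 := hC.fin
  have hprod := fam_DD (a := a) (ha := ha) hC.pi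
  have hDD0 : DD F S ≠ 0 := DD_ne fun q hq => (hC.inS q hq).1
  have hne : ∀ i ∈ I, ev a ha (π i) ≠ 0 := by
    rw [← hprod, Finset.prod_ne_zero_iff] at hDD0
    exact hDD0
  obtain ⟨T, hT, hT'⟩ := classes_set' (V := V) (r := 1) ha I π (fun i hi => ⟨hI1 i hi, hne i hi⟩)
    g hg0 (by
      intro w hw h7 hr hq
      refine hEv w hw h7 ?_
      rw [← hprod, map_prod]
      exact Finset.prod_eq_one hq)
  have hPR : (∏ i ∈ T, π i) ≠ 0 := by
    rw [Finset.prod_ne_zero_iff]
    intro q hq
    exact (hI1 q (hT hq)).ne_zero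
  have hPF : (∏ i ∈ T, ev a ha (π i)) ≠ 0 := by
    rw [Finset.prod_ne_zero_iff]
    exact fun i hi => hne i (hT hi)
  have hev : ev a ha (g * ∏ i ∈ T, π i) = ev a ha g * ∏ i ∈ T, ev a ha (π i) := by
    rw [map_mul, map_prod]
  -- a place above `ā`
  obtain ⟨w', hw'V, hw'1⟩ := hC.big.ex (1 - aR) (by
    intro hu
    rcases isUnit_iff.1 hu with h | h
    · have h1 : aR = 0 := by linear_combination -h
      have h2 := cXY_aR.2
      rw [h1, cXY_zero.2] at h2
      norm_num at h2
    · have h1 : aR = ((2 : ℤ) : RR) := by push_cast; linear_combination -h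
      have h2 := cXY_aR.2
      rw [h1, (cXY_int 2).2] at h2
      norm_num at h2)
  rw [map_sub, map_one, ev_aR] at hw'1
  have hw'2 := two_lt ha hw'1
  have hw'2e : w' 2 = exp (-1) := by
    have := hC.big.un w' hw'V 2 Nat.prime_two (by norm_num) (by norm_num)
      (by exact_mod_cast hw'2)
    exact_mod_cast this
  have hw'7 : w' 7 = 1 := by
    have e : (7 : F) = 1 + 2 * 3 := by norm_num
    rw [e, Valuation.map_add_eq_of_lt_left w', map_one]
    rw [map_one, map_mul]
    exact mul_lt_one_of_lt_of_le hw'2 (by exact_mod_cast w_nat (w := w') 3)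
  have hw'D : w' (DD F S) = 1 :=
    hC.w_DD Nat.prime_two hC.two_notin (by exact_mod_cast hw'2)
  have hUg0 := hUr w' hw'V hw'7 hw'D hw'1
  have hUg : Ur w' (ev a ha (g * ∏ i ∈ T, π i)) := by
    rw [hev]
    exact hUg0.mul hw'2 (ur_prod' ha hw'2 T π fun i hi => hI2 i (hT hi))
  have hw'a : w' a = 1 := by
    by_contra h1
    have h2 : w' a < 1 := lt_of_le_of_ne (wa_le ha) h1
    have h3 : w' (a + (1 - a)) < 1 := Valuation.map_add_lt w' h2 hw'1
    rw [add_sub_cancel, map_one] at h3
    exact lt_irrefl _ h3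
  have hUs : Ur w' (2 * a - 1) := by
    refine ⟨1, one_ne_zero, ?_⟩
    have e : (2 * a - 1 - 1 ^ 2 : F) = -(2 * (1 - a)) := by ring
    have hb : w' (1 - a) = w' 2 := by
      have := congrArg w' (ab_eq ha)
      rwa [map_mul, hw'a, one_mul] at this
    rw [e, Valuation.map_neg, map_mul, hb, map_one, one_pow, mul_one, w_four, sq]
  have hnot := not_ur_neg_one (w := w') hw'2e
  have hback : ∀ t : F, SqE (ev a ha (g * ∏ i ∈ T, π i)) t →
      SqE (ev a ha g) (t * ∏ i ∈ T, ev a ha (π i)) := by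
    rintro t ⟨z, hz, h⟩
    rw [hev] at h
    refine ⟨z / ∏ i ∈ T, ev a ha (π i), div_ne_zero hz hPF, ?_⟩
    field_simp
    linear_combination h
  rcases classes1 ha hC.big _ (mul_ne_zero hg0 hPR) hT' with h | h | h | h
  · exact hI4 _ T false hT (by simpa using hback _ h) hSq
  · exact absurd (hUg.sqE hw'2 h.symm) hnot
  · exact hI4 _ T true hT (by simpa using hback _ h) hSq
  · exfalso
    have h1 : Ur w' (-(2 * a - 1)) := hUg.sqE hw'2 h.symm
    have h2 := hUs.mul hw'2 h1
    refine hnot (h2.sqE hw'2 ⟨(2 * a - 1)⁻¹, inv_ne_zero (s_ne ha), ?_⟩)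
    field_simp

theorem C1.main (hC : C1 a ha V S I π) {d : F} (hd : PDD (1 : F ≃+* F) a (DD F S) V d) :
    ∃ (T' : Finset (ℕ × Bool)) (e' : Bool), KT I π T' ∧ Cx a ha S π T' e' d := by
  obtain ⟨u, v, huv⟩ := hC.rat d
  obtain ⟨g, hg⟩ := exists_RR ha u v
  rw [← huv] at hg
  have hdg : SqE d (ev a ha g) := hg
  have hd0 := hd.1
  have hg0 : g ≠ 0 := by
    rintro rfl
    obtain ⟨z', -, h'⟩ := hdg
    rw [map_zero, zero_mul] at h'
    exact hd0 h'
  obtain ⟨T', e', h1, h2⟩ := hC.low hg0 (fun w hw h7 hD => ((hd.2 0 w hw h7).1 hD).1.sqE hdg.symm)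
    (fun w hw h7 hD h1 => (((hd.2 0 w hw h7).1 hD).2 h1).sqE (two_lt ha h1) hdg.symm)
    (fun w hw h7 hD => by
      rcases (hd.2 0 w hw h7).2 hD with h1 | h1
      · exact Or.inl (h1.sqE hdg.symm)
      · exact Or.inr (h1.sqE ((SqE.refl _).mul hdg.symm)))
  exact ⟨T', e', h1, hdg.trans h2⟩

lemma C1.pt_PDD (hC : C1 a ha V S I π) {x y : F} (hy : y ≠ 0)
    (h : y ^ 2 = x * (x - DD F S * eA a) * (x - DD F S * eB a)) :
    PDD (1 : F ≃+* F) a (DD F S) V (x - DD F S * eB a) := by
  have hx0 : x - DD F S * eB a ≠ 0 := by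
    intro h0
    rw [h0, mul_zero] at h
    exact hy (pow_eq_zero_iff two_ne_zero |>.1 h)
  refine ⟨hx0, fun i w hw h7 => ?_⟩
  have h1i : ((1 : F ≃+* F) ^ i) (x - DD F S * eB a) = x - DD F S * eB a := by
    rw [one_pow]
    rfl
  rw [h1i]
  constructor
  · intro hD
    by_cases h2 : w 2 = 1
    · refine ⟨ev_oddD ha hD h2 h7 hy h, fun hb => ?_⟩
      have := two_lt ha hb
      rw [h2] at this
      exact absurd this (lt_irrefl _)
    · have h2' : w 2 < 1 := lt_of_le_of_ne w_two_le h2
      have h2e : w 2 = exp (-1) := by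
        have := hC.big.un w hw 2 Nat.prime_two (by norm_num) (by norm_num)
          (by exact_mod_cast h2')
        exact_mod_cast this
      have hab : w a * w (1 - a) = exp (-1) := by
        rw [← map_mul, ab_eq ha, h2e]
      by_cases hwa : w a = 1
      · have hU := ur_twoD ha hD (hC.w_DD_sub w) h2' h7 hwa hy h
        exact ⟨hU.ev h2', fun _ => hU⟩
      · have hb1 : w (1 - a) = 1 := by
          have ha0 : a ≠ 0 := by
            rintro rfl
            rw [map_zero, zero_mul] at hab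
            exact exp_ne_zero hab.symm
          have hb0 : (1 - a) ≠ 0 := by
            intro h0
            rw [h0, map_zero, mul_zero] at hab
            exact exp_ne_zero hab.symm
          obtain ⟨m, hm⟩ := vexp (w := w) ha0
          obtain ⟨k, hk⟩ := vexp (w := w) hb0
          have h1 := wa_le (w := w) ha
          have h3 := wa_le (w := w) (ha_conj ha)
          rw [hm] at h1 hwa hab
          rw [hk] at h3 hab
          rw [← exp_add, exp_inj] at hab
          rw [← exp_zero, exp_le_exp] at h1 h3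
          rw [← exp_zero, exp_inj] at hwa
          rw [hk, ← exp_zero, exp_inj]
          omega
        refine ⟨ev_twoD ha hD (hC.w_DD_sub w) h2e h7 hb1 hy h, fun hb => ?_⟩
        rw [hb1] at hb
        exact absurd hb (lt_irrefl _)
  · intro hD
    have h2 : w 2 = 1 := by
      by_contra h2
      have h2' : w 2 < 1 := lt_of_le_of_ne w_two_le h2
      have := hC.w_DD Nat.prime_two hC.two_notin (by exact_mod_cast h2')
      rw [this] at hD
      exact lt_irrefl _ hD
    exact sq_D ha (hC.w_DD_exp hw hD) h2 h7 hy h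

end

section
variable {M : Type} [Field M] [NumberField M] [hM : IsCyclotomicExtension {7} ℚ M]
  {F : Type} [Field F] [NumberField F] [Algebra F M]

include hM in
theorem c1_of (hI : Inp) {Q P : Finset ℕ} (hQ : ∀ q ∈ Q, Inq q) (hP : ∀ p ∈ P, Spl p)
    {ϖ : ℕ → RR} (hc : Cho P ϖ) {a : F} (ha : a ^ 2 = a - 2)
    (hF : ∀ x : F, ∃ u v : ℚ, x = u + v * a) :
    C1 a ha (VV F M) (Q ∪ P) (ix Q P) (pf Q ϖ) := by
  have hgp : ∀ q ∈ Q ∪ P, Gp q := by
    intro q hq
    rcases Finset.mem_union.1 hq with h | h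
    · exact Gp.of_inq (hQ q h)
    · exact Gp.of_spl (hP q h)
  have hq7 : ∀ q ∈ Q ∪ P, q ≠ 7 := by
    intro q hq h
    have := (hgp q hq).m4
    rw [h] at this
    norm_num at this
  obtain ⟨hbig, hw7⟩ := big0 (M := M) ha
  have hfam := fam hI.pd1 hI.pd2 hQ hP hc
  refine ⟨hbig, hF, ?_, fun i hi => (hfam.pd i hi).pr, fun i hi => (hfam.pd i hi).m4,
    prod_pf hQ hP hc, ?_⟩
  · intro q hq
    exact ⟨(hgp q hq).pr, hq7 q hq, (hgp q hq).m4⟩
  · have hb := ha
    refine finQ_of hb hfam (prod_pf hQ hP hc) ?_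
    intro i hi
    have hpi := (hfam.pd i hi).pr
    obtain ⟨w, hw, hlt⟩ := (big0 (M := M) hb).1.ex (pf Q ϖ i) hpi.not_isUnit
    obtain ⟨v, rfl⟩ := hw
    set q : ℕ := i.1 with hqdef
    have hqS : q ∈ Q ∪ P := by
      rcases mem_ix.1 hi with ⟨-, h⟩ | h
      · exact Finset.mem_union_left _ h
      · exact Finset.mem_union_right _ h
    have hqp := (hgp q hqS).pr
    have hqf : Fact q.Prime := ⟨hqp⟩
    have hnorm := nR_pf hQ hP hc hi
    -- the place lies above `q`
    have hwq2 : ((v.valuation M).comap (algebraMap F M)) ((q : F) ^ 2) < 1 := by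
      have h1 : pf Q ϖ i ∣ ((q : ℕ) : RR) ^ 2 := by
        have h2 := mul_cj (pf Q ϖ i)
        rcases hnorm with ⟨-, h3⟩ | ⟨-, h3⟩
        · rw [h3] at h2
          refine ⟨cj (pf Q ϖ i), ?_⟩
          rw [h2]
          push_cast
          rfl
        · rw [h3] at h2
          refine ⟨cj (pf Q ϖ i) * ((q : ℕ) : RR), ?_⟩
          rw [← mul_assoc, h2, pow_two]
          congr 1
      have h2 := (undr_eq hb hpi hlt (((q : ℕ) : RR) ^ 2)).2 h1
      rw [map_pow, map_natCast] at h2
      exact h2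
    have hwq : ((v.valuation M).comap (algebraMap F M)) (q : F) < 1 := by
      rw [map_pow] at hwq2
      by_contra hcon
      have h1 : ((v.valuation M).comap (algebraMap F M)) (q : F) = 1 :=
        le_antisymm (w_nat q) (not_lt.1 hcon)
      rw [h1, one_pow] at hwq2
      exact lt_irrefl _ hwq2
    have hmem : (q : 𝓞 M) ∈ v.asIdeal := by
      rw [Valuation.comap_apply, map_natCast] at hwq
      have e : (q : M) = algebraMap (𝓞 M) M (q : 𝓞 M) := (map_natCast _ _).symm
      rw [e] at hwq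
      exact (v.valuation_lt_one_iff_mem (K := M) _).1 hwq
    have hw7 : ((v.valuation M).comap (algebraMap F M)) (7 : F) = 1 := by
      have := w_nat_one (w := (v.valuation M).comap (algebraMap F M))
        ((Nat.coprime_primes (by norm_num) hqp).2 (hq7 q hqS).symm : Nat.Coprime 7 q) hwq
      exact_mod_cast this
    have hwq1 : ((v.valuation M).comap (algebraMap F M)) (q : F) = exp (-1) :=
      hbig.un _ ⟨v, rfl⟩ q hqp (hq7 q hqS) hqp.ne_one hwq
    have hcop : Nat.Coprime q 7 := (Nat.coprime_primes hqp (by norm_num)).2 (hq7 q hqS)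
    set φ : Gal(M/ℚ) := (galEquivZMod 7 M).symm (ZMod.unitOfCoprime q hcop) with hφd
    have hφ : ((galEquivZMod 7 M φ : (ZMod 7)ˣ) : ZMod 7) = (q : ℕ) := by
      rw [hφd, MulEquiv.apply_symm_apply, ZMod.coe_unitOfCoprime]
    have hcong : ∀ y : 𝓞 M, φ • y - y ^ q ∈ v.asIdeal := by
      intro y
      have h4 := frob_cong 7 (M := M) (p := q) hφ y
      have h5 : Ideal.span {(q : 𝓞 M)} ≤ v.asIdeal := by
        rw [Ideal.span_singleton_le_iff_mem]
        exact hmem
      exact h5 h4
    have haM : (algebraMap F M a) ^ 2 = algebraMap F M a - 2 := by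
      rw [← map_pow, ha, map_sub, map_ofNat]
    refine ⟨(v.valuation M).comap (algebraMap F M), ⟨v, rfl⟩, ?_, hw7, ?_⟩
    · -- the valuation of the prime element
      have hne : ev a hb (pf Q ϖ i) ≠ 0 := by
        have h1 : (q : F) ≠ 0 := by exact_mod_cast hqp.ne_zero
        intro h0
        have h2 : ev a hb (pf Q ϖ i * cj (pf Q ϖ i)) = 0 := by rw [map_mul, h0, zero_mul]
        rw [mul_cj] at h2
        rcases hnorm with ⟨-, h3⟩ | ⟨-, h3⟩
        · rw [h3] at h2
          push_cast at h2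
          rw [map_pow, map_natCast] at h2
          exact h1 (pow_eq_zero_iff two_ne_zero |>.1 h2)
        · rw [h3] at h2
          push_cast at h2
          rw [map_natCast] at h2
          exact h1 h2
      obtain ⟨m, hm⟩ := vexp (w := (v.valuation M).comap (algebraMap F M)) hne
      have hm0 : m < 0 := by
        rw [hm, ← exp_zero, exp_lt_exp] at hlt
        exact hlt
      have hm1 : -1 ≤ m := by
        -- `q = π · c` with `c` integral
        have h1 : pf Q ϖ i ∣ ((q : ℕ) : RR) := by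
          rcases hnorm with ⟨h3, -⟩ | ⟨-, h3⟩
          · have e : pf Q ϖ i = ((q : ℕ) : RR) := if_pos h3
            rw [e]
          · have h2 := mul_cj (pf Q ϖ i)
            rw [h3] at h2
            exact ⟨cj (pf Q ϖ i), by rw [h2]; rfl⟩
        obtain ⟨c', hc'⟩ := h1
        have h2 := congrArg (ev a hb) hc'
        rw [map_natCast, map_mul] at h2
        have h3 := congrArg ((v.valuation M).comap (algebraMap F M)) h2
        rw [hwq1, map_mul, hm] at h3
        have h4 : exp (-1 : ℤ) ≤ exp m := by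
          rw [h3]
          exact mul_le_of_le_one_right' (w_ev hb _ c')
        rwa [exp_le_exp] at h4
      rw [hm]
      congr 1
      omega
    · intro x hx hsq
      have hrat : ∀ (ψ : Gal(M/ℚ)), ψ (algebraMap F M a) = algebraMap F M a → ∀ x : F,
          ψ (algebraMap F M x) = algebraMap F M x := by
        intro ψ hψ x
        obtain ⟨u, t, rfl⟩ := hF x
        rw [map_add, map_mul, map_ratCast, map_ratCast, map_add, map_mul, map_ratCast,
          map_ratCast, hψ]
      rcases hnorm with ⟨h3, h4⟩ | ⟨h3, h4⟩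
      · -- inert
        have hfix := hrat (φ * φ) (frob_fix2 _ haM)
        have hfr : ∀ x : F, ((v.valuation M).comap (algebraMap F M)) x ≤ 1 →
            ((v.valuation M).comap (algebraMap F M)) (x - x ^ (q * q)) < 1 := by
          intro x hx
          have h6 := frob_val v (φ := φ * φ) (Q := q * q) (mul_ne_zero hqp.ne_zero hqp.ne_zero)
            (frob_two hcong) (x := algebraMap F M x) hx
          rw [hfix x] at h6
          rw [Valuation.comap_apply, map_sub, map_pow]
          exact h6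
        obtain ⟨k, hk⟩ : ∃ k, q = 2 * k + 1 := ⟨q / 2, by have := (hgp q hqS).m4; omega⟩
        refine sq_sy hb hpi hlt (N := q * q) (k := 2 * k * (k + 1)) ?_ ?_ hfr hx hsq
        · rw [h4]
          push_cast
          ring
        · rw [hk]
          ring
      · -- split
        have hfix := hrat φ (frob_fix (hP q h3) v hmem hcong _ haM)
        have hfr : ∀ x : F, ((v.valuation M).comap (algebraMap F M)) x ≤ 1 →
            ((v.valuation M).comap (algebraMap F M)) (x - x ^ q) < 1 := by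
          intro x hx
          have h6 := frob_val v (φ := φ) (Q := q) hqp.ne_zero hcong (x := algebraMap F M x) hx
          rw [hfix x] at h6
          rw [Valuation.comap_apply, map_sub, map_pow]
          exact h6
        obtain ⟨k, hk⟩ : ∃ k, q = 2 * k + 1 := ⟨q / 2, by have := (hgp q hqS).m4; omega⟩
        exact sq_sy hb hpi hlt (N := q) (k := k) h4.symm hk hfr hx hsq

end

end Pool.Agent.R413.CK
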