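import Pool.Agent.R413.CK.Kt
import Pool.Agent.R413.SM.S4

/-!
The uniform bound for the numbers of the sets with many solutions (after `Pool.Agent.R413.CK.Dq`)
-/

set_option autoImplicit false

open scoped Classical
open Finset Filter

namespace Pool.Agent.R413.CK

open Pool.Agent.Y703.CX (sm la jj XX eL zz kk S_SIE eL_tendsto logX_eq rpow_eL HH NN ev_eL one_le_exp
  HH_ge HH_le HH_pos kk_ge kk_le X_pos one_add_log lin_le kap zz_ge zz_pos kap_nonneg kap_pow kap_le)
open Pool.Agent.Y703.CQ (nr sg prs HB S_EQ ext GdA S_SYM S_C2 S_LA c2 S_MER S_CHE)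
open Pool.Agent.R413.SQ
open Pool.Agent.R413.SQ.SM

/-- the count of the sets with many solutions, uniformly in `s` -/
theorem t_TAIL (h1 : S_BIL) (h3 : S_EQ)
    (hC : CntP) (hS : S_SIE) (hH : S_HAL) (hB : S_JBAD) (hF : S_FEW)
    (hM : S_MER) (I K : Finset ℕ)
    (F : Fin 1 → ℕ → ZMod 2) (V : Fin 1 → Finset ℕ) (W : Finset ℕ) (hO : Ok I K)
    (hW1 : ∀ u ∈ W, u.Prime ∧ u % 4 = 1) (hW2 : ∀ i, V i ⊆ W) :
    ∃ (t : ℝ) (E : ℕ → ℝ), 1 / 2 < t ∧ Sml t E ∧ ∀ᶠ X : ℕ in atTop, ∀ s : ℕ,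
      (((SS I K X).filter (KdT s F V)).card : ℝ) ≤ 3 / 2 ^ s * ((SS I K X).card : ℝ) + E X := by
  obtain ⟨δB, CB, XB, hδB, hbad⟩ := hB hS hH hM I K W hO hW1
  have hdl : dl I = 1 / 2 := rfl
  obtain ⟨C, hC1, hkey⟩ := t_KEYT h1 h3
  set v : ℕ := 2 * W.card + 1 with hv
  obtain ⟨CF, XF, hfew⟩ := hF hS hM I K v hO
  obtain ⟨t, ht1, ht2, ht3, ht4⟩ : ∃ t : ℝ, 1 / 2 < t ∧ t < 1 ∧ t < 1 / 2 + δB ∧
      t < 1 / 2 + 1 / 32 := by
    refine ⟨1 / 2 + min (1 / 64) (δB / 2), ?_, ?_, ?_, ?_⟩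
    · have : 0 < min (1 / 64) (δB / 2) := lt_min (by norm_num) (by linarith)
      linarith
    · have := min_le_left (1 / 64) (δB / 2)
      linarith
    · have := min_le_right (1 / 64) (δB / 2)
      linarith
    · have := min_le_left (1 / 64) (δB / 2)
      linarith
  have s1 := sml_many hO (t := t) ht2 hC
  have s2 := sml_cut hO (t := t) ht2 hC
  have s3 := sml_coll hO (t := t) ht2 hC
  have s4 := sml_rpow (t := t) (by rw [hdl]; linarith) hfew
  have s5 := sml_rpow (t := t) (by rw [hdl]; linarith) hbad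
  have s6 := sml_mainF 1 hC1 (t := t) ht2
  have s := sml_add (sml_add (sml_add (sml_add (sml_add s1 s2) s3) s4) s5) s6
  refine ⟨t, _, ht1, s, ?_⟩
  obtain ⟨WB, hWB⟩ : ∃ B : ℕ, ∀ u ∈ W, u ≤ B := ⟨W.sup id, fun u hu => Finset.le_sup (f := id) hu⟩
  have hzt : ∀ᶠ X : ℕ in atTop, WB ≤ zz X := by
    filter_upwards [ev_eL (WB + 1)] with X hX
    have h0 : (1 : ℝ) ≤ eL X := by
      have : (0 : ℝ) ≤ WB := Nat.cast_nonneg _
      linarith
    unfold zz
    apply Nat.le_floor
    have h2 : (WB : ℝ) ≤ (eL X) ^ 3 := by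
      have h3 : (1 : ℝ) * eL X ≤ (eL X) ^ 2 * eL X := by
        apply mul_le_mul_of_nonneg_right _ (by linarith)
        nlinarith
      have h4 : (eL X) ^ 3 = (eL X) ^ 2 * eL X := by ring
      linarith
    have h3 := Real.add_one_le_exp ((eL X) ^ 3)
    linarith
  have hkt : ∀ᶠ X : ℕ in atTop, W.card ≤ kk X := by
    filter_upwards [ev_eL (W.card + 1)] with X hX
    have h2 := kk_ge X
    have h0 : (0 : ℝ) ≤ W.card := Nat.cast_nonneg _
    have : (W.card : ℝ) ≤ kk X := by linarith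
    exact_mod_cast this
  filter_upwards [ev_eL 1, hzt, hkt] with X hl hz hk s
  have hl0 : 0 < eL X := by linarith
  have hXp := X_pos hl0
  have hN : (HH X : ℝ) * Real.log X < NN X := by
    unfold NN
    push_cast
    exact Nat.lt_floor_add_one _
  have hmain := hkey s I K F V X (zz X) (HH X) (kk X) v (NN X) (kap C X) W hW1 hW2
    (fun u hu => (hWB u hu).trans hz) hk hO hXp (HH_pos hl0) (zz_pos hl)
    (kap_nonneg hC1 X) (kap_pow hC1 hl) hN
  set T := (RR I K X (zz X) (HH X) (kk X) v).filter fun S =>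
    NdF 1 W F V (sm (zz X) S) (la (zz X) S) with hT
  have hTG : (RR I K X (zz X) (HH X) (kk X) v).filter
      (fun S => NdF 1 W F V (sm (zz X) S) (la (zz X) S) ∧ KdT s F V S) = T.filter (KdT s F V) := by
    rw [hT, filter_filter]
  rw [hTG] at hmain
  have hRS : ((RR I K X (zz X) (HH X) (kk X) v).card : ℝ) ≤ ((SS I K X).card : ℝ) := by
    exact_mod_cast card_le_card (filter_subset _ _)
  have hcmp : (((SS I K X).filter (KdT s F V)).card : ℝ) ≤ ((T.filter (KdT s F V)).card : ℝ) +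
      ((SS I K X \ T).card : ℝ) := by
    have h4 : (SS I K X).filter (KdT s F V) ⊆ T.filter (KdT s F V) ∪ (SS I K X \ T) := by
      intro S hS
      rw [mem_filter] at hS
      rw [mem_union, mem_filter, Finset.mem_sdiff]
      by_cases h5 : S ∈ T
      · exact Or.inl ⟨h5, hS.2⟩
      · exact Or.inr ⟨hS.1, h5⟩
    have h5 := (card_le_card h4).trans (card_union_le _ _)
    exact_mod_cast h5
  have hpr : prF 1 = ∅ := by
    unfold prF
    rw [filter_eq_empty_iff]
    intro e _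
    rw [not_not]
    exact Subsingleton.elim _ _
  have hout : ((SS I K X \ T).card : ℝ) ≤
      ((((SS I K X).filter fun S => kk X < S.card).card : ℝ) +
      (((SS I K X).filter fun S => S.card ≤ kk X ∧
        X < (∏ p ∈ sm (zz X) S, p) * ∏ p ∈ la (zz X) S, XX (HH X) (jj (HH X) p)).card : ℝ) +
      (((SS I K X).filter fun S => ¬ Set.InjOn (jj (HH X)) (la (zz X) S : Set ℕ)).card : ℝ) +
      (((SS I K X).filter fun S => ((la (zz X) S).filter fun p => Pool.Agent.R413.SQ.mk p = 1).card ≤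
        2 * (sm (zz X) S).card + v ∨ ∀ p ∈ la (zz X) S, Pool.Agent.R413.SQ.mk p = 1).card : ℝ)) +
      (((SS I K X).filter fun S => S.card ≤ kk X ∧
        ¬ Nd (sm (zz X) S ∪ W) (la (zz X) S)).card : ℝ) := by
    have g := card_le_card (out_subF I K W F V X (zz X) (HH X) (kk X) 1)
    rw [← hv, ← hT, hpr, biUnion_empty, union_empty] at g
    have g2 := (g.trans (card_union_le _ _)).trans (Nat.add_le_add_right
      ((card_union_le _ _).trans (Nat.add_le_add_right ((card_union_le _ _).trans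
      (Nat.add_le_add_right (card_union_le _ _) _)) _)) _)
    exact_mod_cast g2
  have h6 : 3 / 2 ^ s * ((RR I K X (zz X) (HH X) (kk X) v).card : ℝ) ≤
      3 / 2 ^ s * ((SS I K X).card : ℝ) := mul_le_mul_of_nonneg_left hRS (by positivity)
  linarith

end Pool.Agent.R413.CK
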