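import Pool.Agent.R413.CK.Lw

/-!
The generating function of the law of the coranks.
-/

set_option autoImplicit false

open Filter Topology Finset

namespace Pool.Agent.R413.CK

open Pool.Agent.Y703.CQ (c2)

/-- the product `∏_{i = 1}^{r} (2 ^ i - 1)` -/
noncomputable def pr (r : ℕ) : ℝ := ∏ i ∈ range r, ((2 : ℝ) ^ (i + 1) - 1)

theorem pr_succ (r : ℕ) : pr (r + 1) = pr r * (2 ^ (r + 1) - 1) := prod_range_succ _ _

theorem two_pow_sub (r : ℕ) : (2 : ℝ) ^ r ≤ 2 ^ (r + 1) - 1 := by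
  have h : (1 : ℝ) ≤ 2 ^ r := one_le_pow₀ (by norm_num)
  rw [pow_succ]
  linarith

theorem pr_pos (r : ℕ) : 0 < pr r := by
  refine prod_pos fun i _ => ?_
  have h := two_pow_sub i
  have h2 : (0 : ℝ) < 2 ^ i := by positivity
  linarith

theorem mr_pr (r : ℕ) : mr r = c2 / pr r := mr_eq r

/-- the terms are summable -/
theorem summ (z : ℝ) : Summable fun r : ℕ => z ^ r / pr r := by
  rcases eq_or_ne z 0 with rfl | hz
  · refine summable_of_ne_finset_zero (s := {0}) fun r hr => ?_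
    rw [mem_singleton] at hr
    rw [zero_pow hr, zero_div]
  refine summable_of_ratio_test_tendsto_lt_one (l := 0) (by norm_num)
    (Eventually.of_forall fun r => div_ne_zero (pow_ne_zero r hz) (pr_pos r).ne') ?_
  have h1 : ∀ r : ℕ, ‖z ^ (r + 1) / pr (r + 1)‖ / ‖z ^ r / pr r‖ = |z| / (2 ^ (r + 1) - 1) := by
    intro r
    have h2 := pr_pos r
    have h3 : (0 : ℝ) < 2 ^ (r + 1) - 1 := lt_of_lt_of_le (by positivity) (two_pow_sub r)
    have h4 : |z| ≠ 0 := abs_ne_zero.2 hz
    rw [pr_succ, norm_div, norm_div, norm_pow, norm_pow, norm_mul, Real.norm_eq_abs,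
      Real.norm_eq_abs, Real.norm_eq_abs, abs_of_pos h2, abs_of_pos h3]
    field_simp
    rw [pow_succ]
  simp only [h1]
  have h2 : Tendsto (fun r : ℕ => |z| / (2 : ℝ) ^ r) atTop (𝓝 0) := by
    have := (tendsto_pow_atTop_nhds_zero_of_lt_one (r := (1 / 2 : ℝ)) (by norm_num)
      (by norm_num)).const_mul |z|
    rw [mul_zero] at this
    refine this.congr fun r => ?_
    rw [div_pow, one_pow]
    ring
  refine squeeze_zero (fun r => ?_) (fun r => ?_) h2
  · exact div_nonneg (abs_nonneg _) (le_trans (by positivity) (two_pow_sub r))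
  · exact div_le_div_of_nonneg_left (abs_nonneg _) (by positivity) (two_pow_sub r)

/-- the generating function -/
noncomputable def Gz (z : ℝ) : ℝ := ∑' r : ℕ, z ^ r / pr r

/-- the functional equation -/
theorem Gz_two (z : ℝ) : Gz (2 * z) = (1 + z) * Gz z := by
  have h1 : ∀ r : ℕ, (2 * z) ^ r / pr r = z ^ r / pr r + (2 ^ r - 1) * z ^ r / pr r := by
    intro r
    rw [mul_pow]
    ring
  have h2 : ∀ r : ℕ, ((2 : ℝ) ^ (r + 1) - 1) * z ^ (r + 1) / pr (r + 1) = z * (z ^ r / pr r) := by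
    intro r
    have h3 : (2 : ℝ) ^ (r + 1) - 1 ≠ 0 :=
      (lt_of_lt_of_le (by positivity) (two_pow_sub r) : (0 : ℝ) < 2 ^ (r + 1) - 1).ne'
    have h4 := (pr_pos r).ne'
    rw [pr_succ]
    field_simp
    rw [pow_succ]
    ring
  have hs : Summable fun r : ℕ => ((2 : ℝ) ^ r - 1) * z ^ r / pr r := by
    have := (summ (2 * z)).sub (summ z)
    refine this.congr fun r => ?_
    rw [h1]
    ring
  unfold Gz
  rw [tsum_congr h1, (summ z).tsum_add hs, hs.tsum_eq_zero_add, tsum_congr h2, tsum_mul_left]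
  simp only [pow_zero, sub_self, zero_mul, zero_div, zero_add]
  ring

theorem Gz_prod (z : ℝ) (N : ℕ) : Gz z = (∏ i ∈ range N, (1 + z / 2 ^ (i + 1))) * Gz (z / 2 ^ N) := by
  induction N with
  | zero => simp
  | succ N ih =>
    rw [prod_range_succ, ih]
    have e : z / 2 ^ N = 2 * (z / 2 ^ (N + 1)) := by
      rw [pow_succ]
      field_simp
    rw [e, Gz_two]
    ring

theorem Gz_ge {z : ℝ} (hz : 0 ≤ z) : 1 ≤ Gz z := by
  have h := (summ z).sum_le_tsum {0} fun r _ => div_nonneg (pow_nonneg hz r) (pr_pos r).le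
  simpa [pr, Gz] using h

theorem Gz_le {z : ℝ} (hz : 0 ≤ z) (hz1 : z ≤ 1) : Gz z ≤ 1 + z * Gz 1 := by
  have h1 : ∀ r : ℕ, z ^ (r + 1) / pr (r + 1) ≤ z * ((1 : ℝ) ^ (r + 1) / pr (r + 1)) := by
    intro r
    rw [one_pow, mul_one_div]
    refine div_le_div_of_nonneg_right ?_ (pr_pos _).le
    rw [pow_succ]
    have := pow_le_one₀ (n := r) hz hz1
    nlinarith
  have h2 : Gz z = 1 + ∑' r : ℕ, z ^ (r + 1) / pr (r + 1) := by
    unfold Gz
    rw [(summ z).tsum_eq_zero_add]
    simp [pr]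
  have h3 : Gz 1 = 1 + ∑' r : ℕ, (1 : ℝ) ^ (r + 1) / pr (r + 1) := by
    unfold Gz
    rw [(summ 1).tsum_eq_zero_add]
    simp [pr]
  have hs1 : Summable fun r : ℕ => z ^ (r + 1) / pr (r + 1) := (summable_nat_add_iff 1).2 (summ z)
  have hs2 : Summable fun r : ℕ => (1 : ℝ) ^ (r + 1) / pr (r + 1) :=
    (summable_nat_add_iff 1).2 (summ 1)
  have h4 := hs1.tsum_le_tsum h1 (hs2.mul_left z)
  rw [tsum_mul_left] at h4
  rw [h2, h3]
  nlinarith

theorem Gz_lim (z : ℝ) (hz : 0 ≤ z) : Tendsto (fun N : ℕ => Gz (z / 2 ^ N)) atTop (𝓝 1) := by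
  have h0 : Tendsto (fun N : ℕ => z / (2 : ℝ) ^ N) atTop (𝓝 0) := by
    have := (tendsto_pow_atTop_nhds_zero_of_lt_one (r := (1 / 2 : ℝ)) (by norm_num)
      (by norm_num)).const_mul z
    rw [mul_zero] at this
    refine this.congr fun r => ?_
    rw [div_pow, one_pow]
    ring
  have h1 : Tendsto (fun N : ℕ => 1 + z / (2 : ℝ) ^ N * Gz 1) atTop (𝓝 1) := by
    have := (h0.mul_const (Gz 1)).const_add 1
    rwa [zero_mul, add_zero] at this
  refine tendsto_of_tendsto_of_tendsto_of_le_of_le' tendsto_const_nhds h1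
    (Eventually.of_forall fun N => Gz_ge (by positivity)) ?_
  filter_upwards [h0.eventually (gt_mem_nhds (show (0 : ℝ) < 1 by norm_num))] with N hN
  exact Gz_le (by positivity) hN.le

/-- the mean of the law -/
noncomputable def mu : ℝ := ∑' i : ℕ, 1 / ((2 : ℝ) ^ (i + 1) + 1)

theorem mu_summ : Summable fun i : ℕ => 1 / ((2 : ℝ) ^ (i + 1) + 1) := by
  refine Summable.of_nonneg_of_le (fun i => by positivity) (fun i => ?_)
    (summable_geometric_two)
  rw [div_pow, one_pow]
  refine one_div_le_one_div_of_le (by positivity) ?_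
  rw [pow_succ]
  have : (0 : ℝ) < 2 ^ i := by positivity
  linarith

theorem mu_bounds : 0.764 < mu ∧ mu < 0.7646 := by
  have h := mu_summ.sum_add_tsum_nat_add 12
  have h0 : 0 ≤ ∑' i : ℕ, 1 / ((2 : ℝ) ^ (i + 12 + 1) + 1) := tsum_nonneg fun i => by positivity
  have h1 : ∑' i : ℕ, 1 / ((2 : ℝ) ^ (i + 12 + 1) + 1) ≤ 1 / 2 ^ 12 := by
    have hs : Summable fun i : ℕ => 1 / ((2 : ℝ) ^ (i + 12 + 1) + 1) :=
      (summable_nat_add_iff 12).2 mu_summ
    have h2 : ∀ i : ℕ, 1 / ((2 : ℝ) ^ (i + 12 + 1) + 1) ≤ 1 / 2 ^ 13 * (1 / 2) ^ i := by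
      intro i
      have e : (1 : ℝ) / 2 ^ 13 * (1 / 2) ^ i = 1 / 2 ^ (i + 12 + 1) := by
        rw [one_div_pow, div_mul_div_comm, one_mul, ← pow_add]
        congr 2
        omega
      rw [e]
      exact one_div_le_one_div_of_le (by positivity) (by linarith)
    have h3 := hs.tsum_le_tsum h2 (summable_geometric_two.mul_left _)
    rw [tsum_mul_left, tsum_geometric_two] at h3
    refine h3.trans ?_
    norm_num
  have h2 : mu = ∑ i ∈ range 12, 1 / ((2 : ℝ) ^ (i + 1) + 1) +
      ∑' i : ℕ, 1 / ((2 : ℝ) ^ (i + 12 + 1) + 1) := by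
    unfold mu
    rw [← h]
  rw [h2]
  generalize ∑' i : ℕ, 1 / ((2 : ℝ) ^ (i + 12 + 1) + 1) = t at h0 h1
  have h3 : (0.764 : ℝ) < ∑ i ∈ range 12, 1 / ((2 : ℝ) ^ (i + 1) + 1) ∧
      ∑ i ∈ range 12, 1 / ((2 : ℝ) ^ (i + 1) + 1) < 0.7643 := by
    simp only [sum_range_succ, sum_range_zero]
    constructor <;> norm_num
  have h4 : (1 : ℝ) / 2 ^ 12 < 0.0003 := by norm_num
  constructor
  · linarith [h3.1]
  · linarith [h3.2]

/-- the bound of the generating function -/
theorem Gz_exp {z : ℝ} (hz : 1 ≤ z) : Gz z ≤ Real.exp (mu * (z - 1)) * Gz 1 := by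
  have h1 : ∀ N : ℕ, Gz z ≤ Real.exp (mu * (z - 1)) * Gz 1 * Gz (z / 2 ^ N) := by
    intro N
    rw [Gz_prod z N, Gz_prod 1 N]
    have hG := Gz_ge (z := z / 2 ^ N) (by positivity)
    have hG1 := Gz_ge (z := 1 / 2 ^ N) (by positivity)
    have h2 : ∏ i ∈ range N, (1 + z / 2 ^ (i + 1)) ≤
        Real.exp (mu * (z - 1)) * ∏ i ∈ range N, (1 + 1 / (2 : ℝ) ^ (i + 1)) := by
      have h3 : ∀ i ∈ range N, 1 + z / 2 ^ (i + 1) ≤
          Real.exp ((z - 1) * (1 / ((2 : ℝ) ^ (i + 1) + 1))) * (1 + 1 / 2 ^ (i + 1)) := by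
        intro i _
        have h4 := Real.add_one_le_exp ((z - 1) * (1 / ((2 : ℝ) ^ (i + 1) + 1)))
        refine le_trans (le_of_eq ?_) (mul_le_mul_of_nonneg_right h4 (by positivity))
        field_simp
        ring
      refine (prod_le_prod (fun i _ => by positivity) h3).trans ?_
      rw [prod_mul_distrib, ← Real.exp_sum]
      refine mul_le_mul_of_nonneg_right ?_ (by positivity)
      rw [Real.exp_le_exp, ← mul_sum, mul_comm mu]
      refine mul_le_mul_of_nonneg_left ?_ (by linarith)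
      exact mu_summ.sum_le_tsum _ fun i _ => by positivity
    have h0 : 0 ≤ ∏ i ∈ range N, (1 + 1 / (2 : ℝ) ^ (i + 1)) := by positivity
    calc (∏ i ∈ range N, (1 + z / 2 ^ (i + 1))) * Gz (z / 2 ^ N) ≤
          (Real.exp (mu * (z - 1)) * ∏ i ∈ range N, (1 + 1 / (2 : ℝ) ^ (i + 1))) *
            Gz (z / 2 ^ N) := mul_le_mul_of_nonneg_right h2 (by linarith)
      _ ≤ (Real.exp (mu * (z - 1)) * ∏ i ∈ range N, (1 + 1 / (2 : ℝ) ^ (i + 1))) *
            Gz (z / 2 ^ N) * Gz (1 / 2 ^ N) := le_mul_of_one_le_right (by positivity) hG1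
      _ = _ := by ring
  have h2 := (Gz_lim z (by linarith)).const_mul (Real.exp (mu * (z - 1)) * Gz 1)
  rw [mul_one] at h2
  exact ge_of_tendsto' h2 h1

/-- Euler's product -/
theorem c2_Gz : c2 * Gz 1 = 1 := by
  set A : ℕ → ℝ := fun N => ∏ i ∈ range N, (1 + (1 : ℝ) / 2 ^ (i + 1)) with hA
  set C : ℕ → ℝ := fun N => ∏ i ∈ range N, (1 - (1 / 2 : ℝ) ^ (2 * i + 1)) with hC
  set E : ℕ → ℝ := fun N => ∏ i ∈ range N, (1 - (1 / 2 : ℝ) ^ (2 * i + 2)) with hE
  have hAB : ∀ N, A N * ∏ i ∈ range N, (1 - (1 / 2 : ℝ) ^ (i + 1)) = E N := by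
    intro N
    simp only [hA, hE]
    rw [← prod_mul_distrib]
    refine prod_congr rfl fun i _ => ?_
    have e : (1 / 2 : ℝ) ^ (2 * i + 2) = (1 / 2) ^ (i + 1) * (1 / 2) ^ (i + 1) := by
      rw [← pow_add]
      congr 1
      ring
    rw [e, one_div_pow]
    ring
  have hB : ∀ N, ∏ i ∈ range (2 * N), (1 - (1 / 2 : ℝ) ^ (i + 1)) = C N * E N := by
    intro N
    induction N with
    | zero => simp [hC, hE]
    | succ N ih =>
      rw [Nat.mul_succ, prod_range_succ, prod_range_succ, ih]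
      simp only [hC, hE]
      rw [prod_range_succ, prod_range_succ]
      ring
  have hE0 : ∀ N, 0 < E N := by
    intro N
    refine prod_pos fun i _ => ?_
    have : (1 / 2 : ℝ) ^ (2 * i + 2) < 1 := pow_lt_one₀ (by norm_num) (by norm_num) (by omega)
    linarith
  have hAC : ∀ N, A (2 * N) * C N = ∏ i ∈ Ico N (2 * N), (1 - (1 / 2 : ℝ) ^ (2 * i + 2)) := by
    intro N
    have h1 := hAB (2 * N)
    rw [hB] at h1
    have h2 : E (2 * N) = E N * ∏ i ∈ Ico N (2 * N), (1 - (1 / 2 : ℝ) ^ (2 * i + 2)) := by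
      simp only [hE]
      rw [prod_range_mul_prod_Ico _ (by omega)]
    rw [h2] at h1
    apply mul_left_cancel₀ (hE0 N).ne'
    linear_combination h1
  have hlim : Tendsto (fun N : ℕ => A (2 * N) * C N) atTop (𝓝 1) := by
    have h1 : ∀ N : ℕ, 1 - (1 / 2 : ℝ) ^ N ≤ A (2 * N) * C N := by
      intro N
      rw [hAC]
      have h2 : ∀ s : Finset ℕ,
          1 - ∑ i ∈ s, (1 / 2 : ℝ) ^ (2 * i + 2) ≤ ∏ i ∈ s, (1 - (1 / 2 : ℝ) ^ (2 * i + 2)) := by
        intro s
        induction s using Finset.induction_on with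
        | empty => simp
        | insert a s ha ih =>
          rw [sum_insert ha, prod_insert ha]
          have h5 := ih
          have h6 : (1 / 2 : ℝ) ^ (2 * a + 2) ≤ 1 := pow_le_one₀ (by norm_num) (by norm_num)
          have h7 : (0 : ℝ) ≤ (1 / 2 : ℝ) ^ (2 * a + 2) := by positivity
          have h8 : (0 : ℝ) ≤ ∑ i ∈ s, (1 / 2 : ℝ) ^ (2 * i + 2) := by positivity
          have h9 := mul_le_mul_of_nonneg_left h5 (by linarith : (0 : ℝ) ≤ 1 - (1 / 2) ^ (2 * a + 2))
          nlinarith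
      refine le_trans ?_ (h2 _)
      have h3 : ∑ i ∈ Ico N (2 * N), (1 / 2 : ℝ) ^ (2 * i + 2) ≤ (1 / 2) ^ N := by
        have h4 : ∀ i ∈ Ico N (2 * N), (1 / 2 : ℝ) ^ (2 * i + 2) ≤ (1 / 2) ^ N * (1 / 2) ^ (i + 2) := by
          intro i hi
          rw [← pow_add]
          refine pow_le_pow_of_le_one (by norm_num) (by norm_num) ?_
          have := (mem_Ico.1 hi).1
          omega
        refine (sum_le_sum h4).trans ?_
        rw [← mul_sum]
        refine mul_le_of_le_one_right (by positivity) ?_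
        have h5 : ∑ i ∈ Ico N (2 * N), (1 / 2 : ℝ) ^ (i + 2) ≤ ∑' i : ℕ, (1 / 2 : ℝ) ^ i := by
          refine le_trans (sum_le_sum fun i _ => pow_le_pow_of_le_one (by norm_num) (by norm_num)
            (by omega : i ≤ i + 2)) (summable_geometric_two.sum_le_tsum _ fun i _ => by positivity)
        have h6 : ∑ i ∈ Ico N (2 * N), (1 / 2 : ℝ) ^ (i + 2) =
            1 / 4 * ∑ i ∈ Ico N (2 * N), (1 / 2 : ℝ) ^ i := by
          rw [mul_sum]
          refine sum_congr rfl fun i _ => ?_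
          rw [pow_add]
          ring
        have h7 : ∑ i ∈ Ico N (2 * N), (1 / 2 : ℝ) ^ i ≤ 2 := by
          have := summable_geometric_two.sum_le_tsum (Ico N (2 * N)) fun i _ => by positivity
          rwa [tsum_geometric_two] at this
        rw [h6]
        linarith
      linarith
    have h2 : ∀ N : ℕ, A (2 * N) * C N ≤ 1 := by
      intro N
      rw [hAC]
      refine prod_le_one (fun i _ => ?_) fun i _ => ?_
      · have : (1 / 2 : ℝ) ^ (2 * i + 2) ≤ 1 := pow_le_one₀ (by norm_num) (by norm_num)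
        linarith
      · have : (0 : ℝ) ≤ (1 / 2 : ℝ) ^ (2 * i + 2) := by positivity
        linarith
    have h3 : Tendsto (fun N : ℕ => 1 - (1 / 2 : ℝ) ^ N) atTop (𝓝 1) := by
      have := (tendsto_pow_atTop_nhds_zero_of_lt_one (r := (1 / 2 : ℝ)) (by norm_num)
        (by norm_num)).const_sub 1
      rwa [sub_zero] at this
    exact tendsto_of_tendsto_of_tendsto_of_le_of_le h3 tendsto_const_nhds h1 h2
  -- the limits
  have hCl : Tendsto C atTop (𝓝 c2) := by
    have hm : Multipliable fun i : ℕ => (1 - (1 / 2 : ℝ) ^ (2 * i + 1)) := by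
      have h1 : Summable fun i : ℕ => (1 / 2 : ℝ) ^ (2 * i + 1) :=
        Summable.of_nonneg_of_le (fun i => by positivity)
          (fun i => pow_le_pow_of_le_one (by norm_num) (by norm_num) (by omega : i ≤ 2 * i + 1))
          summable_geometric_two
      have h2 := multipliable_one_add_of_summable (f := fun i : ℕ => -(1 / 2 : ℝ) ^ (2 * i + 1))
        (by simpa using h1)
      simpa [sub_eq_add_neg] using h2
    have h1 := hm.hasProd.tendsto_prod_nat
    exact h1
  have h2N : Tendsto (fun N : ℕ => 2 * N) atTop atTop :=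
    tendsto_id.const_mul_atTop' (by norm_num)
  have hGl := (Gz_lim 1 zero_le_one).comp h2N
  have h1 : Tendsto (fun N : ℕ => C N * Gz 1) atTop (𝓝 (c2 * Gz 1)) := hCl.mul_const _
  have h2 : Tendsto (fun N : ℕ => C N * Gz 1) atTop (𝓝 1) := by
    have h3 := hlim.mul hGl
    rw [mul_one] at h3
    refine h3.congr fun N => ?_
    have h4 := Gz_prod 1 (2 * N)
    simp only [Function.comp]
    rw [h4]
    ring
  exact tendsto_nhds_unique h1 h2

theorem mr_hasSum : HasSum mr 1 := by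
  have h := ((summ 1).hasSum).mul_left c2
  have e : c2 * ∑' r : ℕ, (1 : ℝ) ^ r / pr r = 1 := c2_Gz
  rw [e] at h
  refine h.congr_fun fun r => ?_
  rw [mr_pr, one_pow]
  ring

/-- the exponential moments -/
theorem mr_exp {z : ℝ} (hz : 1 ≤ z) (B : ℕ) :
    ∑ r ∈ range B, mr r * z ^ r ≤ Real.exp (mu * (z - 1)) := by
  have hc : 0 < c2 := by
    have := Gz_ge (z := 1) zero_le_one
    have h := c2_Gz
    by_contra h0
    nlinarith
  have h1 : ∑ r ∈ range B, mr r * z ^ r ≤ c2 * Gz z := by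
    have h2 := (summ z).sum_le_tsum (range B) fun r _ =>
      div_nonneg (pow_nonneg (by linarith) r) (pr_pos r).le
    have h3 : ∑ r ∈ range B, mr r * z ^ r = c2 * ∑ r ∈ range B, z ^ r / pr r := by
      rw [mul_sum]
      refine sum_congr rfl fun r _ => ?_
      rw [mr_pr]
      ring
    rw [h3]
    exact mul_le_mul_of_nonneg_left h2 hc.le
  refine h1.trans ?_
  have h2 := mul_le_mul_of_nonneg_left (Gz_exp hz) hc.le
  refine h2.trans (le_of_eq ?_)
  have h3 := c2_Gz
  linear_combination (Real.exp (mu * (z - 1))) * h3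

/-- the mean of the law -/
theorem mr_mean (B : ℕ) : ∑ r ∈ range B, (r : ℝ) * mr r ≤ mu := by
  -- for `z = 1 + h`
  have hsum : ∑ r ∈ range B, mr r ≤ 1 := by
    have := mr_hasSum.summable.sum_le_tsum (range B) fun r _ => mr_nonneg r
    rwa [mr_hasSum.tsum_eq] at this
  have hall : ∀ z : ℝ, 1 ≤ z → ∑ r ∈ range B, mr r * z ^ r ≤ Real.exp (mu * (z - 1)) * 1 := by
    intro z hz
    rw [mul_one]
    exact mr_exp hz B
  -- the tail
  have key : ∀ h : ℝ, 0 < h → (∑ r ∈ range B, (r : ℝ) * mr r) * h ≤ Real.exp (mu * h) - 1 := by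
    intro h hh
    -- all sums up to `B'`
    have h1 : ∀ B' : ℕ, B ≤ B' → ∑ r ∈ range B', mr r +
        (∑ r ∈ range B, (r : ℝ) * mr r) * h ≤ Real.exp (mu * h) := by
      intro B' hB
      have h2 := mr_exp (z := 1 + h) (by linarith) B'
      rw [add_sub_cancel_left] at h2
      refine le_trans ?_ h2
      have h3 : ∑ r ∈ range B', mr r + (∑ r ∈ range B', (r : ℝ) * mr r) * h ≤
          ∑ r ∈ range B', mr r * (1 + h) ^ r := by
        rw [sum_mul, ← sum_add_distrib]
        refine sum_le_sum fun r _ => ?_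
        have h4 := one_add_mul_le_pow (a := h) (by linarith) r
        have h5 := mul_le_mul_of_nonneg_left h4 (mr_nonneg r)
        refine le_trans (le_of_eq ?_) h5
        ring
      refine le_trans ?_ h3
      have h4 : ∑ r ∈ range B, (r : ℝ) * mr r ≤ ∑ r ∈ range B', (r : ℝ) * mr r :=
        sum_le_sum_of_subset_of_nonneg (range_mono hB) fun r _ _ =>
          mul_nonneg (Nat.cast_nonneg r) (mr_nonneg r)
      have h5 := mul_le_mul_of_nonneg_right h4 hh.le
      linarith
    have h2 := mr_hasSum.tendsto_sum_nat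
    have h3 : 1 + (∑ r ∈ range B, (r : ℝ) * mr r) * h ≤ Real.exp (mu * h) := by
      refine le_of_tendsto (h2.add_const _) ?_
      filter_upwards [eventually_ge_atTop B] with B' hB
      exact h1 B' hB
    linarith
  have hmu := mu_bounds
  -- the limit
  have h1 : Tendsto (fun n : ℕ => (Real.exp (mu * (1 / ((n : ℝ) + 1))) - 1) / (1 / ((n : ℝ) + 1)))
      atTop (𝓝 mu) := by
    have h2 : HasDerivAt (fun x : ℝ => Real.exp (mu * x)) (mu) 0 := by
      have h3 := ((hasDerivAt_id (0 : ℝ)).const_mul mu).exp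
      simpa using h3
    have h3 := h2.tendsto_slope_zero_right
    have h4 : Tendsto (fun n : ℕ => 1 / ((n : ℝ) + 1)) atTop (𝓝[>] 0) := by
      rw [tendsto_nhdsWithin_iff]
      exact ⟨tendsto_one_div_add_atTop_nhds_zero_nat, Eventually.of_forall fun n => by
        simp only [Set.mem_Ioi]
        positivity⟩
    have h5 := h3.comp h4
    refine h5.congr fun n => ?_
    simp only [Function.comp, zero_add, mul_zero, Real.exp_zero, smul_eq_mul]
    exact (div_eq_inv_mul _ _).symm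
  refine ge_of_tendsto' h1 fun n => ?_
  rw [le_div_iff₀ (by positivity)]
  exact key _ (by positivity)

end Pool.Agent.R413.CK
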