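import Pool.Agent.Y697.PQ.Jt

/-! Several symmetric forms which are completed by the same form: the dimensions of the kernels of the
completions are asymptotically independent, with the limit law of the corank of a random symmetric
matrix over `𝔽₂` (after `Pool.Agent.Y697.PQ.Jt` of helper697, which treats the nonsingular completions). -/

set_option autoImplicit false

namespace Pool.Agent.R413.CK

open Finset Module Filter Topology
open Pool.Agent.Y697.PP (Sy Nd YY mem_YY)
open Pool.Agent.Y697.PQ (cf cf_pos ij pp pp_eq pp_one pp_mid pp_big pp_even pp_odd ff ff_pos ff_le_one gi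
  gi_tendsto gi_ge gi_le pm1 tri est JJ mem_JJ finrank_JJ nd_JJ finrank_sup_span Nn mem_Nn dbl)

/-- the limit of the proportion of the symmetric matrices of corank `r` -/
noncomputable def mr (r : ℕ) : ℝ := cf r * gi

theorem cf_le_one (j : ℕ) : cf j ≤ 1 := by
  have h := ff_le_one j
  unfold ff at h
  have h1 : (1 : ℝ) ≤ 2 ^ (j * (j - 1) / 2) := one_le_pow₀ (by norm_num)
  nlinarith [cf_pos j]

theorem gi_nonneg : 0 ≤ gi := le_trans (by norm_num) gi_ge

theorem mr_nonneg (r : ℕ) : 0 ≤ mr r := mul_nonneg (cf_pos r).le gi_nonneg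

theorem mr_le_one (r : ℕ) : mr r ≤ 1 := mul_le_one₀ (cf_le_one r) gi_nonneg gi_le

theorem mr_zero : mr 0 = gi := by simp [mr, cf]

theorem ij_self (r : ℕ) : cf r * ij r (2 ^ r) = 2 ^ (r * (r - 1) / 2) := by
  induction r with
  | zero => simp [cf, ij]
  | succ r ih =>
    have h1 : ij (r + 1) ((2 : ℝ) ^ (r + 1)) = (2 ^ (r + 1) - 1) * (2 ^ r * ij r (2 ^ r)) := by
      unfold ij
      rw [prod_range_succ', pow_zero, mul_comm]
      congr 1
      have h2 : (2 : ℝ) ^ r = ∏ _i ∈ range r, (2 : ℝ) := by rw [prod_const, card_range]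
      conv_rhs => rw [h2, ← prod_mul_distrib]
      refine prod_congr rfl fun i _ => ?_
      rw [← h2, pow_succ, pow_succ]
      ring
    rw [h1, tri, pow_add (2 : ℝ) (r * (r - 1) / 2) r, ← ih, show cf (r + 1) = cf r / (2 ^ (r + 1) - 1) from rfl]
    have h3 : (2 : ℝ) ^ (r + 1) - 1 ≠ 0 := by have := pm1 r; linarith
    field_simp

theorem ij_add (r i : ℕ) (x : ℝ) : ij (r + i) x = ij r x * (2 ^ (r * i) * ij i (x / 2 ^ r)) := by
  unfold ij
  rw [prod_range_add]
  congr 1
  have h2 : (2 : ℝ) ^ (r * i) = ∏ _i ∈ range i, (2 : ℝ) ^ r := by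
    rw [prod_const, card_range, ← pow_mul]
  rw [h2, ← prod_mul_distrib]
  refine prod_congr rfl fun l _ => ?_
  rw [pow_add]
  field_simp

/-- the coefficients -/
noncomputable def qc (r i : ℕ) : ℝ := cf r * cf i / 2 ^ (r * (r - 1) / 2 + r * i)

theorem qc_pos (r i : ℕ) : 0 < qc r i := div_pos (mul_pos (cf_pos r) (cf_pos i)) (by positivity)

/-- the alternating sums -/
noncomputable def qq (r J : ℕ) (x : ℝ) : ℝ :=
  ∑ i ∈ range (J + 1), (-1) ^ i * qc r i * ij (r + i) x

theorem qq_eq (r J : ℕ) (x : ℝ) :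
    qq r J x = cf r * ij r x / 2 ^ (r * (r - 1) / 2) * pp J (x / 2 ^ r) := by
  unfold qq
  rw [← pp_eq, mul_sum]
  refine sum_congr rfl fun i _ => ?_
  rw [ij_add]
  unfold qc
  rw [pow_add]
  field_simp

theorem ij_lt {R r : ℕ} (h : R < r) : ij r ((2 : ℝ) ^ R) = 0 :=
  prod_eq_zero (mem_range.2 h) (sub_self _)

theorem ij_nonneg {R r : ℕ} (h : r ≤ R) : 0 ≤ ij r ((2 : ℝ) ^ R) := by
  refine prod_nonneg fun i hi => ?_
  rw [mem_range] at hi
  have := pow_le_pow_right₀ (show (1 : ℝ) ≤ 2 by norm_num) (show i ≤ R by omega)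
  linarith

theorem qq_lt {R r : ℕ} (J : ℕ) (h : R < r) : qq r J ((2 : ℝ) ^ R) = 0 := by
  rw [qq_eq, ij_lt h, mul_zero, zero_div, zero_mul]

theorem qq_self (r J : ℕ) : qq r J ((2 : ℝ) ^ r) = 1 := by
  rw [qq_eq, ij_self, div_self (by positivity), div_self (by positivity), pp_one, mul_one]

theorem qq_gt {R r : ℕ} (J : ℕ) (h : r < R) : qq r J ((2 : ℝ) ^ R) =
    cf r * ij r ((2 : ℝ) ^ R) / 2 ^ (r * (r - 1) / 2) * pp J (2 ^ (R - r)) := by
  rw [qq_eq]
  congr 2
  rw [div_eq_iff (by positivity), ← pow_add]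
  congr 1
  omega

theorem qq_even {J : ℕ} (hJ : Even J) (r R : ℕ) :
    (if R = r then (1 : ℝ) else 0) ≤ qq r J (2 ^ R) := by
  rcases lt_trichotomy R r with h | h | h
  · rw [if_neg (by omega), qq_lt J h]
  · rw [if_pos h, h, qq_self]
  · rw [if_neg (by omega), qq_gt J h]
    have h1 := pp_even hJ (R - r)
    rw [if_neg (by omega)] at h1
    have h2 := ij_nonneg h.le
    have h3 := (cf_pos r).le
    positivity

theorem qq_odd {J : ℕ} (hJ : Odd J) (r R : ℕ) :
    qq r J (2 ^ R) ≤ (if R = r then (1 : ℝ) else 0) := by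
  rcases lt_trichotomy R r with h | h | h
  · rw [if_neg (by omega), qq_lt J h]
  · rw [if_pos h, h, qq_self]
  · rw [if_neg (by omega), qq_gt J h]
    have h1 := pp_odd hJ (R - r)
    rw [if_neg (by omega)] at h1
    have h2 := ij_nonneg h.le
    have h3 := (cf_pos r).le
    exact mul_nonpos_of_nonneg_of_nonpos (by positivity) h1

theorem tri_add' (r i : ℕ) :
    (r + i) * (r + i - 1) / 2 = r * (r - 1) / 2 + r * i + i * (i - 1) / 2 := by
  induction i with
  | zero => simp
  | succ i ih =>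
    have h1 := tri (r + i)
    have h2 := tri i
    rw [← add_assoc, h1, ih, h2]
    ring

theorem qc_mul (r i : ℕ) : qc r i * 2 ^ ((r + i) * (r + i - 1) / 2) = cf r * ff i := by
  unfold qc ff
  rw [tri_add', pow_add (2 : ℝ) (r * (r - 1) / 2 + r * i)]
  field_simp

open Classical in
theorem sum_qq {V : Type} [AddCommGroup V] [Module (ZMod 2) V] [Fintype V]
    {𝒴 : Finset (LinearMap.BilinForm (ZMod 2) V)} {B : LinearMap.BilinForm (ZMod 2) V} {γ N δ : ℝ}
    (hN : 0 ≤ N) {r J : ℕ}
    (h : ∀ j ≤ r + J, |∑ Y ∈ 𝒴, ij j (2 ^ finrank (ZMod 2) (LinearMap.ker (B + Y))) -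
      γ * 2 ^ (j * (j - 1) / 2) * N| ≤ 2 ^ (j * (j - 1) / 2) * N * δ) (hδ : 0 ≤ δ) :
    |∑ Y ∈ 𝒴, qq r J (2 ^ finrank (ZMod 2) (LinearMap.ker (B + Y))) -
      γ * (cf r * ∑ j ∈ range (J + 1), (-1) ^ j * ff j) * N| ≤ N * ((J + 1) * δ) := by
  have h1 : ∑ Y ∈ 𝒴, qq r J (2 ^ finrank (ZMod 2) (LinearMap.ker (B + Y))) =
      ∑ j ∈ range (J + 1), (-1) ^ j * qc r j *
        ∑ Y ∈ 𝒴, ij (r + j) (2 ^ finrank (ZMod 2) (LinearMap.ker (B + Y))) := by
    simp only [qq, Finset.mul_sum]
    exact Finset.sum_comm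
  have h2 : γ * (cf r * ∑ j ∈ range (J + 1), (-1) ^ j * ff j) * N =
      ∑ j ∈ range (J + 1), (-1) ^ j * qc r j * (γ * 2 ^ ((r + j) * (r + j - 1) / 2) * N) := by
    rw [Finset.mul_sum, Finset.mul_sum, Finset.sum_mul]
    refine Finset.sum_congr rfl fun j _ => ?_
    have := qc_mul r j
    linear_combination (-(γ * N * (-1) ^ j)) * this
  rw [h1, h2, ← Finset.sum_sub_distrib]
  refine (Finset.abs_sum_le_sum_abs _ _).trans ?_
  have h3 : ∀ j ∈ range (J + 1), |(-1) ^ j * qc r j *
      ∑ Y ∈ 𝒴, ij (r + j) (2 ^ finrank (ZMod 2) (LinearMap.ker (B + Y))) -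
      (-1) ^ j * qc r j * (γ * 2 ^ ((r + j) * (r + j - 1) / 2) * N)| ≤ N * δ := by
    intro j hj
    rw [Finset.mem_range] at hj
    have h4 := h (r + j) (by omega)
    rw [← mul_sub, abs_mul, abs_mul, abs_pow, abs_neg, abs_one, one_pow, one_mul,
      abs_of_pos (qc_pos r j)]
    refine (mul_le_mul_of_nonneg_left h4 (qc_pos r j).le).trans ?_
    have h6 : qc r j * (2 ^ ((r + j) * (r + j - 1) / 2) * N * δ) = cf r * ff j * (N * δ) := by
      rw [← qc_mul]
      ring
    rw [h6]
    refine mul_le_of_le_one_left (mul_nonneg hN hδ) ?_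
    exact mul_le_one₀ (cf_le_one r) (ff_pos j).le (ff_le_one j)
  refine (Finset.sum_le_sum h3).trans (le_of_eq ?_)
  rw [Finset.sum_const, Finset.card_range, nsmul_eq_mul]
  push_cast
  ring

theorem prod_mr {M : ℕ} (r : Fin M → ℕ) : 0 ≤ ∏ k, mr (r k) ∧ ∏ k, mr (r k) ≤ 1 :=
  ⟨prod_nonneg fun k _ => mr_nonneg _, prod_le_one (fun k _ => mr_nonneg _) fun k _ => mr_le_one _⟩

open Classical in
/-- **the joint law of the dimensions of the kernels** -/
theorem thmR (M : ℕ) : ∀ (r : Fin M → ℕ) (ε : ℝ), 0 < ε → ∃ R : ℕ, ∀ (V : Type) [AddCommGroup V]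
    [Module (ZMod 2) V] [Fintype V] (W : Submodule (ZMod 2) V)
    (B : Fin M → LinearMap.BilinForm (ZMod 2) V) (d t : ℕ),
    (∀ k, Sy (B k)) → (∀ k, Nd (B k) W) →
    (∀ k l, k ≠ l → finrank (ZMod 2) (JJ (B k) (B l) W) ≤ d) → finrank (ZMod 2) W ≤ d →
    finrank (ZMod 2) W + t = finrank (ZMod 2) V → d + R ≤ t →
    |(((YY W).filter fun Y => ∀ k, finrank (ZMod 2) (LinearMap.ker (B k + Y)) = r k).card : ℝ) -
      (∏ k, mr (r k)) * (YY W).card| ≤ ε * (YY W).card := by
  induction M with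
  | zero =>
    intro r ε hε
    refine ⟨0, ?_⟩
    intro V _ _ _ W B d t _ _ _ _ _ _
    have h1 : ((YY W).filter fun Y => ∀ k : Fin 0,
        finrank (ZMod 2) (LinearMap.ker (B k + Y)) = r k) = YY W :=
      Finset.filter_true_of_mem fun Y _ k => k.elim0
    rw [h1, Fin.prod_univ_zero, one_mul, sub_self, abs_zero]
    positivity
  | succ M ih =>
    intro r ε hε
    obtain ⟨n₀, hn₀⟩ := (Metric.tendsto_atTop.1 gi_tendsto) (ε / 3) (by positivity)
    set J : ℕ := 2 * n₀ + 1 with hJ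
    set η : ℝ := ε / (3 * (J + 2)) with hη
    have hη0 : 0 < η := by positivity
    obtain ⟨R₁, hR₁⟩ := ih (fun k => r k.succ) η hη0
    set e : ℕ := r 0 + J + 1 with he
    obtain ⟨R₂, hR₂⟩ : ∃ R₂ : ℕ, ((M : ℝ) + 1) * 2 ^ e * (J + 2) * 3 / ε < 2 ^ R₂ :=
      pow_unbounded_of_one_lt _ (by norm_num)
    refine ⟨R₁ + R₂ + 2 * e, ?_⟩
    intro V _ _ _ W B d t hSy hNd hJJ hWd ht hR
    have hfin : Module.Finite (ZMod 2) V := Module.Finite.of_finite
    obtain ⟨G, hG⟩ : ∃ G : LinearMap.BilinForm (ZMod 2) V → Prop,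
        ∀ Y, G Y ↔ ∀ k : Fin M, finrank (ZMod 2) (LinearMap.ker (B k.succ + Y)) = r k.succ :=
      ⟨_, fun _ => Iff.rfl⟩
    set γ : ℝ := ∏ k : Fin M, mr (r k.succ) with hγ
    obtain ⟨hγ0, hγ1⟩ := prod_mr fun k : Fin M => r k.succ
    set N : ℝ := ((YY W).card : ℝ) with hNdef
    have hN0 : 0 ≤ N := Nat.cast_nonneg _
    -- the exceptional set
    set Z : Finset V := (univ.filter fun x => x ∈ W) ∪
      (univ : Finset (Fin M)).biUnion fun k =>
        (univ.filter fun p : V × V => p ∈ JJ (B 0) (B k.succ) W).image Prod.fst with hZ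
    have hcard : ∀ (E : Type) [AddCommGroup E] [Module (ZMod 2) E] [Fintype E]
        (S : Submodule (ZMod 2) E), (univ.filter fun x => x ∈ S).card = 2 ^ finrank (ZMod 2) S := by
      intro E _ _ _ S
      have hfinE : Module.Finite (ZMod 2) E := Module.Finite.of_finite
      have h1 : (univ.filter fun x => x ∈ S).card = Nat.card S := by
        rw [Nat.card_eq_fintype_card, ← Fintype.card_coe]
        exact Fintype.card_congr (Equiv.subtypeEquivRight fun x => by simp)
      rw [h1, Module.natCard_eq_pow_finrank (K := ZMod 2), Nat.card_zmod]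
    have hZc : Z.card ≤ (M + 1) * 2 ^ d := by
      have h1 : (univ.filter fun x => x ∈ W).card ≤ 2 ^ d := by
        rw [hcard V W]
        exact Nat.pow_le_pow_right (by norm_num) hWd
      have h2 : ((univ : Finset (Fin M)).biUnion fun k =>
          (univ.filter fun p : V × V => p ∈ JJ (B 0) (B k.succ) W).image Prod.fst).card ≤
          M * 2 ^ d := by
        refine Finset.card_biUnion_le.trans ?_
        have h3 : ∀ k ∈ (univ : Finset (Fin M)), ((univ.filter fun p : V × V =>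
            p ∈ JJ (B 0) (B k.succ) W).image Prod.fst).card ≤ 2 ^ d := by
          intro k _
          refine Finset.card_image_le.trans ?_
          rw [hcard (V × V) (JJ (B 0) (B k.succ) W)]
          exact Nat.pow_le_pow_right (by norm_num) (hJJ 0 k.succ (Fin.succ_ne_zero k).symm)
        refine (Finset.sum_le_sum h3).trans (le_of_eq ?_)
        rw [Finset.sum_const, Finset.card_univ, Fintype.card_fin, smul_eq_mul]
      refine (Finset.card_union_le _ _).trans ?_
      rw [add_mul, one_mul]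
      omega
    set δ : ℝ := η + Z.card * 2 ^ e / 2 ^ t with hδ
    have hδ0 : 0 ≤ δ := by positivity
    -- the estimate
    have hest : ∀ j ≤ e, |∑ Y ∈ (YY W).filter G,
        ij j (2 ^ finrank (ZMod 2) (LinearMap.ker (B 0 + Y))) -
        γ * 2 ^ (j * (j - 1) / 2) * N| ≤ 2 ^ (j * (j - 1) / 2) * N * δ := by
      intro j hj
      have h1 := est (hSy 0) (hNd 0) ht G (γ := γ) (ε := η) hγ0
        hγ1 hη0.le (j := j) (by omega) Z
        (fun w hw => Finset.mem_union_left _ (Finset.mem_filter.2 ⟨Finset.mem_univ _, hw⟩)) ?_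
      · refine h1.trans ?_
        apply mul_le_mul_of_nonneg_left _ (by positivity)
        rw [hδ]
        have h2 : (2 : ℝ) ^ j ≤ 2 ^ e := pow_le_pow_right₀ (by norm_num) hj
        gcongr
      · intro v hvN hLI hvZ hd Y₀ hY₀ hY₀U
        have hY' := mem_YY.1 hY₀
        have hUW : ∀ u ∈ Submodule.span (ZMod 2) (Set.range v), ∀ w ∈ W, B 0 u w = 0 := by
          intro u hu
          have : Submodule.span (ZMod 2) (Set.range v) ≤ Nn (B 0) W := by
            rw [Submodule.span_le]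
            rintro x ⟨i, rfl⟩
            exact hvN i
          exact mem_Nn.1 (this hu)
        have hfr := finrank_sup_span hLI hd
        have h2 := hR₁ V (W ⊔ Submodule.span (ZMod 2) (Set.range v))
          (fun k => B k.succ + Y₀) (d + j) (t - j)
          (fun k => (hSy k.succ).add hY'.1) (fun k => ?_) (fun k l hkl => ?_) (by omega) (by omega)
          (by omega)
        · have h3 : ((YY (W ⊔ Submodule.span (ZMod 2) (Set.range v))).filter
              fun Y => G (Y₀ + Y)) =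
              (YY (W ⊔ Submodule.span (ZMod 2) (Set.range v))).filter
              fun Y => ∀ k : Fin M,
                finrank (ZMod 2) (LinearMap.ker (B k.succ + Y₀ + Y)) = r k.succ := by
            ext Y
            simp only [Finset.mem_filter, hG]
            refine and_congr_right fun _ => forall_congr' fun k => ?_
            rw [add_assoc]
          rw [h3]
          exact h2
        · refine nd_JJ (hNd k.succ) hY₀ hY₀U hUW ?_
          intro u hu hu0 b hb
          obtain ⟨c, rfl⟩ := (Submodule.mem_span_range_iff_exists_fun (ZMod 2)).1 hu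
          refine hvZ c (fun hc => hu0 (by rw [hc]; simp)) ?_
          rw [hZ]
          refine Finset.mem_union_right _ (Finset.mem_biUnion.2 ⟨k, Finset.mem_univ _, ?_⟩)
          exact Finset.mem_image.2 ⟨_, Finset.mem_filter.2 ⟨Finset.mem_univ _, hb⟩, rfl⟩
        · have h3 := finrank_JJ (B := B k.succ) (B' := B l.succ) hY₀ v
          have h4 := hJJ k.succ l.succ (fun h => hkl (Fin.succ_injective _ h))
          omega
    have hδ' : (J + 2) * δ ≤ 2 * ε / 3 := by
      have h1 : ((J : ℝ) + 2) * η = ε / 3 := by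
        rw [hη]
        field_simp
      have h2 : (Z.card : ℝ) * 2 ^ e / 2 ^ t ≤ (M + 1) * 2 ^ e / 2 ^ R₂ := by
        rw [div_le_div_iff₀ (by positivity) (by positivity)]
        have h3 : (Z.card : ℝ) ≤ (M + 1) * 2 ^ d := by exact_mod_cast hZc
        have h4 : (2 : ℝ) ^ d * 2 ^ R₂ ≤ 2 ^ t := by
          rw [← pow_add]
          exact pow_le_pow_right₀ (by norm_num) (by omega)
        calc (Z.card : ℝ) * 2 ^ e * 2 ^ R₂ ≤ (M + 1) * 2 ^ d * 2 ^ e * 2 ^ R₂ := by
              gcongr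
          _ = (M + 1) * 2 ^ e * (2 ^ d * 2 ^ R₂) := by ring
          _ ≤ _ := by gcongr
      have h3 : ((J : ℝ) + 2) * ((M + 1) * 2 ^ e / 2 ^ R₂) ≤ ε / 3 := by
        rw [← mul_div_assoc, div_le_div_iff₀ (by positivity) (by norm_num)]
        rw [div_lt_iff₀ hε] at hR₂
        nlinarith
      have h4 : ((J : ℝ) + 2) * δ = (J + 2) * η + (J + 2) * (Z.card * 2 ^ e / 2 ^ t) := by
        rw [hδ]
        ring
      have h5 : ((J : ℝ) + 2) * (Z.card * 2 ^ e / 2 ^ t) ≤ ε / 3 :=
        (mul_le_mul_of_nonneg_left h2 (by positivity)).trans h3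
      rw [h4, h1]
      linarith
    -- the count
    have hcnt : (((YY W).filter fun Y =>
          ∀ k, finrank (ZMod 2) (LinearMap.ker (B k + Y)) = r k).card : ℝ) =
        ∑ Y ∈ (YY W).filter G,
          (if finrank (ZMod 2) (LinearMap.ker (B 0 + Y)) = r 0 then (1 : ℝ) else 0) := by
      rw [← Finset.sum_filter, Finset.sum_const, nsmul_eq_mul, mul_one, Finset.filter_filter]
      congr 2
      ext Y
      simp only [Finset.mem_filter, hG]
      rw [Fin.forall_fin_succ, and_comm (a := finrank (ZMod 2) _ = r 0)]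
    have hsum : ∀ n, n₀ ≤ n → |∑ i ∈ range n, (-1) ^ i * ff i - gi| ≤ ε / 3 := by
      intro n hn
      have := hn₀ n hn
      rw [Real.dist_eq] at this
      exact this.le
    have hprod : ∏ k : Fin (M + 1), mr (r k) = γ * (cf (r 0) * gi) := by
      rw [Fin.prod_univ_succ, mul_comm]
      rfl
    have hmain : ∀ I, I ≤ J + 1 → n₀ ≤ I + 1 →
        |∑ Y ∈ (YY W).filter G, qq (r 0) I (2 ^ finrank (ZMod 2) (LinearMap.ker (B 0 + Y))) -
          (∏ k : Fin (M + 1), mr (r k)) * N| ≤ ε * N := by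
      intro I hI hI'
      have h1 := sum_qq (γ := γ) (N := N) (δ := δ) hN0 (r := r 0) (J := I)
        (fun j hj => hest j (by omega)) hδ0
      have h2 := hsum (I + 1) hI'
      have h3 : |γ * (cf (r 0) * ∑ j ∈ range (I + 1), (-1) ^ j * ff j) * N -
          (∏ k : Fin (M + 1), mr (r k)) * N| ≤ ε / 3 * N := by
        have h4 : γ * (cf (r 0) * ∑ j ∈ range (I + 1), (-1) ^ j * ff j) * N -
            (∏ k : Fin (M + 1), mr (r k)) * N =
            γ * cf (r 0) * ((∑ j ∈ range (I + 1), (-1) ^ j * ff j) - gi) * N := by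
          rw [hprod]
          ring
        have h5 : 0 ≤ γ * cf (r 0) := mul_nonneg hγ0 (cf_pos _).le
        rw [h4, abs_mul, abs_mul, abs_of_nonneg hN0, abs_of_nonneg h5]
        apply mul_le_mul_of_nonneg_right _ hN0
        calc γ * cf (r 0) * |(∑ j ∈ range (I + 1), (-1) ^ j * ff j) - gi| ≤ 1 * (ε / 3) :=
              mul_le_mul (mul_le_one₀ hγ1 (cf_pos _).le (cf_le_one _)) h2 (abs_nonneg _) zero_le_one
          _ = _ := one_mul _
      have h5 : N * (((I : ℝ) + 1) * δ) ≤ N * (2 * ε / 3) := by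
        apply mul_le_mul_of_nonneg_left _ hN0
        refine le_trans ?_ hδ'
        apply mul_le_mul_of_nonneg_right _ hδ0
        have : (I : ℝ) ≤ J + 1 := by exact_mod_cast hI
        linarith
      have h6 := abs_sub_le
        (∑ Y ∈ (YY W).filter G, qq (r 0) I (2 ^ finrank (ZMod 2) (LinearMap.ker (B 0 + Y))))
        (γ * (cf (r 0) * ∑ j ∈ range (I + 1), (-1) ^ j * ff j) * N)
        ((∏ k : Fin (M + 1), mr (r k)) * N)
      have h7 := h1.trans h5
      linarith
    have hlo := hmain J (by omega) (by omega)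
    have hhi := hmain (J + 1) le_rfl (by omega)
    have hJo : Odd J := ⟨n₀, hJ⟩
    have hJe : Even (J + 1) := hJo.add_one
    have h1 : ∑ Y ∈ (YY W).filter G, qq (r 0) J (2 ^ finrank (ZMod 2) (LinearMap.ker (B 0 + Y))) ≤
        ∑ Y ∈ (YY W).filter G,
          (if finrank (ZMod 2) (LinearMap.ker (B 0 + Y)) = r 0 then (1 : ℝ) else 0) :=
      Finset.sum_le_sum fun Y _ => qq_odd hJo _ _
    have h2 : ∑ Y ∈ (YY W).filter G,
          (if finrank (ZMod 2) (LinearMap.ker (B 0 + Y)) = r 0 then (1 : ℝ) else 0) ≤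
        ∑ Y ∈ (YY W).filter G, qq (r 0) (J + 1) (2 ^ finrank (ZMod 2) (LinearMap.ker (B 0 + Y))) :=
      Finset.sum_le_sum fun Y _ => qq_even hJe _ _
    rw [hcnt]
    rw [abs_le] at hlo hhi ⊢
    constructor <;> linarith

end Pool.Agent.R413.CK
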