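import Pool.Agent.R413.CK.Jt
import Pool.Agent.Y697.CJ.LAJ2
import Pool.Agent.Y687.JQ.Stm

/-! The number of the solutions of the block systems with masks (after `Pool.Agent.Y697.CJ.LAJ`). -/

set_option autoImplicit false

open scoped Classical

namespace Pool.Agent.R413.CK

open Finset Module Function
open Pool.Agent.Y703.CQ (prs GdA c2)
open Pool.Agent.Y219.CQ (F bf bf_apply bf_symm bf_add bf_single mf mf_apply mA mC mZ mL pa pa_surj
  zx zx_of zx_not sum_zx bf_l bf_r all_zero row1 row2)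
open Pool.Agent.Y697.CJ (Am Bm Cm fm BM BM_symm nd_BM finrank_JJ_le dd yy_card Am_symm Bm_eq mf_add)
open Pool.Agent.Y697.PQ (JJ mem_JJ gi)
open Pool.Agent.Y697.PP (YY mem_YY)

/-- the solutions of the block system with the mask `m` -/
def KM {U J : Type} [Fintype U] [Fintype J] (m U1 : Finset U) (J1 : Finset J)
    (A : U → U → ZMod 2) (B : U → J → ZMod 2) (C : J → U → ZMod 2) (R : J → J → ZMod 2)
    (f : U → ZMod 2) (g : J → ZMod 2) : Set ((U → ZMod 2) × (J → ZMod 2)) :=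
  {z | (∀ u, u ∉ U1 → z.1 u = 0) ∧ (∀ u, u ∉ m → z.1 u = 0) ∧ (∀ k, k ∉ J1 → z.2 k = 0) ∧
    (∀ u ∈ U1, u ∈ m →
      ∑ v ∈ m, A u v * (z.1 v + z.1 u) + ∑ l, B u l * (z.2 l + z.1 u) + f u * z.1 u = 0) ∧
    (∀ k ∈ J1, ∑ u ∈ m, C k u * (z.1 u + z.2 k) + ∑ l, R k l * (z.2 l + z.2 k) +
      g k * z.2 k = 0)}

section rows

variable {ι κ : Type} [Fintype ι] [Fintype κ]

lemma rows1 (MA : ι → ι → F) (MC : ι → κ → F) (x : ι → F) (y : κ → F) :
    (∀ x', bf MA x x' + bf MC x' y = 0) ↔ ∀ v, ∑ u, x u * MA u v + ∑ k, MC v k * y k = 0 := by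
  constructor
  · intro h
    refine all_zero _ fun x' => ?_
    have h3 := h x'
    rw [bf_l, bf_r, ← sum_add_distrib] at h3
    rw [← h3]
    exact sum_congr rfl fun v _ => by rw [add_mul]
  · intro h x'
    rw [bf_l, bf_r, ← sum_add_distrib]
    refine sum_eq_zero fun v _ => ?_
    rw [← add_mul, h, zero_mul]

lemma rows2 (MC : ι → κ → F) (MS : κ → κ → F) (x : ι → F) (y : κ → F) :
    (∀ y', bf MC x y' + bf MS y y' = 0) ↔ ∀ l, ∑ u, x u * MC u l + ∑ k, y k * MS k l = 0 := by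
  constructor
  · intro h
    refine all_zero _ fun y' => ?_
    have h3 := h y'
    rw [bf_l, bf_l, ← sum_add_distrib] at h3
    rw [← h3]
    exact sum_congr rfl fun v _ => by rw [add_mul]
  · intro h y'
    rw [bf_l, bf_l, ← sum_add_distrib]
    refine sum_eq_zero fun v _ => ?_
    rw [← add_mul, h, zero_mul]

lemma mem_ker_mf (MA : ι → ι → F) (MC : ι → κ → F) (MS : κ → κ → F) (x : ι → F) (y : κ → F) :
    (x, y) ∈ LinearMap.ker (mf (bf MA) (bf MC) (bf MS)) ↔
      (∀ v, ∑ u, x u * MA u v + ∑ k, MC v k * y k = 0) ∧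
      (∀ l, ∑ u, x u * MC u l + ∑ k, y k * MS k l = 0) := by
  rw [← rows1, ← rows2, LinearMap.mem_ker]
  constructor
  · intro hw
    have h1 : ∀ w' : (ι → F) × (κ → F),
        bf MA x w'.1 + bf MC x w'.2 + bf MC w'.1 y + bf MS y w'.2 = 0 := by
      intro w'
      have := LinearMap.congr_fun hw w'
      rw [mf_apply] at this
      exact this
    refine ⟨fun x' => ?_, fun y' => ?_⟩
    · have := h1 (x', 0)
      simpa using this
    · have := h1 (0, y')
      simpa using this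
  · rintro ⟨h1, h2⟩
    refine LinearMap.ext fun w' => ?_
    rw [mf_apply, LinearMap.zero_apply]
    have e1 := h1 w'.1
    have e2 := h2 w'.2
    show bf MA x w'.1 + bf MC x w'.2 + bf MC w'.1 y + bf MS y w'.2 = 0
    linear_combination e1 + e2

end rows

section main

variable {U J : Type} [Fintype U] [Fintype J] [LinearOrder J]

theorem BM_eq (U1 : Finset U) (J1 : Finset J) (m : Finset U)
    (A : U → U → F) (B : U → J → F) (C : J → U → F) (f : U → F) (g : J → F) (α : prs J1 → F) :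
    BM U1 J1 m A B C f g + mf 0 0 (pa J1 α).1 =
      (mf (bf (mA U1 (Am m A) (Bm m B) (fm m f))) (bf (mC U1 J1 (Cm m C)))
        (bf fun k l => mL J1 α k l + mZ J1 (Cm m C) g k l) :
        LinearMap.BilinForm (ZMod 2) ((U1 → F) × (J1 → F))) := by
  have h1 : (bf fun k l => mL J1 α k l + mZ J1 (Cm m C) g k l) =
      bf (mZ J1 (Cm m C) g) + bf (mL J1 α) := by
    rw [← bf_add]
    congr 1
    funext k l
    exact add_comm _ _
  rw [h1, mf_add]
  rfl

theorem sum_ite_mem (m : Finset U) (a b : U → ZMod 2) :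
    ∑ v, (if v ∈ m then a v else 0) * b v = ∑ v ∈ m, a v * b v := by
  rw [← sum_subset (subset_univ m) fun v _ hv => by rw [if_neg hv, zero_mul]]
  exact sum_congr rfl fun v hv => by rw [if_pos hv]

theorem mem_KM (U1 : Finset U) (J1 : Finset J) (m : Finset U)
    (A : U → U → F) (B : U → J → F) (C : J → U → F) (f : U → F) (g : J → F)
    (hA : ∀ u ∈ U1, ∀ v ∈ U1, A u v = A v u) (hB : ∀ u ∈ U1, ∀ k ∈ J1, B u k = C k u)
    (α : prs J1 → F) (x : U1 → F) (y : J1 → F) :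
    (zx U1 x, zx J1 y) ∈ KM m U1 J1 A B C (Pool.Agent.Y703.CQ.ext α) f g ↔
      (x, y) ∈ LinearMap.ker (BM U1 J1 m A B C f g + mf 0 0 (pa J1 α).1) := by
  rw [BM_eq, mem_ker_mf]
  have e1 : ∀ u ∈ m, ∑ v, Am m A u v * (zx U1 x v + zx U1 x u) +
      ∑ l, Bm m B u l * (zx J1 y l + zx U1 x u) + fm m f u * zx U1 x u =
      ∑ v ∈ m, A u v * (zx U1 x v + zx U1 x u) + ∑ l, B u l * (zx J1 y l + zx U1 x u) +
        f u * zx U1 x u := by
    intro u hu
    have e0 := sum_ite_mem m (fun v => A u v) fun v => zx U1 x v + zx U1 x u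
    rw [← e0]
    unfold Am Bm fm
    simp only [hu, true_and, if_true]
  have e2 : ∀ u, u ∉ m → ∑ v, Am m A u v * (zx U1 x v + zx U1 x u) +
      ∑ l, Bm m B u l * (zx J1 y l + zx U1 x u) + fm m f u * zx U1 x u = zx U1 x u := by
    intro u hu
    unfold Am Bm fm
    simp only [hu, false_and, if_false, zero_mul, sum_const_zero, zero_add, one_mul]
  have e3 : ∀ k, ∑ u, Cm m C k u * (zx U1 x u + zx J1 y k) =
      ∑ u ∈ m, C k u * (zx U1 x u + zx J1 y k) := fun k => sum_ite_mem m _ _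
  have r1 := row1 U1 J1 (Am m A) (Bm m B) (Cm m C) (fm m f) (Am_symm hA) (Bm_eq hB) x y
  have r2 := row2 U1 J1 (Cm m C) g α x y
  constructor
  · rintro ⟨-, h2, -, h4, h5⟩
    refine ⟨fun v => ?_, fun l => ?_⟩
    · rw [← r1]
      by_cases hv : (v : U) ∈ m
      · rw [e1 _ hv]
        exact h4 v v.2 hv
      · rw [e2 _ hv]
        exact h2 v hv
    · rw [← r2, e3]
      exact h5 l l.2
  · rintro ⟨h1, h2⟩
    refine ⟨fun u hu => zx_not U1 x hu, fun u hu => ?_, fun k hk => zx_not J1 y hk,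
      fun u hu hum => ?_, fun k hk => ?_⟩
    · by_cases hu1 : u ∈ U1
      · have h3 := r1 ⟨u, hu1⟩
        rw [h1] at h3
        show zx U1 x u = 0
        rw [← e2 u hu]
        exact h3
      · exact zx_not U1 x hu1
    · have h3 := r1 ⟨u, hu⟩
      rw [h1] at h3
      show ∑ v ∈ m, A u v * (zx U1 x v + zx U1 x u) + ∑ l, B u l * (zx J1 y l + zx U1 x u) +
        f u * zx U1 x u = 0
      rw [← e1 u hum]
      exact h3
    · have h3 := r2 ⟨k, hk⟩
      rw [h2] at h3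
      show ∑ u ∈ m, C k u * (zx U1 x u + zx J1 y k) +
        ∑ l, Pool.Agent.Y703.CQ.ext α k l * (zx J1 y l + zx J1 y k) + g k * zx J1 y k = 0
      rw [← e3 k]
      exact h3

theorem zx_res {ι : Type} [Fintype ι] (I : Finset ι) (x : ι → F) (h : ∀ u, u ∉ I → x u = 0) :
    zx I (fun u : I => x u) = x := by
  funext u
  by_cases hu : u ∈ I
  · exact zx_of I (fun u : I => x u) ⟨u, hu⟩
  · rw [zx_not I _ hu, h u hu]

/-- the number of the solutions -/
theorem card_KM (U1 : Finset U) (J1 : Finset J) (m : Finset U)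
    (A : U → U → F) (B : U → J → F) (C : J → U → F) (f : U → F) (g : J → F)
    (hA : ∀ u ∈ U1, ∀ v ∈ U1, A u v = A v u) (hB : ∀ u ∈ U1, ∀ k ∈ J1, B u k = C k u)
    (α : prs J1 → F) : Nat.card (KM m U1 J1 A B C (Pool.Agent.Y703.CQ.ext α) f g) =
      2 ^ finrank (ZMod 2) (LinearMap.ker (BM U1 J1 m A B C f g + mf 0 0 (pa J1 α).1)) := by
  set K := LinearMap.ker (BM U1 J1 m A B C f g + mf 0 0 (pa J1 α).1) with hK
  have h0 : Nat.card K = 2 ^ finrank (ZMod 2) K := by
    rw [Module.natCard_eq_pow_finrank (K := ZMod 2), Nat.card_zmod]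
  rw [← h0]
  refine (Nat.card_congr (Equiv.ofBijective (fun w : K =>
    (⟨(zx U1 w.1.1, zx J1 w.1.2), (mem_KM U1 J1 m A B C f g hA hB α w.1.1 w.1.2).2 w.2⟩ :
      KM m U1 J1 A B C (Pool.Agent.Y703.CQ.ext α) f g)) ⟨?_, ?_⟩)).symm
  · intro w w' h
    have h1 := congrArg (fun z => z.1) h
    have h2 := congrArg Prod.fst h1
    have h3 := congrArg Prod.snd h1
    refine Subtype.ext (Prod.ext (funext fun u => ?_) (funext fun k => ?_))
    · have := congrFun h2 u
      simp only [zx_of] at this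
      exact this
    · have := congrFun h3 k
      simp only [zx_of] at this
      exact this
  · rintro ⟨z, hz⟩
    have h1 := zx_res U1 z.1 hz.1
    have h2 := zx_res J1 z.2 hz.2.2.1
    have h3 : (zx U1 (fun u : U1 => z.1 u), zx J1 (fun k : J1 => z.2 k)) ∈
        KM m U1 J1 A B C (Pool.Agent.Y703.CQ.ext α) f g := by
      rw [h1, h2]
      exact hz
    refine ⟨⟨(fun u : U1 => z.1 u, fun k : J1 => z.2 k),
      (mem_KM U1 J1 m A B C f g hA hB α _ _).1 h3⟩, Subtype.ext (Prod.ext h1 h2)⟩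

/-- **the joint law of the numbers of the solutions** -/
theorem laj_r (M : ℕ) : ∀ (r : Fin M → ℕ) (ε : ℝ), 0 < ε → ∃ R : ℕ, ∀ (U J : Type) [Fintype U]
    [Fintype J] [LinearOrder J] (U1 : Finset U) (J1 : Finset J), (∃ l, l ∉ J1) →
    ∀ (m : Fin M → Finset U)
    (A : U → U → ZMod 2) (B : U → J → ZMod 2) (C : J → U → ZMod 2) (f : U → ZMod 2)
    (g : J → ZMod 2),
    (∀ u ∈ U1, ∀ v ∈ U1, A u v = A v u) → (∀ u ∈ U1, ∀ k ∈ J1, B u k = C k u) →
    (∀ w : U → ZMod 2, (∀ u, u ∉ U1 → w u = 0) → (∃ u, w u ≠ 0) →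
      ∃ k ∈ J1, ∑ u, w u * C k u ≠ 0) →
    2 * U1.card + R ≤ J1.card →
    (∀ i j, i ≠ j → 2 * U1.card + R ≤
      (J1.filter fun k => ∑ u ∈ m i, C k u + ∑ u ∈ m j, C k u ≠ 0).card) →
    |((univ.filter fun α : prs J1 → ZMod 2 => ∀ k,
      Nat.card (KM (m k) U1 J1 A B C (Pool.Agent.Y703.CQ.ext α) f g) = 2 ^ r k).card : ℝ) /
        2 ^ (prs J1).card - ∏ k, mr (r k)| ≤ ε := by
  intro r ε hε
  obtain ⟨R, hR⟩ := thmR M r ε hε
  refine ⟨R, ?_⟩
  intro U J _ _ _ U1 J1 hJ m A B C f g hA hB hC hJ1 hm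
  have e1 : finrank F (U1 → F) = U1.card := by
    rw [finrank_fintype_fun_eq_card, Fintype.card_coe]
  have e2 : finrank F (J1 → F) = J1.card := by
    rw [finrank_fintype_fun_eq_card, Fintype.card_coe]
  have e3 : finrank (ZMod 2) ((U1 → F) × (J1 → F)) = U1.card + J1.card := by
    rw [Module.finrank_prod, e1, e2]
  have e4 : finrank (ZMod 2) (LinearMap.ker (LinearMap.snd (ZMod 2) (U1 → F) (J1 → F))) =
      U1.card := by
    have h1 := LinearMap.finrank_range_add_finrank_ker (LinearMap.snd (ZMod 2) (U1 → F) (J1 → F))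
    rw [LinearMap.range_eq_top.2 (LinearMap.snd_surjective), finrank_top, e2, e3] at h1
    omega
  have key := hR ((U1 → F) × (J1 → F)) (LinearMap.ker (LinearMap.snd (ZMod 2) (U1 → F) (J1 → F)))
    (fun k => BM U1 J1 (m k) A B C f g) (2 * U1.card + (J1.card - (2 * U1.card + R))) J1.card
    (fun k => BM_symm U1 J1 (m k) A B C f g hA) (fun k => nd_BM (m k) hC)
    (fun k l hkl => (finrank_JJ_le (m k) (m l)).trans (by
      have h1 : 2 * U1.card + R ≤ (J1.filter fun j => dd (m k) (m l) C j ≠ 0).card := hm k l hkl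
      omega)) (by rw [e4]; omega) (by rw [e3, e4]) (by omega)
  have hpos : 0 < ((YY (LinearMap.ker (LinearMap.snd (ZMod 2) (U1 → F) (J1 → F)))).card : ℝ) := by
    rw [Nat.cast_pos, Finset.card_pos]
    refine ⟨0, mem_YY.2 ⟨fun _ _ => rfl, fun _ _ => rfl⟩⟩
  obtain ⟨P, hP⟩ : ∃ P : LinearMap.BilinForm (ZMod 2) ((U1 → F) × (J1 → F)) → Prop,
      ∀ Y, P Y ↔ ∀ k, finrank (ZMod 2) (LinearMap.ker (BM U1 J1 (m k) A B C f g + Y)) = r k :=
    ⟨_, fun _ => Iff.rfl⟩
  have h1 : |(((YY (LinearMap.ker (LinearMap.snd (ZMod 2) (U1 → F) (J1 → F)))).filter P).card : ℝ) /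
      ((YY (LinearMap.ker (LinearMap.snd (ZMod 2) (U1 → F) (J1 → F)))).card : ℝ) -
        ∏ k, mr (r k)| ≤ ε := by
    rw [div_sub' hpos.ne', abs_div, abs_of_pos hpos, div_le_iff₀ hpos, mul_comm _ (∏ k, mr (r k))]
    refine le_trans (le_of_eq ?_) key
    congr 4
    ext Y
    simp only [Finset.mem_filter, hP]
  rw [yy_card] at h1
  refine le_trans (le_of_eq ?_) h1
  congr 2
  rw [← Pool.Agent.Y759.CX.fr_comp (pa J1) (pa_surj J1 hJ)]
  unfold Pool.Agent.Y759.CX.fr
  have h6 : Nat.card (prs J1 → F) = 2 ^ (prs J1).card := by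
    rw [Nat.card_fun, Nat.card_eq_fintype_card, Nat.card_eq_fintype_card, ZMod.card,
      Fintype.card_coe]
  rw [h6, Nat.card_eq_fintype_card, Fintype.card_subtype]
  push_cast
  congr 3
  ext α
  simp only [Finset.mem_filter, hP, Finset.mem_univ, true_and]
  refine forall_congr' fun k => ?_
  rw [card_KM U1 J1 (m k) A B C f g hA hB α]
  exact Nat.pow_right_inj (by norm_num)

end main

end Pool.Agent.R413.CK
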