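import Pool.Agent.Y698.SG.Cv
import Pool.Agent.Y945.SG.Cob
import Pool.Agent.TH841.SH.Alg2
import Pool.Agent.R413.CK.Kp

/-!
The points whose coboundary is `χ_d T` and whose double is rational.
-/

set_option autoImplicit false
set_option linter.unusedSectionVars false

namespace Pool.Agent.R413.CK

open WeierstrassCurve Pool.Agent.TH841.SH.D Pool.Agent.Y698.SG.Cv Pool.Agent.Y945.SG
open Pool.Agent.TH841.SH (IsR)

section

variable {K : Type} [Field K] [CharZero K]

attribute [local instance] isGalAC

/-- the roots -/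
theorem isR_wf (a b : ℤ) : ∃ r₁ r₂ : AlgebraicClosure K,
    IsR ((WF K a b).baseChange (AlgebraicClosure K)) 0 r₁ r₂ ∧
      (2 * r₁ + a) ^ 2 = ((a : AlgebraicClosure K) ^ 2 - 4 * b) ∧
      (2 * r₂ + a) ^ 2 = ((a : AlgebraicClosure K) ^ 2 - 4 * b) ∧
      r₁ * r₂ = (b : AlgebraicClosure K) := by
  obtain ⟨δ, hδ⟩ : ∃ δ : AlgebraicClosure K, δ ^ 2 = (a : AlgebraicClosure K) ^ 2 - 4 * b :=
    IsAlgClosed.exists_pow_nat_eq _ two_pos
  have e2 : ((WF K a b).baseChange (AlgebraicClosure K)).toAffine.a₂ = (a : AlgebraicClosure K) := by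
    change algebraMap K (AlgebraicClosure K) ((a : ℤ) : K) = _
    simp
  have e4 : ((WF K a b).baseChange (AlgebraicClosure K)).toAffine.a₄ = (b : AlgebraicClosure K) := by
    change algebraMap K (AlgebraicClosure K) ((b : ℤ) : K) = _
    simp
  have h2 : (2 : AlgebraicClosure K) ≠ 0 := two_ne_zero
  refine ⟨(-a + δ) / 2, (-a - δ) / 2, ⟨map_zero _, ?_, map_zero _, ?_, ?_⟩, ?_, ?_, ?_⟩
  · refine e2.trans ?_
    ring
  · refine e4.trans ?_
    linear_combination hδ / 4
  · refine (map_zero _).trans ?_
    ring
  · rw [← hδ]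
    ring
  · rw [← hδ]
    ring
  · linear_combination -hδ / 4

/-- doubling -/
theorem dbl_wf {a b : ℤ} {x y : AlgebraicClosure K}
    (h : ((WF K a b).baseChange (AlgebraicClosure K)).toAffine.Nonsingular x y) :
    ((pt h + pt h = 0) ↔ y = 0) ∧
    (∀ hb : b ≠ 0, pt h + pt h = T0 K (a := a) hb (AlgebraicClosure K) →
      x ^ 2 = (b : AlgebraicClosure K)) := by
  classical
  obtain ⟨r₁, r₂, hIs, -, -, hm⟩ := isR_wf (K := K) a b
  have h2 : (2 : AlgebraicClosure K) ≠ 0 := two_ne_zero
  constructor
  · exact hIs.add_self h2 h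
  · intro hb he
    by_cases hy : y = 0
    · exfalso
      have h3 : pt h + pt h = 0 := (hIs.add_self h2 h).2 hy
      rw [h3] at he
      exact Affine.Point.some_ne_zero _ he.symm
    · obtain ⟨X, Y, hn, e1, e2⟩ := hIs.dup h2 h hy
      have e3 : pt h + pt h = (Affine.Point.some X Y hn :
        ((WF K a b).baseChange (AlgebraicClosure K)).toAffine.Point) := e1
      rw [e3] at he
      have h4 := (Affine.Point.some.injEq _ _ _ _ _ _).mp he
      rw [h4.1, sub_zero] at e2
      have h5 : ((x - 0) ^ 2 - (0 - r₁) * (0 - r₂)) / (2 * y) = 0 :=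
        pow_eq_zero_iff two_ne_zero |>.1 e2.symm
      rw [div_eq_zero_iff] at h5
      have h6 := h5.resolve_right (mul_ne_zero h2 hy)
      linear_combination h6 + hm

theorem cob_two {a b : ℤ} (hb : b ≠ 0) (d : ℤ) (hd : d ≠ 0)
    (nb : ¬ IsSquare (b : K)) {P : Pt (WF K a b) (AlgebraicClosure K)}
    (hP : ∀ σ : Gal K, coc K (a := a) hb d σ = act (WF K a b) σ.toAlgHom P - P)
    (h2 : P + P = 0 ∨ P + P = T0 K hb (AlgebraicClosure K)) :
    IsSquare (d : K) ∨ IsSquare ((d : K) * ((a : K) ^ 2 - 4 * b)) := by
  classical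
  obtain ⟨s, hs⟩ : ∃ s : AlgebraicClosure K, s ^ 2 = (d : AlgebraicClosure K) := IsAlgClosed.exists_pow_nat_eq _ two_pos
  have hs0 : s ≠ 0 := by
    rintro rfl
    apply hd
    have : (d : AlgebraicClosure K) = 0 := by rw [← hs]; ring
    exact_mod_cast this
  have hd' : (d : AlgebraicClosure K) ≠ 0 := by exact_mod_cast hd
  have hsσ : ∀ σ : Gal K, σ s = s ∨ σ s = -s := by
    intro σ
    apply sq_eq_sq_iff_eq_or_eq_neg.1
    rw [← map_pow, hs]
    simp
  have hcoc : ∀ σ : Gal K, (σ s = s → coc K (a := a) hb d σ = 0) ∧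
      (σ s ≠ s → coc K (a := a) hb d σ = T0 K hb (AlgebraicClosure K)) := by
    intro σ
    constructor
    · intro h
      apply Pool.Agent.Y945.SG.coc_neg
      rintro ⟨s', hs', hne⟩
      apply hne
      rcases sq_eq_sq_iff_eq_or_eq_neg.1 (hs'.trans hs.symm) with h1 | h1
      · rw [h1, h]
      · rw [h1, map_neg, h]
    · intro h
      exact coc_pos _ _ _ ⟨s, hs, h⟩
  -- if all the automorphisms fix `s`
  have hsq : (∀ σ : Gal K, σ s = s) → IsSquare (d : K) := by
    intro h
    obtain ⟨y, hy⟩ := fixm s h
    refine ⟨y, ?_⟩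
    apply (algebraMap K (AlgebraicClosure K)).injective
    rw [map_mul, hy, ← pow_two, hs]
    simp
  have hT0 : T0 K (a := a) hb (AlgebraicClosure K) ≠ 0 := by
    intro h
    exact Affine.Point.some_ne_zero _ h
  have hfix0 : (∀ σ : Gal K, act (WF K a b) σ.toAlgHom P = P) → IsSquare (d : K) := by
    intro h
    apply hsq
    intro σ
    by_contra hne
    have h1 := hP σ
    rw [(hcoc σ).2 hne, h σ, sub_self] at h1
    exact hT0 h1
  have hact0 : ∀ σ : Gal K, σ s = s → act (WF K a b) σ.toAlgHom P = P := by
    intro σ h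
    have h1 := hP σ
    rw [(hcoc σ).1 h] at h1
    exact (sub_eq_zero.1 h1.symm)
  have hact1 : ∀ σ : Gal K, σ s ≠ s → act (WF K a b) σ.toAlgHom P = P + T0 K hb (AlgebraicClosure K) := by
    intro σ h
    have h1 := hP σ
    rw [(hcoc σ).2 h] at h1
    rw [h1]
    abel
  rcases P with _ | ⟨x, y, hxy⟩
  · left
    apply hfix0
    intro σ
    exact map_zero _
  by_cases hx : x = 0
  · left
    apply hfix0
    intro σ
    subst hx
    have e0 := eqn hxy
    have hy : y = 0 := by
      have : y ^ 2 = 0 := by rw [e0]; ring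
      exact pow_eq_zero_iff two_ne_zero |>.1 this
    subst hy
    rw [act_some]
    congr 1
    · exact map_zero σ
    · exact map_zero σ
  have e0 := eqn hxy
  have hc : (b : AlgebraicClosure K) ≠ 0 := by exact_mod_cast hb
  have f0 : ∀ σ : Gal K, σ s = s → σ x = x ∧ σ y = y := by
    intro σ h
    have h1 := hact0 σ h
    rw [act_some] at h1
    exact (Affine.Point.some.injEq _ _ _ _ _ _).mp h1
  have f1 : ∀ σ : Gal K, σ s ≠ s → σ x = (b : AlgebraicClosure K) / x ∧
      σ y = - ((b : AlgebraicClosure K) * y / x ^ 2) := by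
    intro σ h
    have h1 := hact1 σ h
    rw [act_some] at h1
    exact add_T hb _ _ hx h1
  right
  by_cases hy : y = 0
  · subst hy
    have e1 : x ^ 2 + (a : AlgebraicClosure K) * x + (b : AlgebraicClosure K) = 0 := by
      have h1 : x * (x ^ 2 + (a : AlgebraicClosure K) * x + (b : AlgebraicClosure K)) = 0 := by
        linear_combination -e0
      exact (mul_eq_zero.1 h1).resolve_left hx
    obtain ⟨r, hr⟩ : ∃ r : K, algebraMap K (AlgebraicClosure K) r = (2 * x + a) * s := by
      apply fixm
      intro σ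
      have e4 : σ (2 : AlgebraicClosure K) = 2 := map_ofNat σ 2
      have e5 : σ (a : AlgebraicClosure K) = a := map_intCast σ a
      by_cases h : σ s = s
      · rw [map_mul, map_add, map_mul, (f0 σ h).1, h, e4, e5]
      · rw [map_mul, map_add, map_mul, (f1 σ h).1, (hsσ σ).resolve_left h, e4, e5]
        have e2 : (b : AlgebraicClosure K) / x = - (x + (a : AlgebraicClosure K)) := by
          rw [div_eq_iff hx]
          linear_combination e1
        rw [e2]
        ring
    refine ⟨r, ?_⟩
    apply (algebraMap K (AlgebraicClosure K)).injective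
    have e3 : ((2 * x + a) * s) ^ 2 = (d : AlgebraicClosure K) * ((a : AlgebraicClosure K) ^ 2 - 4 * b) := by
      rw [mul_pow, hs]
      linear_combination (4 * (d : AlgebraicClosure K)) * e1
    rw [map_mul, map_mul, map_sub, map_pow, map_mul, hr]
    simp only [map_intCast, map_ofNat]
    linear_combination -e3
  · exfalso
    obtain ⟨k1, k2⟩ := dbl_wf hxy
    rcases h2 with h2 | h2
    · exact hy (k1.1 h2)
    · have hxb := k2 hb h2
      obtain ⟨r, hr⟩ : ∃ r : K, algebraMap K (AlgebraicClosure K) r = x := by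
        apply fixm
        intro σ
        by_cases h : σ s = s
        · exact (f0 σ h).1
        · rw [(f1 σ h).1, ← hxb]
          field_simp
      apply nb
      refine ⟨r, ?_⟩
      apply (algebraMap K (AlgebraicClosure K)).injective
      rw [map_mul, hr, ← pow_two, hxb]
      simp

/-- the points over `K` of order two -/
theorem tors_wf {a b : ℤ} (hb : b ≠ 0) (nb : ¬ IsSquare (b : K))
    (nab : ¬ IsSquare ((a : K) ^ 2 - 4 * b)) :
    (∀ x : Pt (WF K a b) K, x + x = 0 → x = 0 ∨ x = T0 K hb K) ∧
      ∀ x : Pt (WF K a b) K, x + x ≠ T0 K hb K := by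
  have hmap : ∀ {x y : K} (h : ((WF K a b).baseChange K).toAffine.Nonsingular x y),
      act (WF K a b) (Algebra.ofId K (AlgebraicClosure K)) (.some x y h) =
      pt ((Affine.baseChange_nonsingular (WF K a b) (f := Algebra.ofId K (AlgebraicClosure K))
        (algebraMap K (AlgebraicClosure K)).injective x y).mpr h) := fun h => rfl
  constructor
  · intro x hx
    have hx' := congrArg (act (WF K a b) (Algebra.ofId K (AlgebraicClosure K))) hx
    rw [map_add, map_zero] at hx'
    rcases x with _ | ⟨x, y, h⟩
    · left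
      rfl
    · right
      rw [hmap] at hx'
      have h1 := (dbl_wf _).1.1 hx'
      have hy : y = 0 := (map_eq_zero (algebraMap K (AlgebraicClosure K))).1 h1
      subst hy
      have h2 := eqn ((Affine.baseChange_nonsingular (WF K a b)
        (f := Algebra.ofId K (AlgebraicClosure K))
        (algebraMap K (AlgebraicClosure K)).injective x 0).mpr h)
      have h3 : (0 : AlgebraicClosure K) ^ 2 = (algebraMap K (AlgebraicClosure K) x) ^ 3 +
        (a : AlgebraicClosure K) * (algebraMap K (AlgebraicClosure K) x) ^ 2 +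
          (b : AlgebraicClosure K) * (algebraMap K (AlgebraicClosure K) x) := by
        have e : (Algebra.ofId K (AlgebraicClosure K)) (0 : K) = 0 := map_zero _
        rw [e] at h2
        exact h2
      have h4 : x ^ 3 + (a : K) * x ^ 2 + (b : K) * x = 0 := by
        apply (algebraMap K (AlgebraicClosure K)).injective
        simp only [map_add, map_mul, map_pow, map_intCast, map_zero]
        rw [← h3]
        ring
      have hx0 : x = 0 := by
        by_contra hx0
        apply nab
        have h5 : x ^ 2 + (a : K) * x + b = 0 := by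
          have h6 : x * (x ^ 2 + (a : K) * x + b) = 0 := by linear_combination h4
          exact (mul_eq_zero.1 h6).resolve_left hx0
        exact ⟨2 * x + a, by linear_combination -4 * h5⟩
      subst hx0
      rfl
  · intro x hx
    have hx' := congrArg (act (WF K a b) (Algebra.ofId K (AlgebraicClosure K))) hx
    rw [map_add] at hx'
    have hT : act (WF K a b) (Algebra.ofId K (AlgebraicClosure K)) (T0 K hb K) =
        T0 K hb (AlgebraicClosure K) := by
      change (Affine.Point.some _ _ _ : ((WF K a b).baseChange (AlgebraicClosure K)).toAffine.Point)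
        = Affine.Point.some _ _ _
      congr 1
      · exact map_zero _
      · exact map_zero _
    rw [hT] at hx'
    rcases x with _ | ⟨x, y, h⟩
    · have h0 : act (WF K a b) (Algebra.ofId K (AlgebraicClosure K))
          (Affine.Point.zero : ((WF K a b).baseChange K).toAffine.Point) = 0 := map_zero _
      rw [h0, add_zero] at hx'
      exact Affine.Point.some_ne_zero _ hx'.symm
    · rw [hmap] at hx'
      have h1 := (dbl_wf _).2 hb hx'
      apply nb
      refine ⟨x, ?_⟩
      apply (algebraMap K (AlgebraicClosure K)).injective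
      rw [map_mul, ← pow_two, map_intCast]
      exact h1.symm

end

end Pool.Agent.R413.CK
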