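import Pool.Agent.R413.CK.Lb1
import Pool.Agent.R413.CK.Rk
import Pool.Agent.Y698.SG.Eba
import Pool.Agent.Y698.Km

/-!
The lower bound for the order of the Selmer group.
-/

set_option autoImplicit false
set_option linter.unusedSectionVars false

namespace Pool.Agent.R413.CK

open Pool.Agent.Y698 Pool.Agent.Y698.SG
open NumberField IsDedekindDomain WithZero WeierstrassCurve
open Pool.Agent.TH841.SH.D (Pt act Coch IsCoc IsCob LocTriv cob cob_zero Gal)
open Pool.Agent.TH841.NF.D (Sha shaCoc)
open Cv (WF LocI coc)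

section algebra

/-- the kernel of the reduction -/
theorem ker_phi {A : Type} [AddCommGroup A] [Module.Finite ℤ A] (T : A)
    (h2 : ∀ x : A, x + x = 0 → x = 0 ∨ x = T) (h4 : ∀ x : A, x + x ≠ T) :
    ∃ φ : A →+ (Fin (Module.finrank ℤ A) → ZMod 2), ∀ x, φ x = 0 → (∃ R, R + R = x) ∨
      ∃ R, R + R + T = x := by
  have hfree : Module.Free ℤ (A ⧸ Submodule.torsion ℤ A) := Module.free_iff_isTorsionFree.2
    inferInstance
  have hr : Module.finrank ℤ (A ⧸ Submodule.torsion ℤ A) = Module.finrank ℤ A :=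
    finrank_quotient_eq_of_le_torsion le_rfl
  let b := (Module.finBasis ℤ (A ⧸ Submodule.torsion ℤ A)).reindex (finCongr hr)
  let q : A →ₗ[ℤ] (Fin (Module.finrank ℤ A) → ℤ) :=
    b.equivFun.toLinearMap ∘ₗ (Submodule.torsion ℤ A).mkQ
  let c : (Fin (Module.finrank ℤ A) → ℤ) →+ (Fin (Module.finrank ℤ A) → ZMod 2) :=
    { toFun := fun v i => (v i : ZMod 2)
      map_zero' := by funext i; simp
      map_add' := fun v w => by funext i; simp }
  have hq : Function.Surjective q :=
    b.equivFun.surjective.comp (Submodule.mkQ_surjective _)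
  refine ⟨c.comp q.toAddMonoidHom, fun x hx => ?_⟩
  -- the coordinates are even
  have hev : ∀ i, ∃ w : ℤ, q x i = 2 * w := by
    intro i
    have h1 : ((q x i : ℤ) : ZMod 2) = 0 := congrFun hx i
    rw [ZMod.intCast_zmod_eq_zero_iff_dvd] at h1
    exact h1
  choose w hw using hev
  obtain ⟨S, hS⟩ := hq w
  have h3 : q (x - (S + S)) = 0 := by
    rw [map_sub, map_add, hS]
    funext i
    simp only [Pi.sub_apply, Pi.add_apply, Pi.zero_apply, hw i]
    ring
  have h5 : (Submodule.torsion ℤ A).mkQ (x - (S + S)) = 0 := by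
    have h6 : b.equivFun ((Submodule.torsion ℤ A).mkQ (x - (S + S))) = 0 := h3
    rwa [LinearEquiv.map_eq_zero_iff] at h6
  rw [Submodule.mkQ_apply, Submodule.Quotient.mk_eq_zero] at h5
  obtain ⟨⟨n, hn⟩, hnt⟩ := h5
  have hn0 : n ≠ 0 := nonZeroDivisors.ne_zero hn
  have hnt' : n • (x - (S + S)) = 0 := hnt
  obtain ⟨t, ht⟩ : ∃ t, t = x - (S + S) := ⟨_, rfl⟩
  rw [← ht] at hnt'
  have h6 : n.natAbs • t = 0 := by
    rcases Int.natAbs_eq n with h | h
    · rw [h, natCast_zsmul] at hnt'
      exact hnt'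
    · rw [h, neg_smul, natCast_zsmul, neg_eq_zero] at hnt'
      exact hnt'
  obtain ⟨k, m, hm, hkm⟩ := Nat.exists_eq_two_pow_mul_odd (n := n.natAbs) (Int.natAbs_ne_zero.2 hn0)
  have hpow : ∀ (k : ℕ) (u : A), 2 ^ k • u = 0 → u + u = 0 := by
    intro k
    induction k with
    | zero =>
      intro u hu
      rw [pow_zero, one_nsmul] at hu
      rw [hu, add_zero]
    | succ k ih =>
      intro u hu
      have h7 : 2 ^ k • (u + u) = 0 := by
        rw [← two_nsmul, ← mul_nsmul', ← pow_succ]
        exact hu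
      exact (h2 _ (ih _ h7)).resolve_right (h4 u)
  have h7 : m • t + m • t = 0 := by
    apply hpow k
    rw [← mul_nsmul', ← hkm]
    exact h6
  obtain ⟨l, hl⟩ := hm
  have h8 : t = m • t - (l • t + l • t) := by
    rw [hl, add_nsmul, mul_nsmul', one_nsmul, two_nsmul]
    abel
  have h9 : x = (S - l • t) + (S - l • t) + m • t := by
    have e : x = t + (S + S) := by rw [ht]; abel
    rw [e]
    nth_rewrite 1 [h8]
    abel
  rcases h2 _ h7 with h10 | h10
  · left
    refine ⟨S - l • t, ?_⟩
    rw [h10, add_zero] at h9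
    exact h9.symm
  · right
    refine ⟨S - l • t, ?_⟩
    rw [h10] at h9
    exact h9.symm

/-- the counting -/
theorem low_le {A X Y : Type} [AddCommGroup A] [Module.Finite ℤ A] [Finite Y] (T : A)
    (h2 : ∀ x : A, x + x = 0 → x = 0 ∨ x = T) (h4 : ∀ x : A, x + x ≠ T)
    (f : X → Y) (g : X → A) (h : ∀ x x', f x = f x' → ((∃ R, R + R = g x - g x') ∨
      ∃ R, R + R + T = g x - g x') → x = x') :
    Nat.card X ≤ Nat.card Y * 2 ^ Module.finrank ℤ A := by
  obtain ⟨φ, hφ⟩ := ker_phi T h2 h4
  have hinj : Function.Injective fun x => (f x, φ (g x)) := by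
    intro x x' hx
    simp only [Prod.mk.injEq] at hx
    refine h x x' hx.1 (hφ _ ?_)
    rw [map_sub, hx.2, sub_self]
  have h5 := Nat.card_le_card_of_injective _ hinj
  rw [Nat.card_prod, Nat.card_eq_fintype_card (α := Fin (Module.finrank ℤ A) → ZMod 2),
    Fintype.card_fun, ZMod.card, Fintype.card_fin] at h5
  exact h5

end algebra

section points
variable {K : Type} [Field K] [CharZero K] {W : WeierstrassCurve K}

attribute [local instance] Pool.Agent.Y945.SG.isGalAC

/-- the points over `K` are fixed -/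
theorem ptW_fixed (U : Pt W K) (τ : Gal K) :
    act W τ.toAlgHom (act W (Algebra.ofId K (AlgebraicClosure K)) U) =
      act W (Algebra.ofId K (AlgebraicClosure K)) U := by
  rw [Pool.Agent.TH841.NF.act_act]
  congr 2
  exact Subsingleton.elim _ _

/-- the fixed points -/
theorem fixedW_pt {U : Pt W (AlgebraicClosure K)}
    (h : ∀ τ : Gal K, act W τ.toAlgHom U = U) :
    ∃ U₀ : Pt W K, act W (Algebra.ofId K (AlgebraicClosure K)) U₀ = U := by
  have hi : Function.Injective (Algebra.ofId K (AlgebraicClosure K)) :=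
    (algebraMap K (AlgebraicClosure K)).injective
  rcases U with _ | ⟨x, y, hn⟩
  · exact ⟨0, map_zero _⟩
  · have hx : ∀ τ : Gal K, τ x = x ∧ τ y = y := by
      intro τ
      have h1 := h τ
      rw [Pool.Agent.TH841.NF.act_some'] at h1
      exact Pool.Agent.TH841.NF.pt_inj _ _ h1
    obtain ⟨x₀, rfl⟩ := Pool.Agent.Y698.fixm (K := K) x (fun τ => (hx τ).1)
    obtain ⟨y₀, rfl⟩ := Pool.Agent.Y698.fixm (K := K) y (fun τ => (hx τ).2)
    refine ⟨Affine.Point.some x₀ y₀ ((Affine.baseChange_nonsingular W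
      (f := Algebra.ofId K (AlgebraicClosure K)) hi x₀ y₀).1 hn), ?_⟩
    rw [Pool.Agent.TH841.NF.act_some']
    exact Pool.Agent.TH841.NF.pt_ext _ _ rfl rfl

end points

/-- the elements of `Ш[2]` and the rational points -/
theorem sha_low (K : Type) [Field K] [NumberField K] {a b : ℤ} (hb : b ≠ 0)
    (hab : a ^ 2 - 4 * b ≠ 0) (nb : ¬ IsSquare (b : K))
    {ι : Type} (d : ι → ℤ) (hd : ∀ i, d i ≠ 0)
    (hl : ∀ i, ∀ v : HeightOneSpectrum (𝓞 K), LocI (v.adicCompletion K) a b (d i))
    (hr : ∀ i, LocI ℝ a b (d i))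
    (hne : ∀ i j, i ≠ j → ¬ IsSquare ((d i * d j : ℤ) : K) ∧
      ¬ IsSquare (((d i * d j : ℤ) : K) * ((a : K) ^ 2 - 4 * b))) :
    ∃ (f : ι → Sha (WF K a b)) (g : ι → Pt (WF K a b) K), (∀ i, f i + f i = 0) ∧
      ∀ i j, f i = f j → ((∃ R, R + R = g i - g j) ∨
        ∃ R, R + R + Cv.T0 K hb K = g i - g j) → i = j := by
  classical
  have hc : ∀ i, coc K hb (d i) ∈ shaCoc (WF K a b) := by
    intro i
    refine ⟨(Pool.Agent.Y79.SG.t_COC K a b hb (d i)).1, fun v => ?_, fun v => ?_⟩
    · exact Pool.Agent.Y79.SG.Lot.t_LOT K a b hb (d i) hab (hd i) _ (hl i v)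
    · rcases v.isReal_or_isComplex with h | h
      · exact Pool.Agent.Y79.SG.Lot.t_LOT K a b hb (d i) hab (hd i) _
          (loc_map (InfinitePlace.Completion.ringEquivRealOfIsReal h).symm.toRingHom (hr i))
      · exact Pool.Agent.Y79.SG.Lot.t_LOT K a b hb (d i) hab (hd i) _
          (loc_map (InfinitePlace.Completion.ringEquivComplexOfIsComplex h).symm.toRingHom
            (loc_map (algebraMap ℝ ℂ) (hr i)))
  let N : AddSubgroup (shaCoc (WF K a b)) := (cob (WF K a b)).addSubgroupOf (shaCoc (WF K a b))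
  let y : ι → shaCoc (WF K a b) := fun i => ⟨coc K hb (d i), hc i⟩
  have hneg : ∀ i, -(coc K (a := a) hb (d i)) = coc K hb (d i) := fun i =>
    neg_eq_of_add_eq_zero_left (Pool.Agent.Y79.SG.t_COC K a b hb (d i)).2
  let f : ι → Sha (WF K a b) := fun i => (QuotientAddGroup.mk (y i) : shaCoc (WF K a b) ⧸ N)
  have hpt : ∀ i j, f i = f j → ∃ P : Pt (WF K a b) (AlgebraicClosure K),
      ∀ σ : Gal K, coc K (a := a) hb (d i) σ + coc K hb (d j) σ = act (WF K a b) σ.toAlgHom P - P := by
    intro i j hij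
    have h1 : (QuotientAddGroup.mk (y i) : shaCoc (WF K a b) ⧸ N) = QuotientAddGroup.mk (y j) := hij
    rw [QuotientAddGroup.eq, AddSubgroup.mem_addSubgroupOf] at h1
    have h2 : ((-(y i) + y j : shaCoc (WF K a b)) : Coch (WF K a b)) =
        coc K hb (d i) + coc K hb (d j) := by
      have h3 : ((-(y i) + y j : shaCoc (WF K a b)) : Coch (WF K a b)) =
          -(coc K hb (d i)) + coc K hb (d j) := rfl
      rw [h3, hneg]
    rw [h2] at h1
    exact h1
  have hco2 : ∀ (e : ℤ) (σ : Gal K), coc K (a := a) hb e σ + coc K hb e σ = 0 := fun e σ =>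
    congrFun (Pool.Agent.Y79.SG.t_COC K a b hb e).2 σ
  -- the base of the fibre
  let bs : ι → ι := fun i => if h : Nonempty ι then @Function.invFun _ _ h f (f i) else i
  have hbs : ∀ i, f i = f (bs i) := by
    intro i
    have h : Nonempty ι := ⟨i⟩
    have e : bs i = @Function.invFun _ _ h f (f i) := dif_pos h
    rw [e]
    exact (Function.invFun_eq (f := f) ⟨i, rfl⟩).symm
  have hbs2 : ∀ i j, f i = f j → bs i = bs j := by
    intro i j hij
    have h : Nonempty ι := ⟨i⟩
    have e : bs i = @Function.invFun _ _ h f (f i) := dif_pos h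
    have e' : bs j = @Function.invFun _ _ h f (f j) := dif_pos h
    rw [e, e', hij]
  choose P hP using fun i => hpt i (bs i) (hbs i)
  have hfix : ∀ i, ∀ σ : Gal K, act (WF K a b) σ.toAlgHom (P i + P i) = P i + P i := by
    intro i σ
    have h1 := hP i σ
    have h2 : act (WF K a b) σ.toAlgHom (P i) = P i + (coc K (a := a) hb (d i) σ +
        coc K hb (d (bs i)) σ) := by
      rw [h1]
      abel
    rw [map_add, h2]
    have e : ∀ A B C : Pt (WF K a b) (AlgebraicClosure K), A + (B + C) + (A + (B + C)) =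
        (A + A) + ((B + B) + (C + C)) := fun A B C => by abel
    rw [e, hco2, hco2, add_zero, add_zero]
  choose g hg using fun i => fixedW_pt (hfix i)
  refine ⟨f, g, fun i => ?_, fun i j hij h => ?_⟩
  · have h5 : (QuotientAddGroup.mk (y i + y i) : shaCoc (WF K a b) ⧸ N) = 0 := by
      rw [QuotientAddGroup.eq_zero_iff, AddSubgroup.mem_addSubgroupOf]
      have h6 : ((y i + y i : shaCoc (WF K a b)) : Coch (WF K a b)) = 0 :=
        (Pool.Agent.Y79.SG.t_COC K a b hb (d i)).2
      rw [h6]
      exact cob_zero _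
    exact h5
  · by_contra hne'
    obtain ⟨n1, n2⟩ := hne i j hne'
    have hT : act (WF K a b) (Algebra.ofId K (AlgebraicClosure K)) (Cv.T0 K hb K) =
        Cv.T0 K hb (AlgebraicClosure K) := by
      change (Affine.Point.some _ _ _ : ((WF K a b).baseChange (AlgebraicClosure K)).toAffine.Point)
        = Affine.Point.some _ _ _
      congr 1
      · exact map_zero _
      · exact map_zero _
    obtain ⟨R, hR⟩ : ∃ R : Pt (WF K a b) K,
        (P i - P j - act (WF K a b) (Algebra.ofId K (AlgebraicClosure K)) R) +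
          (P i - P j - act (WF K a b) (Algebra.ofId K (AlgebraicClosure K)) R) = 0 ∨
        (P i - P j - act (WF K a b) (Algebra.ofId K (AlgebraicClosure K)) R) +
          (P i - P j - act (WF K a b) (Algebra.ofId K (AlgebraicClosure K)) R) =
            Cv.T0 K hb (AlgebraicClosure K) := by
      have e : ∀ A B C : Pt (WF K a b) (AlgebraicClosure K), (A - B - C) + (A - B - C) =
        (A + A) - (B + B) - (C + C) := fun A B C => by abel
      rcases h with ⟨R, hR⟩ | ⟨R, hR⟩
      · refine ⟨R, Or.inl ?_⟩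
        rw [e, ← hg i, ← hg j, ← map_add, hR, map_sub, sub_self]
      · refine ⟨R, Or.inr ?_⟩
        have e2 : R + R = g i - g j - Cv.T0 K hb K := by
          rw [← hR]
          abel
        rw [e, ← hg i, ← hg j, ← map_add, e2, map_sub, map_sub, hT]
        abel
    have hcob : ∀ σ : Gal K, coc K (a := a) hb (d i * d j) σ = act (WF K a b) σ.toAlgHom
        (P i - P j - act (WF K a b) (Algebra.ofId K (AlgebraicClosure K)) R) -
          (P i - P j - act (WF K a b) (Algebra.ofId K (AlgebraicClosure K)) R) := by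
      intro σ
      have h1 : coc K (a := a) hb (d i * d j) σ = coc K hb (d i) σ + coc K hb (d j) σ :=
        congrFun (coc_mul K hb (hd i) (hd j)) σ
      have h3 := hP i σ
      have h4 := hP j σ
      rw [← hbs2 i j hij] at h4
      have h5 : act (WF K a b) σ.toAlgHom (P i) = P i + (coc K (a := a) hb (d i) σ +
          coc K hb (d (bs i)) σ) := by
        rw [h3]
        abel
      have h6 : act (WF K a b) σ.toAlgHom (P j) = P j + (coc K (a := a) hb (d j) σ +
          coc K hb (d (bs i)) σ) := by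
        rw [h4]
        abel
      rw [map_sub, map_sub, ptW_fixed, h5, h6, h1]
      have h7 := hco2 (d j) σ
      have e : ∀ A B C x y z : Pt (WF K a b) (AlgebraicClosure K), y + y = 0 →
          x + y = A + (x + z) - (B + (y + z)) - C - (A - B - C) := by
        intro A B C x y z hy
        have h8 : y = -y := eq_neg_of_add_eq_zero_left hy
        have e9 : A + (x + z) - (B + (y + z)) - C - (A - B - C) = x + -y := by abel
        rw [e9, ← h8]
      exact e _ _ _ _ _ _ h7
    rcases cob_two hb (d i * d j) (mul_ne_zero (hd i) (hd j)) nb hcob hR with h | h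
    · exact n1 h
    · exact n2 h

end Pool.Agent.R413.CK
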