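import Pool.Agent.R413.CK.Sh4

/-!
The bound for the order of the Selmer group over `ℚ`.
-/

set_option autoImplicit false
set_option linter.unusedSectionVars false

namespace Pool.Agent.R413.CK

open Pool.Agent.Y698 Pool.Agent.Y698.SG Pool.Agent.R428.Q0

open WeierstrassCurve IsDedekindDomain NumberField WithZero IsCyclotomicExtension.Rat

open Pool.Agent.TH841.SH.D (Pt act Gal Coch)
open Pool.Agent.TH841.NF.D (Sha)
open Pool.Agent.Results.MP_4a9ea6_nt.TwoPartTwistsX49 (Adm mat inert split mat_eq inq spl union_eq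
  adm_mod E twist E_eq rat_all)

/-- the data of the field `ℚ(√-7)` -/
theorem data7 (K : Type) [Field K] [NumberField K] [Algebra K (CyclotomicField 7 ℚ)]
    (hrat : ∀ k : K, ∃ u : ℚ, k = u) {D : ℕ} (h : Adm D) :
    ∃ (F : Type) (_ : Field F) (_ : NumberField F) (_ : Algebra K F) (a : F) (ha : a ^ 2 = a - 2)
      (V : Set (Valuation F ℤᵐ⁰)) (I : Finset (ℕ × Bool)) (π : ℕ × Bool → RR),
      C1 a ha V (inert D ∪ split D) I π ∧
      (∀ x : F, ∃ k₁ k₂ : K, x = algebraMap K F k₁ + algebraMap K F k₂ * a) ∧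
      (∀ w ∈ V, (∀ x : 𝓞 F, w (algebraMap (𝓞 F) F x) ≤ 1) ∧
        ∃ x : 𝓞 F, x ≠ 0 ∧ w (algebraMap (𝓞 F) F x) < 1) ∧
      (∀ (P : HeightOneSpectrum (𝓞 F)) (p : ℕ), p.Prime → p ≠ 7 →
        P.valuation F (p : F) < 1 → P.valuation F (p : F) = exp (-1)) ∧
      (∀ i ∈ I, ev a ha (π i) ≠ 0) ∧
      (∃ (w : Valuation F ℤᵐ⁰) (k : ℤ), w (2 * a - 1) = exp (2 * k + 1)) ∧
      Finite {T : Finset (ℕ × Bool) // KT I π T} ∧
      Nat.card {T : Finset (ℕ × Bool) // KT I π T} ≤ 4 ^ corank D := by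
  classical
  have hM : IsCyclotomicExtension {7} ℚ (CyclotomicField 7 ℚ) := cyc_inst 7
  obtain ⟨b, hb⟩ := exists_b7
  have hK : ∀ k : K, k ^ 2 ≠ k - 2 := by
    intro k hk
    obtain ⟨u, rfl⟩ := hrat k
    have h1 : u ^ 2 = u - 2 := by exact_mod_cast hk
    nlinarith [sq_nonneg (2 * u - 1)]
  set F := Fx K b hb hK with hFd
  have hNF : NumberField F := inferInstance
  have hbF : b ∈ F := ⟨0, 1, by simp⟩
  have ha : (⟨b, hbF⟩ : F) ^ 2 = ⟨b, hbF⟩ - 2 := by
    apply Subtype.ext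
    push_cast
    exact hb
  have hFF : ∀ x : F, ∃ k₁ k₂ : K, x = algebraMap K F k₁ + algebraMap K F k₂ * ⟨b, hbF⟩ := by
    rintro ⟨x, k₁, k₂, hx⟩
    refine ⟨k₁, k₂, ?_⟩
    apply Subtype.ext
    exact hx
  have hFQ : ∀ x : F, ∃ u v : ℚ, x = u + v * ⟨b, hbF⟩ := by
    intro x
    obtain ⟨k₁, k₂, h⟩ := hFF x
    obtain ⟨u, rfl⟩ := hrat k₁
    obtain ⟨v, rfl⟩ := hrat k₂
    exact ⟨u, v, by rw [h, map_ratCast, map_ratCast]⟩
  set Q := inert D with hQd
  set P := split D with hPd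
  have hQ := inq h
  have hP := spl h
  obtain ⟨ϖ, hc⟩ := exists_cho inp.pi hP
  have hC := c1_of (M := CyclotomicField 7 ℚ) inp hQ hP hc ha hFQ
  have hsym := sym_dr inp.pd1 inp.pd2 hQ hP hc
  obtain ⟨hfin, hcard⟩ := card_KT hsym
  rw [xm_dr inp.pd1 inp.rc hQ hP hc] at hcard
  have hfr : Module.finrank (ZMod 2) (LinearMap.ker (Pool.Agent.Y698.SG.mat Q P).mulVecLin) =
      corank D := by
    rw [hQd, hPd, mat_eq]
    unfold corank
    have h3 := LinearMap.finrank_range_add_finrank_ker (mat D).mulVecLin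
    rw [Module.finrank_fintype_fun_eq_card, Fintype.card_coe] at h3
    have h4 : Module.finrank (ZMod 2) (LinearMap.range (mat D).mulVecLin) = (mat D).rank := rfl
    omega
  rw [hfr] at hcard
  refine ⟨F, inferInstance, hNF, inferInstance, _, ha, _, _, _, hC, hFF, ?_, ?_,
    fun i hi => ev_ne ha (hC.pr i hi).ne_zero, (big0 (M := CyclotomicField 7 ℚ) ha).2, hfin, hcard⟩
  · rintro w ⟨v, rfl⟩
    refine ⟨fun x => val_int F v x, ?_⟩
    obtain ⟨x, hx, hx0⟩ := (Submodule.ne_bot_iff _).1 (dnI_ne_bot F v)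
    exact ⟨x, hx0, hx⟩
  · intro P p hp hp7 hP
    have hb2 : Pool.Agent.H921R2.TatePole.below P = ⟨p, hp⟩ := by
      apply Pool.Agent.H82R3.EK.below_eq_of_mem F (p := ⟨p, hp⟩) P
      have e2 : (p : F) = algebraMap (𝓞 F) F ((p : ℕ) : 𝓞 F) := by
        rw [map_natCast]
      rw [e2] at hP
      exact (P.valuation_lt_one_iff_mem (K := F) _).1 hP
    exact val_unram 7 (CyclotomicField 7 ℚ) F ⟨p, hp⟩ (by
      intro hdvd
      exact hp7 ((Nat.prime_dvd_prime_iff_eq hp (by norm_num)).1 hdvd)) P hb2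

section
attribute [-instance] DivisionRing.toRatAlgebra

/-- the group of the points, in two descriptions -/
theorem pt_equiv {L : Type} [Field L] (d₁ d₂ : DecidableEq L) {W₁ W₂ : WeierstrassCurve L}
    (h : W₁ = W₂) : Nonempty (@AddEquiv W₁.toAffine.Point W₂.toAffine.Point
      (@Affine.Point.instAddCommGroup L _ W₁.toAffine d₁).toAdd
      (@Affine.Point.instAddCommGroup L _ W₂.toAffine d₂).toAdd) := by
  subst h
  have hd : d₁ = d₂ := Subsingleton.elim _ _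
  subst hd
  exact ⟨AddEquiv.refl _⟩

theorem ee_wd (D : ℕ) : (EE ℚ D).baseChange ℚ = WD (D : ℚ) := by
  unfold WeierstrassCurve.baseChange WeierstrassCurve.map EE WD
  simp

theorem ee_equiv (D : ℕ) : Nonempty (Pt (EE ℚ D) ℚ ≃+ (WD (D : ℚ)).toAffine.Point) :=
  pt_equiv (Classical.decEq ℚ) _ (ee_wd D)

/-- **the bound** -/
theorem sel_bound {D : ℕ} (h : Adm D) :
    Finite {x : Sha (E D) // x + x = 0} ∧
      Nat.card {x : Sha (E D) // x + x = 0} * 2 ^ Module.finrank ℤ (E D).toAffine.Point ≤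
        4 ^ corank D := by
  obtain ⟨F, _, _, _, a, ha, V, I, π, hC, hF, hV, hun, hne, h7, hfin, hcard⟩ := data7 ℚ rat_all h
  have hD0 : D ≠ 0 := h.1.ne_zero
  have h4 := adm_mod h
  obtain ⟨j, hj⟩ : ∃ j, D = 1 + 4 * j := ⟨D / 4, by omega⟩
  have hDu : ∏ q ∈ inert D ∪ split D, q = D := by
    rw [union_eq, Nat.prod_primeFactors_of_squarefree h.1]
  have hgp : ∀ q ∈ inert D ∪ split D, Gp q := by
    intro q hq
    rcases Finset.mem_union.1 hq with h1 | h1
    · exact Gp.of_inq (inq h q h1)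
    · exact Gp.of_spl (spl h q h1)
  have hK : ∀ k : ℚ, k ^ 2 ≠ k - 2 := by
    intro u h1
    nlinarith [sq_nonneg (2 * u - 1)]
  obtain ⟨τ, T, hT, hτ⟩ := sha_cls (K := ℚ) (j := j) hC hF (by rw [hDu, hj]) hV
    (fun P hP => by
      have := hun P 2 Nat.prime_two (by norm_num) (by exact_mod_cast hP)
      exact_mod_cast this)
    (fun P hP => by
      rw [← hj, ← hDu] at hP ⊢
      rcases val_prod_exp (w := P.valuation F) (fun q hq => (hgp q hq).pr) (fun q hq =>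
        hun P q (hgp q hq).pr (hC.inS q hq).2.1) with h | h
      · rw [h.1] at hP
        exact absurd hP (lt_irrefl _)
      · exact h.1) hne hK h7
  obtain ⟨iso⟩ := ee_equiv (1 + 4 * j)
  obtain ⟨iso2⟩ := wd_iso hD0 h4
  have hfg := wd_fg hD0
  have e0 : (WD (D : ℚ)) = WD ((1 + 4 * j : ℕ) : ℚ) := by rw [hj]
  obtain ⟨iso3⟩ := pt_equiv (instDecidableEqRat) (instDecidableEqRat) e0
  have hfg1 : Module.Finite ℤ (WD ((1 + 4 * j : ℕ) : ℚ)).toAffine.Point :=
    Module.Finite.of_surjective iso3.toAddMonoidHom.toIntLinearMap iso3.surjective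
  have hfgA : Module.Finite ℤ (Pt (EE ℚ (1 + 4 * j)) ℚ) :=
    Module.Finite.of_injective iso.toAddMonoidHom.toIntLinearMap iso.injective
  have hr1 : Module.finrank ℤ (Pt (EE ℚ (1 + 4 * j)) ℚ) =
      Module.finrank ℤ (WD ((1 + 4 * j : ℕ) : ℚ)).toAffine.Point :=
    LinearEquiv.finrank_eq iso.toIntLinearEquiv
  have hr2 : Module.finrank ℤ (WD (D : ℚ)).toAffine.Point =
      Module.finrank ℤ (WD ((1 + 4 * j : ℕ) : ℚ)).toAffine.Point :=
    LinearEquiv.finrank_eq iso3.toIntLinearEquiv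
  have hr3 : Module.finrank ℤ (E D).toAffine.Point =
      Module.finrank ℤ (WD (D : ℚ)).toAffine.Point :=
    LinearEquiv.finrank_eq iso2.toIntLinearEquiv
  obtain ⟨h5, h6⟩ := sel_le τ T hT hτ
  rw [E_eq hj]
  refine ⟨h5, ?_⟩
  rw [E_eq hj] at hr3
  rw [hr3, hr2, ← hr1]
  exact h6.trans hcard

end

end Pool.Agent.R413.CK
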