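import Pool.Agent.R413.CK.Lb2
import Pool.Agent.R413.CK.Sh5
import Pool.Agent.R428.Q0.Conv

/-!
The bounds for the order of the Selmer group over `ℚ`.
-/

set_option autoImplicit false
set_option linter.unusedSectionVars false

namespace Pool.Agent.R413.CK

open Pool.Agent.Y698 Pool.Agent.Y698.SG Pool.Agent.R428.Q0
open NumberField IsDedekindDomain IsCyclotomicExtension.Rat WithZero WeierstrassCurve
open Pool.Agent.H921R2.TatePole Pool.Agent.H82R3.EK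
open Pool.Agent.TH841.SH.D (Pt act Coch IsCoc IsCob LocTriv cob cob_zero)
open Pool.Agent.TH841.NF.D (Sha shaCoc)
open Pool.Agent.Y700 (VR)
open Cv (WF LocI coc)
open Pool.Agent.Results.MP_4a9ea6_nt.TwoPartTwistsX49 (Adm inert split mat_eq inq spl union_eq
  adm_mod E twist E_eq rat_all exists_aux)

section
variable {r : ℕ} [hr : Fact r.Prime] (Mr : Type) [Field Mr] [NumberField Mr]
  [hMr : IsCyclotomicExtension {r} ℚ Mr] (K : Type) [Field K] [NumberField K] [Algebra K Mr]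

include hMr in
/-- the family of the elements of order two -/
theorem low_fam {Q P : Finset ℕ} (hd : DQ r Q P) {j : ℕ}
    (hj : ∏ q ∈ Q ∪ P, q = 1 + 4 * j) (hPS : P ⊆ P)
    (hb : 112 * ((1 + 4 * j : ℕ) : ℤ) ^ 2 ≠ 0) :
    ¬ IsSquare ((112 * ((1 + 4 * j : ℕ) : ℤ) ^ 2 : ℤ) : K) ∧
    ¬ IsSquare (((21 * ((1 + 4 * j : ℕ) : ℤ) : ℤ) : K) ^ 2 -
      4 * ((112 * ((1 + 4 * j : ℕ) : ℤ) ^ 2 : ℤ) : K)) ∧
    ∃ (f : LinearMap.ker (eqs (fun i => n4 i + ∑ q ∈ Q, nq i q) nq P P hPS) → Sha (AX K j))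
      (g : LinearMap.ker (eqs (fun i => n4 i + ∑ q ∈ Q, nq i q) nq P P hPS) →
        Pt (WF K (21 * ((1 + 4 * j : ℕ) : ℤ)) (112 * ((1 + 4 * j : ℕ) : ℤ) ^ 2)) K),
      (∀ x, f x + f x = 0) ∧ ∀ x y, f x = f y → ((∃ R, R + R = g x - g y) ∨
        ∃ R, R + R + Cv.T0 K hb K = g x - g y) → x = y := by
  classical
  set c : ℕ → ZMod 2 := fun i => n4 i + ∑ q ∈ Q, nq i q with hc
  have hir := hd.hr
  have hdj := hd.disj
  have hS : ∀ q ∈ P, Gp q ∧ q ≠ r := fun q hq =>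
    ⟨hd.gp q (Finset.mem_union_right _ hq), hd.ne q (Finset.mem_union_right _ hq)⟩
  have hsub : ∀ x : P → ZMod 2, spt P x ⊆ P := fun x => Finset.filter_subset _ _
  have hD0 : (1 + 4 * (j : K)) ≠ 0 := by
    have : ((1 + 4 * j : ℕ) : K) ≠ 0 := by
      rw [Nat.cast_ne_zero]
      omega
    push_cast at this
    exact this
  have hDZ : ((1 + 4 * j : ℕ) : ℤ) ≠ 0 := by
    rw [Nat.cast_ne_zero]
    omega
  have hab : (21 * ((1 + 4 * j : ℕ) : ℤ)) ^ 2 - 4 * (112 * ((1 + 4 * j : ℕ) : ℤ) ^ 2) ≠ 0 := by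
    have e : (21 * ((1 + 4 * j : ℕ) : ℤ)) ^ 2 - 4 * (112 * ((1 + 4 * j : ℕ) : ℤ) ^ 2) =
      -7 * ((1 + 4 * j : ℕ) : ℤ) ^ 2 := by ring
    rw [e]
    exact mul_ne_zero (by norm_num) (pow_ne_zero 2 hDZ)
  have eab : ((21 * ((1 + 4 * j : ℕ) : ℤ) : ℤ) : K) ^ 2 -
      4 * ((112 * ((1 + 4 * j : ℕ) : ℤ) ^ 2 : ℤ) : K) = -7 * (1 + 4 * (j : K)) ^ 2 := by
    push_cast
    ring
  have nb : ¬ IsSquare ((112 * ((1 + 4 * j : ℕ) : ℤ) ^ 2 : ℤ) : K) := by
    rintro ⟨s, hs⟩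
    apply seven_nonsq (r := r) Mr K hir.ns (s / (4 * (1 + 4 * (j : K))))
    push_cast at hs
    field_simp
    linear_combination -hs
  have nab : ¬ IsSquare (((21 * ((1 + 4 * j : ℕ) : ℤ) : ℤ) : K) ^ 2 -
      4 * ((112 * ((1 + 4 * j : ℕ) : ℤ) ^ 2 : ℤ) : K)) := by
    rw [eab]
    rintro ⟨s, hs⟩
    apply a_notin (r := r) Mr K hir.ns ((1 + s / (1 + 4 * (j : K))) / 2)
    field_simp
    linear_combination -hs
  refine ⟨nb, nab, ?_⟩
  have hV := vr_AX K j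
  have hVD := AX_ne K j
  have hposs : ∀ J ⊆ P, ∏ q ∈ J, q ≠ 0 := fun J hJ =>
    Finset.prod_ne_zero_iff.2 fun q hq => (hS q (hJ hq)).1.pr.ne_zero
  have hloc : ∀ x : LinearMap.ker (eqs c nq P P hPS),
      (∀ v : HeightOneSpectrum (𝓞 K), LocI (v.adicCompletion K) (21 * ((1 + 4 * j : ℕ) : ℤ))
        (112 * ((1 + 4 * j : ℕ) : ℤ) ^ 2) ((∏ q ∈ spt P x.1, q : ℕ) : ℤ)) ∧
      LocI ℝ (21 * ((1 + 4 * j : ℕ) : ℤ))
        (112 * ((1 + 4 * j : ℕ) : ℤ) ^ 2) ((∏ q ∈ spt P x.1, q : ℕ) : ℤ) := by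
    intro x
    obtain ⟨h1, h2⟩ := spt_eqs c nq P P hPS (x := x.1) (LinearMap.mem_ker.1 x.2)
    obtain ⟨l1, l2⟩ := loc_all (J := spt P x.1) (fun q hq => (hd.hQ q hq).1) hd.hP (hsub x.1)
      (fun i hi => h1 i (Finset.mem_sdiff.1 hi).1 (Finset.mem_sdiff.1 hi).2)
      (fun i hi => h2 i (hsub x.1 hi) hi)
    rw [hj] at l1 l2
    refine ⟨fun v => ?_, l2⟩
    have : Fact (below v : ℕ).Prime := ⟨(below v).2⟩
    exact loc_map (Th.pth (v := v) (p := (below v : ℕ)) (nm_eq v).2.2) (l1 _)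
  obtain ⟨f, g, hf2, hfi⟩ := sha_low K hb hab nb
    (d := fun x : LinearMap.ker (eqs c nq P P hPS) =>
      ((∏ q ∈ spt P x.1, q : ℕ) : ℤ))
    (fun x => Nat.cast_ne_zero.2 (hposs _ (hsub x.1))) (fun x => (hloc x).1) (fun x => (hloc x).2)
    (by
      intro x y hxy
      have hne : spt P x.1 ≠ spt P y.1 := fun h =>
        hxy (Subtype.ext (spt_inj P h))
      have hsd : ((spt P x.1 \ spt P y.1) ∪
          (spt P y.1 \ spt P x.1)).Nonempty := by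
        by_contra hcon
        rw [Finset.not_nonempty_iff_eq_empty, Finset.union_eq_empty,
          Finset.sdiff_eq_empty_iff_subset, Finset.sdiff_eq_empty_iff_subset] at hcon
        exact hne (Finset.Subset.antisymm hcon.1 hcon.2)
      have hsS : ∀ q ∈ (spt P x.1 \ spt P y.1) ∪
          (spt P y.1 \ spt P x.1), Gp q ∧ q ≠ r := by
        intro q hq
        rcases Finset.mem_union.1 hq with h | h
        · exact hS q (hsub x.1 (Finset.mem_sdiff.1 h).1)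
        · exact hS q (hsub y.1 (Finset.mem_sdiff.1 h).1)
      obtain ⟨n1, n2⟩ := not_sq_d Mr K hsS hsd
      have he0 : ((∏ q ∈ spt P x.1 ∩ spt P y.1, q : ℕ) : K) ≠ 0 :=
        Nat.cast_ne_zero.2 (hposs _ (Finset.inter_subset_left.trans (hsub x.1)))
      have hpr : (((∏ q ∈ spt P x.1, q : ℕ) : ℤ) * ((∏ q ∈ spt P y.1, q : ℕ) : ℤ) : ℤ)
          = ((∏ q ∈ (spt P x.1 \ spt P y.1) ∪
            (spt P y.1 \ spt P x.1), q : ℕ) : ℤ) *
            ((∏ q ∈ spt P x.1 ∩ spt P y.1, q : ℕ) : ℤ) ^ 2 := by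
        exact_mod_cast prod_symm (spt P x.1) (spt P y.1)
      have hpK : (((((∏ q ∈ spt P x.1, q : ℕ) : ℤ) *
          ((∏ q ∈ spt P y.1, q : ℕ) : ℤ) : ℤ)) : K)
          = ((((∏ q ∈ (spt P x.1 \ spt P y.1) ∪
            (spt P y.1 \ spt P x.1), q : ℕ) : ℤ)) : K) *
            ((∏ q ∈ spt P x.1 ∩ spt P y.1, q : ℕ) : K) ^ 2 := by
        rw [hpr, Int.cast_mul, Int.cast_pow, Int.cast_natCast (R := K)
          (∏ q ∈ spt P x.1 ∩ spt P y.1, q)]
      generalize ((∏ q ∈ spt P x.1 ∩ spt P y.1, q : ℕ) : K) = e at he0 hpK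
      generalize ((((∏ q ∈ (spt P x.1 \ spt P y.1) ∪
            (spt P y.1 \ spt P x.1), q : ℕ) : ℤ)) : K) = z at n1 n2 hpK
      refine ⟨?_, ?_⟩
      · show ¬ IsSquare (((((∏ q ∈ spt P x.1, q : ℕ) : ℤ) *
          ((∏ q ∈ spt P y.1, q : ℕ) : ℤ) : ℤ)) : K)
        rw [hpK]
        rintro ⟨s, hs⟩
        apply n1
        refine ⟨s / e, ?_⟩
        field_simp
        linear_combination hs
      · show ¬ IsSquare ((((((∏ q ∈ spt P x.1, q : ℕ) : ℤ) *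
          ((∏ q ∈ spt P y.1, q : ℕ) : ℤ) : ℤ)) : K) * _)
        rw [hpK, eab]
        rintro ⟨s, hs⟩
        apply n2 _ hD0
        refine ⟨s / e, ?_⟩
        field_simp
        linear_combination hs)
  have hI := (Pool.Agent.Y655.XT.isoVR hV hVD).sha
  refine ⟨fun x => hI.symm (f x), g, fun x => ?_, fun x y h h' =>
    hfi x y (hI.symm.injective h) h'⟩
  rw [← map_add, hf2, map_zero]

end

/-- the curve -/
theorem wf_wd (j : ℕ) : (WF ℚ (21 * ((1 + 4 * j : ℕ) : ℤ)) (112 * ((1 + 4 * j : ℕ) : ℤ) ^ 2)).baseChange ℚ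
    = WD ((1 + 4 * j : ℕ) : ℚ) := by
  unfold WeierstrassCurve.baseChange WeierstrassCurve.map WD
  simp [Pool.Agent.Y668.Wt]

/-- **the two bounds** -/
theorem sel_two {D : ℕ} (h : Adm D) :
    Module.Finite ℤ (E D).toAffine.Point ∧ Finite {x : Sha (E D) // x + x = 0} ∧
      2 ^ corank D ≤
        Nat.card {x : Sha (E D) // x + x = 0} * 2 ^ Module.finrank ℤ (E D).toAffine.Point ∧
      Nat.card {x : Sha (E D) // x + x = 0} * 2 ^ Module.finrank ℤ (E D).toAffine.Point ≤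
        4 ^ corank D := by
  classical
  obtain ⟨hfin, hup⟩ := sel_bound h
  refine ⟨(rank_corank h).1, hfin, ?_, hup⟩
  have hm4 := adm_mod h
  have hD0 : D ≠ 0 := h.1.ne_zero
  obtain ⟨r, hr, hrD⟩ := exists_aux D h.1.ne_zero
  have hrf : Fact r.Prime := ⟨hr.pr⟩
  have hM : IsCyclotomicExtension {r} ℚ (CyclotomicField r ℚ) := Pool.Agent.Y698.cyc_inst r
  set Q := inert D with hQd
  set P := split D with hPd
  have hQ := inq h
  have hP := spl h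
  have hd : DQ r Q P := ⟨hr, fun q hq => ⟨hQ q hq, by
    rintro rfl
    exact hrD (Nat.dvd_of_mem_primeFactors (Finset.mem_filter.1 hq).1)⟩, hP⟩
  have hDu : ∏ q ∈ Q ∪ P, q = D := by
    rw [hQd, hPd, union_eq, Nat.prod_primeFactors_of_squarefree h.1]
  obtain ⟨j, hj'⟩ : ∃ j, D = 1 + 4 * j := ⟨D / 4, by omega⟩
  have hj : ∏ q ∈ Q ∪ P, q = 1 + 4 * j := hDu.trans hj'
  have hPS : P ⊆ P := subset_rfl
  have hDZ : ((1 + 4 * j : ℕ) : ℤ) ≠ 0 := by
    rw [Nat.cast_ne_zero]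
    omega
  have hb : 112 * ((1 + 4 * j : ℕ) : ℤ) ^ 2 ≠ 0 := mul_ne_zero (by norm_num) (pow_ne_zero 2 hDZ)
  obtain ⟨nb, nab, f, g, hf2, hfi⟩ := low_fam (CyclotomicField r ℚ) ℚ hd hj hPS hb
  obtain ⟨t1, t2⟩ := tors_wf (K := ℚ) hb nb nab
  -- the number of the kernel
  have hLM : eqs (fun i => n4 i + ∑ q ∈ Q, nq i q) nq P P hPS =
      (matG Q P P P).mulVecLin := by
    refine LinearMap.ext fun x => ?_
    have h := matG_eqs (Q4 := ∅) hd.disj (Finset.empty_subset Q) (subset_rfl : P ⊆ P)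
      (Finset.union_empty P).symm hPS x
    rw [← h]
    simp only [Finset.sdiff_empty]
  have hcard : Nat.card (LinearMap.ker (eqs (fun i => n4 i + ∑ q ∈ Q, nq i q) nq P P hPS)) =
      2 ^ corank D := by
    rw [hLM, matG_mat]
    have hfr : Module.finrank (ZMod 2) (LinearMap.ker (Pool.Agent.Y698.SG.mat Q P).mulVecLin) =
        corank D := by
      rw [hQd, hPd, mat_eq]
      unfold corank
      have h3 := LinearMap.finrank_range_add_finrank_ker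
        (Pool.Agent.Results.MP_4a9ea6_nt.TwoPartTwistsX49.mat D).mulVecLin
      rw [Module.finrank_fintype_fun_eq_card, Fintype.card_coe] at h3
      have h4 : Module.finrank (ZMod 2) (LinearMap.range
        (Pool.Agent.Results.MP_4a9ea6_nt.TwoPartTwistsX49.mat D).mulVecLin) =
          (Pool.Agent.Results.MP_4a9ea6_nt.TwoPartTwistsX49.mat D).rank := rfl
      omega
    rw [Module.natCard_eq_pow_finrank (K := ZMod 2), Nat.card_zmod, hfr]
  rw [← hcard]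
  -- the group of the points
  obtain ⟨iso⟩ := pt_equiv (Classical.decEq ℚ) (instDecidableEqRat) (wf_wd j)
  obtain ⟨iso2⟩ := wd_iso hD0 hm4
  have hfg := wd_fg hD0
  have e0 : (WD (D : ℚ)) = WD ((1 + 4 * j : ℕ) : ℚ) := by rw [hj']
  obtain ⟨iso3⟩ := pt_equiv (instDecidableEqRat) (instDecidableEqRat) e0
  have hfg1 : Module.Finite ℤ (WD ((1 + 4 * j : ℕ) : ℚ)).toAffine.Point :=
    Module.Finite.of_surjective iso3.toAddMonoidHom.toIntLinearMap iso3.surjective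
  have iso' : Pt (WF ℚ (21 * ((1 + 4 * j : ℕ) : ℤ)) (112 * ((1 + 4 * j : ℕ) : ℤ) ^ 2)) ℚ ≃+
    (WD ((1 + 4 * j : ℕ) : ℚ)).toAffine.Point := iso
  have hfgA : Module.Finite ℤ (Pt (WF ℚ (21 * ((1 + 4 * j : ℕ) : ℤ))
      (112 * ((1 + 4 * j : ℕ) : ℤ) ^ 2)) ℚ) :=
    Module.Finite.of_injective iso'.toAddMonoidHom.toIntLinearMap iso'.injective
  have hr1 : Module.finrank ℤ (Pt (WF ℚ (21 * ((1 + 4 * j : ℕ) : ℤ))
      (112 * ((1 + 4 * j : ℕ) : ℤ) ^ 2)) ℚ) =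
      Module.finrank ℤ (WD ((1 + 4 * j : ℕ) : ℚ)).toAffine.Point :=
    LinearEquiv.finrank_eq iso'.toIntLinearEquiv
  have hr2 : Module.finrank ℤ (WD (D : ℚ)).toAffine.Point =
      Module.finrank ℤ (WD ((1 + 4 * j : ℕ) : ℚ)).toAffine.Point :=
    LinearEquiv.finrank_eq iso3.toIntLinearEquiv
  have hr3 : Module.finrank ℤ (E D).toAffine.Point =
      Module.finrank ℤ (WD (D : ℚ)).toAffine.Point :=
    LinearEquiv.finrank_eq iso2.toIntLinearEquiv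
  rw [E_eq hj'] at hfin hr3 ⊢
  have key := low_le (Y := {x : Sha (AX ℚ j) // x + x = 0}) (Cv.T0 ℚ hb ℚ) t1 t2
    (fun x => ⟨f x, hf2 x⟩) g fun x y hxy h' => hfi x y (congrArg Subtype.val hxy) h'
  rw [hr3, hr2, ← hr1]
  exact key

end Pool.Agent.R413.CK
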