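import Pool.Agent.R413.CK.Gf
import Pool.Agent.R413.MQ.Bin

/-!
The law of large numbers for the coranks of many twists.
-/

set_option autoImplicit false

open Filter Topology Finset

namespace Pool.Agent.R413.CK

open Pool.Agent.R413.SQ.Joint (tw adm_tw num num_true)
open Pool.Agent.Results.MP_4a9ea6_nt.TwoPartTwistsX49 (Adm)
open Pool.Agent.R413.MQ.Bin (cnt cnt_mono cnt_union cnt_card cnt_congr)

theorem num_cnt (Q : ℕ → Prop) (X : ℕ) : num Q X = cnt Adm Q X := by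
  classical
  unfold num cnt
  congr 1

/-- extension of a function on `T` -/
noncomputable def xt (T : Finset ℕ) (ρ : T → ℕ) : ℕ → ℕ := by
  classical
  exact fun M => if h : M ∈ T then ρ ⟨M, h⟩ else 0

theorem xt_coe {T : Finset ℕ} (ρ : T → ℕ) (M : T) : xt T ρ M = ρ M := by
  unfold xt
  exact dif_pos M.2

/-- the exponent -/
theorem exists_z {a : ℝ} (ha : mu < a) : ∃ z : ℝ, 1 < z ∧ Real.exp (mu * (z - 1)) < z ^ a := by
  have hm := mu_bounds
  have hm0 : 0 < mu := by linarith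
  have h1 : 1 < a / mu := (one_lt_div hm0).2 ha
  obtain ⟨z, hz1, hz2⟩ := exists_between h1
  refine ⟨z, hz1, ?_⟩
  have hz0 : 0 < z := by linarith
  rw [Real.rpow_def_of_pos hz0, Real.exp_lt_exp]
  have h2 : 1 - 1 / z ≤ Real.log z := by
    have := Real.one_sub_inv_le_log_of_pos hz0
    rwa [inv_eq_one_div] at this
  have h3 : mu * z < a := by rwa [lt_div_iff₀ hm0, mul_comm] at hz2
  have h4 : (1 - 1 / z) * a ≤ Real.log z * a := mul_le_mul_of_nonneg_right h2 (by linarith)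
  have h5 : mu * (z - 1) < (1 - 1 / z) * a := by
    have e : (1 - 1 / z) * a = (z - 1) * (a / z) := by
      field_simp
    rw [e, mul_comm mu]
    refine mul_lt_mul_of_pos_left ?_ (by linarith)
    rwa [lt_div_iff₀ hz0]
  linarith

/-- **large deviations for the coranks of the twists** -/
theorem ldp {a : ℝ} (ha : mu < a) : ∃ q : ℝ, 0 < q ∧ q < 1 ∧ ∀ T : Finset ℕ, (∀ M ∈ T, Adm M) →
    ∀ δ : ℝ, 0 < δ → ∃ X₀ : ℕ, ∀ X : ℕ, X₀ ≤ X →
      (num (fun D => a * T.card ≤ ((∑ M ∈ T, corank (tw M D) : ℕ) : ℝ)) X : ℝ) ≤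
        (q ^ T.card + δ) * (num (fun _ => True) X : ℝ) := by
  classical
  obtain ⟨z, hz1, hz⟩ := exists_z ha
  have hz0 : 0 < z := by linarith
  have hza : 0 < z ^ a := Real.rpow_pos_of_pos hz0 a
  refine ⟨Real.exp (mu * (z - 1)) / z ^ a, by positivity, (div_lt_one hza).2 hz, ?_⟩
  set q := Real.exp (mu * (z - 1)) / z ^ a with hq
  intro T hT δ hδ
  set n := T.card with hn
  -- the truncation
  obtain ⟨B, hB⟩ : ∃ B : ℕ, 1 - δ / 2 ≤ (∑ r ∈ range B, mr r) ^ n := by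
    have h1 := (mr_hasSum.tendsto_sum_nat).pow n
    rw [one_pow] at h1
    obtain ⟨B, hB⟩ := (h1.eventually (lt_mem_nhds (show 1 - δ / 2 < 1 by linarith))).exists
    exact ⟨B, hB.le⟩
  set Bx : Finset (T → ℕ) := Fintype.piFinset fun _ => range B with hBx
  set Gd : Finset (T → ℕ) := Bx.filter fun ρ => ((∑ M, ρ M : ℕ) : ℝ) < a * n with hGd
  -- the mass of the box
  have hmass : ∑ ρ ∈ Bx, ∏ M, mr (ρ M) = (∑ r ∈ range B, mr r) ^ n := by
    rw [hBx, ← Finset.prod_univ_sum, prod_const, card_univ, Fintype.card_coe]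
  have hbad : ∑ ρ ∈ Bx.filter (fun ρ => ¬ ((∑ M, ρ M : ℕ) : ℝ) < a * n), ∏ M, mr (ρ M) ≤ q ^ n := by
    have h1 : ∀ ρ ∈ Bx.filter (fun ρ => ¬ ((∑ M, ρ M : ℕ) : ℝ) < a * n), ∏ M, mr (ρ M) ≤
        (∏ M, (mr (ρ M) * z ^ (ρ M))) / (z ^ a) ^ n := by
      intro ρ hρ
      rw [mem_filter, not_lt] at hρ
      rw [prod_mul_distrib, prod_pow_eq_pow_sum, mul_div_assoc]
      refine le_mul_of_one_le_right (prod_nonneg fun M _ => mr_nonneg _) ?_
      rw [one_le_div (by positivity), ← Real.rpow_natCast (z ^ a), ← Real.rpow_mul hz0.le,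
        ← Real.rpow_natCast z]
      exact Real.rpow_le_rpow_of_exponent_le hz1.le hρ.2
    refine (sum_le_sum h1).trans ?_
    rw [← sum_div]
    have h2 : ∑ ρ ∈ Bx.filter (fun ρ => ¬ ((∑ M, ρ M : ℕ) : ℝ) < a * n),
        ∏ M, (mr (ρ M) * z ^ (ρ M)) ≤ ∑ ρ ∈ Bx, ∏ M, (mr (ρ M) * z ^ (ρ M)) :=
      sum_le_sum_of_subset_of_nonneg (filter_subset _ _) fun ρ _ _ =>
        prod_nonneg fun M _ => mul_nonneg (mr_nonneg _) (by positivity)
    have h3 : ∑ ρ ∈ Bx, ∏ M, (mr (ρ M) * z ^ (ρ M)) = (∑ r ∈ range B, mr r * z ^ r) ^ n := by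
      rw [hBx, ← Finset.prod_univ_sum (fun _ => range B) (fun _ r => mr r * z ^ r), prod_const,
        card_univ, Fintype.card_coe]
    have h4 : (∑ r ∈ range B, mr r * z ^ r) ^ n ≤ Real.exp (mu * (z - 1)) ^ n :=
      pow_le_pow_left₀ (sum_nonneg fun r _ => mul_nonneg (mr_nonneg r) (by positivity))
        (mr_exp hz1.le B) n
    rw [hq, div_pow]
    refine div_le_div_of_nonneg_right ?_ (by positivity)
    exact h2.trans (h3.le.trans h4)
  have hgood : 1 - δ / 2 - q ^ n ≤ ∑ ρ ∈ Gd, ∏ M, mr (ρ M) := by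
    have h1 := sum_filter_add_sum_filter_not Bx (fun ρ : T → ℕ => ((∑ M, ρ M : ℕ) : ℝ) < a * n)
      (fun ρ => ∏ M, mr (ρ M))
    rw [hmass] at h1
    rw [hGd]
    linarith
  -- the limit
  have hlim : Tendsto (fun X : ℕ => (∑ ρ ∈ Gd, (num (fun D => ∀ M ∈ T,
      corank (tw M D) = xt T ρ M) X : ℝ)) / (num (fun _ => True) X : ℝ)) atTop
      (𝓝 (∑ ρ ∈ Gd, ∏ M, mr (ρ M))) := by
    simp only [sum_div]
    refine tendsto_finsetSum _ fun ρ _ => ?_
    have h1 := law hT (xt T ρ)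
    have h2 : ∏ M ∈ T, mr (xt T ρ M) = ∏ M, mr (ρ M) := by
      rw [← prod_coe_sort T (fun M => mr (xt T ρ M))]
      exact prod_congr rfl fun M _ => by rw [xt_coe]
    rwa [h2] at h1
  obtain ⟨X₀, hX₀⟩ := eventually_atTop.1 (hlim.eventually (lt_mem_nhds
    (show 1 - q ^ n - δ < ∑ ρ ∈ Gd, ∏ M, mr (ρ M) by linarith)))
  refine ⟨X₀, fun X hX => ?_⟩
  have h1 := hX₀ X hX
  -- the sum counts
  have h2 : (∑ ρ ∈ Gd, (num (fun D => ∀ M ∈ T, corank (tw M D) = xt T ρ M) X : ℝ)) ≤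
      (num (fun D => ¬ a * T.card ≤ ((∑ M ∈ T, corank (tw M D) : ℕ) : ℝ)) X : ℝ) := by
    rw [← Nat.cast_sum]
    rw [Nat.cast_le]
    obtain ⟨s, hs⟩ : ∃ s : Finset ℕ, ∀ D, D ∈ s ↔ D ∈ Icc 1 X ∧ Adm D ∧
        ¬ a * T.card ≤ ((∑ M ∈ T, corank (tw M D) : ℕ) : ℝ) :=
      ⟨(Icc 1 X).filter fun D => Adm D ∧ ¬ a * T.card ≤ ((∑ M ∈ T, corank (tw M D) : ℕ) : ℝ),
        fun D => by rw [mem_filter]⟩
    rw [num_cnt, cnt_card hs]
    have h3 : ∀ ρ : T → ℕ, ∃ t : Finset ℕ, (∀ D, D ∈ t ↔ D ∈ Icc 1 X ∧ Adm D ∧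
        ∀ M ∈ T, corank (tw M D) = xt T ρ M) := fun ρ =>
      ⟨(Icc 1 X).filter fun D => Adm D ∧ ∀ M ∈ T, corank (tw M D) = xt T ρ M,
        fun D => by rw [mem_filter]⟩
    choose t ht using h3
    have h4 : ∀ ρ ∈ Gd, num (fun D => ∀ M ∈ T, corank (tw M D) = xt T ρ M) X = (t ρ).card :=
      fun ρ _ => by rw [num_cnt, cnt_card (ht ρ)]
    rw [sum_congr rfl h4, ← card_biUnion]
    · refine card_le_card fun D hD => ?_
      rw [mem_biUnion] at hD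
      obtain ⟨ρ, hρ, hD⟩ := hD
      obtain ⟨h5, h6, h7⟩ := (ht ρ D).1 hD
      rw [hs]
      refine ⟨h5, h6, ?_⟩
      rw [hGd, mem_filter] at hρ
      have h8 : (∑ M ∈ T, corank (tw M D) : ℕ) = ∑ M, ρ M := by
        rw [← sum_coe_sort T (fun M => corank (tw M D))]
        exact sum_congr rfl fun M _ => by rw [h7 M M.2, xt_coe]
      rw [h8, not_le]
      exact hρ.2
    · intro ρ _ ρ' _ hne
      rw [Function.onFun, Finset.disjoint_left]
      intro D hD hD'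
      apply hne
      funext M
      have h5 := ((ht ρ D).1 hD).2.2 M M.2
      have h6 := ((ht ρ' D).1 hD').2.2 M M.2
      rw [xt_coe] at h5 h6
      rw [← h5, h6]
  have h3 : num (fun D => a * T.card ≤ ((∑ M ∈ T, corank (tw M D) : ℕ) : ℝ)) X +
      num (fun D => ¬ a * T.card ≤ ((∑ M ∈ T, corank (tw M D) : ℕ) : ℝ)) X =
      num (fun _ => True) X := by
    rw [num_cnt, num_cnt, num_cnt]
    obtain ⟨s, hs⟩ : ∃ s : Finset ℕ, ∀ D, D ∈ s ↔ D ∈ Icc 1 X ∧ Adm D ∧ True :=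
      ⟨(Icc 1 X).filter fun D => Adm D ∧ True, fun D => by rw [mem_filter]⟩
    rw [cnt_card (s := s.filter fun D => a * T.card ≤ ((∑ M ∈ T, corank (tw M D) : ℕ) : ℝ))
      (fun D => by
        rw [mem_filter, hs]
        exact ⟨fun h => ⟨h.1.1, h.1.2.1, h.2⟩, fun h => ⟨⟨h.1, h.2.1, trivial⟩, h.2.2⟩⟩),
      cnt_card (s := s.filter fun D => ¬ a * T.card ≤ ((∑ M ∈ T, corank (tw M D) : ℕ) : ℝ))
      (fun D => by
        rw [mem_filter, hs]
        exact ⟨fun h => ⟨h.1.1, h.1.2.1, h.2⟩, fun h => ⟨⟨h.1, h.2.1, trivial⟩, h.2.2⟩⟩),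
      cnt_card hs]
    exact card_filter_add_card_filter_not _
  have h3' : (num (fun D => a * T.card ≤ ((∑ M ∈ T, corank (tw M D) : ℕ) : ℝ)) X : ℝ) +
      (num (fun D => ¬ a * T.card ≤ ((∑ M ∈ T, corank (tw M D) : ℕ) : ℝ)) X : ℝ) =
      (num (fun _ => True) X : ℝ) := by exact_mod_cast h3
  rcases Nat.eq_zero_or_pos (num (fun _ => True) X) with h0 | h0
  · have h5 : (num (fun D => a * T.card ≤ ((∑ M ∈ T, corank (tw M D) : ℕ) : ℝ)) X) = 0 := by omega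
    rw [h5, h0]
    simp
  · have h6 : (0 : ℝ) < (num (fun _ => True) X : ℝ) := by exact_mod_cast h0
    rw [lt_div_iff₀ h6] at h1
    nlinarith

end Pool.Agent.R413.CK
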