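import Pool.Agent.R413.CK.Mq

/-!
The laws of the ranks over a multiquadratic field.
-/

set_option autoImplicit false

open Filter Topology Finset

namespace Pool.Agent.R413.CK

open Pool.Agent.R413.SQ
open Pool.Agent.R413.SQ.Joint (tw ac_tw tw_pf adm_tw num num_true)
open Pool.Agent.Results.MP_4a9ea6_nt.TwoPartTwistsX49 (Adm mat split E twist)
open Pool.Agent.R413.MQ.Bin (cnt cnt_card)
open Pool.Agent.Y703.CX (eL ev_eL X_pos)

/-- the law of the sum of `N` independent coranks -/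
noncomputable def lawN (N r : ℕ) : ℝ := PowerSeries.coeff r ((PowerSeries.mk mr) ^ N)

/-- **the law of the sums** -/
theorem law_sum {U : Finset ℕ} (hU : ∀ M ∈ U, Adm M) (r : ℕ) :
    Tendsto (fun X : ℕ => (num (fun D => ∑ M ∈ U, corank (tw M D) = r) X : ℝ) /
      (num (fun _ => True) X : ℝ)) atTop (𝓝 (lawN U.card r)) := by
  classical
  have e : lawN U.card r = ∑ l ∈ U.finsuppAntidiag r, ∏ M ∈ U, mr (l M) := by
    unfold lawN
    rw [← prod_const, PowerSeries.coeff_prod]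
    simp only [PowerSeries.coeff_mk]
  rw [e]
  have h1 : Tendsto (fun X : ℕ => ∑ l ∈ U.finsuppAntidiag r,
      (num (fun D => ∀ M ∈ U, corank (tw M D) = l M) X : ℝ) / (num (fun _ => True) X : ℝ)) atTop
      (𝓝 (∑ l ∈ U.finsuppAntidiag r, ∏ M ∈ U, mr (l M))) :=
    tendsto_finsetSum _ fun l _ => law hU l
  refine h1.congr fun X => ?_
  rw [← sum_div, ← Nat.cast_sum]
  congr 2
  have h3 : ∀ l : ℕ →₀ ℕ, ∃ t : Finset ℕ, (∀ D, D ∈ t ↔ D ∈ Icc 1 X ∧ Adm D ∧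
      ∀ M ∈ U, corank (tw M D) = l M) := fun l =>
    ⟨(Icc 1 X).filter fun D => Adm D ∧ ∀ M ∈ U, corank (tw M D) = l M,
      fun D => by rw [mem_filter]⟩
  choose t ht using h3
  have h4 : ∀ l ∈ U.finsuppAntidiag r, num (fun D => ∀ M ∈ U, corank (tw M D) = l M) X =
      (t l).card := fun l _ => by rw [num_cnt, cnt_card (ht l)]
  rw [sum_congr rfl h4, ← card_biUnion]
  · rw [num_cnt]
    refine (cnt_card fun D => ?_).symm
    rw [mem_biUnion]
    constructor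
    · rintro ⟨l, hl, hD⟩
      obtain ⟨h5, h6, h7⟩ := (ht l D).1 hD
      refine ⟨h5, h6, ?_⟩
      rw [mem_finsuppAntidiag] at hl
      rw [← hl.1]
      exact sum_congr rfl h7
    · rintro ⟨h5, h6, h7⟩
      have hsup : ∀ M, (if M ∈ U then corank (tw M D) else 0) ≠ 0 → M ∈ U := by
        intro M hM
        by_contra h
        exact hM (if_neg h)
      refine ⟨Finsupp.onFinset U (fun M => if M ∈ U then corank (tw M D) else 0) hsup, ?_, ?_⟩
      · rw [mem_finsuppAntidiag]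
        refine ⟨?_, Finsupp.support_onFinset_subset⟩
        rw [← h7]
        exact sum_congr rfl fun M hM => by rw [Finsupp.onFinset_apply, if_pos hM]
      · rw [ht]
        refine ⟨h5, h6, fun M hM => ?_⟩
        rw [Finsupp.onFinset_apply, if_pos hM]
  · intro l hl l' hl' hne
    rw [Function.onFun, Finset.disjoint_left]
    intro D hD hD'
    apply hne
    rw [mem_coe, mem_finsuppAntidiag] at hl hl'
    ext M
    by_cases hM : M ∈ U
    · have h5 := ((ht l D).1 hD).2.2 M hM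
      have h6 := ((ht l' D).1 hD').2.2 M hM
      rw [← h5, ← h6]
    · rw [Finsupp.notMem_support_iff.1 fun h => hM (hl.2 h),
        Finsupp.notMem_support_iff.1 fun h => hM (hl'.2 h)]

/-- the averages of the powers of the sums -/
theorem sum_moment {U : Finset ℕ} (hU : ∀ M ∈ U, Adm M) (m : ℕ) {δ : ℝ} (hδ : 0 < δ) :
    ∀ᶠ X : ℕ in atTop,
      ∑ D ∈ clsX X, ((2 * ∑ M ∈ U, corank (tw M D) : ℕ) : ℝ) ^ (m + 1) ≤
        ((2 * U.card : ℝ) ^ (m + 1) * ∑' r : ℕ, (r : ℝ) ^ (m + 1) * mr r + δ) *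
          (num (fun _ => True) X : ℝ) := by
  obtain ⟨c, hc, hlow⟩ := low_num
  have h0 : Tendsto (fun X : ℕ => ∑ M ∈ U, (∑ D ∈ clsX X, (corank (tw M D) : ℝ) ^ (m + 1)) /
      (num (fun _ => True) X : ℝ)) atTop (𝓝 (∑ _M ∈ U, ∑' r : ℕ, (r : ℝ) ^ (m + 1) * mr r)) :=
    tendsto_finsetSum _ fun M hM => moment (hU M hM) (m + 1)
  have h1 := (h0.const_mul (2 ^ (m + 1) * (U.card : ℝ) ^ m)).eventually (gt_mem_nhds
    (show 2 ^ (m + 1) * (U.card : ℝ) ^ m * ∑ _M ∈ U, ∑' r : ℕ, (r : ℝ) ^ (m + 1) * mr r <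
      (2 * U.card : ℝ) ^ (m + 1) * ∑' r : ℕ, (r : ℝ) ^ (m + 1) * mr r + δ by
      rw [sum_const, nsmul_eq_mul, mul_pow, pow_succ (U.card : ℝ) m]
      nlinarith))
  filter_upwards [h1, hlow, ev_eL 1] with X g1 g3 g4
  have hXp : 1 ≤ X := X_pos (by linarith)
  have hX0 : (0 : ℝ) < X := by exact_mod_cast hXp
  have hN : (0 : ℝ) < (num (fun _ => True) X : ℝ) := lt_of_lt_of_le (by positivity) g3
  rw [← sum_div, ← mul_div_assoc, div_lt_iff₀ hN] at g1
  refine le_trans ?_ g1.le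
  rw [sum_comm, mul_sum]
  refine sum_le_sum fun D _ => ?_
  have h2 : (∑ M ∈ U, (corank (tw M D) : ℝ)) ^ (m + 1) ≤
      (U.card : ℝ) ^ m * ∑ M ∈ U, (corank (tw M D) : ℝ) ^ (m + 1) := by
    rcases U.eq_empty_or_nonempty with rfl | hne
    · simp
    · have h3 := pow_sum_div_card_le_sum_pow (s := U) (f := fun M => (corank (tw M D) : ℝ))
        (fun M _ => Nat.cast_nonneg _) m
      have h4 : (0 : ℝ) < (U.card : ℝ) ^ m := by
        have : (0 : ℝ) < U.card := by exact_mod_cast card_pos.2 hne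
        positivity
      rw [div_le_iff₀ h4] at h3
      linarith
  push_cast
  rw [mul_pow]
  calc 2 ^ (m + 1) * (∑ M ∈ U, (corank (tw M D) : ℝ)) ^ (m + 1) ≤
        2 ^ (m + 1) * ((U.card : ℝ) ^ m * ∑ M ∈ U, (corank (tw M D) : ℝ) ^ (m + 1)) := by gcongr
    _ = _ := by ring

section field

variable {n : ℕ} {d : Fin n → ℕ}

/-- the numbers of the twists -/
noncomputable def UT (d : Fin n → ℕ) (T : Finset (Fin n)) : ℕ := sqf (∏ i ∈ T, d i)

theorem ut_adm (hd : ∀ i, Adm (d i)) (T : Finset (Fin n)) :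
    Adm (UT d T) ∧ ∃ k : ℕ, k ≠ 0 ∧ ∏ i ∈ T, d i = UT d T * k ^ 2 := by
  refine adm_mul (Finset.prod_ne_zero_iff.2 fun i _ => (hd i).1.ne_zero) fun p hp => ?_
  rw [Nat.mem_primeFactors] at hp
  obtain ⟨i, hi, h'⟩ := (Prime.dvd_finsetProd_iff hp.1.prime _).1 hp.2.1
  exact (hd i).2 p (Nat.mem_primeFactors.2 ⟨hp.1, h', (hd i).1.ne_zero⟩)

theorem ut_tw (hd : ∀ i, Adm (d i)) (T : Finset (Fin n)) {D : ℕ} (hD : Adm D) :
    sqf (D * ∏ i ∈ T, d i) = tw (UT d T) D := by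
  obtain ⟨h1, k, hk, h2⟩ := ut_adm hd T
  rw [h2, sqf_tw h1 hD hk]

theorem ut_inj (hd : ∀ i, Adm (d i)) (hi : ∀ T : Finset (Fin n), T.Nonempty →
    ¬ IsSquare (∏ i ∈ T, d i)) : Function.Injective (UT d) := by
  classical
  intro T T' h
  obtain ⟨h1, k, hk, h2⟩ := ut_adm hd T
  obtain ⟨h1', k', hk', h2'⟩ := ut_adm hd T'
  have h3 : (∏ i ∈ symmDiff T T', d i) * (∏ i ∈ T ∩ T', d i) ^ 2 =
      (UT d T * k * k') ^ 2 := by
    have h4 : (∏ i ∈ symmDiff T T', d i) * (∏ i ∈ T ∩ T', d i) ^ 2 =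
        (∏ i ∈ T, d i) * (∏ i ∈ T', d i) := by
      rw [symmDiff_def, sup_eq_union, prod_union disjoint_sdiff_sdiff]
      have g1 : ∏ i ∈ T, d i = (∏ i ∈ T \ T', d i) * ∏ i ∈ T ∩ T', d i := by
        rw [← prod_union (Finset.disjoint_sdiff_inter T T'), sdiff_union_inter]
      have g2 : ∏ i ∈ T', d i = (∏ i ∈ T' \ T, d i) * ∏ i ∈ T ∩ T', d i := by
        rw [inter_comm, ← prod_union (Finset.disjoint_sdiff_inter T' T), sdiff_union_inter]
      rw [g1, g2]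
      ring
    rw [h4, h2, h2', ← h]
    ring
  by_contra hne
  have hne' : (symmDiff T T').Nonempty := by
    rw [nonempty_iff_ne_empty]
    intro h5
    exact hne (symmDiff_eq_bot.1 h5)
  refine hi _ hne' ?_
  have ha : ∏ i ∈ T ∩ T', d i ≠ 0 := Finset.prod_ne_zero_iff.2 fun i _ => (hd i).1.ne_zero
  have h5 : (∏ i ∈ T ∩ T', d i) ^ 2 ∣ (UT d T * k * k') ^ 2 := ⟨_, by rw [← h3, mul_comm]⟩
  obtain ⟨b, hb⟩ := (Nat.pow_dvd_pow_iff two_ne_zero).1 h5
  refine ⟨b, ?_⟩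
  rw [hb, mul_pow, mul_comm] at h3
  have h6 := Nat.eq_of_mul_eq_mul_left (Nat.pos_of_ne_zero (pow_ne_zero 2 ha)) h3
  rw [h6, sq]

theorem ut_sum (hd : ∀ i, Adm (d i)) (hi : ∀ T : Finset (Fin n), T.Nonempty →
    ¬ IsSquare (∏ i ∈ T, d i)) {D : ℕ} (hD : Adm D) :
    ∑ T : Finset (Fin n), corank (sqf (D * ∏ i ∈ T, d i)) =
      ∑ M ∈ univ.image (UT d), corank (tw M D) := by
  rw [sum_image fun T _ T' _ h => ut_inj hd hi h]
  exact sum_congr rfl fun T _ => by rw [ut_tw hd T hD]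

theorem ut_card (hd : ∀ i, Adm (d i)) (hi : ∀ T : Finset (Fin n), T.Nonempty →
    ¬ IsSquare (∏ i ∈ T, d i)) : (univ.image (UT d)).card = 2 ^ n := by
  rw [card_image_of_injective _ (ut_inj hd hi), card_univ, Fintype.card_finset, Fintype.card_fin]

theorem ut_mem (hd : ∀ i, Adm (d i)) : ∀ M ∈ univ.image (UT d), Adm M := by
  intro M hM
  obtain ⟨T, -, rfl⟩ := mem_image.1 hM
  exact (ut_adm hd T).1

end field

end Pool.Agent.R413.CK
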