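import Pool.Agent.R413.CK.Um
import Pool.Agent.R413.CK.Rk
import Pool.Agent.R413.CK.Bd

/-!
The limits of the moments of the coranks and bounds of the moments of the ranks.
-/

set_option autoImplicit false

open Filter Topology Finset

namespace Pool.Agent.R413.CK

open Pool.Agent.R413.SQ
open Pool.Agent.R413.SQ.Joint (tw ac_tw tw_pf adm_tw num num_true)
open Pool.Agent.Y703.CQ (c2)
open Pool.Agent.Y703.CX (eL ev_eL X_pos)
open Pool.Agent.Results.MP_4a9ea6_nt.TwoPartTwistsX49 (Adm mat split E)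

theorem c2_pos : 0 < c2 := by
  have := Gz_ge (z := 1) zero_le_one
  have h := c2_Gz
  by_contra h0
  nlinarith

/-- the bound of the generating function left of one -/
theorem Gz_exp_left {z : ℝ} (hz0 : 0 ≤ z) :
    Gz z ≤ Real.exp (mu * (z - 1)) * Gz 1 := by
  set P : ℕ → ℝ := fun N => ∑ i ∈ range N, 1 / ((2 : ℝ) ^ (i + 1) + 1) with hP
  have h1 : ∀ N : ℕ, Gz z ≤ Real.exp ((z - 1) * P N) * Gz 1 * Gz (z / 2 ^ N) := by
    intro N
    rw [Gz_prod z N, Gz_prod 1 N]
    have hG := Gz_ge (z := z / 2 ^ N) (by positivity)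
    have hG1 := Gz_ge (z := 1 / 2 ^ N) (by positivity)
    have h2 : ∏ i ∈ range N, (1 + z / 2 ^ (i + 1)) ≤
        Real.exp ((z - 1) * P N) * ∏ i ∈ range N, (1 + 1 / (2 : ℝ) ^ (i + 1)) := by
      have h3 : ∀ i ∈ range N, 1 + z / 2 ^ (i + 1) ≤
          Real.exp ((z - 1) * (1 / ((2 : ℝ) ^ (i + 1) + 1))) * (1 + 1 / 2 ^ (i + 1)) := by
        intro i _
        have h4 := Real.add_one_le_exp ((z - 1) * (1 / ((2 : ℝ) ^ (i + 1) + 1)))
        refine le_trans (le_of_eq ?_) (mul_le_mul_of_nonneg_right h4 (by positivity))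
        field_simp
        ring
      refine (prod_le_prod (fun i _ => by positivity) h3).trans ?_
      rw [prod_mul_distrib, ← Real.exp_sum, ← mul_sum]
    have h0 : 0 ≤ ∏ i ∈ range N, (1 + 1 / (2 : ℝ) ^ (i + 1)) := by positivity
    calc (∏ i ∈ range N, (1 + z / 2 ^ (i + 1))) * Gz (z / 2 ^ N) ≤
          (Real.exp ((z - 1) * P N) * ∏ i ∈ range N, (1 + 1 / (2 : ℝ) ^ (i + 1))) *
            Gz (z / 2 ^ N) := mul_le_mul_of_nonneg_right h2 (by linarith)
      _ ≤ (Real.exp ((z - 1) * P N) * ∏ i ∈ range N, (1 + 1 / (2 : ℝ) ^ (i + 1))) *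
            Gz (z / 2 ^ N) * Gz (1 / 2 ^ N) := le_mul_of_one_le_right (by positivity) hG1
      _ = _ := by ring
  have h3 : Tendsto P atTop (𝓝 mu) := mu_summ.hasSum.tendsto_sum_nat
  have h4 : Tendsto (fun N => Real.exp ((z - 1) * P N)) atTop (𝓝 (Real.exp ((z - 1) * mu))) :=
    (Real.continuous_exp.tendsto _).comp (h3.const_mul (z - 1))
  have h2 := (h4.mul_const (Gz 1)).mul (Gz_lim z hz0)
  rw [mul_one, mul_comm (z - 1) mu] at h2
  exact ge_of_tendsto' h2 h1

/-- the moments of the law are finite -/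
theorem mo_summ (m : ℕ) : Summable fun r : ℕ => (r : ℝ) ^ m * mr r := by
  have h1 : Tendsto (fun s : ℕ => (s : ℝ) ^ m * (1 / 2 : ℝ) ^ s) atTop (𝓝 0) :=
    tendsto_pow_const_mul_const_pow_of_abs_lt_one m (by rw [abs_lt]; constructor <;> norm_num)
  obtain ⟨A, hA⟩ := h1.bddAbove_range
  have hA' : ∀ s : ℕ, (s : ℝ) ^ m * (1 / 2 : ℝ) ^ s ≤ |A| := fun s =>
    (hA ⟨s, rfl⟩).trans (le_abs_self A)
  refine Summable.of_nonneg_of_le (fun r => mul_nonneg (by positivity) (mr_nonneg r)) (fun r => ?_)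
    ((summ 2).mul_left (|A| * c2))
  rw [mr_pr]
  have h2 := c2_pos
  have h3 := pr_pos r
  have h4 : (r : ℝ) ^ m ≤ |A| * 2 ^ r := by
    have h5 := hA' r
    rw [one_div_pow, mul_one_div, div_le_iff₀ (by positivity)] at h5
    exact h5
  calc (r : ℝ) ^ m * (c2 / pr r) ≤ |A| * 2 ^ r * (c2 / pr r) := by gcongr
    _ = _ := by ring

/-- the mean of the law -/
theorem mean_eq : ∑' r : ℕ, (r : ℝ) * mr r = mu := by
  have hs : Summable fun r : ℕ => (r : ℝ) * mr r := by
    have := mo_summ 1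
    simpa using this
  apply le_antisymm
  · exact hs.tsum_le_of_sum_range_le mr_mean
  · set E := ∑' r : ℕ, (r : ℝ) * mr r with hE
    have key : ∀ h : ℝ, 0 < h → h ≤ 1 → 1 - Real.exp (mu * (-h)) ≤ E * h := by
      intro h h0 h1
      have h2 := Gz_exp_left (z := 1 - h) (by linarith)
      have h3 := mul_le_mul_of_nonneg_left h2 c2_pos.le
      have h4 : c2 * (Real.exp (mu * (1 - h - 1)) * Gz 1) = Real.exp (mu * (-h)) := by
        have h5 := c2_Gz
        have h6 : 1 - h - 1 = -h := by ring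
        rw [h6]
        linear_combination (Real.exp (mu * (-h))) * h5
      rw [h4] at h3
      have h5 : c2 * Gz (1 - h) = ∑' r : ℕ, mr r * (1 - h) ^ r := by
        unfold Gz
        rw [← tsum_mul_left]
        refine tsum_congr fun r => ?_
        rw [mr_pr]
        ring
      rw [h5] at h3
      have h6 : Summable fun r : ℕ => mr r * (1 - h) ^ r := by
        refine ((summ (1 - h)).mul_left c2).congr fun r => ?_
        rw [mr_pr]
        ring
      have h7 : ∑' r : ℕ, (mr r - h * ((r : ℝ) * mr r)) ≤ ∑' r : ℕ, mr r * (1 - h) ^ r := by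
        refine (mr_hasSum.summable.sub (hs.mul_left h)).tsum_le_tsum (fun r => ?_) h6
        have h8 := one_add_mul_le_pow (a := -h) (by linarith) r
        have h9 := mul_le_mul_of_nonneg_left h8 (mr_nonneg r)
        have h10 : 1 + -h = 1 - h := by ring
        rw [h10] at h9
        refine le_trans (le_of_eq ?_) h9
        ring
      rw [mr_hasSum.summable.tsum_sub (hs.mul_left h), mr_hasSum.tsum_eq, tsum_mul_left] at h7
      linarith
    have h1 : Tendsto (fun n : ℕ => (1 - Real.exp (mu * (-(1 / ((n : ℝ) + 1))))) /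
        (1 / ((n : ℝ) + 1))) atTop (𝓝 mu) := by
      have h2 : HasDerivAt (fun x : ℝ => 1 - Real.exp (mu * (-x))) mu 0 := by
        have h3 := (((hasDerivAt_id (0 : ℝ)).neg.const_mul mu).exp).const_sub 1
        simpa using h3
      have h3 := h2.tendsto_slope_zero_right
      have h4 : Tendsto (fun n : ℕ => 1 / ((n : ℝ) + 1)) atTop (𝓝[>] 0) := by
        rw [tendsto_nhdsWithin_iff]
        exact ⟨tendsto_one_div_add_atTop_nhds_zero_nat, Eventually.of_forall fun n => by
          simp only [Set.mem_Ioi]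
          positivity⟩
      have h5 := h3.comp h4
      refine h5.congr fun n => ?_
      simp only [Function.comp, zero_add, neg_zero, mul_zero, Real.exp_zero, sub_self, smul_eq_mul,
        sub_zero]
      exact (div_eq_inv_mul _ _).symm
    refine le_of_tendsto' h1 fun n => ?_
    rw [div_le_iff₀ (by positivity)]
    refine key _ (by positivity) ?_
    rw [div_le_one (by positivity)]
    have : (0 : ℝ) ≤ n := Nat.cast_nonneg n
    linarith

theorem law1 {M : ℕ} (hM : Adm M) (r : ℕ) :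
    Tendsto (fun X : ℕ => (num (fun D => corank (tw M D) = r) X : ℝ) /
      (num (fun _ => True) X : ℝ)) atTop (𝓝 (mr r)) := by
  have h := law (T := {M}) (by simpa using hM) (fun _ => r)
  simpa using h

/-- **the limits of the moments of the coranks** -/
theorem moment {M : ℕ} (hM : Adm M) (m : ℕ) :
    Tendsto (fun X : ℕ => (∑ D ∈ clsX X, (corank (tw M D) : ℝ) ^ m) /
      (num (fun _ => True) X : ℝ)) atTop (𝓝 (∑' r : ℕ, (r : ℝ) ^ m * mr r)) := by
  classical
  rw [Metric.tendsto_nhds]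
  intro ε hε
  obtain ⟨B, hB⟩ := ui hM m (show 0 < ε / 4 by linarith)
  obtain ⟨B', hB'⟩ := eventually_atTop.1
    ((Metric.tendsto_nhds.1 (mo_summ m).hasSum.tendsto_sum_nat) (ε / 4) (by linarith))
  set n := max B B' with hn
  have hn' := hB' n (le_max_right _ _)
  have h1 : Tendsto (fun X : ℕ => ∑ r ∈ range n, (r : ℝ) ^ m *
      ((num (fun D => corank (tw M D) = r) X : ℝ) / (num (fun _ => True) X : ℝ))) atTop
      (𝓝 (∑ r ∈ range n, (r : ℝ) ^ m * mr r)) :=
    tendsto_finsetSum _ fun r _ => (law1 hM r).const_mul _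
  obtain ⟨c, hc, hlow⟩ := low_num
  filter_upwards [hB, (Metric.tendsto_nhds.1 h1) (ε / 4) (by linarith), hlow, ev_eL 1] with X g1 g2 g3 g4
  have hXp : 1 ≤ X := X_pos (by linarith)
  have hX0 : (0 : ℝ) < X := by exact_mod_cast hXp
  have hN : (0 : ℝ) < (num (fun _ => True) X : ℝ) := lt_of_lt_of_le (by positivity) g3
  set N : ℝ := (num (fun _ => True) X : ℝ) with hNd
  -- decomposition
  have h2 : ∑ D ∈ clsX X, (corank (tw M D) : ℝ) ^ m =
      ∑ r ∈ range n, (r : ℝ) ^ m * (num (fun D => corank (tw M D) = r) X : ℝ) +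
        ∑ D ∈ clsX X, (if n ≤ corank (tw M D) then (corank (tw M D) : ℝ) ^ m else 0) := by
    have h3 : ∑ r ∈ range n, (r : ℝ) ^ m * (num (fun D => corank (tw M D) = r) X : ℝ) =
        ∑ D ∈ clsX X, (if corank (tw M D) < n then (corank (tw M D) : ℝ) ^ m else 0) := by
      have h4 : ∀ r ∈ range n, (r : ℝ) ^ m * (num (fun D => corank (tw M D) = r) X : ℝ) =
          ∑ D ∈ clsX X, (if corank (tw M D) = r then (r : ℝ) ^ m else 0) := by
        intro r _
        rw [num_clsX, ← sum_filter, sum_const, nsmul_eq_mul, mul_comm]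
        congr 3
        ext D
        simp only [mem_filter]
      rw [sum_congr rfl h4, sum_comm]
      refine sum_congr rfl fun D _ => ?_
      rw [sum_ite_eq]
      simp only [mem_range]
    rw [h3, ← sum_add_distrib]
    refine sum_congr rfl fun D _ => ?_
    by_cases h5 : corank (tw M D) < n
    · rw [if_pos h5, if_neg (by omega), add_zero]
    · rw [if_neg h5, if_pos (by omega), zero_add]
  have h3 : ∑ D ∈ clsX X, (if n ≤ corank (tw M D) then (corank (tw M D) : ℝ) ^ m else 0) ≤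
      ε / 4 * N := by
    refine le_trans (sum_le_sum fun D _ => ?_) g1
    have hBn : B ≤ n := le_max_left _ _
    by_cases h5 : n ≤ corank (tw M D)
    · rw [if_pos h5, if_pos (by omega)]
    · rw [if_neg h5]
      split_ifs <;> positivity
  have h30 : 0 ≤ ∑ D ∈ clsX X, (if n ≤ corank (tw M D) then (corank (tw M D) : ℝ) ^ m else 0) := by
    refine sum_nonneg fun D _ => ?_
    split_ifs <;> positivity
  rw [h2, add_div, sum_div]
  have h4 : ∑ r ∈ range n, (r : ℝ) ^ m * (num (fun D => corank (tw M D) = r) X : ℝ) / N =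
      ∑ r ∈ range n, (r : ℝ) ^ m * ((num (fun D => corank (tw M D) = r) X : ℝ) / N) :=
    sum_congr rfl fun r _ => mul_div_assoc _ _ _
  rw [h4]
  set tl := ∑ D ∈ clsX X, (if n ≤ corank (tw M D) then (corank (tw M D) : ℝ) ^ m else 0) with htl
  have h5 : tl / N ≤ ε / 4 := by
    rw [div_le_iff₀ hN]
    exact h3
  have h6 : 0 ≤ tl / N := div_nonneg h30 hN.le
  rw [Real.dist_eq] at hn' g2 ⊢
  rw [abs_lt] at hn' g2 ⊢
  constructor <;> linarith [hn'.1, hn'.2, g2.1, g2.2]

/-- **the bounds of the moments of the ranks** -/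
theorem rank_moment {M : ℕ} (hM : Adm M) (m : ℕ) {δ : ℝ} (hδ : 0 < δ) :
    ∀ᶠ X : ℕ in atTop,
      ∑ D ∈ clsX X, (Module.finrank ℤ (E (tw M D)).toAffine.Point : ℝ) ^ m ≤
        (2 ^ m * ∑' r : ℕ, (r : ℝ) ^ m * mr r + δ) * (num (fun _ => True) X : ℝ) := by
  obtain ⟨c, hc, hlow⟩ := low_num
  have h1 := (moment hM m).eventually (gt_mem_nhds
    (show ∑' r : ℕ, (r : ℝ) ^ m * mr r < ∑' r : ℕ, (r : ℝ) ^ m * mr r + δ / 2 ^ m by
      have : 0 < δ / 2 ^ m := by positivity
      linarith))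
  filter_upwards [h1, hlow, ev_eL 1] with X g1 g3 g4
  have hXp : 1 ≤ X := X_pos (by linarith)
  have hX0 : (0 : ℝ) < X := by exact_mod_cast hXp
  have hN : (0 : ℝ) < (num (fun _ => True) X : ℝ) := lt_of_lt_of_le (by positivity) g3
  rw [div_lt_iff₀ hN] at g1
  have h2 : ∑ D ∈ clsX X, (Module.finrank ℤ (E (tw M D)).toAffine.Point : ℝ) ^ m ≤
      ∑ D ∈ clsX X, 2 ^ m * (corank (tw M D) : ℝ) ^ m := by
    refine sum_le_sum fun D hD => ?_
    rw [← mul_pow]
    apply pow_le_pow_left₀ (Nat.cast_nonneg _)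
    have h3 := (rank_corank (adm_tw hM (mem_clsX.1 hD).2)).2
    exact_mod_cast h3
  refine h2.trans ?_
  rw [← mul_sum]
  have h3 := mul_le_mul_of_nonneg_left g1.le (show (0 : ℝ) ≤ 2 ^ m by positivity)
  refine h3.trans (le_of_eq ?_)
  have h4 : (2 : ℝ) ^ m ≠ 0 := by positivity
  field_simp

end Pool.Agent.R413.CK
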