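import Pool.Agent.W410.RS.MQ2
import Pool.Agent.W612.RS.Mq1
import Pool.Agent.R413.CK.Mo

/-!
The ranks over a multiquadratic field.
-/

set_option autoImplicit false

open Filter Topology Finset

namespace Pool.Agent.R413.CK

open Pool.Agent.R413.SQ
open Pool.Agent.R413.SQ.Joint (tw ac_tw tw_pf adm_tw num num_true)
open Pool.Agent.Results.MP_4a9ea6_nt.TwoPartTwistsX49 (Adm mat split E twist)
open Pool.Agent.H925R3.DC (crv)
open Pool.Agent.W307.RS (ShK)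
open Pool.Agent.W307.RT (Sh)
open Pool.Agent.W410.RS (rk rk_eq)

section sqfree

/-- the product of the primes with odd exponent -/
noncomputable def sqf (m : ℕ) : ℕ := ∏ p ∈ m.primeFactors.filter (fun p => Odd (m.factorization p)), p

/-- the squarefree part is unique -/
theorem sqf_mul {D k : ℕ} (hD : Squarefree D) (hk : k ≠ 0) : sqf (D * k ^ 2) = D := by
  have hD0 : D ≠ 0 := hD.ne_zero
  have h1 : (D * k ^ 2).primeFactors.filter (fun p => Odd ((D * k ^ 2).factorization p)) =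
      D.primeFactors := by
    ext p
    have hf : (D * k ^ 2).factorization p = D.factorization p + 2 * k.factorization p := by
      rw [Nat.factorization_mul hD0 (pow_ne_zero 2 hk), Nat.factorization_pow]
      simp
    rw [mem_filter, hf, Nat.mem_primeFactors, Nat.mem_primeFactors]
    constructor
    · rintro ⟨⟨hp, -, -⟩, ho⟩
      refine ⟨hp, ?_, hD0⟩
      by_contra h
      rw [Nat.factorization_eq_zero_of_not_dvd h] at ho
      rw [zero_add] at ho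
      exact (Nat.not_odd_iff_even.2 (even_two_mul _)) ho
    · rintro ⟨hp, hd, -⟩
      refine ⟨⟨hp, hd.mul_right _, mul_ne_zero hD0 (pow_ne_zero 2 hk)⟩, ?_⟩
      have h2 : D.factorization p = 1 := by
        have h3 := (Nat.squarefree_iff_factorization_le_one hD0).1 hD p
        have h4 := (hp.dvd_iff_one_le_factorization hD0).1 hd
        omega
      rw [h2]
      exact ⟨_, add_comm _ _⟩
  unfold sqf
  rw [h1, Nat.prod_primeFactors_of_squarefree hD]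

theorem adm_mul {D : ℕ} (h : D ≠ 0) (hp : ∀ p ∈ D.primeFactors, p % 4 = 1) :
    Adm (sqf D) ∧ ∃ k : ℕ, k ≠ 0 ∧ D = sqf D * k ^ 2 := by
  obtain ⟨a, b, ha, hb, hab, hsq⟩ : ∃ a b : ℕ, 0 < a ∧ 0 < b ∧ b ^ 2 * a = D ∧ Squarefree a := by
    obtain ⟨a, b, h1, h2, h3, h4⟩ := Nat.sq_mul_squarefree_of_pos (Nat.pos_of_ne_zero h)
    exact ⟨a, b, h1, h2, h3, h4⟩
  have e : D = a * b ^ 2 := by rw [← hab, mul_comm]
  have h1 : sqf D = a := by rw [e, sqf_mul hsq hb.ne']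
  rw [h1]
  refine ⟨⟨hsq, fun p hpa => hp p ?_⟩, b, hb.ne', e⟩
  rw [Nat.mem_primeFactors] at hpa ⊢
  exact ⟨hpa.1, e ▸ hpa.2.1.mul_right _, h⟩

theorem sqf_tw {M D k : ℕ} (hM : Adm M) (hD : Adm D) (hk : k ≠ 0) :
    sqf (D * (M * k ^ 2)) = tw M D := by
  have h1 := (ac_tw hM hD).2
  have h2 : D * (M * k ^ 2) = tw M D * (Nat.gcd M D * k) ^ 2 := by
    calc D * (M * k ^ 2) = (M * D) * k ^ 2 := by ring
      _ = _ := by rw [h1]; ring
  have h3 : Nat.gcd M D ≠ 0 := (Nat.gcd_pos_of_pos_left _ (Nat.pos_of_ne_zero hM.1.ne_zero)).ne'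
  rw [h2, sqf_mul (adm_tw hM hD).1 (mul_ne_zero h3 hk)]

end sqfree

section curves

theorem vr1 (D : ℚ) : Pool.Agent.Y700.VR (crv ℚ (-35 * D ^ 2) (-98 * D ^ 3)) (WD D) 1 (7 * D) 0 0 := by
  refine ⟨one_ne_zero, ?_, ?_, ?_, ?_, ?_⟩ <;> simp only [crv, WD] <;> ring

theorem vr2 {D : ℕ} (h4 : D % 4 = 1) :
    Pool.Agent.Y700.VR (WD (D : ℚ)) (E D) 2 (-8 * (D : ℚ)) 1 0 := by
  have hm : (((3 * (D : ℤ) + 1) / 4 : ℤ) : ℚ) = (3 * (D : ℚ) + 1) / 4 := by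
    have h1 : (4 : ℤ) ∣ 3 * D + 1 := by omega
    rw [Int.cast_div h1 (by norm_num)]
    push_cast
    rfl
  have e1 : (E D).a₁ = 1 := by simp [E, twist]
  have e2 : (E D).a₂ = -((3 * (D : ℚ) + 1) / 4) := by
    rw [← hm]
    simp [E, twist]
  have e3 : (E D).a₃ = 0 := by simp [E, twist]
  have e4 : (E D).a₄ = -2 * (D : ℚ) ^ 2 := by simp [E, twist]
  have e6 : (E D).a₆ = -(D : ℚ) ^ 3 := by simp [E, twist]
  refine ⟨two_ne_zero, ?_, ?_, ?_, ?_, ?_⟩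
  · rw [e1]
    simp only [WD]
    ring
  · rw [e2]
    simp only [WD]
    ring
  · rw [e3]
    simp only [WD]
    ring
  · rw [e4]
    simp only [WD]
    ring
  · rw [e6]
    simp only [WD]
    ring

theorem e_delta {D : ℕ} (hD : D ≠ 0) (h4 : D % 4 = 1) : (E D).Δ ≠ 0 := by
  have hDQ : (D : ℚ) ≠ 0 := by exact_mod_cast hD
  have h := (vr2 h4).delta
  intro h0
  rw [h0, mul_zero] at h
  exact wd_delta hDQ h

theorem adm_mod4 {D : ℕ} (h : Adm D) : D % 4 = 1 :=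
  Pool.Agent.Results.MP_4a9ea6_nt.TwoPartTwistsX49.adm_mod h

/-- the rank of the twist by `D` over a field -/
theorem rank_map {F : Type} [Field F] [CharZero F] [Algebra ℚ F] [DecidableEq F] {D : ℕ} (hD : D ≠ 0)
    (h4 : D % 4 = 1) : Module.rank ℤ ((E D).map (algebraMap ℚ F)).toAffine.Point =
      rk ((-35 * (D : ℤ) ^ 2 : ℤ) : F) ((-98 * (D : ℤ) ^ 3 : ℤ) : F) := by
  have hDQ : (D : ℚ) ≠ 0 := by exact_mod_cast hD
  have v1 := (vr1 (D : ℚ)).map (algebraMap ℚ F)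
  have v2 := (vr2 h4).map (algebraMap ℚ F)
  have hd1 : ((WD (D : ℚ)).map (algebraMap ℚ F)).Δ ≠ 0 := by
    rw [WeierstrassCurve.map_Δ]
    exact (map_ne_zero _).2 (wd_delta hDQ)
  have hd2 : ((E D).map (algebraMap ℚ F)).Δ ≠ 0 := by
    rw [WeierstrassCurve.map_Δ]
    exact (map_ne_zero _).2 (e_delta hD h4)
  have e0 : (crv ℚ (-35 * (D : ℚ) ^ 2) (-98 * (D : ℚ) ^ 3)).map (algebraMap ℚ F) =
      ShK ((-35 * (D : ℤ) ^ 2 : ℤ) : F) ((-98 * (D : ℤ) ^ 3 : ℤ) : F) := by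
    unfold crv ShK
    ext <;> simp [WeierstrassCurve.map]
  rw [rk_eq, ← e0]
  have i1 := (v2.equiv hd2).trans (v1.equiv hd1)
  exact LinearEquiv.rank_eq i1.toIntLinearEquiv

/-- the curve with a square factor -/
theorem rank_sq {z U k : ℕ} (hU : Adm U) (hk : k ≠ 0) (hz : z = U * k ^ 2) :
    rk ((-35 * (z : ℤ) ^ 2 : ℤ) : ℚ) ((-98 * (z : ℤ) ^ 3 : ℤ) : ℚ) =
      Module.rank ℤ (E U).toAffine.Point := by
  have hU0 : U ≠ 0 := hU.1.ne_zero
  have hUQ : (U : ℚ) ≠ 0 := by exact_mod_cast hU0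
  have hkQ : (k : ℚ) ≠ 0 := by exact_mod_cast hk
  have v1 := vr1 (U : ℚ)
  have v2 := vr2 (adm_mod4 hU)
  have hd1 := wd_delta hUQ
  have hd2 := e_delta hU0 (adm_mod4 hU)
  have hd0 := v1.delta_ne hd1
  have v0 : Pool.Agent.Y700.VR (ShK ((-35 * (z : ℤ) ^ 2 : ℤ) : ℚ) ((-98 * (z : ℤ) ^ 3 : ℤ) : ℚ))
      (crv ℚ (-35 * (U : ℚ) ^ 2) (-98 * (U : ℚ) ^ 3)) (k : ℚ) 0 0 0 := by
    refine ⟨hkQ, ?_, ?_, ?_, ?_, ?_⟩ <;> simp only [ShK, crv, hz] <;> push_cast <;> ring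
  rw [rk_eq]
  have i1 := (v2.equiv hd2).trans ((v1.equiv hd1).trans (v0.equiv hd0))
  exact (LinearEquiv.rank_eq i1.toIntLinearEquiv).symm

end curves

/-- **the rank over a multiquadratic field** -/
theorem rank_mq {F : Type} [Field F] [NumberField F] [DecidableEq F] {n : ℕ} {x : Fin n → F}
    {d : Fin n → ℕ} (hx : ∀ i, x i ^ 2 = (d i : F)) (hd : ∀ i, Adm (d i))
    (htop : IntermediateField.adjoin ℚ (Set.range x) = ⊤) {D : ℕ} (hD : Adm D) :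
    Module.rank ℤ ((E D).map (algebraMap ℚ F)).toAffine.Point ≤
      ((2 * ∑ T : Finset (Fin n), corank (sqf (D * ∏ i ∈ T, d i)) : ℕ) : Cardinal) := by
  have hmq := Pool.Agent.W410.RS.mq2_of Pool.Agent.W612.RS.mq1
  have hD0 : D ≠ 0 := hD.1.ne_zero
  have hdp : ∀ T : Finset (Fin n), ∏ i ∈ T, d i ≠ 0 := fun T =>
    Finset.prod_ne_zero_iff.2 fun i _ => (hd i).1.ne_zero
  have h1 := hmq F n x (fun i => (d i : ℤ)) (fun i => by rw [hx i, Int.cast_natCast])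
    (fun i => by exact_mod_cast (hd i).1.ne_zero) htop (-35 * (D : ℤ) ^ 2) (-98 * (D : ℤ) ^ 3) (by
      have : (D : ℤ) ^ 6 ≠ 0 := pow_ne_zero 6 (by exact_mod_cast hD0)
      intro h
      apply this
      have h2 : 4 * (-35 * (D : ℤ) ^ 2) ^ 3 + 27 * (-98 * (D : ℤ) ^ 3) ^ 2 = 87808 * (D : ℤ) ^ 6 := by
        ring
      omega)
  rw [rank_map hD0 (adm_mod4 hD)]
  refine (le_of_eq ?_).trans (h1.trans ?_)
  · rfl
  · rw [mul_sum]
    push_cast
    refine Finset.sum_le_sum fun T _ => ?_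
    have hpr : ∀ p ∈ (D * ∏ i ∈ T, d i).primeFactors, p % 4 = 1 := by
      intro p hp
      rw [Nat.mem_primeFactors] at hp
      rcases hp.1.dvd_mul.1 hp.2.1 with h | h
      · exact hD.2 p (Nat.mem_primeFactors.2 ⟨hp.1, h, hD0⟩)
      · obtain ⟨i, hi, h'⟩ := (Prime.dvd_finsetProd_iff hp.1.prime _).1 h
        exact (hd i).2 p (Nat.mem_primeFactors.2 ⟨hp.1, h', (hd i).1.ne_zero⟩)
    obtain ⟨hU, k, hk, hz⟩ := adm_mul (mul_ne_zero hD0 (hdp T)) hpr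
    have h2 := rank_sq hU hk hz
    have h3 := (rank_corank hU).2
    have h4 := (rank_corank hU).1
    have h5 : Module.rank ℤ (E (sqf (D * ∏ i ∈ T, d i))).toAffine.Point ≤
        ((2 * corank (sqf (D * ∏ i ∈ T, d i)) : ℕ) : Cardinal) := by
      rw [← Module.finrank_eq_rank]
      exact_mod_cast h3
    push_cast at h5
    refine le_trans (le_of_eq ?_) h5
    rw [← h2, rk_eq]
    have e : ShK ((-35 * ((D * ∏ i ∈ T, d i : ℕ) : ℤ) ^ 2 : ℤ) : ℚ)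
        ((-98 * ((D * ∏ i ∈ T, d i : ℕ) : ℤ) ^ 3 : ℤ) : ℚ) =
        Sh ((∏ i ∈ T, (d i : ℤ)) ^ 2 * (-35 * (D : ℤ) ^ 2))
          ((∏ i ∈ T, (d i : ℤ)) ^ 3 * (-98 * (D : ℤ) ^ 3)) := by
      unfold ShK Sh
      congr 1
      · push_cast
        ring
      · push_cast
        ring
    rw [e]

end Pool.Agent.R413.CK
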