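import Pool.Agent.Y547.SG.Ns
import Pool.Agent.R413.CK.Ds

/-!
The number of the sets of the kernel.
-/

set_option autoImplicit false

namespace Pool.Agent.R413.CK

open Pool.Agent.Y698.SG Pool.Agent.Y547.SG
open Pool.Agent.Y698 (RR)

section
variable {Q P : Finset ℕ} {c : ℕ × Bool → ZMod 2} {r : ℕ × Bool → ℕ × Bool → ZMod 2}

/-- the first step -/
theorem stepU (hs : Sym Q P c r) {x : ℕ × Bool → ZMod 2}
    (h : ∀ i ∈ ix Q P, c i * x i + ∑ j ∈ ix Q P, r i j * (x i + x j) = 0) (p : ℕ) (hp : p ∈ P) :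
    (c (p, false) + ∑ q ∈ Q, r (p, false) (q, false)) * (x (p, false) + x (p, true)) +
      ∑ p' ∈ P, (r (p, false) (p', false) + r (p, false) (p', true)) *
        ((x (p, false) + x (p, true)) + (x (p', false) + x (p', true))) = 0 := by
  have h1 := h _ (mem_ix_f hp)
  have h2 := h _ (mem_ix_t hp)
  rw [sum_ix hs.disj] at h1 h2
  rw [hs.c2 p hp] at h2
  have e1 : ∑ q ∈ Q, r (p, false) (q, false) * (x (p, false) + x (q, false)) +
      ∑ q ∈ Q, r (p, true) (q, false) * (x (p, true) + x (q, false)) =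
      (∑ q ∈ Q, r (p, false) (q, false)) * (x (p, false) + x (p, true)) := by
    rw [← Finset.sum_add_distrib, Finset.sum_mul]
    refine Finset.sum_congr rfl fun q hq => ?_
    rw [hs.r3 q hq p hp]
    linear_combination r (p, false) (q, false) * two_ (x := x (q, false))
  have e2 : (∑ p' ∈ P, r (p, false) (p', false) * (x (p, false) + x (p', false)) +
      ∑ p' ∈ P, r (p, false) (p', true) * (x (p, false) + x (p', true))) +
      (∑ p' ∈ P, r (p, true) (p', false) * (x (p, true) + x (p', false)) +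
      ∑ p' ∈ P, r (p, true) (p', true) * (x (p, true) + x (p', true))) =
      ∑ p' ∈ P, (r (p, false) (p', false) + r (p, false) (p', true)) *
        ((x (p, false) + x (p, true)) + (x (p', false) + x (p', true))) := by
    rw [← Finset.sum_add_distrib, ← Finset.sum_add_distrib, ← Finset.sum_add_distrib]
    refine Finset.sum_congr rfl fun p' hp' => ?_
    rw [hs.r5 p hp p' hp']
    by_cases hpp : p = p'
    · subst hpp
      generalize r (p, false) (p, false) = a
      generalize r (p, false) (p, true) = b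
      generalize r (p, true) (p, true) = d
      generalize x (p, false) = y
      generalize x (p, true) = z
      revert a b d y z
      decide
    · rw [hs.r4 p hp p' hp' hpp]
      ring
  linear_combination h1 + h2 - e1 - e2

/-- the second step -/
theorem stepY (hs : Sym Q P c r) {x : ℕ × Bool → ZMod 2}
    (h : ∀ i ∈ ix Q P, c i * x i + ∑ j ∈ ix Q P, r i j * (x i + x j) = 0)
    (hu : ∀ p ∈ P, x (p, false) + x (p, true) = 0) :
    (∀ q ∈ Q, x (q, false) = 0) ∧ ∀ p ∈ P,
      (c (p, false) + ∑ q ∈ Q, r (p, false) (q, false)) * x (p, false) +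
      ∑ p' ∈ P, (r (p, false) (p', false) + r (p, false) (p', true)) *
        (x (p, false) + x (p', false)) = 0 := by
  have hyz : ∀ p ∈ P, x (p, true) = x (p, false) := by
    intro p hp
    have h1 := hu p hp
    linear_combination h1 - two_ (x := x (p, false))
  have hq : ∀ q ∈ Q, x (q, false) = 0 := by
    intro q hq
    have h1 := h _ (mem_ix_q hq)
    rw [sum_ix hs.disj, hs.c1 q hq] at h1
    have e1 : ∑ q' ∈ Q, r (q, false) (q', false) * (x (q, false) + x (q', false)) = 0 := by
      refine Finset.sum_eq_zero fun q' hq' => ?_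
      by_cases hqq : q = q'
      · subst hqq
        rw [two_, mul_zero]
      · rw [hs.r1 q hq q' hq' hqq, zero_mul]
    have e2 : ∑ p ∈ P, r (q, false) (p, true) * (x (q, false) + x (p, true)) =
        ∑ p ∈ P, r (q, false) (p, false) * (x (q, false) + x (p, false)) := by
      refine Finset.sum_congr rfl fun p hp => ?_
      rw [hs.r2 q hq p hp, hyz p hp]
    rw [e1, e2, zero_add, two_] at h1
    simpa using h1
  refine ⟨hq, fun p hp => ?_⟩
  have h1 := h _ (mem_ix_f hp)
  rw [sum_ix hs.disj] at h1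
  have e1 : ∑ q ∈ Q, r (p, false) (q, false) * (x (p, false) + x (q, false)) =
      (∑ q ∈ Q, r (p, false) (q, false)) * x (p, false) := by
    rw [Finset.sum_mul]
    refine Finset.sum_congr rfl fun q hq' => ?_
    rw [hq q hq', add_zero]
  have e2 : ∑ p' ∈ P, r (p, false) (p', false) * (x (p, false) + x (p', false)) +
      ∑ p' ∈ P, r (p, false) (p', true) * (x (p, false) + x (p', true)) =
      ∑ p' ∈ P, (r (p, false) (p', false) + r (p, false) (p', true)) *
        (x (p, false) + x (p', false)) := by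
    rw [← Finset.sum_add_distrib]
    refine Finset.sum_congr rfl fun p' hp' => ?_
    rw [hyz p' hp']
    ring
  linear_combination h1 - e1 - e2

/-- extension by zero -/
def ext0 (S : Finset (ℕ × Bool)) (v : S → ZMod 2) : ℕ × Bool → ZMod 2 := by
  classical
  exact fun i => if h : i ∈ S then v ⟨i, h⟩ else 0

theorem ext0_coe {S : Finset (ℕ × Bool)} (v : S → ZMod 2) (i : S) : ext0 S v i = v i := by
  unfold ext0
  exact dif_pos i.2

theorem ext0_add {S : Finset (ℕ × Bool)} (v w : S → ZMod 2) (i : ℕ × Bool) :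
    ext0 S (v + w) i = ext0 S v i + ext0 S w i := by
  unfold ext0
  by_cases h : i ∈ S
  · simp [h]
  · simp [h]

theorem ext0_smul {S : Finset (ℕ × Bool)} (a : ZMod 2) (v : S → ZMod 2) (i : ℕ × Bool) :
    ext0 S (a • v) i = a * ext0 S v i := by
  unfold ext0
  by_cases h : i ∈ S
  · simp [h]
  · simp [h]

/-- the large matrix -/
def gm (c : ℕ × Bool → ZMod 2) (r : ℕ × Bool → ℕ × Bool → ZMod 2) (S : Finset (ℕ × Bool)) :
    Matrix S S (ZMod 2) :=
  Matrix.of fun i j : S => if i = j then c i + ∑ k ∈ S.erase i, r i k else r i j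

theorem mem_gd {S : Finset (ℕ × Bool)} (v : S → ZMod 2) :
    v ∈ LinearMap.ker (gm c r S).mulVecLin ↔
      ∀ i ∈ S, c i * ext0 S v i + ∑ j ∈ S, r i j * (ext0 S v i + ext0 S v j) = 0 := by
  have hx : (fun j : S => ext0 S v j) = v := by
    funext j
    exact ext0_coe v j
  have h1 : ∀ i : S, ((gm c r S).mulVec v) i =
      c i * ext0 S v i + ∑ j ∈ S, r i j * (ext0 S v i + ext0 S v j) := by
    intro i
    have h2 := mul_gd c r S (ext0 S v) i
    rw [hx] at h2
    rw [← h2]
    rfl
  rw [LinearMap.mem_ker]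
  constructor
  · intro h i hi
    rw [← h1 ⟨i, hi⟩]
    exact congrFun h ⟨i, hi⟩
  · intro h
    funext i
    exact (h1 i).trans (h i i.2)

theorem mem_xm (u : ℕ → ZMod 2) :
    (fun p : P => u p) ∈ LinearMap.ker (xm Q P c r).mulVecLin ↔ ∀ p ∈ P,
      (c (p, false) + ∑ q ∈ Q, r (p, false) (q, false)) * u p +
        ∑ p' ∈ P, (r (p, false) (p', false) + r (p, false) (p', true)) * (u p + u p') = 0 := by
  have h1 : ∀ i : P, ((xm Q P c r).mulVec fun p : P => u p) i =
      (c (i, false) + ∑ q ∈ Q, r (i, false) (q, false)) * u i +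
        ∑ p' ∈ P, (r (i, false) (p', false) + r (i, false) (p', true)) * (u i + u p') := by
    intro i
    have h2 := mul_gd (fun i => c (i, false) + ∑ q ∈ Q, r (i, false) (q, false))
      (fun i j => r (i, false) (j, false) + r (i, false) (j, true)) P u i
    rw [← h2]
    rfl
  rw [LinearMap.mem_ker]
  constructor
  · intro h i hi
    rw [← h1 ⟨i, hi⟩]
    exact congrFun h ⟨i, hi⟩
  · intro h
    funext i
    exact (h1 i).trans (h i i.2)

/-- the map to the small matrix -/
noncomputable def mU (Q P : Finset ℕ) : (ix Q P → ZMod 2) →ₗ[ZMod 2] (P → ZMod 2) where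
  toFun v := fun p => ext0 _ v (p, false) + ext0 _ v (p, true)
  map_add' v w := by
    funext p
    simp only [ext0_add, Pi.add_apply]
    ring
  map_smul' a v := by
    funext p
    simp only [ext0_smul, Pi.smul_apply, smul_eq_mul, RingHom.id_apply]
    ring

/-- the other map -/
noncomputable def mY (Q P : Finset ℕ) : (ix Q P → ZMod 2) →ₗ[ZMod 2] (P → ZMod 2) where
  toFun v := fun p => ext0 _ v (p, false)
  map_add' v w := by
    funext p
    simp only [ext0_add, Pi.add_apply]
  map_smul' a v := by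
    funext p
    simp only [ext0_smul, Pi.smul_apply, smul_eq_mul, RingHom.id_apply]

/-- **the dimension of the kernel** -/
theorem finrank_gd (hs : Sym Q P c r) :
    Module.finrank (ZMod 2) (LinearMap.ker (gm c r (ix Q P)).mulVecLin) ≤
      2 * Module.finrank (ZMod 2) (LinearMap.ker (xm Q P c r).mulVecLin) := by
  set K := LinearMap.ker (gm c r (ix Q P)).mulVecLin with hK
  set X := LinearMap.ker (xm Q P c r).mulVecLin with hX
  have hU : ∀ v ∈ K, mU Q P v ∈ X := by
    intro v hv
    rw [hK, mem_gd] at hv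
    have h := (mem_xm (Q := Q) (P := P) (c := c) (r := r)
      (fun p => ext0 _ v (p, false) + ext0 _ v (p, true))).2 fun p hp => stepU hs hv p hp
    exact h
  have hY : ∀ v ∈ K, mU Q P v = 0 → mY Q P v ∈ X ∧ (mY Q P v = 0 → v = 0) := by
    intro v hv h0
    rw [hK, mem_gd] at hv
    obtain ⟨h1, h2⟩ := stepY hs hv fun p hp => congrFun h0 ⟨p, hp⟩
    refine ⟨(mem_xm (Q := Q) (P := P) (c := c) (r := r) (fun p => ext0 _ v (p, false))).2 h2,
      fun h3 => ?_⟩
    funext i
    rw [← ext0_coe v i]
    rcases Pool.Agent.Y547.SG.mem_ix i.2 with ⟨q, hq, hi⟩ | ⟨p, hp, hi⟩ | ⟨p, hp, hi⟩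
    · rw [hi]
      exact h1 q hq
    · rw [hi]
      exact congrFun h3 ⟨p, hp⟩
    · rw [hi]
      have h4 := congrFun h0 ⟨p, hp⟩
      have h5 := congrFun h3 ⟨p, hp⟩
      have h6 : ext0 _ v (p, false) + ext0 _ v (p, true) = 0 := h4
      have h7 : ext0 _ v (p, false) = 0 := h5
      rw [h7, zero_add] at h6
      exact h6
  let L : K →ₗ[ZMod 2] X := ((mU Q P).domRestrict K).codRestrict X fun v => hU v.1 v.2
  have h1 := LinearMap.finrank_range_add_finrank_ker L
  have h2 : Module.finrank (ZMod 2) (LinearMap.range L) ≤ Module.finrank (ZMod 2) X :=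
    Submodule.finrank_le _
  have hL : ∀ v : LinearMap.ker L, mU Q P v.1.1 = 0 := by
    intro v
    exact congrArg Subtype.val (LinearMap.mem_ker.1 v.2)
  let N : LinearMap.ker L →ₗ[ZMod 2] X :=
    (((mY Q P).domRestrict K).domRestrict (LinearMap.ker L)).codRestrict X
      fun v => (hY v.1.1 v.1.2 (hL v)).1
  have h3 : Module.finrank (ZMod 2) (LinearMap.ker L) ≤ Module.finrank (ZMod 2) X := by
    refine LinearMap.finrank_le_finrank_of_injective (f := N) ?_
    rw [injective_iff_map_eq_zero]
    intro v hv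
    have h4 : mY Q P v.1.1 = 0 := congrArg Subtype.val hv
    exact Subtype.ext (Subtype.ext ((hY v.1.1 v.1.2 (hL v)).2 h4))
  omega

end

/-- the sets of the kernel -/
theorem card_KT {Q P : Finset ℕ} {π : ℕ × Bool → RR} (hs : Sym Q P (dc π) (dr π)) :
    Finite {T : Finset (ℕ × Bool) // KT (ix Q P) π T} ∧
      Nat.card {T : Finset (ℕ × Bool) // KT (ix Q P) π T} ≤
        4 ^ Module.finrank (ZMod 2) (LinearMap.ker (xm Q P (dc π) (dr π)).mulVecLin) := by
  classical
  set K := LinearMap.ker (gm (dc π) (dr π) (ix Q P)).mulVecLin with hK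
  let f : {T : Finset (ℕ × Bool) // KT (ix Q P) π T} → K := fun T =>
    ⟨fun i => if (i : ℕ × Bool) ∈ T.1 then 1 else 0, by
      rw [hK, mem_gd]
      obtain ⟨T, hT, h1, h2⟩ := T
      have hx : ∀ i ∈ ix Q P, ext0 (ix Q P) (fun i : ix Q P => if (i : ℕ × Bool) ∈ T then
          (1 : ZMod 2) else 0) i = if i ∈ T then 1 else 0 := by
        intro i hi
        exact ext0_coe (S := ix Q P) (fun i : ix Q P => if (i : ℕ × Bool) ∈ T then
          (1 : ZMod 2) else 0) ⟨i, hi⟩
      intro i hi
      have hx1 : ∀ i ∈ T, (if i ∈ T then (1 : ZMod 2) else 0) = 1 := fun i hi => if_pos hi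
      have hx0 : ∀ i, i ∉ T → (if i ∈ T then (1 : ZMod 2) else 0) = 0 := fun i hi => if_neg hi
      rw [hx i hi, Finset.sum_congr rfl (g := fun j => dr π i j * ((if i ∈ T then (1 : ZMod 2)
        else 0) + (if j ∈ T then (1 : ZMod 2) else 0))) fun j hj => by rw [hx j hj],
        ← Finset.sum_sdiff hT]
      by_cases hiT : i ∈ T
      · rw [hx1 i hiT, Finset.sum_congr rfl (g := fun j => dr π i j) fun j hj => by
          rw [hx0 j (Finset.mem_sdiff.1 hj).2, add_zero, mul_one],
          Finset.sum_congr (s₁ := T) rfl (g := fun _ => (0 : ZMod 2)) fun j hj => by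
          rw [hx1 j hj, two_, mul_zero], Finset.sum_const_zero, add_zero, mul_one]
        exact h2 i hiT
      · rw [hx0 i hiT, Finset.sum_congr rfl (g := fun _ => (0 : ZMod 2)) fun j hj => by
          rw [hx0 j (Finset.mem_sdiff.1 hj).2, add_zero, mul_zero],
          Finset.sum_congr (s₁ := T) rfl (g := fun j => dr π i j) fun j hj => by
          rw [hx1 j hj, zero_add, mul_one], Finset.sum_const_zero, zero_add, mul_zero, zero_add]
        exact h1 i (Finset.mem_sdiff.2 ⟨hi, hiT⟩)⟩
  have hf : Function.Injective f := by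
    intro T T' h
    have h1 := congrArg Subtype.val h
    refine Subtype.ext (Finset.ext fun i => ?_)
    by_cases hi : i ∈ ix Q P
    · have h2 := congrFun h1 ⟨i, hi⟩
      have h3 : (if i ∈ T.1 then (1 : ZMod 2) else 0) = if i ∈ T'.1 then 1 else 0 := h2
      by_cases h4 : i ∈ T.1 <;> by_cases h5 : i ∈ T'.1
      · exact ⟨fun _ => h5, fun _ => h4⟩
      · rw [if_pos h4, if_neg h5] at h3
        exact absurd h3 one_ne_zero
      · rw [if_neg h4, if_pos h5] at h3
        exact absurd h3.symm one_ne_zero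
      · exact ⟨fun h => absurd h h4, fun h => absurd h h5⟩
    · exact ⟨fun h => absurd (T.2.1 h) hi, fun h => absurd (T'.2.1 h) hi⟩
  have hfin : Finite {T : Finset (ℕ × Bool) // KT (ix Q P) π T} := Finite.of_injective f hf
  refine ⟨hfin, ?_⟩
  refine (Nat.card_le_card_of_injective f hf).trans ?_
  rw [Module.natCard_eq_pow_finrank (K := ZMod 2), Nat.card_zmod]
  refine (Nat.pow_le_pow_right two_pos (finrank_gd hs)).trans ?_
  rw [pow_mul]
  norm_num

end Pool.Agent.R413.CK
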