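import Pool.Agent.R413.CK.Lb3

/-!
The exact sequence of the 2-Selmer group.
-/

set_option autoImplicit false
set_option linter.unusedSectionVars false

namespace Pool.Agent.R413.CK

open WeierstrassCurve
open Pool.Agent.TH841.SH.D (Pt act Coch IsCoc IsCob LocTriv cob cob_zero Gal loc_zero loc_neg)
open Pool.Agent.TH841.NF.D (Sha shaCoc IsShaCoc)

variable {K : Type} [Field K] [NumberField K] {W : WeierstrassCurve K}

/-- the continuous cocycles with values in `W[2]`, locally trivial in `W` -/
def coc2 (W : WeierstrassCurve K) : AddSubgroup (Coch W) where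
  carrier := {f | IsShaCoc W f ∧ ∀ σ, f σ + f σ = 0}
  zero_mem' := ⟨(shaCoc W).zero_mem, fun σ => add_zero _⟩
  add_mem' := fun {f g} hf hg => ⟨(shaCoc W).add_mem hf.1 hg.1, fun σ => by
    show (f σ + g σ) + (f σ + g σ) = 0
    rw [add_add_add_comm, hf.2, hg.2, add_zero]⟩
  neg_mem' := fun {f} hf => ⟨(shaCoc W).neg_mem hf.1, fun σ => by
    show -(f σ) + -(f σ) = 0
    rw [← neg_add, hf.2, neg_zero]⟩

/-- the coboundaries of the points of `W[2]` -/
def cob2 (W : WeierstrassCurve K) : AddSubgroup (Coch W) where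
  carrier := {f | ∃ P : Pt W (AlgebraicClosure K), P + P = 0 ∧
    ∀ σ : Gal K, f σ = act W σ.toAlgHom P - P}
  zero_mem' := ⟨0, add_zero _, fun σ => by
    show (0 : Pt W (AlgebraicClosure K)) = _
    rw [map_zero, sub_zero]⟩
  add_mem' := fun {f g} hf hg => by
    obtain ⟨P, hn, hP⟩ := hf
    obtain ⟨Q, hm, hQ⟩ := hg
    refine ⟨P + Q, by rw [add_add_add_comm, hn, hm, add_zero], fun σ => ?_⟩
    show f σ + g σ = _
    rw [hP, hQ, map_add]
    abel
  neg_mem' := fun {f} hf => by
    obtain ⟨P, hn, hP⟩ := hf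
    refine ⟨-P, by rw [← neg_add, hn, neg_zero], fun σ => ?_⟩
    show -f σ = _
    rw [hP, map_neg]
    abel

/-- the 2-Selmer group -/
def Sel2 (W : WeierstrassCurve K) : Type := coc2 W ⧸ (cob2 W).addSubgroupOf (coc2 W)

lemma coc2_le : coc2 W ≤ shaCoc W := fun _ hf => hf.1

/-- the map to the Tate-Shafarevich group -/
noncomputable def th2 (W : WeierstrassCurve K) :
    coc2 W →+ (shaCoc W ⧸ (cob W).addSubgroupOf (shaCoc W)) :=
  (QuotientAddGroup.mk' ((cob W).addSubgroupOf (shaCoc W))).comp (AddSubgroup.inclusion coc2_le)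

lemma th2_ker (f : coc2 W) : f ∈ (th2 W).ker ↔ ∃ P : Pt W (AlgebraicClosure K),
    ∀ σ : Gal K, f.1 σ = act W σ.toAlgHom P - P := by
  rw [AddMonoidHom.mem_ker]
  show (QuotientAddGroup.mk (AddSubgroup.inclusion coc2_le f) :
    shaCoc W ⧸ (cob W).addSubgroupOf (shaCoc W)) = 0 ↔ _
  rw [QuotientAddGroup.eq_zero_iff, AddSubgroup.mem_addSubgroupOf]
  exact Iff.rfl

/-- the coboundary of a point -/
noncomputable def dl (W : WeierstrassCurve K) (Q : Pt W (AlgebraicClosure K)) : Coch W :=
  fun σ => act W σ.toAlgHom Q - Q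

lemma dl_apply (Q : Pt W (AlgebraicClosure K)) (σ : Gal K) :
    dl W Q σ = act W σ.toAlgHom Q - Q := rfl

theorem dl_sha (Q : Pt W (AlgebraicClosure K)) : dl W Q ∈ shaCoc W := by
  have hloc : ∀ (L : Type) [Field L] [Algebra K L], Pool.Agent.TH841.SH.D.LocTriv W L (dl W Q) := by
    intro L _ _ ι
    refine ⟨act W ι Q, fun τ σ hσ => ?_⟩
    rw [dl_apply, map_sub, Pool.Agent.TH841.NF.act_act, Pool.Agent.TH841.NF.act_act]
    congr 3
    exact AlgHom.ext fun x => (hσ x).symm
  refine ⟨⟨?_, fun σ τ => ?_⟩, fun v => hloc _, fun v => hloc _⟩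
  · -- locally constant
    obtain ⟨S, hS⟩ := Pool.Agent.Y698.fix_fin Q
    refine (IsLocallyConstant.iff_exists_open _).2 fun σ => ?_
    have hfd : FiniteDimensional K (IntermediateField.adjoin K (S : Set (AlgebraicClosure K))) :=
      IntermediateField.finiteDimensional_adjoin fun x _ => Algebra.IsIntegral.isIntegral x
    have ho := IntermediateField.fixingSubgroup_isOpen
      (IntermediateField.adjoin K (S : Set (AlgebraicClosure K)))
    refine ⟨(fun τ => σ⁻¹ * τ) ⁻¹' ((IntermediateField.adjoin K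
      (S : Set (AlgebraicClosure K))).fixingSubgroup : Set (Gal K)),
      ho.preimage (continuous_const_mul _), ?_, fun τ hτ => ?_⟩
    · show σ⁻¹ * σ ∈ (IntermediateField.adjoin K (S : Set (AlgebraicClosure K))).fixingSubgroup
      rw [inv_mul_cancel]
      exact one_mem _
    · have h1 : σ⁻¹ * τ ∈ (IntermediateField.adjoin K
        (S : Set (AlgebraicClosure K))).fixingSubgroup := hτ
      rw [IntermediateField.mem_fixingSubgroup_iff] at h1
      have h2 := hS (σ⁻¹ * τ) fun x hx => h1 x (IntermediateField.subset_adjoin K _ hx)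
      have h3 : act W τ.toAlgHom Q = act W σ.toAlgHom Q := by
        have h4 : τ = σ * (σ⁻¹ * τ) := by rw [mul_inv_cancel_left]
        rw [h4, Pool.Agent.Y698.act_mul', h2]
      rw [dl_apply, dl_apply, h3]
  · rw [dl_apply, dl_apply, dl_apply, Pool.Agent.Y698.act_mul', map_sub]
    abel

/-- the coboundary of a half of a point over `K` -/
theorem dl_coc2 {Q : Pt W (AlgebraicClosure K)}
    (h : ∀ σ : Gal K, act W σ.toAlgHom (Q + Q) = Q + Q) : dl W Q ∈ coc2 W := by
  refine ⟨dl_sha Q, fun σ => ?_⟩
  have e : ∀ A B : Pt W (AlgebraicClosure K), (A - B) + (A - B) = (A + A) - (B + B) :=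
    fun A B => by abel
  rw [dl_apply, e, ← map_add, h, sub_self]

/-- the doubles -/
def dbl (A : Type) [AddCommGroup A] : AddSubgroup A where
  carrier := {x | ∃ y, y + y = x}
  zero_mem' := ⟨0, add_zero 0⟩
  add_mem' := by
    rintro _ _ ⟨x, rfl⟩ ⟨y, rfl⟩
    exact ⟨x + y, add_add_add_comm x y x y⟩
  neg_mem' := by
    rintro _ ⟨x, rfl⟩
    exact ⟨-x, by rw [← neg_add]⟩

/-- **the order of the 2-Selmer group** -/
theorem card_Sel2 (hdiv : ∀ P : Pt W (AlgebraicClosure K), ∃ Q, Q + Q = P) :
    Nat.card (Sel2 W) = (dbl (Pt W K)).index * Nat.card {x : Sha W // x + x = 0} := by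
  set N := (cob2 W).addSubgroupOf (coc2 W) with hN
  set H := (th2 W).ker with hH
  have hNH : N ≤ H := by
    intro f hf
    rw [hH, th2_ker]
    obtain ⟨P, -, hP⟩ := hf
    exact ⟨P, hP⟩
  have h1 : Nat.card (Sel2 W) = N.index := rfl
  have h2 : N.relIndex H * H.index = N.index := AddSubgroup.relIndex_mul_index hNH
  -- the range
  have h3 : H.index = Nat.card {x : Sha W // x + x = 0} := by
    rw [hH, AddSubgroup.index_ker]
    refine Nat.card_congr (Equiv.subtypeEquivRight fun x => ?_)
    constructor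
    · rintro ⟨f, rfl⟩
      have h5 : f + f = 0 := by
        apply Subtype.ext
        funext σ
        exact f.2.2 σ
      have h6 := congrArg (th2 W) h5
      rw [map_add, map_zero] at h6
      exact h6
    · intro hx
      obtain ⟨f, rfl⟩ := QuotientAddGroup.mk_surjective x
      have hx' : f + f ∈ (cob W).addSubgroupOf (shaCoc W) :=
        (QuotientAddGroup.eq_zero_iff (f + f)).1 hx
      rw [AddSubgroup.mem_addSubgroupOf] at hx'
      obtain ⟨P, hP⟩ := hx'
      have hP1 : ∀ τ : Gal K, (f : Coch W) τ + (f : Coch W) τ = act W τ.toAlgHom P - P := hP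
      obtain ⟨Q, hQ⟩ := hdiv P
      have hmem : (f : Coch W) - dl W Q ∈ coc2 W := by
        refine ⟨(shaCoc W).sub_mem f.2 (dl_sha Q), fun σ => ?_⟩
        have e : ∀ A B C : Pt W (AlgebraicClosure K), (A - (B - C)) + (A - (B - C)) =
            (A + A) - ((B + B) - (C + C)) := fun A B C => by abel
        show ((f : Coch W) σ - (act W σ.toAlgHom Q - Q)) + ((f : Coch W) σ -
          (act W σ.toAlgHom Q - Q)) = 0
        rw [e, hP1, ← map_add, hQ, sub_self]
      refine ⟨⟨_, hmem⟩, ?_⟩
      refine QuotientAddGroup.eq.2 ?_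
      rw [AddSubgroup.mem_addSubgroupOf]
      refine ⟨Q, fun σ => ?_⟩
      show -((f : Coch W) σ - (act W σ.toAlgHom Q - Q)) + (f : Coch W) σ = _
      abel
  -- the connecting homomorphism
  choose hf hhf using hdiv
  let i := act W (Algebra.ofId K (AlgebraicClosure K))
  have hfx : ∀ (P : Pt W K) (σ : Gal K), act W σ.toAlgHom (hf (i P) + hf (i P)) =
      hf (i P) + hf (i P) := by
    intro P σ
    rw [hhf]
    exact ptW_fixed P σ
  let δ₀ : Pt W K → coc2 W := fun P => ⟨dl W (hf (i P)), dl_coc2 (hfx P)⟩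
  let δ : Pt W K →+ (coc2 W ⧸ N) := AddMonoidHom.mk' (fun P => QuotientAddGroup.mk (δ₀ P)) (by
    intro P P'
    refine QuotientAddGroup.eq.2 ?_
    rw [AddSubgroup.mem_addSubgroupOf]
    refine ⟨hf (i P) + hf (i P') - hf (i (P + P')), ?_, fun σ => ?_⟩
    · have e : ∀ A B C : Pt W (AlgebraicClosure K), (A + B - C) + (A + B - C) =
        (A + A) + (B + B) - (C + C) := fun A B C => by abel
      rw [e, hhf, hhf, hhf, map_add, sub_self]
    · show -(act W σ.toAlgHom (hf (i (P + P'))) - hf (i (P + P'))) +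
        ((act W σ.toAlgHom (hf (i P)) - hf (i P)) + (act W σ.toAlgHom (hf (i P')) - hf (i P'))) = _
      rw [map_sub, map_add (act W σ.toAlgHom)]
      abel)
  have h4 : N.relIndex H = (dbl (Pt W K)).index := by
    have e1 : N = (QuotientAddGroup.mk' N).ker := (QuotientAddGroup.ker_mk' N).symm
    have e2 : N.relIndex H = Nat.card (H.map (QuotientAddGroup.mk' N)) := by
      conv_lhs => rw [e1]
      exact AddSubgroup.relIndex_ker _ _
    have e3 : H.map (QuotientAddGroup.mk' N) = δ.range := by
      ext x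
      constructor
      · rintro ⟨f, hfH, rfl⟩
        obtain ⟨Q, hQ⟩ := (th2_ker f).1 hfH
        have hQ2 : ∀ σ : Gal K, act W σ.toAlgHom (Q + Q) = Q + Q := by
          intro σ
          have h5 := f.2.2 σ
          rw [hQ] at h5
          have e : ∀ A B : Pt W (AlgebraicClosure K), (A - B) + (A - B) = (A + A) - (B + B) :=
            fun A B => by abel
          rw [e, sub_eq_zero] at h5
          rw [map_add]
          exact h5
        obtain ⟨P, hP⟩ := fixedW_pt hQ2
        refine ⟨P, ?_⟩
        refine QuotientAddGroup.eq.2 ?_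
        rw [AddSubgroup.mem_addSubgroupOf]
        refine ⟨Q - hf (i P), ?_, fun σ => ?_⟩
        · have e : ∀ A B : Pt W (AlgebraicClosure K), (A - B) + (A - B) = (A + A) - (B + B) :=
            fun A B => by abel
          rw [e, hhf, ← hP, sub_self]
        · show -(act W σ.toAlgHom (hf (i P)) - hf (i P)) + f.1 σ = _
          rw [hQ, map_sub]
          abel
      · rintro ⟨P, rfl⟩
        refine ⟨δ₀ P, ?_, rfl⟩
        exact (th2_ker _).2 ⟨hf (i P), fun σ => rfl⟩
    have e4 : δ.ker = dbl (Pt W K) := by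
      ext P
      rw [AddMonoidHom.mem_ker]
      constructor
      · intro h5
        have h6 := (QuotientAddGroup.eq_zero_iff (δ₀ P)).1 h5
        rw [AddSubgroup.mem_addSubgroupOf] at h6
        obtain ⟨T, hT, hT2⟩ := h6
        have h7 : ∀ σ : Gal K, act W σ.toAlgHom (hf (i P) - T) = hf (i P) - T := by
          intro σ
          have h8 : act W σ.toAlgHom (hf (i P)) - hf (i P) = act W σ.toAlgHom T - T := hT2 σ
          rw [map_sub]
          have e : ∀ A B C D : Pt W (AlgebraicClosure K), A - B = C - D → A - C = B - D := by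
            intro A B C D h
            have h9 : A = C - D + B := by rw [← h]; abel
            rw [h9]
            abel
          exact e _ _ _ _ h8
        obtain ⟨R, hR⟩ := fixedW_pt h7
        refine ⟨R, ?_⟩
        have hi : Function.Injective i := by
          have hi' : Function.Injective (Algebra.ofId K (AlgebraicClosure K)) :=
            (algebraMap K (AlgebraicClosure K)).injective
          rintro (_ | ⟨x, y, h⟩) (_ | ⟨x', y', h'⟩) e
          · rfl
          · exact absurd e.symm (Affine.Point.some_ne_zero _)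
          · exact absurd e (Affine.Point.some_ne_zero _)
          · obtain ⟨e1, e2⟩ := Pool.Agent.TH841.NF.pt_inj _ _ e
            exact Pool.Agent.TH841.NF.pt_ext _ _ (hi' e1) (hi' e2)
        apply hi
        rw [map_add]
        have h8 : i R = hf (i P) - T := hR
        have e : ∀ A B : Pt W (AlgebraicClosure K), (A - B) + (A - B) = (A + A) - (B + B) :=
          fun A B => by abel
        rw [h8, e, hhf, hT, sub_zero]
      · rintro ⟨R, rfl⟩
        refine (QuotientAddGroup.eq_zero_iff (δ₀ (R + R))).2 ?_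
        rw [AddSubgroup.mem_addSubgroupOf]
        refine ⟨hf (i (R + R)) - i R, ?_, fun σ => ?_⟩
        · have e : ∀ A B : Pt W (AlgebraicClosure K), (A - B) + (A - B) = (A + A) - (B + B) :=
            fun A B => by abel
          rw [e, hhf, map_add, sub_self]
        · show act W σ.toAlgHom (hf (i (R + R))) - hf (i (R + R)) = _
          have h5 : act W σ.toAlgHom (i R) = i R := ptW_fixed R σ
          rw [map_sub, h5]
          abel
    rw [e2, e3, ← e4, AddSubgroup.index_ker]
  rw [h1, ← h2, h3, h4]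

end Pool.Agent.R413.CK
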