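import Pool.Agent.R413.CK.Se1

/-!
The order of the 2-Selmer group of `E_D`.
-/

set_option autoImplicit false
set_option linter.unusedSectionVars false

namespace Pool.Agent.R413.CK

open WeierstrassCurve
open Pool.Agent.Y698 Pool.Agent.Y698.SG Pool.Agent.R428.Q0
open Pool.Agent.TH841.SH.D (Pt act Coch Gal)
open Pool.Agent.TH841.NF.D (Sha)
open Cv (WF LocI coc)
open Pool.Agent.Results.MP_4a9ea6_nt.TwoPartTwistsX49 (Adm inert split mat_eq inq spl union_eq
  adm_mod E twist E_eq rat_all exists_aux)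

/-- there is exactly one element of order two, and it is not a double -/
def OneTwo (A : Type) [AddCommGroup A] : Prop :=
  ∃ T : A, T + T = 0 ∧ (∀ x : A, x + x = 0 → x = 0 ∨ x = T) ∧ ∀ x : A, x + x ≠ T

theorem OneTwo.equiv {A B : Type} [AddCommGroup A] [AddCommGroup B] (e : A ≃+ B) (h : OneTwo A) :
    OneTwo B := by
  obtain ⟨T, h1, h2, h3⟩ := h
  refine ⟨e T, by rw [← map_add, h1, map_zero], fun x hx => ?_, fun x hx => ?_⟩
  · obtain ⟨y, rfl⟩ := e.surjective x
    rw [← map_add] at hx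
    have h4 : y + y = 0 := e.injective (by rw [hx, map_zero])
    rcases h2 y h4 with rfl | rfl
    · left
      rw [map_zero]
    · right
      rfl
  · obtain ⟨y, rfl⟩ := e.surjective x
    rw [← map_add] at hx
    exact h3 y (e.injective hx)

/-- the kernel of the reduction -/
theorem ker_phi2 {A : Type} [AddCommGroup A] [Module.Finite ℤ A] (T : A)
    (h2 : ∀ x : A, x + x = 0 → x = 0 ∨ x = T) (h4 : ∀ x : A, x + x ≠ T) :
    ∃ φ : A →+ (Fin (Module.finrank ℤ A) → ZMod 2), Function.Surjective φ ∧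
      (∀ x, x + x = 0 → φ x = 0) ∧
      ∀ x, φ x = 0 → (∃ R, R + R = x) ∨ ∃ R, R + R + T = x := by
  have hfree : Module.Free ℤ (A ⧸ Submodule.torsion ℤ A) := Module.free_iff_isTorsionFree.2
    inferInstance
  have hr : Module.finrank ℤ (A ⧸ Submodule.torsion ℤ A) = Module.finrank ℤ A :=
    finrank_quotient_eq_of_le_torsion le_rfl
  let b := (Module.finBasis ℤ (A ⧸ Submodule.torsion ℤ A)).reindex (finCongr hr)
  let q : A →ₗ[ℤ] (Fin (Module.finrank ℤ A) → ℤ) :=
    b.equivFun.toLinearMap ∘ₗ (Submodule.torsion ℤ A).mkQ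
  let c : (Fin (Module.finrank ℤ A) → ℤ) →+ (Fin (Module.finrank ℤ A) → ZMod 2) :=
    { toFun := fun v i => (v i : ZMod 2)
      map_zero' := by funext i; simp
      map_add' := fun v w => by funext i; simp }
  have hq : Function.Surjective q :=
    b.equivFun.surjective.comp (Submodule.mkQ_surjective _)
  have hc : Function.Surjective c := by
    intro v
    choose w hw using fun i => ZMod.intCast_surjective (v i)
    exact ⟨w, funext hw⟩
  refine ⟨c.comp q.toAddMonoidHom, hc.comp hq, fun x hx => ?_, fun x hx => ?_⟩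
  · have h1 := congrArg q hx
    rw [map_add, map_zero] at h1
    have h2 : q x = 0 := by
      funext i
      have h3 : q x i + q x i = 0 := congrFun h1 i
      show q x i = 0
      omega
    change c (q x) = 0
    rw [h2, map_zero]
  -- the coordinates are even
  have hev : ∀ i, ∃ w : ℤ, q x i = 2 * w := by
    intro i
    have h1 : ((q x i : ℤ) : ZMod 2) = 0 := congrFun hx i
    rw [ZMod.intCast_zmod_eq_zero_iff_dvd] at h1
    exact h1
  choose w hw using hev
  obtain ⟨S, hS⟩ := hq w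
  have h3 : q (x - (S + S)) = 0 := by
    rw [map_sub, map_add, hS]
    funext i
    simp only [Pi.sub_apply, Pi.add_apply, Pi.zero_apply, hw i]
    ring
  have h5 : (Submodule.torsion ℤ A).mkQ (x - (S + S)) = 0 := by
    have h6 : b.equivFun ((Submodule.torsion ℤ A).mkQ (x - (S + S))) = 0 := h3
    rwa [LinearEquiv.map_eq_zero_iff] at h6
  rw [Submodule.mkQ_apply, Submodule.Quotient.mk_eq_zero] at h5
  obtain ⟨⟨n, hn⟩, hnt⟩ := h5
  have hn0 : n ≠ 0 := nonZeroDivisors.ne_zero hn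
  have hnt' : n • (x - (S + S)) = 0 := hnt
  obtain ⟨t, ht⟩ : ∃ t, t = x - (S + S) := ⟨_, rfl⟩
  rw [← ht] at hnt'
  have h6 : n.natAbs • t = 0 := by
    rcases Int.natAbs_eq n with h | h
    · rw [h, natCast_zsmul] at hnt'
      exact hnt'
    · rw [h, neg_smul, natCast_zsmul, neg_eq_zero] at hnt'
      exact hnt'
  obtain ⟨k, m, hm, hkm⟩ := Nat.exists_eq_two_pow_mul_odd (n := n.natAbs) (Int.natAbs_ne_zero.2 hn0)
  have hpow : ∀ (k : ℕ) (u : A), 2 ^ k • u = 0 → u + u = 0 := by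
    intro k
    induction k with
    | zero =>
      intro u hu
      rw [pow_zero, one_nsmul] at hu
      rw [hu, add_zero]
    | succ k ih =>
      intro u hu
      have h7 : 2 ^ k • (u + u) = 0 := by
        rw [← two_nsmul, ← mul_nsmul', ← pow_succ]
        exact hu
      exact (h2 _ (ih _ h7)).resolve_right (h4 u)
  have h7 : m • t + m • t = 0 := by
    apply hpow k
    rw [← mul_nsmul', ← hkm]
    exact h6
  obtain ⟨l, hl⟩ := hm
  have h8 : t = m • t - (l • t + l • t) := by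
    rw [hl, add_nsmul, mul_nsmul', one_nsmul, two_nsmul]
    abel
  have h9 : x = (S - l • t) + (S - l • t) + m • t := by
    have e : x = t + (S + S) := by rw [ht]; abel
    rw [e]
    nth_rewrite 1 [h8]
    abel
  rcases h2 _ h7 with h10 | h10
  · left
    refine ⟨S - l • t, ?_⟩
    rw [h10, add_zero] at h9
    exact h9.symm
  · right
    refine ⟨S - l • t, ?_⟩
    rw [h10] at h9
    exact h9.symm

/-- the index of the group of the doubles -/
theorem dbl_index {A : Type} [AddCommGroup A] [Module.Finite ℤ A] (h : OneTwo A) :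
    (dbl A).index = 2 ^ (Module.finrank ℤ A + 1) := by
  obtain ⟨T, hT, h2, h4⟩ := h
  obtain ⟨φ, hs, ht, hker⟩ := ker_phi2 T h2 h4
  have hv : ∀ v : Fin (Module.finrank ℤ A) → ZMod 2, v + v = 0 := fun v => by
    funext i
    exact CharTwo.add_self_eq_zero _
  have hle : dbl A ≤ φ.ker := by
    rintro _ ⟨x, rfl⟩
    rw [AddMonoidHom.mem_ker, map_add, hv]
  have hTn : T ∉ dbl A := by
    rintro ⟨x, hx⟩
    exact h4 x hx
  have h1 : (dbl A).relIndex φ.ker * φ.ker.index = (dbl A).index :=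
    AddSubgroup.relIndex_mul_index hle
  have h3 : φ.ker.index = 2 ^ Module.finrank ℤ A := by
    rw [AddSubgroup.index_ker, AddMonoidHom.range_eq_top_of_surjective φ hs]
    rw [AddSubgroup.card_top, Nat.card_eq_fintype_card, Fintype.card_fun, ZMod.card,
      Fintype.card_fin]
  -- the point of order two lies in the kernel
  have hTk : φ T = 0 := ht T hT
  have h5 : (dbl A).relIndex φ.ker = 2 := by
    rw [AddSubgroup.relIndex_eq_two_iff]
    refine ⟨T, hTk, fun b hb => ?_⟩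
    rcases hker b hb with ⟨R, hR⟩ | ⟨R, hR⟩
    · right
      refine ⟨⟨R, hR⟩, ?_⟩
      rintro ⟨S, hS⟩
      apply h4 (S - R)
      have e : S - R + (S - R) = (S + S) - (R + R) := by abel
      rw [e, hS, hR]
      abel
    · left
      refine ⟨⟨R + T, ?_⟩, ?_⟩
      · rw [← hR]
        abel
      · rintro ⟨S, hS⟩
        apply h4 (S - R)
        have e : S - R + (S - R) = (S + S) - (R + R) := by abel
        rw [e, hS, ← hR]
        abel
  rw [← h1, h3, h5, pow_succ]
  ring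

/-- the point `(0, 0)` -/
theorem T0_dbl {K : Type} [Field K] [CharZero K] {a b : ℤ} (hb : b ≠ 0) :
    (Cv.T0 K hb K : Pt (WF K a b) K) + Cv.T0 K hb K = 0 := by
  have h : ((WF K a b).baseChange K).toAffine.Nonsingular 0 0 := Cv.ns0 K hb K
  have h3 : ((WF K a b).baseChange K).toAffine.a₃ = 0 := map_zero (algebraMap K K)
  refine @Affine.Point.add_of_Y_eq K _ ((WF K a b).baseChange K).toAffine (Classical.decEq K)
    0 0 0 0 h h rfl ?_
  rw [Affine.negY, h3]
  ring

/-- the group of the points over the algebraic closure is divisible -/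
theorem div_AX {K : Type} [Field K] [NumberField K] (j : ℕ) (P : Pt (AX K j) (AlgebraicClosure K)) :
    ∃ Q, Q + Q = P := by
  classical
  obtain ⟨δ, hδ⟩ : ∃ δ : Cb K, δ ^ 2 = -7 := IsAlgClosed.exists_pow_nat_eq _ two_pos
  have hc : ((1 + δ) / 2) ^ 2 = (1 + δ) / 2 - 2 := by linear_combination hδ / 4
  have hIs := isRD (K := K) hc (1 + 4 * j)
  obtain ⟨hs0, n1, n2, n3⟩ := rAB_ne (D := 1 + 4 * j) (by omega) hc
  obtain ⟨Q, hQ⟩ : ∃ Q : Pt (EE K (1 + 4 * j)) (Cb K), vPd K j (Cb K) P = Q + Q :=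
    hIs.div two_ne_zero n1 n2 n3 (vPd K j (Cb K) P)
  obtain ⟨R, hR⟩ := vPd_surj K j (Cb K) Q
  refine ⟨R, ?_⟩
  apply vPd_inj K j (Cb K)
  rw [map_add, hR]
  exact hQ.symm

/-- the group of the rational points has exactly one element of order two -/
theorem oneTwo_E {D : ℕ} (h : Adm D) : OneTwo (E D).toAffine.Point ∧ OneTwo (Pt (E D) ℚ) ∧
    Module.Finite ℤ (Pt (E D) ℚ) ∧ Module.finrank ℤ (Pt (E D) ℚ) =
      Module.finrank ℤ (E D).toAffine.Point := by
  classical
  have hm4 := adm_mod h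
  have hD0 : D ≠ 0 := h.1.ne_zero
  obtain ⟨r, hr, hrD⟩ := exists_aux D h.1.ne_zero
  have hrf : Fact r.Prime := ⟨hr.pr⟩
  have hM : IsCyclotomicExtension {r} ℚ (CyclotomicField r ℚ) := Pool.Agent.Y698.cyc_inst r
  set Q := inert D with hQd
  set P := split D with hPd
  have hQ := inq h
  have hP := spl h
  have hd : DQ r Q P := ⟨hr, fun q hq => ⟨hQ q hq, by
    rintro rfl
    exact hrD (Nat.dvd_of_mem_primeFactors (Finset.mem_filter.1 hq).1)⟩, hP⟩
  have hDu : ∏ q ∈ Q ∪ P, q = D := by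
    rw [hQd, hPd, union_eq, Nat.prod_primeFactors_of_squarefree h.1]
  obtain ⟨j, hj'⟩ : ∃ j, D = 1 + 4 * j := ⟨D / 4, by omega⟩
  have hj : ∏ q ∈ Q ∪ P, q = 1 + 4 * j := hDu.trans hj'
  have hDZ : ((1 + 4 * j : ℕ) : ℤ) ≠ 0 := by
    rw [Nat.cast_ne_zero]
    omega
  have hb : 112 * ((1 + 4 * j : ℕ) : ℤ) ^ 2 ≠ 0 := mul_ne_zero (by norm_num) (pow_ne_zero 2 hDZ)
  obtain ⟨nb, nab, -⟩ := low_fam (CyclotomicField r ℚ) ℚ hd hj subset_rfl hb
  obtain ⟨t1, t2⟩ := tors_wf (K := ℚ) hb nb nab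
  have hT2 : (Cv.T0 ℚ hb ℚ : Pt (WF ℚ (21 * ((1 + 4 * j : ℕ) : ℤ))
      (112 * ((1 + 4 * j : ℕ) : ℤ) ^ 2)) ℚ) + Cv.T0 ℚ hb ℚ = 0 := T0_dbl hb
  have hone : OneTwo (Pt (WF ℚ (21 * ((1 + 4 * j : ℕ) : ℤ))
      (112 * ((1 + 4 * j : ℕ) : ℤ) ^ 2)) ℚ) := ⟨_, hT2, t1, t2⟩
  obtain ⟨iso⟩ := pt_equiv (Classical.decEq ℚ) (instDecidableEqRat) (wf_wd j)
  obtain ⟨iso2⟩ := wd_iso hD0 hm4
  have e0 : (WD (D : ℚ)) = WD ((1 + 4 * j : ℕ) : ℚ) := by rw [hj']
  obtain ⟨iso3⟩ := pt_equiv (instDecidableEqRat) (instDecidableEqRat) e0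
  have iso' : Pt (WF ℚ (21 * ((1 + 4 * j : ℕ) : ℤ)) (112 * ((1 + 4 * j : ℕ) : ℤ) ^ 2)) ℚ ≃+
    (WD ((1 + 4 * j : ℕ) : ℚ)).toAffine.Point := iso
  have h1 : OneTwo (E D).toAffine.Point :=
    ((hone.equiv iso').equiv iso3.symm).equiv iso2.symm
  have hbc : (E D).baseChange ℚ = E D := by
    unfold WeierstrassCurve.baseChange
    exact WeierstrassCurve.map_id (E D)
  obtain ⟨iso4⟩ := pt_equiv (instDecidableEqRat) (Classical.decEq ℚ) hbc.symm
  have iso5 : (E D).toAffine.Point ≃+ Pt (E D) ℚ := iso4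
  have hfg := (rank_corank h).1
  exact ⟨h1, h1.equiv iso5,
    Module.Finite.of_injective iso5.symm.toAddMonoidHom.toIntLinearMap iso5.symm.injective,
    LinearEquiv.finrank_eq iso5.symm.toIntLinearEquiv⟩

/-- the group of the points over the algebraic closure is divisible -/
theorem div_E {D : ℕ} (h : Adm D) : ∀ P : Pt (E D) (AlgebraicClosure ℚ), ∃ Q, Q + Q = P := by
  have hm4 := adm_mod h
  obtain ⟨j, hj⟩ : ∃ j, D = 1 + 4 * j := ⟨D / 4, by omega⟩
  rw [E_eq hj]
  exact div_AX j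

/-- **the order of the 2-Selmer group** -/
theorem sel2_card {D : ℕ} (h : Adm D) : Nat.card (Sel2 (E D)) =
    2 ^ (Module.finrank ℤ (E D).toAffine.Point + 1) * Nat.card {x : Sha (E D) // x + x = 0} := by
  obtain ⟨-, h1, h2, h3⟩ := oneTwo_E h
  rw [card_Sel2 (div_E h), dbl_index h1, h3]

/-- **the bounds** -/
theorem sel2_bounds {D : ℕ} (h : Adm D) : 2 ^ (corank D + 1) ≤ Nat.card (Sel2 (E D)) ∧
    Nat.card (Sel2 (E D)) ≤ 2 ^ (2 * corank D + 1) := by
  obtain ⟨-, -, h1, h2⟩ := sel_two h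
  rw [sel2_card h, pow_succ, pow_succ, pow_succ, pow_mul]
  norm_num
  constructor <;> nlinarith

end Pool.Agent.R413.CK
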