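import Pool.Agent.R413.CK.Sh1
import Pool.Agent.R413.CK.Rk

/-!
The classes of the cocycles.
-/

set_option autoImplicit false
set_option linter.unusedSectionVars false

attribute [-instance] DivisionRing.toRatAlgebra

namespace Pool.Agent.R413.CK

open Pool.Agent.Y698 Pool.Agent.Y698.SG Pool.Agent.R428.Q0

open WeierstrassCurve IsDedekindDomain NumberField WithZero

open Pool.Agent.TH841.SH.D (Pt act Gal Coch IsCoc IsCob LocTriv cob loc_zero loc_add loc_neg)
open Pool.Agent.TH841.NF.D (IsShaCoc shaCoc Sha)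
open Pool.Agent.TH841.SH (IsR IsX gf isX_zero isX_some not_isX)
open Pool.Agent.TH841.NF (act_act act_id act_some' pt_ext pt_inj coc_fin)

open scoped Classical

section

variable {D : ℕ} {K F : Type} [Field K] [NumberField K] [Field F] [NumberField F] [Algebra K F]
  [Algebra F (Cb K)] [IsScalarTower K F (Cb K)] [IsGalois F (Cb K)]

/-- an automorphism that is not trivial on `F` -/
theorem exists_rho {c : Cb K} (hc : c ^ 2 = c - 2) (hK : ∀ k : K, k ^ 2 ≠ k - 2) :
    ∃ ρ : Gal K, ρ c = 1 - c := by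
  have hgal : IsGalois K (Cb K) := inferInstance
  by_contra hcon
  push Not at hcon
  obtain ⟨y, hy⟩ := fixm (K := K) c (fun τ => by
    have h1 : (τ c) ^ 2 = τ c - 2 := by
      rw [← map_pow, hc, map_sub, map_ofNat]
    have h3 : (τ c - c) * (τ c - (1 - c)) = 0 := by linear_combination h1 - hc
    rcases mul_eq_zero.1 h3 with h | h
    · exact sub_eq_zero.1 h
    · exact absurd (sub_eq_zero.1 h) (hcon τ))
  apply hK y
  apply (algebraMap K (Cb K)).injective
  rw [map_pow, map_sub, hy, hc, map_ofNat]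

/-- the difference -/
theorem Co2D.sub' {g₁ g₂ : Coch (EE K D)} (h1 : Co2D (D := D) g₁) (h2 : Co2D (D := D) g₂) :
    Co2D (D := D) (K := K) (fun τ => g₁ τ - g₂ τ) := by
  refine ⟨fun τ => ?_, fun σ τ => ?_, ?_, fun v => ?_⟩
  · have e : ∀ A B : Pt (EE K D) (Cb K), (A - B) + (A - B) = (A + A) - (B + B) :=
      fun A B => by abel
    show (g₁ τ - g₂ τ) + (g₁ τ - g₂ τ) = 0
    rw [e, h1.two, h2.two, sub_self]
  · show g₁ (σ * τ) - g₂ (σ * τ) = _
    rw [h1.coc, h2.coc, map_sub]
    abel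
  · obtain ⟨S, hS⟩ := h1.fin
    obtain ⟨S', hS'⟩ := h2.fin
    refine ⟨S ∪ S', fun τ hτ => ?_⟩
    show g₁ τ - g₂ τ = 0
    rw [hS τ (fun x hx => hτ x (Finset.mem_union_left _ hx)),
      hS' τ (fun x hx => hτ x (Finset.mem_union_right _ hx)), sub_self]
  · have h3 := loc_add (h1.loc v) (loc_neg (h2.loc v))
    have e : (g₁ + -g₂ : Coch (EE K D)) = fun τ => g₁ τ - g₂ τ := by
      funext τ
      show g₁ τ + -g₂ τ = _
      abel
    rw [e] at h3
    exact h3

/-- the coboundary of the half of a rational point -/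
theorem co2_half {R : Pt (EE K D) (Cb K)}
    (h : ∀ τ : Gal K, act (EE K D) τ.toAlgHom (R + R) = R + R) :
    Co2D (D := D) (K := K) (fun τ => act (EE K D) τ.toAlgHom R - R) := by
  refine ⟨fun τ => ?_, fun σ τ => ?_, ?_, fun v => ?_⟩
  · have e : ∀ A B : Pt (EE K D) (Cb K), (A - B) + (A - B) = (A + A) - (B + B) :=
      fun A B => by abel
    show (act (EE K D) τ.toAlgHom R - R) + (act (EE K D) τ.toAlgHom R - R) = 0
    rw [e, ← map_add, h, sub_self]
  · show act (EE K D) (σ * τ).toAlgHom R - R = _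
    rw [act_mul', map_sub]
    abel
  · obtain ⟨S, hS⟩ := fix_fin R
    refine ⟨S, fun τ hτ => ?_⟩
    show act (EE K D) τ.toAlgHom R - R = 0
    rw [hS τ hτ, sub_self]
  · have h3 := loc_neg (loc_sub (loc_zero (EE K D) (v.adicCompletion K)) R)
    have e : (fun τ : Gal K => act (EE K D) τ.toAlgHom R - R) = fun τ : Gal K =>
        -((0 : Pt (EE K D) (Cb K)) - (act (EE K D) τ.toAlgHom R - R)) := by
      funext τ
      abel
    rw [e]
    exact h3

/-- the conjugate class -/
theorem conj_side {g : Coch (EE K D)} (hg : Co2D (D := D) g) {a : F} (ha : a ^ 2 = a - 2)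
    (hF : ∀ x : F, ∃ k₁ k₂ : K, x = algebraMap K F k₁ + algebraMap K F k₂ * a)
    (hK : ∀ k : K, k ^ 2 ≠ k - 2) (hD0 : D ≠ 0) {qB : F} {sB : Cb K}
    (hsB : sB ^ 2 = algebraMap F (Cb K) qB)
    (hfB : ∀ τ : Gal K, τ (algebraMap F (Cb K) a) = algebraMap F (Cb K) a →
      (τ sB = sB ↔ IsX ((EE K D).baseChange (Cb K)) (rB D (algebraMap F (Cb K) a)) (g τ)))
    (hcB : SqE qB 1 ∨ SqE qB ((D : F) * (2 * a - 1))) :
    ∃ (qA : F) (sA : Cb K), sA ^ 2 = algebraMap F (Cb K) qA ∧
    (∀ τ : Gal K, τ (algebraMap F (Cb K) a) = algebraMap F (Cb K) a →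
      (τ sA = sA ↔ IsX ((EE K D).baseChange (Cb K)) (rA D (algebraMap F (Cb K) a)) (g τ))) ∧
    (SqE qA 1 ∨ SqE qA ((D : F) * (2 * (1 - a) - 1))) := by
  set c : Cb K := algebraMap F (Cb K) a with hcd
  have hc : c ^ 2 = c - 2 := by
    rw [hcd, ← map_pow, ha, map_sub, map_ofNat]
  obtain ⟨ρ, hρ⟩ := exists_rho hc hK
  have hinvc : ρ⁻¹ c = 1 - c := by
    apply ρ.injective
    rw [← AlgEquiv.mul_apply, mul_inv_cancel, AlgEquiv.one_apply, map_sub, map_one, hρ]
    ring
  -- the conjugation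
  have hcj : ∀ x : F, ∃ y : F, ρ⁻¹ (algebraMap F (Cb K) x) = algebraMap F (Cb K) y ∧
      (x ≠ 0 → y ≠ 0) := by
    intro x
    obtain ⟨k₁, k₂, rfl⟩ := hF x
    refine ⟨algebraMap K F k₁ + algebraMap K F k₂ * (1 - a), ?_, ?_⟩
    · rw [map_add, map_mul, map_add, map_mul, map_add, map_mul, map_sub, map_one,
        ← IsScalarTower.algebraMap_apply K F (Cb K), ← IsScalarTower.algebraMap_apply K F (Cb K),
        AlgEquiv.commutes, AlgEquiv.commutes, ← hcd, hinvc]
    · intro hx hy
      apply hx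
      apply (algebraMap F (Cb K)).injective
      apply (ρ⁻¹).injective
      rw [map_zero, map_zero, map_add, map_mul, map_add, map_mul,
        ← IsScalarTower.algebraMap_apply K F (Cb K), ← IsScalarTower.algebraMap_apply K F (Cb K),
        AlgEquiv.commutes, AlgEquiv.commutes, ← hcd, hinvc]
      have h1 := congrArg (algebraMap F (Cb K)) hy
      rw [map_zero, map_add, map_mul, map_sub, map_one,
        ← IsScalarTower.algebraMap_apply K F (Cb K), ← IsScalarTower.algebraMap_apply K F (Cb K),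
        ← hcd] at h1
      exact h1
  obtain ⟨qA, hqA, -⟩ := hcj qB
  refine ⟨qA, ρ⁻¹ sB, ?_, fun τ hτ => ?_, ?_⟩
  · rw [← map_pow, hsB, hqA]
  · -- the conjugate automorphism
    have hτ' : (ρ * τ * ρ⁻¹) c = c := by
      rw [AlgEquiv.mul_apply, AlgEquiv.mul_apply, hinvc, map_sub, map_one, hτ, map_sub, map_one, hρ]
      ring
    have h1 := hfB _ hτ'
    have h2 : τ (ρ⁻¹ sB) = ρ⁻¹ sB ↔ (ρ * τ * ρ⁻¹) sB = sB := by
      rw [AlgEquiv.mul_apply, AlgEquiv.mul_apply]
      constructor
      · intro h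
        rw [h, ← AlgEquiv.mul_apply, mul_inv_cancel, AlgEquiv.one_apply]
      · intro h
        apply ρ.injective
        rw [h, ← AlgEquiv.mul_apply, mul_inv_cancel, AlgEquiv.one_apply]
    rw [h2, h1]
    have h3 : g (ρ * τ * ρ⁻¹) = act (EE K D) ρ.toAlgHom (g τ) := by
      have e1 : g 1 = 0 := by
        have := hg.coc 1 1
        have e : act (EE K D) (1 : Gal K).toAlgHom (g 1) = g 1 := by
          rcases g 1 with _ | ⟨x, y, h⟩
          · rfl
          · rw [act_some']
            rfl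
        rw [one_mul, e] at this
        exact left_eq_add.1 this
      have e2 := hg.coc ρ ρ⁻¹
      rw [mul_inv_cancel, e1] at e2
      have e3 := tor_fixD (K := K) (σ := τ) hc hτ (hg.two ρ⁻¹)
      rw [hg.coc, hg.coc, act_mul', e3]
      have e4 : ∀ A B C : Pt (EE K D) (Cb K), A + B + C = B + (A + C) := fun A B C => by abel
      rw [e4, ← e2, add_zero]
    rw [h3]
    have hB : ρ (rA D c) = rB D c := by
      rw [show ρ (rA D c) = (ρ : Cb K →+* Cb K) (rA D c) from rfl, (map_rAB _ D c).1]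
      rw [show (ρ : Cb K →+* Cb K) c = 1 - c from hρ, rA_conj]
    have hIs := isRD (K := K) hc D
    obtain ⟨hs0, n1, n2, n3⟩ := rAB_ne hD0 hc
    constructor
    · intro h
      rcases hIs.tors two_ne_zero (hg.two τ) with h5 | ⟨hn, h5⟩ | ⟨hn, h5⟩ | ⟨hn, h5⟩
      · rw [h5]
        exact isX_zero _
      · exfalso
        rw [h5] at h
        rw [act_some'] at h
        exact not_isX _ (by rw [map_zero]; exact n2) h
      · rw [h5]
        exact isX_some _
      · exfalso
        rw [h5] at h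
        rw [act_some'] at h
        refine not_isX _ ?_ h
        intro h6
        exact n3 (ρ.injective (Eq.trans h6 hB.symm)).symm
    · intro h
      rcases hIs.tors two_ne_zero (hg.two τ) with h5 | ⟨hn, h5⟩ | ⟨hn, h5⟩ | ⟨hn, h5⟩
      · rw [h5]
        exact Or.inl (map_zero (act (EE K D) ρ.toAlgHom))
      · exfalso
        rw [h5] at h
        exact not_isX hn n1 h
      · rw [h5, act_some']
        refine Or.inr ⟨ρ.toAlgHom 0, hB ▸ (Affine.baseChange_nonsingular (EE K D) (f := ρ.toAlgHom)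
          ρ.toAlgHom.injective (rA D c) 0).mpr hn, ?_⟩
        exact pt_ext _ _ hB rfl
      · exfalso
        rw [h5] at h
        exact not_isX hn n3.symm h
  · -- the squares
    rcases hcB with ⟨z, hz, h⟩ | ⟨z, hz, h⟩
    · left
      obtain ⟨y, hy, hy0⟩ := hcj z
      refine ⟨y, hy0 hz, ?_⟩
      apply (algebraMap F (Cb K)).injective
      rw [← hqA, h, one_mul, one_mul, map_pow, map_pow, hy, map_pow]
    · right
      obtain ⟨y, hy, hy0⟩ := hcj z
      refine ⟨y, hy0 hz, ?_⟩
      apply (algebraMap F (Cb K)).injective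
      have e1 : algebraMap F (Cb K) ((D : F) * (2 * (1 - a) - 1) * y ^ 2) =
          (D : Cb K) * (2 * (1 - c) - 1) * (algebraMap F (Cb K) y) ^ 2 := by
        rw [map_mul, map_mul, map_pow, map_natCast, map_sub, map_mul, map_sub, map_ofNat, map_one]
      have e2 : algebraMap F (Cb K) ((D : F) * (2 * a - 1) * z ^ 2) =
          (D : Cb K) * (2 * c - 1) * (algebraMap F (Cb K) z) ^ 2 := by
        rw [map_mul, map_mul, map_pow, map_natCast, map_sub, map_mul, map_ofNat, map_one]
      rw [← hqA, h, e1, e2, map_mul, map_mul, map_pow, hy, map_natCast, map_sub, map_mul, hinvc,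
        map_ofNat, map_one]

end

end Pool.Agent.R413.CK
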