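import Pool.Agent.R413.CK.Sh2

/-!
The classes of the elements of order two and of the rational points.
-/

set_option autoImplicit false
set_option linter.unusedSectionVars false

attribute [-instance] DivisionRing.toRatAlgebra

namespace Pool.Agent.R413.CK

open Pool.Agent.Y698 Pool.Agent.Y698.SG Pool.Agent.R428.Q0

open WeierstrassCurve IsDedekindDomain NumberField WithZero

open Pool.Agent.TH841.SH.D (Pt act Gal Coch IsCoc IsCob LocTriv cob loc_zero loc_add loc_neg)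
open Pool.Agent.TH841.NF.D (IsShaCoc shaCoc Sha)
open Pool.Agent.TH841.SH (IsR IsX gf isX_zero isX_some not_isX)
open Pool.Agent.TH841.NF (act_act act_id act_some' pt_ext pt_inj coc_fin)

open scoped Classical

section

variable {D : ℕ} {K F : Type} [Field K] [NumberField K] [Field F] [NumberField F] [Algebra K F]
  {a : F} {ha : a ^ 2 = a - 2} {V : Set (Valuation F ℤᵐ⁰)} {S : Finset ℕ}
  {I : Finset (ℕ × Bool)} {π : ℕ × Bool → RR}

/-- `±D √-7` is not a square -/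
theorem nsq_of (hC : C1 a ha V S I π) (hDD : DD F S = (D : F))
    (h7 : ∃ (w : Valuation F ℤᵐ⁰) (k : ℤ), w (2 * a - 1) = exp (2 * k + 1)) :
    ∀ z w : F, w ≠ 0 → z ^ 2 ≠ ((D : F) * (2 * a - 1)) * w ^ 2 ∧
      z ^ 2 ≠ -((D : F) * (2 * a - 1)) * w ^ 2 := by
  intro z w hw
  obtain ⟨v, k, hk⟩ : ∃ (v : Valuation F ℤᵐ⁰) (k : ℤ), v (DD F S * (2 * a - 1)) =
      exp (2 * k + 1) := by
    obtain ⟨w, k, hk⟩ := h7
    have hw7 : w ((7 : ℕ) : F) < 1 := by
      have h1 : w ((7 : ℕ) : F) = exp (2 * (2 * k + 1)) := by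
        have h2 : ((7 : ℕ) : F) = -((2 * a - 1) ^ 2) := by
          rw [s_sq ha]
          norm_num
        rw [h2, Valuation.map_neg, map_pow, hk, ← exp_nsmul]
        congr 1
      have h3 := w_nat (w := w) 7
      rw [h1, ← exp_zero, exp_le_exp] at h3
      rw [h1, ← exp_zero, exp_lt_exp]
      omega
    have h7S : 7 ∉ S := fun h => (hC.inS 7 h).2.1 rfl
    have hwD : w (DD F S) = 1 := hC.w_DD (by norm_num) h7S hw7
    exact ⟨w, k, by rw [map_mul, hwD, one_mul, hk]⟩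
  rw [hDD] at hk
  have key : ∀ e : F, v e = exp (2 * k + 1) → z ^ 2 ≠ e * w ^ 2 := by
    intro e he h
    have h1 := congrArg v h
    have hz : z ≠ 0 := by
      rintro rfl
      rw [zero_pow two_ne_zero] at h
      have h3 : e ≠ 0 := by
        rintro rfl
        rw [map_zero] at he
        exact exp_ne_zero he.symm
      exact mul_ne_zero h3 (pow_ne_zero 2 hw) h.symm
    obtain ⟨m, hm⟩ := vexp (w := v) hz
    obtain ⟨l, hl⟩ := vexp (w := v) hw
    rw [map_mul, map_pow, map_pow, hm, hl, he, ← exp_nsmul, ← exp_nsmul, ← exp_add,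
      exp_inj] at h1
    simp only [nsmul_eq_mul, Nat.cast_ofNat] at h1
    omega
  exact ⟨key _ hk, key _ (by rw [Valuation.map_neg, hk])⟩

variable [Algebra F (Cb K)] [IsScalarTower K F (Cb K)] [IsGalois F (Cb K)]

/-- the class of a cocycle -/
def HasT (a : F) (ha : a ^ 2 = a - 2) (S : Finset ℕ) (I : Finset (ℕ × Bool))
    (π : ℕ × Bool → RR) (g : Coch (EE K D)) (T : Finset (ℕ × Bool)) : Prop :=
  ∃ (q : F) (s : Cb K) (e : Bool), q ≠ 0 ∧ s ^ 2 = algebraMap F (Cb K) q ∧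
    (∀ τ : Gal K, τ (algebraMap F (Cb K) a) = algebraMap F (Cb K) a →
      (τ s = s ↔ IsX ((EE K D).baseChange (Cb K)) (rB D (algebraMap F (Cb K) a)) (g τ))) ∧
    KT I π T ∧ Cx a ha S π T e q

/-- every cocycle has a class -/
theorem exists_T (hC : C1 a ha V S I π)
    (hF : ∀ x : F, ∃ k₁ k₂ : K, x = algebraMap K F k₁ + algebraMap K F k₂ * a)
    (hDS : D = ∏ q ∈ S, q)
    (hV : ∀ w ∈ V, (∀ x : 𝓞 F, w (algebraMap (𝓞 F) F x) ≤ 1) ∧
      ∃ x : 𝓞 F, x ≠ 0 ∧ w (algebraMap (𝓞 F) F x) < 1)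
    (hun : ∀ P : HeightOneSpectrum (𝓞 F), P.valuation F 2 < 1 → P.valuation F 2 = exp (-1))
    (hunD : ∀ P : HeightOneSpectrum (𝓞 F), P.valuation F (D : F) < 1 →
      P.valuation F (D : F) = exp (-1)) {g : Coch (EE K D)} (hg : Co2D (D := D) g) :
    ∃ T, HasT a ha S I π g T := by
  have hD4 : D % 4 = 1 := by
    rw [hDS]
    exact prod_mod_four fun q hq => (hC.inS q hq).2.2
  have hD0 : D ≠ 0 := by
    rintro rfl
    omega
  have hDD : DD F S = (D : F) := by rw [DD_cast, hDS]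
  obtain ⟨qB, sB, hqB, hsB, hfB, hPB⟩ := sel_classD hD0 hg ha hF
  obtain ⟨T, e, hT, hx⟩ := hC.main (d := qB) (by
    rw [hDD]
    exact PDD.of_four ha hD4 (rfl : (1 : F ≃+* F) a = a) hV hun hunD hqB hPB)
  exact ⟨T, qB, sB, e, hqB, hsB, hfB, hT, hx⟩

/-- the cocycles of the same class -/
theorem same_T (hF : ∀ x : F, ∃ k₁ k₂ : K, x = algebraMap K F k₁ + algebraMap K F k₂ * a)
    (hD4 : D % 4 = 1) (hDD : DD F S = (D : F)) (hne : ∀ i ∈ I, ev a ha (π i) ≠ 0)
    (hK : ∀ k : K, k ^ 2 ≠ k - 2)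
    (hnsq : ∀ z w : F, w ≠ 0 → z ^ 2 ≠ ((D : F) * (2 * a - 1)) * w ^ 2 ∧
      z ^ 2 ≠ -((D : F) * (2 * a - 1)) * w ^ 2)
    {g₁ g₂ : Coch (EE K D)} (h1 : Co2D (D := D) g₁) (h2 : Co2D (D := D) g₂)
    {T : Finset (ℕ × Bool)} (t1 : HasT a ha S I π g₁ T) (t2 : HasT a ha S I π g₂ T) :
    ∃ R : Pt (EE K D) (Cb K), (R + R) + (R + R) = 0 ∧
      ∀ τ : Gal K, g₁ τ - g₂ τ = act (EE K D) τ.toAlgHom R - R := by
  have hD0 : D ≠ 0 := by
    rintro rfl
    omega
  have hDF : (D : F) ≠ 0 := by exact_mod_cast hD0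
  obtain ⟨q₁, s₁, e₁, hq1, hs1, hf1, hT, z, hz, hx1⟩ := t1
  obtain ⟨q₂, s₂, e₂, hq2, hs2, hf2, -, w, hw, hx2⟩ := t2
  have hc : (algebraMap F (Cb K) a) ^ 2 = algebraMap F (Cb K) a - 2 := by
    rw [← map_pow, ha, map_sub, map_ofNat]
  have hIs := isRD (K := K) hc D
  obtain ⟨hs0, n1, n2, n3⟩ := rAB_ne hD0 hc
  have hP0 : ∏ i ∈ T, ev a ha (π i) ≠ 0 :=
    Finset.prod_ne_zero_iff.2 fun i hi => hne i (hT.1 hi)
  have hs0F := s_ne ha
  have hfx : ∀ τ : Gal K, τ (algebraMap F (Cb K) a) = algebraMap F (Cb K) a → ∀ x : F,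
      τ (algebraMap F (Cb K) x) = algebraMap F (Cb K) x := fun τ hτ => fix_F hF hτ
  have hn : ∀ {q : F} {s : Cb K}, q ≠ 0 → s ^ 2 = algebraMap F (Cb K) q → s ≠ 0 := by
    rintro q s hq hs rfl
    rw [zero_pow two_ne_zero] at hs
    exact hq ((map_eq_zero (algebraMap F (Cb K))).1 hs.symm)
  have hpm : ∀ {q : F} {s : Cb K}, s ^ 2 = algebraMap F (Cb K) q → ∀ τ : Gal K,
      τ (algebraMap F (Cb K) a) = algebraMap F (Cb K) a → τ s = s ∨ τ s = -s := by
    intro q s hs τ hτ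
    have h3 : (τ s) ^ 2 = s ^ 2 := by rw [← map_pow, hs, hfx τ hτ]
    exact sq_eq_sq_iff_eq_or_eq_neg.1 h3
  have h12 := Co2D.sub' h1 h2
  have hsB : (s₁ * s₂) ^ 2 = algebraMap F (Cb K) (q₁ * q₂) := by
    rw [mul_pow, hs1, hs2, map_mul]
  have hfB : ∀ τ : Gal K, τ (algebraMap F (Cb K) a) = algebraMap F (Cb K) a →
      (τ (s₁ * s₂) = s₁ * s₂ ↔ IsX ((EE K D).baseChange (Cb K))
        (rB D (algebraMap F (Cb K) a)) (g₁ τ - g₂ τ)) := by
    intro τ hτ
    have e1 : g₁ τ - g₂ τ = g₁ τ + g₂ τ := by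
      have h3 := h2.two τ
      have e : ∀ A B : Pt (EE K D) (Cb K), A - B = A + B - (B + B) := fun A B => by abel
      rw [e, h3, sub_zero]
    rw [e1]
    have e2 := hIs.rot.rot.isX_add two_ne_zero n2.symm n3.symm n1 (h1.two τ) (h2.two τ)
    have e3 : (τ (s₁ * s₂) = s₁ * s₂ ↔ (τ s₁ = s₁ ↔ τ s₂ = s₂)) := by
      rw [map_mul]
      have k1 := hn hq1 hs1
      have k2 := hn hq2 hs2
      have m1 : -s₁ ≠ s₁ := fun h => k1 (self_eq_neg.1 h.symm)
      have m2 : -s₂ ≠ s₂ := fun h => k2 (self_eq_neg.1 h.symm)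
      have m3 : s₁ * s₂ ≠ 0 := mul_ne_zero k1 k2
      have m4 : -(s₁ * s₂) ≠ s₁ * s₂ := fun h => m3 (self_eq_neg.1 h.symm)
      rcases hpm hs1 τ hτ with h3 | h3 <;> rcases hpm hs2 τ hτ with h4 | h4 <;> rw [h3, h4]
      · simp
      · simp [m2, m4]
      · simp [m1, m4]
      · simp [m1, m2]
    rw [e3, hf1 τ hτ, hf2 τ hτ]
    exact e2.symm
  have hcB : SqE (q₁ * q₂) 1 ∨ SqE (q₁ * q₂) ((D : F) * (2 * a - 1)) := by
    rw [hDD] at hx1 hx2
    by_cases hee : e₁ = e₂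
    · left
      subst hee
      refine ⟨(if e₁ then (D : F) * (2 * a - 1) else 1) * (∏ i ∈ T, ev a ha (π i)) * (z * w),
        ?_, ?_⟩
      · refine mul_ne_zero (mul_ne_zero ?_ hP0) (mul_ne_zero hz hw)
        cases e₁
        · simp
        · simp only [if_true]
          exact mul_ne_zero hDF hs0F
      · rw [hx1, hx2]
        ring
    · right
      refine ⟨(∏ i ∈ T, ev a ha (π i)) * (z * w), mul_ne_zero hP0 (mul_ne_zero hz hw), ?_⟩
      rw [hx1, hx2]
      cases e₁ <;> cases e₂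
      · exact absurd rfl hee
      · simp only [Bool.false_eq_true, if_false, if_true]
        ring
      · simp only [Bool.false_eq_true, if_false, if_true]
        ring
      · exact absurd rfl hee
  obtain ⟨qA, sA, hsA, hfA, hcA⟩ := conj_side h12 ha hF hK hD0 hsB hfB hcB
  exact g_cob1 h12 ha hF hD4 hnsq (res_cob1 h12 ha hF hD4 hsB hfB hcB hsA hfA hcA)

end

section points
variable {D : ℕ} {K : Type} [Field K] [NumberField K]

/-- the points over `K` are fixed -/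
theorem pt_fixed (U : Pt (EE K D) K) (τ : Gal K) :
    act (EE K D) τ.toAlgHom (act (EE K D) (Algebra.ofId K (Cb K)) U) =
      act (EE K D) (Algebra.ofId K (Cb K)) U := by
  rw [act_act]
  congr 2
  exact Subsingleton.elim _ _

theorem ofId_inj : Function.Injective (act (EE K D) (Algebra.ofId K (Cb K))) := by
  have hi : Function.Injective (Algebra.ofId K (Cb K)) := (algebraMap K (Cb K)).injective
  rintro (_ | ⟨x, y, h⟩) (_ | ⟨x', y', h'⟩) e
  · rfl
  · rw [act_some'] at e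
    exact absurd e (by
      intro h
      cases h)
  · rw [act_some'] at e
    exact absurd e (by
      intro h
      cases h)
  · rw [act_some', act_some'] at e
    obtain ⟨e1, e2⟩ := pt_inj _ _ e
    exact pt_ext _ _ (hi e1) (hi e2)

/-- the fixed points -/
theorem fixed_pt {U : Pt (EE K D) (Cb K)} (h : ∀ τ : Gal K, act (EE K D) τ.toAlgHom U = U) :
    ∃ U₀ : Pt (EE K D) K, act (EE K D) (Algebra.ofId K (Cb K)) U₀ = U := by
  have hgal : IsGalois K (Cb K) := inferInstance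
  have hi : Function.Injective (Algebra.ofId K (Cb K)) := (algebraMap K (Cb K)).injective
  rcases U with _ | ⟨x, y, hn⟩
  · exact ⟨0, map_zero _⟩
  · have hx : ∀ τ : Gal K, τ x = x ∧ τ y = y := by
      intro τ
      have h1 := h τ
      rw [act_some'] at h1
      exact pt_inj _ _ h1
    obtain ⟨x₀, rfl⟩ := fixm (K := K) x (fun τ => (hx τ).1)
    obtain ⟨y₀, rfl⟩ := fixm (K := K) y (fun τ => (hx τ).2)
    refine ⟨Affine.Point.some x₀ y₀ ((Affine.baseChange_nonsingular (EE K D)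
      (f := Algebra.ofId K (Cb K)) hi x₀ y₀).1 hn), ?_⟩
    rw [act_some']
    exact pt_ext _ _ rfl rfl

end points

end Pool.Agent.R413.CK
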