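import Pool.Agent.R413.CK.Sh3

/-!
The number of the elements of the Selmer group.
-/

set_option autoImplicit false
set_option linter.unusedSectionVars false

attribute [-instance] DivisionRing.toRatAlgebra

namespace Pool.Agent.R413.CK

open Pool.Agent.Y698 Pool.Agent.Y698.SG Pool.Agent.R428.Q0

open WeierstrassCurve IsDedekindDomain NumberField WithZero

open Pool.Agent.TH841.SH.D (Pt act Gal Coch IsCoc IsCob LocTriv cob loc_zero loc_add loc_neg)
open Pool.Agent.TH841.NF.D (IsShaCoc shaCoc Sha)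
open Pool.Agent.TH841.SH (IsR IsX gf isX_zero isX_some not_isX)
open Pool.Agent.TH841.NF (act_act act_id act_some' pt_ext pt_inj coc_fin)

open scoped Classical

section algebra

/-- the number of the classes -/
theorem sel_le {A C X : Type} [AddCommGroup A] [Module.Finite ℤ A] [Finite C]
    (τ : X → A → C) (T : A) (hT : T + T = 0)
    (h : ∀ x x' P Q, τ x P = τ x' Q → x = x' ∧ ((∃ R, R + R = P + Q) ∨
      ∃ R, R + R = P + Q + T)) :
    Finite X ∧ Nat.card X * 2 ^ Module.finrank ℤ A ≤ Nat.card C := by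
  obtain ⟨φ, hφ, h0⟩ := exists_phi A
  have hT0 : φ T = 0 := h0 T 2 two_pos (by rw [two_nsmul]; exact hT)
  have h2 : ∀ v : Fin (Module.finrank ℤ A) → ZMod 2, v + v = 0 := fun v => by
    funext i
    exact CharTwo.add_self_eq_zero _
  have key : ∀ x x' P Q, τ x P = τ x' Q → x = x' ∧ φ P = φ Q := by
    intro x x' P Q hPQ
    obtain ⟨h1, h4⟩ := h x x' P Q hPQ
    refine ⟨h1, ?_⟩
    have h3 : φ P + φ Q = 0 := by
      rcases h4 with ⟨R, hR⟩ | ⟨R, hR⟩
      · rw [← map_add, ← hR, map_add, h2]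
      · have h4 := congrArg φ hR
        rw [map_add, h2, map_add, hT0, add_zero, map_add] at h4
        exact h4.symm
    have h4 : φ P + φ Q + φ Q = φ Q := by rw [h3, zero_add]
    rw [add_assoc, h2, add_zero] at h4
    exact h4
  choose s hs using hφ
  have hinj : Function.Injective fun p : X × (Fin (Module.finrank ℤ A) → ZMod 2) =>
      τ p.1 (s p.2) := by
    rintro ⟨x, v⟩ ⟨y, w⟩ hvw
    obtain ⟨h1, h3⟩ := key _ _ _ _ hvw
    rw [hs v, hs w] at h3
    exact Prod.ext h1 h3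
  have hf1 : Finite (X × (Fin (Module.finrank ℤ A) → ZMod 2)) := Finite.of_injective _ hinj
  have hf2 : Finite X := Finite.of_injective (fun x : X =>
    ((x, 0) : X × (Fin (Module.finrank ℤ A) → ZMod 2))) fun x y hxy => congrArg Prod.fst hxy
  refine ⟨hf2, ?_⟩
  have h5 := Nat.card_le_card_of_injective _ hinj
  rw [Nat.card_prod, Nat.card_eq_fintype_card (α := Fin (Module.finrank ℤ A) → ZMod 2),
    Fintype.card_fun, ZMod.card, Fintype.card_fin] at h5
  exact h5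

end algebra

variable {j : ℕ} {K F : Type} [Field K] [NumberField K] [Field F] [NumberField F] [Algebra K F]
  {a : F} {ha : a ^ 2 = a - 2} {V : Set (Valuation F ℤᵐ⁰)} {S : Finset ℕ}
  {I : Finset (ℕ × Bool)} {π : ℕ × Bool → RR}

/-- the cocycle of an element of order two -/
theorem rep_two {c : Cb K} (hc : c ^ 2 = c - 2) (x : Sha (AX K j)) (hx : x + x = 0) :
    ∃ (f : Coch (AX K j)) (hf : f ∈ shaCoc (AX K j)) (Q : Pt (EE K (1 + 4 * j)) (Cb K)),
      (QuotientAddGroup.mk (⟨f, hf⟩ : shaCoc (AX K j)) : Sha (AX K j)) = x ∧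
      Co2D (D := 1 + 4 * j) (K := K) (fun τ => vPd K j (Cb K) (f τ) -
        (act (EE K (1 + 4 * j)) τ.toAlgHom Q - Q)) := by
  obtain ⟨f, rfl⟩ := QuotientAddGroup.mk_surjective x
  have hx' : f + f ∈ (cob (AX K j)).addSubgroupOf (shaCoc (AX K j)) :=
    (QuotientAddGroup.eq_zero_iff (f + f)).1 hx
  rw [AddSubgroup.mem_addSubgroupOf] at hx'
  obtain ⟨P, hP⟩ := hx'
  have hP1 : ∀ τ : Gal K, (f : Coch (AX K j)) τ + (f : Coch (AX K j)) τ =
    act (AX K j) τ.toAlgHom P - P := hP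
  obtain ⟨⟨hlc, hcoc⟩, hloc, -⟩ := f.2
  have hIs := isRD (K := K) hc (1 + 4 * j)
  obtain ⟨hs0, n1, n2, n3⟩ := rAB_ne (D := 1 + 4 * j) (by omega) hc
  obtain ⟨Q, hQ⟩ : ∃ Q : Pt (EE K (1 + 4 * j)) (Cb K), vPd K j (Cb K) P = Q + Q :=
    hIs.div two_ne_zero n1 n2 n3 (vPd K j (Cb K) P)
  refine ⟨f, f.2, Q, rfl, fun τ => ?_, fun σ τ => ?_, ?_, fun v => ?_⟩
  · have e : ∀ A B D : Pt (EE K (1 + 4 * j)) (Cb K), (A - (B - D)) + (A - (B - D)) =
        (A + A) - ((B + B) - (D + D)) := fun A B D => by abel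
    show vPd K j (Cb K) ((f : Coch (AX K j)) τ) - (act (EE K (1 + 4 * j)) τ.toAlgHom Q - Q) +
      (vPd K j (Cb K) ((f : Coch (AX K j)) τ) - (act (EE K (1 + 4 * j)) τ.toAlgHom Q - Q)) = 0
    rw [e, ← map_add, hP1, ← map_add, ← hQ, map_sub, act_vPd, sub_self]
  · show vPd K j (Cb K) ((f : Coch (AX K j)) (σ * τ)) -
      (act (EE K (1 + 4 * j)) (σ * τ).toAlgHom Q - Q) = _
    rw [hcoc, map_add, act_mul', map_sub, map_sub, act_vPd]
    abel
  · obtain ⟨S, hS⟩ := coc_fin (W := AX K j) ⟨hlc, hcoc⟩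
    obtain ⟨S', hS'⟩ := fix_fin Q
    refine ⟨S ∪ S', fun τ hτ => ?_⟩
    show vPd K j (Cb K) ((f : Coch (AX K j)) τ) - (act (EE K (1 + 4 * j)) τ.toAlgHom Q - Q) = 0
    rw [hS τ (fun x hx => hτ x (Finset.mem_union_left _ hx)), map_zero,
      hS' τ (fun x hx => hτ x (Finset.mem_union_right _ hx)), sub_self, sub_self]
  · have hch : CharZero (v.adicCompletion K) := charC v
    exact loc_sub (Pool.Agent.R428.Q0.loc_vPd (hloc v)) Q

/-- **the classes of the Selmer group** -/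
theorem sha_cls (hC : C1 a ha V S I π)
    (hF : ∀ x : F, ∃ k₁ k₂ : K, x = algebraMap K F k₁ + algebraMap K F k₂ * a)
    (hDS : 1 + 4 * j = ∏ q ∈ S, q)
    (hV : ∀ w ∈ V, (∀ x : 𝓞 F, w (algebraMap (𝓞 F) F x) ≤ 1) ∧
      ∃ x : 𝓞 F, x ≠ 0 ∧ w (algebraMap (𝓞 F) F x) < 1)
    (hun : ∀ P : HeightOneSpectrum (𝓞 F), P.valuation F 2 < 1 → P.valuation F 2 = exp (-1))
    (hunD : ∀ P : HeightOneSpectrum (𝓞 F), P.valuation F ((1 + 4 * j : ℕ) : F) < 1 →
      P.valuation F ((1 + 4 * j : ℕ) : F) = exp (-1))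
    (hne : ∀ i ∈ I, ev a ha (π i) ≠ 0)
    (hK : ∀ k : K, k ^ 2 ≠ k - 2)
    (h7 : ∃ (w : Valuation F ℤᵐ⁰) (k : ℤ), w (2 * a - 1) = exp (2 * k + 1)) :
    ∃ (τ : {x : Sha (AX K j) // x + x = 0} → Pt (EE K (1 + 4 * j)) K →
        {T : Finset (ℕ × Bool) // KT I π T}) (T₀ : Pt (EE K (1 + 4 * j)) K), T₀ + T₀ = 0 ∧
      ∀ x x' P Q, τ x P = τ x' Q → x = x' ∧ ((∃ R, R + R = P + Q) ∨
        ∃ R, R + R = P + Q + T₀) := by
  -- the embedding of `F`
  have halg : Algebra.IsAlgebraic K F := by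
    have h1 : IsAlgebraic K a := by
      refine ⟨Polynomial.X ^ 2 - Polynomial.X + Polynomial.C 2, ?_, ?_⟩
      · intro h
        have h2 := congrArg (fun p => Polynomial.coeff p 2) h
        simp only [Polynomial.coeff_add, Polynomial.coeff_sub, Polynomial.coeff_X_pow,
          Polynomial.coeff_X, Polynomial.coeff_C, Polynomial.coeff_zero] at h2
        norm_num at h2
      · simp only [map_add, map_sub, map_pow, Polynomial.aeval_X, map_ofNat]
        rw [ha]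
        ring
    refine ⟨fun x => ?_⟩
    obtain ⟨k₁, k₂, rfl⟩ := hF x
    exact (isAlgebraic_algebraMap k₁).add ((isAlgebraic_algebraMap k₂).mul h1)
  let κ : F →ₐ[K] Cb K := IsAlgClosed.lift
  let i1 : Algebra F (Cb K) := κ.toRingHom.toAlgebra
  have i2 : IsScalarTower K F (Cb K) := IsScalarTower.of_algebraMap_eq fun x => (κ.commutes x).symm
  have i3 : Algebra.IsAlgebraic F (Cb K) := Algebra.IsAlgebraic.tower_top (K := K) F
  have i4 : IsAlgClosure F (Cb K) := ⟨inferInstance, inferInstance⟩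
  have i5 : Normal F (Cb K) := IsAlgClosure.normal F (Cb K)
  have i6 : IsGalois F (Cb K) := { to_isSeparable := inferInstance, to_normal := i5 }
  obtain ⟨c, hcd⟩ : ∃ c : Cb K, c = algebraMap F (Cb K) a := ⟨_, rfl⟩
  have hc : c ^ 2 = c - 2 := by rw [hcd, ← map_pow, ha, map_sub, map_ofNat]
  have hD4 : (1 + 4 * j) % 4 = 1 := by omega
  have hD0 : 1 + 4 * j ≠ 0 := by omega
  have hDD : DD F S = ((1 + 4 * j : ℕ) : F) := by rw [DD_cast, hDS]
  have hIs := isRD (K := K) hc (1 + 4 * j)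
  obtain ⟨hs0, n1, n2, n3⟩ := rAB_ne (D := 1 + 4 * j) hD0 hc
  have hnsq := nsq_of (D := 1 + 4 * j) hC hDD h7
  obtain ⟨ρ, hρ⟩ := exists_rho hc hK
  -- the representatives
  choose f hf Q hfx hco using fun x : {x : Sha (AX K j) // x + x = 0} => rep_two hc x.1 x.2
  -- the halves
  have hdiv : ∀ P : Pt (EE K (1 + 4 * j)) K, ∃ R : Pt (EE K (1 + 4 * j)) (Cb K),
      act (EE K (1 + 4 * j)) (Algebra.ofId K (Cb K)) P = R + R := fun P =>
    hIs.div two_ne_zero n1 n2 n3 (act (EE K (1 + 4 * j)) (Algebra.ofId K (Cb K)) P)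
  choose hp hhp using hdiv
  have hch : ∀ P : Pt (EE K (1 + 4 * j)) K, Co2D (D := 1 + 4 * j) (K := K)
      (fun τ => act (EE K (1 + 4 * j)) τ.toAlgHom (hp P) - hp P) := by
    intro P
    refine co2_half fun τ => ?_
    rw [← hhp]
    exact pt_fixed P τ
  choose T hT using fun (x : {x : Sha (AX K j) // x + x = 0}) (P : Pt (EE K (1 + 4 * j)) K) =>
    exists_T (F := F) hC hF hDS hV hun hunD (Co2D.sub' (hco x) (hch P))
  have hKT : ∀ x P, KT I π (T x P) := by
    intro x P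
    obtain ⟨q, s, e, -, -, -, h, -⟩ := hT x P
    exact h
  -- the point of order two
  obtain ⟨T₀, hT₀⟩ : ∃ T₀ : Pt (EE K (1 + 4 * j)) K, ∃ hn,
      act (EE K (1 + 4 * j)) (Algebra.ofId K (Cb K)) T₀ = (Affine.Point.some 0 0 hn :
        ((EE K (1 + 4 * j)).baseChange (Cb K)).toAffine.Point) := by
    have hn : ((EE K (1 + 4 * j)).baseChange (Cb K)).toAffine.Nonsingular 0 0 :=
      hIs.nons two_ne_zero n1 n2 n3 (by ring)
    have hfix : ∀ τ : Gal K, act (EE K (1 + 4 * j)) τ.toAlgHom (Affine.Point.some 0 0 hn) =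
        (Affine.Point.some 0 0 hn : ((EE K (1 + 4 * j)).baseChange (Cb K)).toAffine.Point) := by
      intro τ
      rw [act_some']
      exact pt_ext _ _ (map_zero τ) (map_zero τ)
    obtain ⟨U, hU⟩ := fixed_pt hfix
    exact ⟨U, hn, hU⟩
  obtain ⟨hn0, hT₀⟩ := hT₀
  have hT₀2 : T₀ + T₀ = 0 := by
    apply ofId_inj
    rw [map_add, map_zero, hT₀]
    exact (hIs.add_self two_ne_zero hn0).2 rfl
  refine ⟨fun x P => ⟨T x P, hKT x P⟩, T₀, hT₀2, fun x x' P P' hxx => ?_⟩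
  have hTT : T x P = T x' P' := congrArg Subtype.val hxx
  have t1 := hT x P
  have t2 := hT x' P'
  rw [← hTT] at t2
  obtain ⟨R, hR4, hR⟩ := same_T (F := F) hF hD4 hDD hne hK hnsq (Co2D.sub' (hco x) (hch P))
    (Co2D.sub' (hco x') (hch P')) t1 t2
  have hR' : ∀ τ : Gal K, vPd K j (Cb K) (f x τ) -
      (act (EE K (1 + 4 * j)) τ.toAlgHom (Q x) - Q x) -
      (act (EE K (1 + 4 * j)) τ.toAlgHom (hp P) - hp P) - (vPd K j (Cb K) (f x' τ) -
      (act (EE K (1 + 4 * j)) τ.toAlgHom (Q x') - Q x') -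
      (act (EE K (1 + 4 * j)) τ.toAlgHom (hp P') - hp P')) =
      act (EE K (1 + 4 * j)) τ.toAlgHom R - R := hR
  -- the elements agree
  have hxx' : x = x' := by
    apply Subtype.ext
    rw [← hfx x, ← hfx x']
    refine QuotientAddGroup.eq.2 ?_
    rw [AddSubgroup.mem_addSubgroupOf]
    obtain ⟨Z, hZ⟩ := vPd_surj K j (Cb K) (hp P' - hp P - R - Q x + Q x')
    refine ⟨Z, fun τ => ?_⟩
    apply vPd_inj K j (Cb K)
    have h1 := hR' τ
    show vPd K j (Cb K) (-(f x τ) + f x' τ) = _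
    rw [map_add, map_neg, map_sub, ← act_vPd, hZ, map_add, map_sub, map_sub, map_sub]
    have e : ∀ A B q1 q2 q1' q2' p1 p2 p1' p2' r1 r2 : Pt (EE K (1 + 4 * j)) (Cb K),
        A - (q1 - q2) - (p1 - p2) - (B - (q1' - q2') - (p1' - p2')) = r1 - r2 →
        -A + B = p1' - p1 - r1 - q1 + q1' - (p2' - p2 - r2 - q2 + q2') := by
      intro A B q1 q2 q1' q2' p1 p2 p1' p2' r1 r2 h
      have h3 : A = r1 - r2 + (q1 - q2) + (p1 - p2) + (B - (q1' - q2') - (p1' - p2')) := by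
        rw [← h]
        abel
      rw [h3]
      abel
    exact e _ _ _ _ _ _ _ _ _ _ _ _ h1
  refine ⟨hxx', ?_⟩
  subst hxx'
  -- the rational point
  have hfix : ∀ τ : Gal K, act (EE K (1 + 4 * j)) τ.toAlgHom (R + hp P - hp P') =
      R + hp P - hp P' := by
    intro τ
    have h1 := hR' τ
    rw [map_sub, map_add]
    have e : ∀ A q p1 p2 p1' p2' r1 r2 : Pt (EE K (1 + 4 * j)) (Cb K),
        A - q - (p1 - p2) - (A - q - (p1' - p2')) = r1 - r2 →
        r1 + p1 - p1' = r2 + p2 - p2' := by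
      intro A q p1 p2 p1' p2' r1 r2 h
      have h3 : r1 = r2 + (A - q - (p1 - p2) - (A - q - (p1' - p2'))) := by
        rw [h]
        abel
      rw [h3]
      abel
    exact e _ _ _ _ _ _ _ _ h1
  obtain ⟨U, hU⟩ := fixed_pt hfix
  have h2R : R + R = act (EE K (1 + 4 * j)) (Algebra.ofId K (Cb K)) (U + U - P + P') := by
    rw [map_add, map_sub, map_add, hU, hhp, hhp]
    abel
  have hfixR : ∀ τ : Gal K, act (EE K (1 + 4 * j)) τ.toAlgHom (R + R) = R + R := by
    intro τ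
    rw [h2R]
    exact pt_fixed _ τ
  have hA : ρ (rA (1 + 4 * j) c) = rB (1 + 4 * j) c := by
    rw [show ρ (rA (1 + 4 * j) c) = (ρ : Cb K →+* Cb K) (rA (1 + 4 * j) c) from rfl,
      (map_rAB _ (1 + 4 * j) c).1]
    rw [show (ρ : Cb K →+* Cb K) c = 1 - c from hρ, rA_conj]
  have hB : ρ (rB (1 + 4 * j) c) = rA (1 + 4 * j) c := by
    rw [show ρ (rB (1 + 4 * j) c) = (ρ : Cb K →+* Cb K) (rB (1 + 4 * j) c) from rfl,
      (map_rAB _ (1 + 4 * j) c).2]
    rw [show (ρ : Cb K →+* Cb K) c = 1 - c from hρ, rB_conj]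
  rcases hIs.tors two_ne_zero hR4 with h5 | ⟨hn, h5⟩ | ⟨hn, h5⟩ | ⟨hn, h5⟩
  · left
    refine ⟨U + P', ?_⟩
    have h6 : U + U - P + P' = 0 := by
      apply ofId_inj
      rw [← h2R, map_zero]
      exact h5
    have e : U + P' + (U + P') = (U + U - P + P') + (P + P') := by abel
    rw [e, h6, zero_add]
  · right
    refine ⟨U + P', ?_⟩
    have h6 : U + U - P + P' = T₀ := by
      apply ofId_inj
      rw [← h2R, hT₀]
      exact h5
    have e : U + P' + (U + P') = (P + P') + (U + U - P + P') := by abel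
    rw [e, h6]
  · exfalso
    have h6 := hfixR ρ
    have h7 : R + R = (Affine.Point.some (rA (1 + 4 * j) c) 0 hn : Pt (EE K (1 + 4 * j)) (Cb K)) :=
      h5
    rw [h7, act_some'] at h6
    have h8 := (pt_inj _ _ h6).1
    exact n3 (h8.symm.trans hA)
  · exfalso
    have h6 := hfixR ρ
    have h7 : R + R = (Affine.Point.some (rB (1 + 4 * j) c) 0 hn : Pt (EE K (1 + 4 * j)) (Cb K)) :=
      h5
    rw [h7, act_some'] at h6
    have h8 := (pt_inj _ _ h6).1
    exact n3 ((h8.symm.trans hB).symm)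

end Pool.Agent.R413.CK
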