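import Pool.Agent.R413.CK.Sx

/-!
The `2^∞`-Selmer group.
-/

set_option autoImplicit false
set_option linter.unusedSectionVars false

namespace Pool.Agent.R413.CK

open WeierstrassCurve
open Pool.Agent.TH841.SH.D (Pt act Coch IsCoc IsCob LocTriv cob cob_zero Gal Pruf)
open Pool.Agent.TH841.NF.D (Sha shaCoc IsShaCoc)

variable {K : Type} [Field K] [NumberField K] {W : WeierstrassCurve K}

lemma tor_add' {A : Type} [AddCommGroup A] {x y : A} (hx : ∃ m : ℕ, 2 ^ m • x = 0)
    (hy : ∃ m : ℕ, 2 ^ m • y = 0) : ∃ m : ℕ, 2 ^ m • (x + y) = 0 := by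
  obtain ⟨m, hm⟩ := hx
  obtain ⟨n, hn⟩ := hy
  refine ⟨m + n, ?_⟩
  rw [smul_add, pow_add, mul_nsmul x, hm, mul_nsmul' y, hn, smul_zero, smul_zero, add_zero]

/-- the continuous cocycles with values in `W[2^∞]`, locally trivial in `W` -/
def cocI (W : WeierstrassCurve K) : AddSubgroup (Coch W) where
  carrier := {f | IsShaCoc W f ∧ ∀ σ, ∃ m : ℕ, 2 ^ m • f σ = 0}
  zero_mem' := ⟨(shaCoc W).zero_mem, fun σ => ⟨0, smul_zero _⟩⟩
  add_mem' := fun {f g} hf hg => ⟨(shaCoc W).add_mem hf.1 hg.1, fun σ =>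
    tor_add' (hf.2 σ) (hg.2 σ)⟩
  neg_mem' := fun {f} hf => ⟨(shaCoc W).neg_mem hf.1, fun σ => by
    obtain ⟨m, hm⟩ := hf.2 σ
    refine ⟨m, ?_⟩
    show 2 ^ m • -(f σ) = 0
    rw [smul_neg, hm, neg_zero]⟩

/-- the coboundaries of the points of `W[2^∞]` -/
def cobI (W : WeierstrassCurve K) : AddSubgroup (Coch W) where
  carrier := {f | ∃ P : Pt W (AlgebraicClosure K), (∃ m : ℕ, 2 ^ m • P = 0) ∧
    ∀ σ : Gal K, f σ = act W σ.toAlgHom P - P}
  zero_mem' := ⟨0, ⟨0, smul_zero _⟩, fun σ => by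
    show (0 : Pt W (AlgebraicClosure K)) = _
    rw [map_zero, sub_zero]⟩
  add_mem' := fun {f g} hf hg => by
    obtain ⟨P, hn, hP⟩ := hf
    obtain ⟨Q, hm, hQ⟩ := hg
    refine ⟨P + Q, tor_add' hn hm, fun σ => ?_⟩
    show f σ + g σ = _
    rw [hP, hQ, map_add]
    abel
  neg_mem' := fun {f} hf => by
    obtain ⟨P, ⟨m, hm⟩, hP⟩ := hf
    refine ⟨-P, ⟨m, by rw [smul_neg, hm, neg_zero]⟩, fun σ => ?_⟩
    show -f σ = _
    rw [hP, map_neg]
    abel

/-- the `2^∞`-Selmer group -/
def SelI (W : WeierstrassCurve K) : Type := cocI W ⧸ (cobI W).addSubgroupOf (cocI W)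

/-- the group law -/
noncomputable instance SelI.group (W : WeierstrassCurve K) : AddCommGroup (SelI W) :=
  @QuotientAddGroup.Quotient.addCommGroup (cocI W) _ ((cobI W).addSubgroupOf (cocI W))

lemma coc2_leI : coc2 W ≤ cocI W := fun _ hf => ⟨hf.1, fun σ => ⟨1, by
  rw [pow_one, two_nsmul]
  exact hf.2 σ⟩⟩

/-- the map -/
noncomputable def thI (W : WeierstrassCurve K) :
    coc2 W →+ (cocI W ⧸ (cobI W).addSubgroupOf (cocI W)) :=
  (QuotientAddGroup.mk' ((cobI W).addSubgroupOf (cocI W))).comp (AddSubgroup.inclusion coc2_leI)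

lemma thI_ker (f : coc2 W) : f ∈ (thI W).ker ↔ ∃ P : Pt W (AlgebraicClosure K),
    (∃ m : ℕ, 2 ^ m • P = 0) ∧ ∀ σ : Gal K, f.1 σ = act W σ.toAlgHom P - P := by
  rw [AddMonoidHom.mem_ker]
  show (QuotientAddGroup.mk (AddSubgroup.inclusion coc2_leI f) :
    cocI W ⧸ (cobI W).addSubgroupOf (cocI W)) = 0 ↔ _
  rw [QuotientAddGroup.eq_zero_iff, AddSubgroup.mem_addSubgroupOf]
  exact Iff.rfl

theorem ofIdW_inj : Function.Injective (act W (Algebra.ofId K (AlgebraicClosure K))) := by
  have hi' : Function.Injective (Algebra.ofId K (AlgebraicClosure K)) :=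
    (algebraMap K (AlgebraicClosure K)).injective
  rintro (_ | ⟨x, y, h⟩) (_ | ⟨x', y', h'⟩) e
  · rfl
  · exact absurd e.symm (Affine.Point.some_ne_zero _)
  · exact absurd e (Affine.Point.some_ne_zero _)
  · obtain ⟨e1, e2⟩ := Pool.Agent.TH841.NF.pt_inj _ _ e
    exact Pool.Agent.TH841.NF.pt_ext _ _ (hi' e1) (hi' e2)

/-- the elements of 2-power order -/
theorem OneTwo.pow {A : Type} [AddCommGroup A] {T : A}
    (h2 : ∀ x : A, x + x = 0 → x = 0 ∨ x = T) (h4 : ∀ x : A, x + x ≠ T) (k : ℕ) :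
    ∀ u : A, 2 ^ k • u = 0 → u = 0 ∨ u = T := by
  have hpow : ∀ (k : ℕ) (u : A), 2 ^ k • u = 0 → u + u = 0 := by
    intro k
    induction k with
    | zero =>
      intro u hu
      rw [pow_zero, one_nsmul] at hu
      rw [hu, add_zero]
    | succ k ih =>
      intro u hu
      have h7 : 2 ^ k • (u + u) = 0 := by
        rw [← two_nsmul, ← mul_nsmul', ← pow_succ]
        exact hu
      exact (h2 _ (ih _ h7)).resolve_right (h4 u)
  exact fun u hu => h2 u (hpow k u hu)

/-- **the orders of the two Selmer groups** -/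
theorem card_SelI (hdiv : ∀ P : Pt W (AlgebraicClosure K), ∃ Q, Q + Q = P)
    (h1 : OneTwo (Pt W K)) : Nat.card (Sel2 W) = 2 * Nat.card {x : SelI W // x + x = 0} := by
  obtain ⟨T, hT, h2, h4⟩ := h1
  set N := (cob2 W).addSubgroupOf (coc2 W) with hN
  set H := (thI W).ker with hH
  let i := act W (Algebra.ofId K (AlgebraicClosure K))
  obtain ⟨U, hU⟩ := hdiv (i T)
  have hU4 : 2 ^ 2 • U = 0 := by
    have e : 2 ^ 2 • U = (U + U) + (U + U) := by
      rw [show (2 : ℕ) ^ 2 = 4 by norm_num]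
      abel
    rw [e, hU, ← map_add, hT, map_zero]
  have hUf : ∀ σ : Gal K, act W σ.toAlgHom (U + U) = U + U := by
    intro σ
    rw [hU]
    exact ptW_fixed T σ
  have hNH : N ≤ H := by
    intro f hf
    rw [hH, thI_ker]
    obtain ⟨P, hP2, hP⟩ := hf
    exact ⟨P, ⟨1, by rw [pow_one, two_nsmul]; exact hP2⟩, hP⟩
  have e1 : Nat.card (Sel2 W) = N.index := rfl
  have e2 : N.relIndex H * H.index = N.index := AddSubgroup.relIndex_mul_index hNH
  have e3 : H.index = Nat.card {x : SelI W // x + x = 0} := by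
    rw [hH, AddSubgroup.index_ker]
    refine Nat.card_congr (Equiv.subtypeEquivRight fun x => ?_)
    constructor
    · rintro ⟨f, rfl⟩
      have h5 : f + f = 0 := by
        apply Subtype.ext
        funext σ
        exact f.2.2 σ
      have h6 := congrArg (thI W) h5
      rw [map_add, map_zero] at h6
      exact h6
    · intro hx
      obtain ⟨f, rfl⟩ := QuotientAddGroup.mk_surjective x
      have hx' : f + f ∈ (cobI W).addSubgroupOf (cocI W) :=
        (QuotientAddGroup.eq_zero_iff (f + f)).1 hx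
      rw [AddSubgroup.mem_addSubgroupOf] at hx'
      obtain ⟨P, ⟨m, hm⟩, hP⟩ := hx'
      have hP1 : ∀ τ : Gal K, (f : Coch W) τ + (f : Coch W) τ = act W τ.toAlgHom P - P := hP
      obtain ⟨Q, hQ⟩ := hdiv P
      have hQm : ∃ m : ℕ, 2 ^ m • Q = 0 := ⟨m + 1, by
        rw [pow_succ, mul_nsmul', two_nsmul, hQ, hm]⟩
      have hmem : (f : Coch W) - dl W Q ∈ coc2 W := by
        refine ⟨(shaCoc W).sub_mem f.2.1 (dl_sha Q), fun σ => ?_⟩
        have e : ∀ A B C : Pt W (AlgebraicClosure K), (A - (B - C)) + (A - (B - C)) =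
            (A + A) - ((B + B) - (C + C)) := fun A B C => by abel
        show ((f : Coch W) σ - (act W σ.toAlgHom Q - Q)) + ((f : Coch W) σ -
          (act W σ.toAlgHom Q - Q)) = 0
        rw [e, hP1, ← map_add, hQ, sub_self]
      refine ⟨⟨_, hmem⟩, ?_⟩
      refine QuotientAddGroup.eq.2 ?_
      rw [AddSubgroup.mem_addSubgroupOf]
      refine ⟨Q, hQm, fun σ => ?_⟩
      show -((f : Coch W) σ - (act W σ.toAlgHom Q - Q)) + (f : Coch W) σ = _
      abel
  have e4 : N.relIndex H = 2 := by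
    rw [AddSubgroup.relIndex_eq_two_iff_exists_notMem_and]
    refine ⟨⟨dl W U, dl_coc2 hUf⟩, ?_, ?_, fun b hb => ?_⟩
    · exact (thI_ker _).2 ⟨U, ⟨2, hU4⟩, fun σ => rfl⟩
    · intro h5
      rw [hN, AddSubgroup.mem_addSubgroupOf] at h5
      obtain ⟨V, hV, hV2⟩ := h5
      have h7 : ∀ σ : Gal K, act W σ.toAlgHom (U - V) = U - V := by
        intro σ
        have h8 : act W σ.toAlgHom U - U = act W σ.toAlgHom V - V := hV2 σ
        rw [map_sub]
        have e : ∀ A B C D : Pt W (AlgebraicClosure K), A - B = C - D → A - C = B - D := by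
          intro A B C D h
          have h9 : A = C - D + B := by rw [← h]; abel
          rw [h9]
          abel
        exact e _ _ _ _ h8
      obtain ⟨R, hR⟩ := fixedW_pt h7
      apply h4 R
      apply ofIdW_inj
      rw [map_add, hR]
      have e : ∀ A B : Pt W (AlgebraicClosure K), (A - B) + (A - B) = (A + A) - (B + B) :=
        fun A B => by abel
      rw [e, hU, hV, sub_zero]
    · obtain ⟨P, ⟨m, hm⟩, hP⟩ := (thI_ker b).1 hb
      have hP2 : ∀ σ : Gal K, act W σ.toAlgHom (P + P) = P + P := by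
        intro σ
        have h5 := b.2.2 σ
        rw [hP] at h5
        have e : ∀ A B : Pt W (AlgebraicClosure K), (A - B) + (A - B) = (A + A) - (B + B) :=
          fun A B => by abel
        rw [e, sub_eq_zero] at h5
        rw [map_add]
        exact h5
      obtain ⟨R, hR⟩ := fixedW_pt hP2
      have hRm : 2 ^ m • R = 0 := by
        apply ofIdW_inj
        rw [map_nsmul, hR, smul_add, hm, add_zero, map_zero]
      rcases OneTwo.pow h2 h4 m R hRm with h5 | h5
      · right
        rw [hN, AddSubgroup.mem_addSubgroupOf]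
        refine ⟨P, ?_, hP⟩
        rw [← hR, h5, map_zero]
      · left
        rw [hN, AddSubgroup.mem_addSubgroupOf]
        refine ⟨P + U, ?_, fun σ => ?_⟩
        · rw [add_add_add_comm, ← hR, hU, h5]
          show i T + i T = 0
          rw [← map_add, hT, map_zero]
        · show b.1 σ + (act W σ.toAlgHom U - U) = _
          rw [hP, map_add]
          abel
  rw [e1, ← e2, e3, e4]

/-- a cocycle is killed by a power of two -/
theorem cocI_pow {f : Coch W} (hf : f ∈ cocI W) : ∃ m : ℕ, ∀ σ, 2 ^ m • f σ = 0 := by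
  have h1 : (Set.range f).Finite := IsLocallyConstant.range_finite hf.1.1.1
  have h2 : ∀ x ∈ Set.range f, ∃ m : ℕ, 2 ^ m • x = 0 := by
    rintro _ ⟨σ, rfl⟩
    exact hf.2 σ
  choose! m hm using h2
  refine ⟨h1.toFinset.sup m, fun σ => ?_⟩
  have h3 : m (f σ) ≤ h1.toFinset.sup m :=
    Finset.le_sup (f := m) (h1.mem_toFinset.2 ⟨σ, rfl⟩)
  obtain ⟨k, hk⟩ := Nat.exists_eq_add_of_le h3
  rw [hk, pow_add, mul_nsmul, hm _ ⟨σ, rfl⟩, smul_zero]

/-- the group is zero if it has no element of order two -/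
theorem SelI_zero (h : ∀ x : SelI W, x + x = 0 → x = 0) (x : SelI W) : x = 0 := by
  have hpow : ∀ (k : ℕ) (u : SelI W), 2 ^ k • u = 0 → u = 0 := by
    intro k
    induction k with
    | zero =>
      intro u hu
      rwa [pow_zero, one_nsmul] at hu
    | succ k ih =>
      intro u hu
      refine h u (ih _ ?_)
      rw [← two_nsmul, ← mul_nsmul', ← pow_succ]
      exact hu
  obtain ⟨f, rfl⟩ := QuotientAddGroup.mk_surjective x
  obtain ⟨m, hm⟩ := cocI_pow f.2
  apply hpow m
  have h1 : 2 ^ m • f = 0 := by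
    apply Subtype.ext
    funext σ
    exact hm σ
  have h2 : 2 ^ m • (QuotientAddGroup.mk f : cocI W ⧸ (cobI W).addSubgroupOf (cocI W)) =
      QuotientAddGroup.mk (2 ^ m • f) := rfl
  exact h2.trans (by rw [h1]; rfl)

/-- copies of `ℚ₂ / ℤ₂` -/
theorem div_le {A : Type} [AddCommGroup A] [Finite {x : A // x + x = 0}] {q s : ℕ}
    (f : (Fin q → Pruf) →+ A) (hf : Function.Injective f)
    (hs : Nat.card {x : A // x + x = 0} = 2 ^ s) : q ≤ s := by
  -- an element of order two
  obtain ⟨t, ht0, ht⟩ : ∃ t : Pruf, t ≠ 0 ∧ t + t = 0 := by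
    refine ⟨QuotientAddGroup.mk ((1 / 2 : ℚ_[2])), ?_, ?_⟩
    · intro h
      have h1 := (QuotientAddGroup.eq_zero_iff _).1 h
      have h2 : ‖(1 / 2 : ℚ_[2])‖ ≤ 1 := h1
      rw [norm_div, norm_one] at h2
      have h3 : ‖(2 : ℚ_[2])‖ = (2 : ℝ)⁻¹ := by
        have := Padic.norm_p (p := 2)
        exact_mod_cast this
      rw [h3] at h2
      norm_num at h2
    · rw [← QuotientAddGroup.mk_add]
      refine (QuotientAddGroup.eq_zero_iff _).2 ?_
      have h2 : (1 / 2 : ℚ_[2]) + 1 / 2 = 1 := by ring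
      rw [h2]
      show ‖(1 : ℚ_[2])‖ ≤ 1
      rw [norm_one]
  let g : (Fin q → Bool) → {x : A // x + x = 0} := fun v =>
    ⟨f fun i => if v i then t else 0, by
      rw [← map_add]
      have e : ((fun i => if v i then t else 0) + fun i => if v i then t else 0 :
          Fin q → Pruf) = 0 := by
        funext i
        by_cases h : v i
        · simp [h, ht]
        · simp [h]
      rw [e, map_zero]⟩
  have hg : Function.Injective g := by
    intro v w hvw
    have h1 := hf (congrArg Subtype.val hvw)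
    funext i
    have h2 := congrFun h1 i
    by_cases h3 : v i <;> by_cases h4 : w i <;> simp [h3, h4, ht0, ht0.symm] at h2 ⊢
  have h5 := Nat.card_le_card_of_injective g hg
  rw [hs, Nat.card_eq_fintype_card, Fintype.card_fun, Fintype.card_bool, Fintype.card_fin] at h5
  exact (Nat.pow_le_pow_iff_right (by norm_num)).1 h5

end Pool.Agent.R413.CK
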