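import Pool.Agent.R413.CK.Si

/-!
The `2^∞`-Selmer groups of the curves `E_D`.
-/

set_option autoImplicit false

open Filter Topology Finset

namespace Pool.Agent.R413.CK

open Pool.Agent.R413.SQ.Joint (tw adm_tw num num_true)
open Pool.Agent.Results.MP_4a9ea6_nt.TwoPartTwistsX49 (Adm E)
open Pool.Agent.TH841.NF.D (Sha)
open Pool.Agent.TH841.SH.D (Pruf)

/-- the dimension of the elements of order two -/
noncomputable def dimInf (D : ℕ) : ℕ := Nat.log 2 (Nat.card {x : SelI (E D) // x + x = 0})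

theorem dimInf_facts {D : ℕ} (h : Adm D) : Finite {x : SelI (E D) // x + x = 0} ∧
    Nat.card {x : SelI (E D) // x + x = 0} = 2 ^ dimInf D ∧
    2 ^ dimInf D = 2 ^ Module.finrank ℤ (E D).toAffine.Point *
      Nat.card {x : Sha (E D) // x + x = 0} ∧
    corank D ≤ dimInf D ∧ dimInf D ≤ 2 * corank D ∧
    ((∀ x : SelI (E D), x = 0) ↔ corank D = 0) ∧
    ∀ q : ℕ, (∃ f : (Fin q → Pruf) →+ SelI (E D), Function.Injective f) → q ≤ dimInf D := by
  obtain ⟨-, h1, h2, h3, h4⟩ := dimSel_facts h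
  have h5 := card_SelI (div_E h) (oneTwo_E h).2.1
  rw [h1] at h5
  obtain ⟨s, hs⟩ : ∃ s, dimSel D = s + 1 := ⟨dimSel D - 1, by omega⟩
  have h6 : Nat.card {x : SelI (E D) // x + x = 0} = 2 ^ s := by
    rw [hs, pow_succ] at h5
    omega
  have hd : dimInf D = s := by
    unfold dimInf
    rw [h6, Nat.log_pow (by norm_num)]
  have hf : Finite {x : SelI (E D) // x + x = 0} := by
    refine Nat.finite_of_card_ne_zero ?_
    rw [h6]
    positivity
  rw [hs, pow_succ, pow_succ] at h2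
  refine ⟨hf, by rw [h6, hd], ?_, by omega, by omega, ?_, ?_⟩
  · rw [hd]
    have h7 : 2 * 2 ^ s = 2 * (2 ^ Module.finrank ℤ (E D).toAffine.Point *
      Nat.card {x : Sha (E D) // x + x = 0}) := by linarith
    exact Nat.eq_of_mul_eq_mul_left two_pos h7
  · constructor
    · intro h7
      have h8 : Nat.card {x : SelI (E D) // x + x = 0} = 1 := by
        rw [Nat.card_eq_one_iff_unique]
        refine ⟨⟨fun x y => Subtype.ext ((h7 x.1).trans (h7 y.1).symm)⟩, ⟨⟨0, add_zero 0⟩⟩⟩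
      rw [h6] at h8
      have h9 : s = 0 := by
        by_contra h0
        have : 2 ∣ 2 ^ s := dvd_pow_self 2 h0
        rw [h8] at this
        omega
      omega
    · intro h7
      have h9 : s = 0 := by omega
      rw [h9, pow_zero, Nat.card_eq_one_iff_unique] at h6
      obtain ⟨h10, -⟩ := h6
      refine SelI_zero fun x hx => ?_
      exact congrArg Subtype.val (h10.elim ⟨x, hx⟩ ⟨0, add_zero 0⟩)
  · rintro q ⟨f, hf'⟩
    rw [hd]
    exact div_le f hf' h6

/-- the moments of the dimension -/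
theorem inf_moment {M : ℕ} (hM : Adm M) (m : ℕ) {δ : ℝ} (hδ : 0 < δ) :
    ∀ᶠ X : ℕ in atTop,
      ∑' r : ℕ, (r : ℝ) ^ m * mr r - δ ≤
        (∑ D ∈ clsX X, (dimInf (tw M D) : ℝ) ^ m) / (num (fun _ => True) X : ℝ) ∧
      (∑ D ∈ clsX X, (dimInf (tw M D) : ℝ) ^ m) / (num (fun _ => True) X : ℝ) ≤
        2 ^ m * ∑' r : ℕ, (r : ℝ) ^ m * mr r + δ := by
  have h1 := moment hM m
  filter_upwards [h1.eventually (lt_mem_nhds (show ∑' r : ℕ, (r : ℝ) ^ m * mr r - δ <
    ∑' r : ℕ, (r : ℝ) ^ m * mr r by linarith)),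
    (h1.const_mul (2 ^ m)).eventually (gt_mem_nhds (show 2 ^ m * ∑' r : ℕ, (r : ℝ) ^ m * mr r <
    2 ^ m * ∑' r : ℕ, (r : ℝ) ^ m * mr r + δ by linarith))] with X g1 g2
  constructor
  · refine g1.le.trans ?_
    refine div_le_div_of_nonneg_right (sum_le_sum fun D hD => ?_) (Nat.cast_nonneg _)
    have h3 := (dimInf_facts (adm_tw hM (mem_clsX.1 hD).2)).2.2.2.1
    refine pow_le_pow_left₀ (by positivity) ?_ m
    exact_mod_cast h3
  · refine le_trans ?_ g2.le
    rw [← mul_div_assoc, mul_sum]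
    refine div_le_div_of_nonneg_right (sum_le_sum fun D hD => ?_) (Nat.cast_nonneg _)
    have h3 := (dimInf_facts (adm_tw hM (mem_clsX.1 hD).2)).2.2.2.2.1
    rw [← mul_pow]
    refine pow_le_pow_left₀ (by positivity) ?_ m
    exact_mod_cast h3

end Pool.Agent.R413.CK
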