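import Pool.Agent.R413.CK.Mo
import Pool.Agent.R413.CK.Se2

/-!
The statistics of the 2-Selmer groups.
-/

set_option autoImplicit false

open Filter Topology Finset

namespace Pool.Agent.R413.CK

open Pool.Agent.R413.SQ.Joint (tw adm_tw num num_true)
open Pool.Agent.Results.MP_4a9ea6_nt.TwoPartTwistsX49 (Adm E)
open Pool.Agent.R413.MQ.Bin (cnt cnt_mono cnt_union cnt_card cnt_congr)
open Pool.Agent.TH841.NF.D (Sha)

/-- the proportion of the numbers such that the coranks lie in given finite sets -/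
theorem law_box {T : Finset ℕ} (hT : ∀ M ∈ T, Adm M) (B : ℕ → Finset ℕ) :
    Tendsto (fun X : ℕ => (num (fun D => ∀ M ∈ T, corank (tw M D) ∈ B M) X : ℝ) /
      (num (fun _ => True) X : ℝ)) atTop (𝓝 (∏ M ∈ T, ∑ i ∈ B M, mr i)) := by
  classical
  set Bx : Finset (T → ℕ) := Fintype.piFinset fun M => B M with hBx
  have hmass : ∑ ρ ∈ Bx, ∏ M, mr (ρ M) = ∏ M ∈ T, ∑ i ∈ B M, mr i := by
    rw [hBx, ← Finset.prod_univ_sum, prod_coe_sort T (fun M => ∑ i ∈ B M, mr i)]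
  have hlim : Tendsto (fun X : ℕ => (∑ ρ ∈ Bx, (num (fun D => ∀ M ∈ T,
      corank (tw M D) = xt T ρ M) X : ℝ)) / (num (fun _ => True) X : ℝ)) atTop
      (𝓝 (∑ ρ ∈ Bx, ∏ M, mr (ρ M))) := by
    simp only [sum_div]
    refine tendsto_finsetSum _ fun ρ _ => ?_
    have h1 := law hT (xt T ρ)
    have h2 : ∏ M ∈ T, mr (xt T ρ M) = ∏ M, mr (ρ M) := by
      rw [← prod_coe_sort T (fun M => mr (xt T ρ M))]
      exact prod_congr rfl fun M _ => by rw [xt_coe]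
    rwa [h2] at h1
  rw [hmass] at hlim
  refine hlim.congr fun X => ?_
  congr 1
  rw [← Nat.cast_sum, Nat.cast_inj]
  have h3 : ∀ ρ : T → ℕ, ∃ t : Finset ℕ, (∀ D, D ∈ t ↔ D ∈ Icc 1 X ∧ Adm D ∧
      ∀ M ∈ T, corank (tw M D) = xt T ρ M) := fun ρ =>
    ⟨(Icc 1 X).filter fun D => Adm D ∧ ∀ M ∈ T, corank (tw M D) = xt T ρ M,
      fun D => by rw [mem_filter]⟩
  choose t ht using h3
  have h4 : ∀ ρ ∈ Bx, num (fun D => ∀ M ∈ T, corank (tw M D) = xt T ρ M) X = (t ρ).card :=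
    fun ρ _ => by rw [num_cnt, cnt_card (ht ρ)]
  rw [sum_congr rfl h4, ← card_biUnion]
  · rw [num_cnt]
    refine (cnt_card fun D => ?_).symm
    rw [mem_biUnion]
    constructor
    · rintro ⟨ρ, hρ, hD⟩
      obtain ⟨h5, h6, h7⟩ := (ht ρ D).1 hD
      refine ⟨h5, h6, fun M hM => ?_⟩
      rw [h7 M hM]
      have h8 : xt T ρ M = ρ ⟨M, hM⟩ := xt_coe ρ ⟨M, hM⟩
      rw [h8]
      rw [hBx, Fintype.mem_piFinset] at hρ
      exact hρ ⟨M, hM⟩
    · rintro ⟨h5, h6, h7⟩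
      refine ⟨fun M => corank (tw M D), ?_, ?_⟩
      · rw [hBx, Fintype.mem_piFinset]
        intro M
        exact h7 M M.2
      · rw [ht]
        refine ⟨h5, h6, fun M hM => ?_⟩
        exact (xt_coe (fun M : T => corank (tw M D)) ⟨M, hM⟩).symm
  · intro ρ _ ρ' _ hne
    rw [Function.onFun, Finset.disjoint_left]
    intro D hD hD'
    apply hne
    funext M
    have h5 := ((ht ρ D).1 hD).2.2 M M.2
    have h6 := ((ht ρ' D).1 hD').2.2 M M.2
    rw [xt_coe] at h5 h6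
    rw [← h5, h6]

/-- large coranks -/
theorem law_ge {T : Finset ℕ} (hT : ∀ M ∈ T, Adm M) (ρ : ℕ → ℕ) {ε : ℝ} (hε : 0 < ε) :
    ∀ᶠ X : ℕ in atTop, ∏ M ∈ T, (1 - ∑ i ∈ range (ρ M), mr i) - ε ≤
      (num (fun D => ∀ M ∈ T, ρ M ≤ corank (tw M D)) X : ℝ) / (num (fun _ => True) X : ℝ) := by
  classical
  have h1 : Tendsto (fun R : ℕ => ∏ M ∈ T, ∑ i ∈ Ico (ρ M) R, mr i) atTop
      (𝓝 (∏ M ∈ T, (1 - ∑ i ∈ range (ρ M), mr i))) := by
    refine tendsto_finsetProd _ fun M _ => ?_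
    have h2 : Tendsto (fun R : ℕ => ∑ i ∈ range R, mr i - ∑ i ∈ range (ρ M), mr i) atTop
        (𝓝 (1 - ∑ i ∈ range (ρ M), mr i)) := mr_hasSum.tendsto_sum_nat.sub_const _
    refine h2.congr' ?_
    filter_upwards [eventually_ge_atTop (ρ M)] with R hR
    rw [sum_Ico_eq_sub _ hR]
  obtain ⟨R, hR⟩ := (h1.eventually (lt_mem_nhds
    (show ∏ M ∈ T, (1 - ∑ i ∈ range (ρ M), mr i) - ε / 2 <
      ∏ M ∈ T, (1 - ∑ i ∈ range (ρ M), mr i) by linarith))).exists
  filter_upwards [(law_box hT fun M => Ico (ρ M) R).eventually (lt_mem_nhds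
    (show ∏ M ∈ T, ∑ i ∈ Ico (ρ M) R, mr i - ε / 2 < ∏ M ∈ T, ∑ i ∈ Ico (ρ M) R, mr i by
      linarith))] with X hX
  refine le_trans (by linarith) (hX.le.trans ?_)
  refine div_le_div_of_nonneg_right ?_ (Nat.cast_nonneg _)
  have h5 := num_mono (Q := fun D => ∀ M ∈ T, corank (tw M D) ∈ Ico (ρ M) R)
    (R := fun D => ∀ M ∈ T, ρ M ≤ corank (tw M D))
    (fun D _ h M hM => (mem_Ico.1 (h M hM)).1) X
  exact_mod_cast h5

/-- small coranks -/
theorem law_sm {T : Finset ℕ} (hT : ∀ M ∈ T, Adm M) (ρ : ℕ → ℕ) {ε : ℝ} (hε : 0 < ε) :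
    ∀ᶠ X : ℕ in atTop, ∏ M ∈ T, (∑ i ∈ range (ρ M + 1), mr i) - ε ≤
      (num (fun D => ∀ M ∈ T, corank (tw M D) ≤ ρ M) X : ℝ) / (num (fun _ => True) X : ℝ) := by
  filter_upwards [(law_box hT fun M => range (ρ M + 1)).eventually (lt_mem_nhds
    (show ∏ M ∈ T, ∑ i ∈ range (ρ M + 1), mr i - ε < ∏ M ∈ T, ∑ i ∈ range (ρ M + 1), mr i by
      linarith))] with X hX
  refine hX.le.trans ?_
  refine div_le_div_of_nonneg_right ?_ (Nat.cast_nonneg _)
  have h5 := num_mono (Q := fun D => ∀ M ∈ T, corank (tw M D) ∈ range (ρ M + 1))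
    (R := fun D => ∀ M ∈ T, corank (tw M D) ≤ ρ M) (fun D _ h M hM => by
    have := mem_range.1 (h M hM)
    omega) X
  exact_mod_cast h5

/-- the averages of the powers of `a corank + 1` -/
theorem avg_poly {M : ℕ} (hM : Adm M) (a m : ℕ) :
    Summable (fun r : ℕ => ((a : ℝ) * r + 1) ^ m * mr r) ∧
    Tendsto (fun X : ℕ => (∑ D ∈ clsX X, ((a : ℝ) * (corank (tw M D) : ℝ) + 1) ^ m) /
      (num (fun _ => True) X : ℝ)) atTop (𝓝 (∑' r : ℕ, ((a : ℝ) * r + 1) ^ m * mr r)) := by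
  have hexp : ∀ x : ℝ, ((a : ℝ) * x + 1) ^ m =
      ∑ k ∈ range (m + 1), ((a : ℝ) ^ k * (m.choose k)) * x ^ k := by
    intro x
    rw [add_pow]
    refine sum_congr rfl fun k _ => ?_
    rw [one_pow, mul_one, mul_pow]
    ring
  have hs : ∀ k ∈ range (m + 1), Summable fun r : ℕ =>
      ((a : ℝ) ^ k * (m.choose k)) * ((r : ℝ) ^ k * mr r) := fun k _ =>
    (mo_summ k).mul_left _
  have e : ∀ r : ℕ, ((a : ℝ) * r + 1) ^ m * mr r =
      ∑ k ∈ range (m + 1), ((a : ℝ) ^ k * (m.choose k)) * ((r : ℝ) ^ k * mr r) := by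
    intro r
    rw [hexp, sum_mul]
    exact sum_congr rfl fun k _ => by ring
  constructor
  · simp only [e]
    exact summable_sum hs
  · have h2 : ∑' r : ℕ, ((a : ℝ) * r + 1) ^ m * mr r = ∑ k ∈ range (m + 1),
        ((a : ℝ) ^ k * (m.choose k)) * ∑' r : ℕ, (r : ℝ) ^ k * mr r := by
      simp only [e]
      rw [Summable.tsum_finsetSum hs]
      exact sum_congr rfl fun k _ => tsum_mul_left
    rw [h2]
    have h3 : ∀ X : ℕ, (∑ D ∈ clsX X, ((a : ℝ) * (corank (tw M D) : ℝ) + 1) ^ m) /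
        (num (fun _ => True) X : ℝ) = ∑ k ∈ range (m + 1), ((a : ℝ) ^ k * (m.choose k)) *
          ((∑ D ∈ clsX X, (corank (tw M D) : ℝ) ^ k) / (num (fun _ => True) X : ℝ)) := by
      intro X
      simp only [hexp]
      rw [sum_comm, sum_div]
      refine sum_congr rfl fun k _ => ?_
      rw [← mul_sum, mul_div_assoc]
    simp only [h3]
    exact tendsto_finsetSum _ fun k _ => (moment hM k).const_mul _

/-- the order of an elementary group -/
theorem pow_card (G : Type) [AddCommGroup G] [Finite G] (h : ∀ x : G, x + x = 0) :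
    ∃ s, Nat.card G = 2 ^ s := by
  let _ : Module (ZMod 2) G := AddCommGroup.zmodModule (n := 2) (fun x => by
    rw [two_nsmul]; exact h x)
  refine ⟨Module.finrank (ZMod 2) G, ?_⟩
  rw [Module.natCard_eq_pow_finrank (K := ZMod 2), Nat.card_zmod]

/-- the dimension of the 2-Selmer group -/
noncomputable def dimSel (D : ℕ) : ℕ := Nat.log 2 (Nat.card (Sel2 (E D)))

theorem dimSel_facts {D : ℕ} (h : Adm D) : Finite (Sel2 (E D)) ∧
    Nat.card (Sel2 (E D)) = 2 ^ dimSel D ∧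
    2 ^ dimSel D = 2 ^ (Module.finrank ℤ (E D).toAffine.Point + 1) *
      Nat.card {x : Sha (E D) // x + x = 0} ∧
    corank D + 1 ≤ dimSel D ∧ dimSel D ≤ 2 * corank D + 1 := by
  obtain ⟨h1, h2⟩ := sel2_bounds h
  have hf : Finite (Sel2 (E D)) := by
    refine Nat.finite_of_card_ne_zero ?_
    have : 0 < 2 ^ (corank D + 1) := by positivity
    omega
  have hG : ∃ s, Nat.card (Sel2 (E D)) = 2 ^ s := by
    have hf' : Finite (coc2 (E D) ⧸ (cob2 (E D)).addSubgroupOf (coc2 (E D))) := hf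
    refine pow_card (coc2 (E D) ⧸ (cob2 (E D)).addSubgroupOf (coc2 (E D))) fun x => ?_
    obtain ⟨f, rfl⟩ := QuotientAddGroup.mk_surjective x
    have h5 : f + f = 0 := by
      apply Subtype.ext
      funext σ
      exact f.2.2 σ
    rw [← QuotientAddGroup.mk_add, h5, QuotientAddGroup.mk_zero]
  obtain ⟨s, hs⟩ := hG
  have hd : dimSel D = s := by
    unfold dimSel
    rw [hs, Nat.log_pow (by norm_num)]
  rw [hs] at h1 h2
  refine ⟨hf, by rw [hs, hd], ?_, ?_, ?_⟩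
  · rw [hd, ← hs]
    exact sel2_card h
  · rw [hd]
    exact (Nat.pow_le_pow_iff_right (by norm_num)).1 h1
  · rw [hd]
    exact (Nat.pow_le_pow_iff_right (by norm_num)).1 h2

/-- the number of the class is positive -/
theorem num_pos : ∀ᶠ X : ℕ in atTop, (0 : ℝ) < (num (fun _ => True) X : ℝ) := by
  obtain ⟨c, hc, hlow⟩ := low_num
  filter_upwards [hlow, Pool.Agent.Y703.CX.ev_eL 1] with X h2 h3
  have hXp : 1 ≤ X := Pool.Agent.Y703.CX.X_pos (by linarith)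
  have hX0 : (0 : ℝ) < X := by exact_mod_cast hXp
  exact lt_of_lt_of_le (by positivity) h2

/-- the moments of the dimension -/
theorem dim_moment {M : ℕ} (hM : Adm M) (m : ℕ) {δ : ℝ} (hδ : 0 < δ) :
    ∀ᶠ X : ℕ in atTop,
      ∑' r : ℕ, ((r : ℝ) + 1) ^ m * mr r - δ ≤
        (∑ D ∈ clsX X, (dimSel (tw M D) : ℝ) ^ m) / (num (fun _ => True) X : ℝ) ∧
      (∑ D ∈ clsX X, (dimSel (tw M D) : ℝ) ^ m) / (num (fun _ => True) X : ℝ) ≤
        ∑' r : ℕ, (2 * (r : ℝ) + 1) ^ m * mr r + δ := by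
  obtain ⟨-, h1⟩ := avg_poly hM 1 m
  obtain ⟨-, h2⟩ := avg_poly hM 2 m
  simp only [Nat.cast_one, one_mul, Nat.cast_ofNat] at h1 h2
  filter_upwards [h1.eventually (lt_mem_nhds (show ∑' r : ℕ, ((r : ℝ) + 1) ^ m * mr r - δ <
    ∑' r : ℕ, ((r : ℝ) + 1) ^ m * mr r by linarith)),
    h2.eventually (gt_mem_nhds (show ∑' r : ℕ, (2 * (r : ℝ) + 1) ^ m * mr r <
    ∑' r : ℕ, (2 * (r : ℝ) + 1) ^ m * mr r + δ by linarith))] with X g1 g2
  constructor
  · refine g1.le.trans ?_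
    refine div_le_div_of_nonneg_right (sum_le_sum fun D hD => ?_) (Nat.cast_nonneg _)
    have h3 := (dimSel_facts (adm_tw hM (mem_clsX.1 hD).2)).2.2.2.1
    refine pow_le_pow_left₀ (by positivity) ?_ m
    exact_mod_cast h3
  · refine le_trans ?_ g2.le
    refine div_le_div_of_nonneg_right (sum_le_sum fun D hD => ?_) (Nat.cast_nonneg _)
    have h3 := (dimSel_facts (adm_tw hM (mem_clsX.1 hD).2)).2.2.2.2
    refine pow_le_pow_left₀ (by positivity) ?_ m
    exact_mod_cast h3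

end Pool.Agent.R413.CK
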