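import Pool.Agent.R413.CK.La

/-! A uniform bound for the proportion of the block systems with many solutions. -/

set_option autoImplicit false

open scoped Classical

namespace Pool.Agent.R413.CK

open Finset Module Function
open Pool.Agent.Y703.CQ (prs)
open Pool.Agent.Y219.CQ (F pa pa_surj)
open Pool.Agent.Y697.CJ (BM BM_symm nd_BM yy_card)
open Pool.Agent.Y697.PQ (est ij)
open Pool.Agent.Y697.PP (Sy Nd YY mem_YY)

/-- the mean number of the elements of the kernel -/
theorem mean_le {V : Type} [AddCommGroup V] [Module (ZMod 2) V] [Fintype V]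
    {W : Submodule (ZMod 2) V} {B : LinearMap.BilinForm (ZMod 2) V} {t : ℕ} (hB : Sy B) (hN : Nd B W)
    (ht : finrank (ZMod 2) W + t = finrank (ZMod 2) V) (h1 : 1 ≤ t)
    (hW : finrank (ZMod 2) W + 1 ≤ t) :
    ∑ Y ∈ YY W, (2 : ℝ) ^ finrank (ZMod 2) (LinearMap.ker (B + Y)) ≤ 3 * (YY W).card := by
  have hfin : Module.Finite (ZMod 2) V := Module.Finite.of_finite
  have h2 := est hB hN ht (fun _ => True) (γ := 1) (ε := 0) zero_le_one le_rfl le_rfl (j := 1) h1
    (univ.filter fun x => x ∈ W) (fun w hw => Finset.mem_filter.2 ⟨Finset.mem_univ _, hw⟩)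
    (by
      intro v _ _ _ _ Y₀ _ _
      rw [Finset.filter_true, one_mul, sub_self, abs_zero, zero_mul])
  rw [Finset.filter_true] at h2
  have hcard : (univ.filter fun x => x ∈ W).card = 2 ^ finrank (ZMod 2) W := by
    have h1 : (univ.filter fun x => x ∈ W).card = Nat.card W := by
      rw [Nat.card_eq_fintype_card, ← Fintype.card_coe]
      exact Fintype.card_congr (Equiv.subtypeEquivRight fun x => by simp)
    rw [h1, Module.natCard_eq_pow_finrank (K := ZMod 2), Nat.card_zmod]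
  rw [hcard] at h2
  have h3 : (((2 ^ finrank (ZMod 2) W : ℕ) : ℝ)) * 2 ^ 1 / 2 ^ t ≤ 1 := by
    rw [div_le_one (by positivity)]
    push_cast
    rw [← pow_add]
    exact pow_le_pow_right₀ (by norm_num) hW
  have hN0 : (0 : ℝ) ≤ ((YY W).card : ℝ) := Nat.cast_nonneg _
  have h4 := (abs_le.1 h2).2
  have h5 : ∑ Y ∈ YY W, ij 1 (2 ^ finrank (ZMod 2) (LinearMap.ker (B + Y))) =
      ∑ Y ∈ YY W, (2 : ℝ) ^ finrank (ZMod 2) (LinearMap.ker (B + Y)) - (YY W).card := by
    unfold ij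
    simp only [prod_range_one, pow_zero, sum_sub_distrib, sum_const, nsmul_eq_mul, mul_one]
  rw [h5] at h4
  norm_num at h4 h3 ⊢
  nlinarith

section main

variable {U J : Type} [Fintype U] [Fintype J] [LinearOrder J]

/-- **the proportion of the systems with at least `2 ^ s` solutions** -/
theorem tailA (U1 : Finset U) (J1 : Finset J) (hJ : ∃ l, l ∉ J1) (m : Finset U)
    (A : U → U → ZMod 2) (B : U → J → ZMod 2) (C : J → U → ZMod 2) (f : U → ZMod 2)
    (g : J → ZMod 2)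
    (hA : ∀ u ∈ U1, ∀ v ∈ U1, A u v = A v u) (hB : ∀ u ∈ U1, ∀ k ∈ J1, B u k = C k u)
    (hC : ∀ w : U → ZMod 2, (∀ u, u ∉ U1 → w u = 0) → (∃ u, w u ≠ 0) →
      ∃ k ∈ J1, ∑ u, w u * C k u ≠ 0) (hJ1 : U1.card + 1 ≤ J1.card) (s : ℕ) :
    ((univ.filter fun α : prs J1 → ZMod 2 =>
      2 ^ s ≤ Nat.card (KM m U1 J1 A B C (Pool.Agent.Y703.CQ.ext α) f g)).card : ℝ) /
        2 ^ (prs J1).card ≤ 3 / 2 ^ s := by
  have e1 : finrank F (U1 → F) = U1.card := by
    rw [finrank_fintype_fun_eq_card, Fintype.card_coe]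
  have e2 : finrank F (J1 → F) = J1.card := by
    rw [finrank_fintype_fun_eq_card, Fintype.card_coe]
  have e3 : finrank (ZMod 2) ((U1 → F) × (J1 → F)) = U1.card + J1.card := by
    rw [Module.finrank_prod, e1, e2]
  have e4 : finrank (ZMod 2) (LinearMap.ker (LinearMap.snd (ZMod 2) (U1 → F) (J1 → F))) =
      U1.card := by
    have h1 := LinearMap.finrank_range_add_finrank_ker (LinearMap.snd (ZMod 2) (U1 → F) (J1 → F))
    rw [LinearMap.range_eq_top.2 (LinearMap.snd_surjective), finrank_top, e2, e3] at h1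
    omega
  have key := mean_le (W := LinearMap.ker (LinearMap.snd (ZMod 2) (U1 → F) (J1 → F)))
    (t := J1.card) (BM_symm U1 J1 m A B C f g hA) (nd_BM m hC) (by rw [e4, e3]) (by omega)
    (by rw [e4]; exact hJ1)
  set YW := YY (LinearMap.ker (LinearMap.snd (ZMod 2) (U1 → F) (J1 → F))) with hYW
  have hpos : 0 < (YW.card : ℝ) := by
    rw [Nat.cast_pos, Finset.card_pos]
    refine ⟨0, mem_YY.2 ⟨fun _ _ => rfl, fun _ _ => rfl⟩⟩
  obtain ⟨P, hP⟩ : ∃ P : LinearMap.BilinForm (ZMod 2) ((U1 → F) × (J1 → F)) → Prop,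
      ∀ Y, P Y ↔ 2 ^ s ≤ 2 ^ finrank (ZMod 2) (LinearMap.ker (BM U1 J1 m A B C f g + Y)) :=
    ⟨_, fun _ => Iff.rfl⟩
  have h1 : ((YW.filter P).card : ℝ) / (YW.card : ℝ) ≤ 3 / 2 ^ s := by
    rw [div_le_div_iff₀ hpos (by positivity)]
    refine le_trans ?_ key
    have h2 : ((YW.filter P).card : ℝ) * 2 ^ s = ∑ Y ∈ YW.filter P, (2 : ℝ) ^ s := by
      rw [sum_const, nsmul_eq_mul]
    rw [h2]
    refine (sum_le_sum fun Y hY => ?_).trans (sum_le_sum_of_subset_of_nonneg (filter_subset _ _)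
      fun Y _ _ => by positivity)
    have h3 := (hP Y).1 (Finset.mem_filter.1 hY).2
    exact_mod_cast h3
  rw [yy_card] at h1
  refine le_trans (le_of_eq ?_) h1
  rw [← Pool.Agent.Y759.CX.fr_comp (pa J1) (pa_surj J1 hJ)]
  unfold Pool.Agent.Y759.CX.fr
  have h6 : Nat.card (prs J1 → F) = 2 ^ (prs J1).card := by
    rw [Nat.card_fun, Nat.card_eq_fintype_card, Nat.card_eq_fintype_card, ZMod.card,
      Fintype.card_coe]
  rw [h6, Nat.card_eq_fintype_card, Fintype.card_subtype]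
  push_cast
  congr 3
  ext α
  simp only [Finset.mem_filter, hP, Finset.mem_univ, true_and]
  rw [card_KM U1 J1 m A B C f g hA hB α]

end main

end Pool.Agent.R413.CK
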