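import Pool.Agent.R413.CK.Dt
import Pool.Agent.R413.CK.Ln
import Pool.Agent.R413.SQ.Low2

/-!
The moments of the coranks: uniform integrability and limits.
-/

set_option autoImplicit false

open Filter Topology Finset

namespace Pool.Agent.R413.CK

open Pool.Agent.R413.SQ
open Pool.Agent.R413.SQ.Joint (tw ac_tw tw_pf adm_tw num num_true)
open Pool.Agent.Y703.CX (eL kk kk_ge kk_le ev_eL logX_eq rpow_eL one_add_log X_pos eL_tendsto)
open Pool.Agent.Y698.SG (n4)
open Pool.Agent.Y703.CQ (c2)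
open Pool.Agent.Results.MP_4a9ea6_nt.TwoPartTwistsX49 (Adm mat split)
open Pool.Agent.R413.MQ.Bin (cnt cnt_mono cnt_card)

open Classical in
/-- the numbers of the class up to `X` -/
noncomputable def clsX (X : ℕ) : Finset ℕ := (Icc 1 X).filter Adm

open Classical in
theorem mem_clsX {X D : ℕ} : D ∈ clsX X ↔ D ∈ Icc 1 X ∧ Adm D := by
  unfold clsX
  rw [mem_filter]

open Classical in
theorem num_clsX (Q : ℕ → Prop) (X : ℕ) : num Q X = ((clsX X).filter Q).card := by
  rw [num_cnt]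
  refine cnt_card fun D => ?_
  rw [mem_filter, mem_clsX, and_assoc]

theorem num_le_self (Q : ℕ → Prop) (X : ℕ) : num Q X ≤ X := by
  classical
  rw [num_clsX]
  unfold clsX
  refine (card_filter_le _ _).trans ((card_filter_le _ _).trans ?_)
  rw [Nat.card_Icc]
  omega

/-- the tail at the level of the sets of primes -/
theorem num_tail {M : ℕ} (hM : Adm M) (s X : ℕ) :
    num (fun D => s ≤ corank (tw M D)) X = (open Classical in ((SS ∅ ∅ X).filter
      (KdT s (fun _ => n4) (fun _ => M.primeFactors))).card) := by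
  classical
  rw [Joint.num_eq (Q := fun D => s ≤ corank (tw M D)) (R := fun S =>
    KdT s (fun _ => n4) (fun _ => M.primeFactors) S) (fun D hD => ?_)]
  · have h1 := Pool.Agent.R413.SQ.NS.card_eq ∅ ∅ X
      (KdT s (fun _ => n4) (fun _ => M.primeFactors))
    convert h1
  · unfold KdT
    have h4 := card_corank (adm_tw hM hD)
    rw [tw_pf hM hD] at h4
    show s ≤ corank (tw M D) ↔ 2 ^ s ≤ Nat.card (Kd n4 (symmDiff D.primeFactors M.primeFactors))
    rw [h4]
    exact (Nat.pow_le_pow_iff_right (by norm_num)).symm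

theorem num_all (X : ℕ) : num (fun _ => True) X = (SS ∅ ∅ X).card := by
  classical
  rw [num_true]
  have h2 := Pool.Agent.R413.SQ.NS.card_eq ∅ ∅ X (fun _ => True)
  rw [Finset.filter_true] at h2
  simp only [and_true] at h2
  rw [← h2]

/-- the uniform bound of the tails -/
theorem tail_num {M : ℕ} (hM : Adm M) : ∃ (t : ℝ) (E : ℕ → ℝ), 1 / 2 < t ∧ Sml t E ∧
    ∀ᶠ X : ℕ in atTop, ∀ s : ℕ, (num (fun D => s ≤ corank (tw M D)) X : ℝ) ≤
      3 / 2 ^ s * (num (fun _ => True) X : ℝ) + E X := by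
  obtain ⟨t, E, h1, h2, h3⟩ := t_TAIL Pool.Agent.R413.SQ.BIL.t_BIL Pool.Agent.Y356.CQ.t_EQ
    Pool.Agent.R413.SQ.CNT.t_CNT Pool.Agent.Y488.CX.t_SIE Pool.Agent.R413.SQ.HAL.t_HAL
    SM.t_JBAD Pool.Agent.R413.SQ.FEW.t_FEW Pool.Agent.Y405.CQ.t_MER ∅ ∅
    (fun _ => n4) (fun _ => M.primeFactors) M.primeFactors trivial
    (fun u hu => ⟨Nat.prime_of_mem_primeFactors hu, hM.2 u hu⟩) (fun _ => subset_rfl)
  refine ⟨t, E, h1, h2, h3.mono fun X hX s => ?_⟩
  rw [num_tail hM, num_all]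
  exact hX s

theorem corank_le {M D : ℕ} (hM : Adm M) (hD : Adm D) :
    corank (tw M D) ≤ D.primeFactors.card + M.primeFactors.card := by
  classical
  have h1 : corank (tw M D) ≤ (split (tw M D)).card := Nat.sub_le _ _
  have h2 : (split (tw M D)).card ≤ (tw M D).primeFactors.card := card_filter_le _ _
  rw [tw_pf hM hD] at h2
  refine h1.trans (h2.trans ?_)
  rw [symmDiff_def, sup_eq_union]
  refine (card_union_le _ _).trans (add_le_add ?_ ?_)
  · exact card_le_card sdiff_subset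
  · exact card_le_card sdiff_subset

/-- the bound for the large values -/
theorem big_num {M : ℕ} (hM : Adm M) {X : ℕ} (hX : 1 ≤ X) (s : ℕ) :
    (num (fun D => s ≤ corank (tw M D)) X : ℝ) ≤
      2 ^ (M.primeFactors.card + 1) * (X * (1 + Real.log X)) / 2 ^ s := by
  classical
  set v := M.primeFactors.card with hv
  have hX0 : (1 : ℝ) ≤ X := by exact_mod_cast hX
  have hlog : 0 ≤ Real.log X := Real.log_nonneg hX0
  rw [le_div_iff₀ (by positivity)]
  rcases Nat.lt_or_ge v s with h | h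
  · have h1 := Pool.Agent.R413.SQ.CNT.t_CNT.many ∅ ∅ X (s - v - 1) trivial hX
    have h2 : num (fun D => s ≤ corank (tw M D)) X ≤
        ((SS ∅ ∅ X).filter fun S => s - v - 1 < S.card).card := by
      have h3 : num (fun D => s ≤ corank (tw M D)) X ≤
          num (fun D => s - v - 1 < D.primeFactors.card) X := by
        rw [num_cnt, num_cnt]
        refine cnt_mono (fun D hD h4 => ?_) X
        have h5 := corank_le hM hD
        omega
      refine h3.trans (le_of_eq ?_)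
      rw [Joint.num_eq (Q := fun D => s - v - 1 < D.primeFactors.card) (R := fun S =>
        s - v - 1 < S.card) (fun D hD => Iff.rfl)]
      have h1 := Pool.Agent.R413.SQ.NS.card_eq ∅ ∅ X (fun S => s - v - 1 < S.card)
      convert h1
    have h3 : (num (fun D => s ≤ corank (tw M D)) X : ℝ) ≤
        (((SS ∅ ∅ X).filter fun S => s - v - 1 < S.card).card : ℝ) := by exact_mod_cast h2
    have h4 : (2 : ℝ) ^ s = 2 ^ (v + 1) * 2 ^ (s - v - 1) := by
      rw [← pow_add]
      congr 1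
      omega
    rw [h4]
    calc (num (fun D => s ≤ corank (tw M D)) X : ℝ) * (2 ^ (v + 1) * 2 ^ (s - v - 1)) =
          2 ^ (v + 1) * ((num (fun D => s ≤ corank (tw M D)) X : ℝ) * 2 ^ (s - v - 1)) := by ring
      _ ≤ 2 ^ (v + 1) * ((((SS ∅ ∅ X).filter fun S => s - v - 1 < S.card).card : ℝ) *
          2 ^ (s - v - 1)) := by gcongr
      _ ≤ 2 ^ (v + 1) * (X * (1 + Real.log X)) := by gcongr
  · have h1 : (num (fun D => s ≤ corank (tw M D)) X : ℝ) ≤ X :=
      Nat.cast_le.2 (num_le_self _ X)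
    have h2 : (2 : ℝ) ^ s ≤ 2 ^ (v + 1) := pow_le_pow_right₀ (by norm_num) (by omega)
    have h3 : (X : ℝ) ≤ X * (1 + Real.log X) := le_mul_of_one_le_right (by linarith) (by linarith)
    calc (num (fun D => s ≤ corank (tw M D)) X : ℝ) * 2 ^ s ≤
          (X * (1 + Real.log X)) * 2 ^ (v + 1) := by
          apply mul_le_mul (h1.trans h3) h2 (by positivity)
          have := h3
          linarith
      _ = _ := by ring

/-- the lower bound of the size of the class -/
theorem low_num : ∃ c : ℝ, 0 < c ∧ ∀ᶠ X : ℕ in atTop,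
    c * (X * Real.exp (-(1 / 2) * eL X)) ≤ (num (fun _ => True) X : ℝ) := by
  obtain ⟨c, X₀, hc, h⟩ := LOW.t_LOW Pool.Agent.Y405.CQ.t_MER Pool.Agent.Y302.CQ.t_CHE ∅ ∅ trivial
  refine ⟨c, hc, ?_⟩
  filter_upwards [eventually_ge_atTop X₀, ev_eL 1] with X hX hl
  have h1 := h X hX
  have e00 : (-1 + dl ∅ : ℝ) = -(1 / 2) := by unfold dl; ring
  rw [e00, rpow_eL (by linarith)] at h1
  rw [num_all, ← mul_assoc]
  exact h1

/-- tails of the series -/
theorem geo (m : ℕ) : ∃ A : ℝ, 0 < A ∧ ∀ n N : ℕ,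
    ∑ s ∈ Ico n N, (s : ℝ) ^ m / 2 ^ s ≤ A * (3 / 4) ^ n := by
  have h1 : Tendsto (fun s : ℕ => (s : ℝ) ^ m * (2 / 3 : ℝ) ^ s) atTop (𝓝 0) :=
    tendsto_pow_const_mul_const_pow_of_abs_lt_one m (by rw [abs_lt]; constructor <;> norm_num)
  obtain ⟨A, hA⟩ := h1.bddAbove_range
  have hA' : ∀ s : ℕ, (s : ℝ) ^ m * (2 / 3 : ℝ) ^ s ≤ A := fun s => hA ⟨s, rfl⟩
  refine ⟨4 * (|A| + 1), by positivity, fun n N => ?_⟩
  have h2 : ∀ s ∈ Ico n N, (s : ℝ) ^ m / 2 ^ s ≤ (|A| + 1) * (3 / 4) ^ s := by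
    intro s _
    have h3 : (s : ℝ) ^ m / 2 ^ s = (s : ℝ) ^ m * (2 / 3 : ℝ) ^ s * (3 / 4) ^ s := by
      rw [mul_assoc, ← mul_pow, div_eq_mul_inv, ← inv_pow]
      norm_num
    rw [h3]
    gcongr
    have := hA' s
    have := le_abs_self A
    linarith
  refine (sum_le_sum h2).trans ?_
  rw [← mul_sum]
  have h4 : ∑ s ∈ Ico n N, (3 / 4 : ℝ) ^ s ≤ 4 * (3 / 4) ^ n := by
    rw [sum_Ico_eq_sum_range]
    have h5 : ∀ i ∈ range (N - n), (3 / 4 : ℝ) ^ (n + i) = (3 / 4) ^ n * (3 / 4) ^ i := fun i _ =>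
      pow_add _ _ _
    rw [sum_congr rfl h5, ← mul_sum, geom_sum_eq (by norm_num)]
    have h6 : (0 : ℝ) ≤ (3 / 4) ^ (N - n) := by positivity
    have h7 : (0 : ℝ) < (3 / 4) ^ n := by positivity
    rw [mul_comm 4]
    apply mul_le_mul_of_nonneg_left _ h7.le
    rw [div_le_iff_of_neg (by norm_num)]
    linarith
  calc (|A| + 1) * ∑ s ∈ Ico n N, (3 / 4 : ℝ) ^ s ≤ (|A| + 1) * (4 * (3 / 4) ^ n) := by gcongr
    _ = _ := by ring

end Pool.Agent.R413.CK
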