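import Pool.Agent.R413.CK.Ui

/-!
Uniform integrability of the powers of the coranks.
-/

set_option autoImplicit false

open Filter Topology Finset

namespace Pool.Agent.R413.CK

open Pool.Agent.R413.SQ
open Pool.Agent.R413.SQ.Joint (tw ac_tw tw_pf adm_tw num num_true)
open Pool.Agent.Y703.CX (eL kk kk_ge kk_le ev_eL logX_eq rpow_eL one_add_log X_pos eL_tendsto)
open Pool.Agent.Results.MP_4a9ea6_nt.TwoPartTwistsX49 (Adm mat split)

/-- the polynomial in `log log X` -/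
theorem f1 (m : ℕ) {t δ : ℝ} (ht : 1 / 2 < t) (hδ : 0 < δ) : ∀ᶠ X : ℕ in atTop,
    ((kk X : ℝ) + 1) ^ (m + 1) * Real.exp (-t * eL X) ≤ δ * Real.exp (-(1 / 2) * eL X) := by
  have h1 : Tendsto (fun x : ℝ => x ^ (m + 1) * Real.exp (-((t - 1 / 2) * x))) atTop (𝓝 0) := by
    have h2 := Real.tendsto_pow_mul_exp_neg_atTop_nhds_zero (m + 1)
    have h3 : Tendsto (fun x : ℝ => (t - 1 / 2) * x) atTop atTop :=
      tendsto_id.const_mul_atTop (by linarith)
    have h4 := (h2.comp h3).const_mul (((t - 1 / 2) ^ (m + 1))⁻¹)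
    rw [mul_zero] at h4
    refine h4.congr fun x => ?_
    have h5 : (t - 1 / 2) ^ (m + 1) ≠ 0 := pow_ne_zero _ (by linarith)
    show ((t - 1 / 2) ^ (m + 1))⁻¹ * (((t - 1 / 2) * x) ^ (m + 1) * Real.exp (-((t - 1 / 2) * x))) = _
    rw [mul_pow, ← mul_assoc, ← mul_assoc, inv_mul_cancel₀ h5, one_mul]
  have h2 := (h1.comp eL_tendsto).const_mul ((12 : ℝ) ^ (m + 1))
  rw [mul_zero] at h2
  filter_upwards [h2.eventually (gt_mem_nhds hδ), ev_eL 1] with X h3 h4
  have h5 : (kk X : ℝ) + 1 ≤ 12 * eL X := by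
    have := kk_le (X := X) (by linarith)
    linarith
  have h6 : Real.exp (-t * eL X) = Real.exp (-((t - 1 / 2) * eL X)) * Real.exp (-(1 / 2) * eL X) := by
    rw [← Real.exp_add]
    congr 1
    ring
  rw [h6, ← mul_assoc]
  apply mul_le_mul_of_nonneg_right _ (Real.exp_pos _).le
  refine le_trans ?_ h3.le
  show _ ≤ 12 ^ (m + 1) * (eL X ^ (m + 1) * Real.exp (-((t - 1 / 2) * eL X)))
  rw [← mul_assoc, ← mul_pow]
  apply mul_le_mul_of_nonneg_right _ (Real.exp_pos _).le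
  exact pow_le_pow_left₀ (by positivity) h5 _

theorem f3 {C δ : ℝ} (hC : 0 < C) (hδ : 0 < δ) : ∀ᶠ X : ℕ in atTop,
    C * (1 + Real.log X) * (3 / 4) ^ (kk X + 1) ≤ δ * Real.exp (-(1 / 2) * eL X) := by
  have h1 : Tendsto (fun X : ℕ => 2 * C * Real.exp (-eL X)) atTop (𝓝 (2 * C * 0)) :=
    (Real.tendsto_exp_neg_atTop_nhds_zero.comp eL_tendsto).const_mul _
  rw [mul_zero] at h1
  filter_upwards [h1.eventually (gt_mem_nhds hδ), ev_eL 1] with X h2 h4
  have h5 : (1 : ℝ) + Real.log X ≤ 2 * Real.exp (eL X) := one_add_log (by linarith)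
  have h6 : (3 / 4 : ℝ) ^ (kk X + 1) ≤ Real.exp (-(5 / 2) * eL X) := by
    have h7 : (3 / 4 : ℝ) ≤ Real.exp (-(1 / 4)) := by
      have := Real.add_one_le_exp (-(1 / 4 : ℝ))
      linarith
    calc (3 / 4 : ℝ) ^ (kk X + 1) ≤ (3 / 4) ^ kk X :=
          pow_le_pow_of_le_one (by norm_num) (by norm_num) (by omega)
      _ ≤ (Real.exp (-(1 / 4))) ^ kk X := pow_le_pow_left₀ (by norm_num) h7 _
      _ = Real.exp (kk X * (-(1 / 4))) := by rw [← Real.exp_nat_mul]
      _ ≤ _ := by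
        apply Real.exp_le_exp.2
        have := kk_ge X
        nlinarith
  calc C * (1 + Real.log X) * (3 / 4) ^ (kk X + 1) ≤
        C * (2 * Real.exp (eL X)) * Real.exp (-(5 / 2) * eL X) := by gcongr
    _ = 2 * C * Real.exp (-eL X) * Real.exp (-(1 / 2) * eL X) := by
      have h8 : Real.exp (eL X) * Real.exp (-(5 / 2) * eL X) =
          Real.exp (-eL X) * Real.exp (-(1 / 2) * eL X) := by
        rw [← Real.exp_add, ← Real.exp_add]
        congr 1
        ring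
      calc _ = 2 * C * (Real.exp (eL X) * Real.exp (-(5 / 2) * eL X)) := by ring
        _ = _ := by rw [h8]; ring
    _ ≤ δ * Real.exp (-(1 / 2) * eL X) := mul_le_mul_of_nonneg_right h2.le (Real.exp_pos _).le

/-- **uniform integrability** -/
theorem ui {M : ℕ} (hM : Adm M) (m : ℕ) {ε : ℝ} (hε : 0 < ε) : ∃ B : ℕ, ∀ᶠ X : ℕ in atTop,
    ∑ D ∈ clsX X, (if B ≤ corank (tw M D) then (corank (tw M D) : ℝ) ^ m else 0) ≤
      ε * (num (fun _ => True) X : ℝ) := by
  obtain ⟨t, E, ht, hE, htail⟩ := tail_num hM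
  obtain ⟨c, hc, hlow⟩ := low_num
  obtain ⟨A, hA, hgeo⟩ := geo m
  obtain ⟨B, hB⟩ : ∃ B : ℕ, (3 / 4 : ℝ) ^ B < ε / (9 * A) :=
    exists_pow_lt_of_lt_one (by positivity) (by norm_num)
  refine ⟨B, ?_⟩
  set v := M.primeFactors.card with hv
  filter_upwards [htail, hlow, hE 1 one_pos, f1 m ht (show 0 < c * ε / 3 by positivity),
    f3 (C := 2 ^ (v + 1) * A) (by positivity) (show 0 < c * ε / 3 by positivity),
    ev_eL 1] with X h1 h2 h3 h4 h5 h6
  have hX1 : 1 ≤ X := X_pos (by linarith)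
  have hX0 : (0 : ℝ) ≤ X := Nat.cast_nonneg _
  have hlog : 0 ≤ Real.log X := Real.log_nonneg (by exact_mod_cast hX1)
  set N : ℝ := (num (fun _ => True) X : ℝ) with hN
  have hN0 : 0 ≤ N := Nat.cast_nonneg _
  set K := kk X with hK
  set L := (clsX X).sup (fun D => corank (tw M D)) with hL
  set Y : ℝ := X * Real.exp (-t * eL X) with hY
  have hY0 : 0 ≤ Y := by positivity
  set a : ℕ → ℝ := fun s => (num (fun D => s ≤ corank (tw M D)) X : ℝ) with ha
  -- the sum over the tails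
  have hsum : ∑ D ∈ clsX X, (if B ≤ corank (tw M D) then (corank (tw M D) : ℝ) ^ m else 0) ≤
      ∑ s ∈ Ico B (L + 1), (s : ℝ) ^ m * a s := by
    have g1 : ∀ D ∈ clsX X, (if B ≤ corank (tw M D) then (corank (tw M D) : ℝ) ^ m else 0) ≤
        ∑ s ∈ Ico B (L + 1), (if s ≤ corank (tw M D) then (s : ℝ) ^ m else 0) := by
      intro D hD
      have g2 : ∀ s ∈ Ico B (L + 1), 0 ≤ (if s ≤ corank (tw M D) then (s : ℝ) ^ m else 0) := by
        intro s _
        split_ifs <;> positivity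
      split_ifs with g3
      · have g4 : corank (tw M D) ∈ Ico B (L + 1) := by
          rw [mem_Ico]
          refine ⟨g3, ?_⟩
          have := Finset.le_sup (f := fun D => corank (tw M D)) hD
          rw [← hL] at this
          exact Nat.lt_succ_of_le this
        refine le_trans ?_ (single_le_sum g2 g4)
        rw [if_pos le_rfl]
      · exact sum_nonneg g2
    refine (sum_le_sum g1).trans (le_of_eq ?_)
    rw [sum_comm]
    refine sum_congr rfl fun s _ => ?_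
    rw [ha]
    show _ = (s : ℝ) ^ m * (num (fun D => s ≤ corank (tw M D)) X : ℝ)
    rw [num_clsX, ← sum_filter, sum_const, nsmul_eq_mul, mul_comm]
    congr 3
    ext D
    simp only [mem_filter]
  refine hsum.trans ?_
  -- two ranges
  have hpt : ∀ s : ℕ, (s : ℝ) ^ m * a s ≤ (s : ℝ) ^ m * (3 / 2 ^ s * N + Y) := by
    intro s
    apply mul_le_mul_of_nonneg_left _ (by positivity)
    refine (h1 s).trans ?_
    rw [one_mul] at h3
    linarith
  have hpt2 : ∀ s : ℕ, (s : ℝ) ^ m * a s ≤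
      (s : ℝ) ^ m * (2 ^ (v + 1) * (X * (1 + Real.log X)) / 2 ^ s) := fun s =>
    mul_le_mul_of_nonneg_left (big_num hM hX1 s) (by positivity)
  rw [← sum_filter_add_sum_filter_not (Ico B (L + 1)) (fun s => s < K + 1)]
  have r1 : ∑ s ∈ (Ico B (L + 1)).filter (fun s => s < K + 1), (s : ℝ) ^ m * a s ≤
      ∑ s ∈ Ico B (K + 1), (s : ℝ) ^ m * (3 / 2 ^ s * N + Y) := by
    refine (sum_le_sum fun s _ => hpt s).trans (sum_le_sum_of_subset_of_nonneg (fun s hs => ?_)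
      fun s _ _ => by positivity)
    rw [mem_filter, mem_Ico] at hs
    rw [mem_Ico]
    exact ⟨hs.1.1, hs.2⟩
  have r2 : ∑ s ∈ (Ico B (L + 1)).filter (fun s => ¬ s < K + 1), (s : ℝ) ^ m * a s ≤
      ∑ s ∈ Ico (K + 1) (L + 1), (s : ℝ) ^ m * (2 ^ (v + 1) * (X * (1 + Real.log X)) / 2 ^ s) := by
    refine (sum_le_sum fun s _ => hpt2 s).trans (sum_le_sum_of_subset_of_nonneg (fun s hs => ?_)
      fun s _ _ => by positivity)
    rw [mem_filter, mem_Ico] at hs
    rw [mem_Ico]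
    exact ⟨not_lt.1 hs.2, hs.1.2⟩
  refine (add_le_add r1 r2).trans ?_
  have e1 : ∑ s ∈ Ico B (K + 1), (s : ℝ) ^ m * (3 / 2 ^ s * N + Y) =
      3 * N * ∑ s ∈ Ico B (K + 1), (s : ℝ) ^ m / 2 ^ s + Y * ∑ s ∈ Ico B (K + 1), (s : ℝ) ^ m := by
    rw [mul_sum, mul_sum, ← sum_add_distrib]
    refine sum_congr rfl fun s _ => ?_
    ring
  have e2 : ∑ s ∈ Ico (K + 1) (L + 1), (s : ℝ) ^ m * (2 ^ (v + 1) * (X * (1 + Real.log X)) / 2 ^ s) =
      2 ^ (v + 1) * (X * (1 + Real.log X)) * ∑ s ∈ Ico (K + 1) (L + 1), (s : ℝ) ^ m / 2 ^ s := by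
    rw [mul_sum]
    refine sum_congr rfl fun s _ => ?_
    ring
  have b1 : 3 * N * ∑ s ∈ Ico B (K + 1), (s : ℝ) ^ m / 2 ^ s ≤ ε / 3 * N := by
    have g1 := hgeo B (K + 1)
    have g2 : A * (3 / 4) ^ B ≤ ε / 9 := by
      have := hB.le
      rw [le_div_iff₀ (by positivity)] at this
      linarith
    calc 3 * N * ∑ s ∈ Ico B (K + 1), (s : ℝ) ^ m / 2 ^ s ≤ 3 * N * (ε / 9) := by
          apply mul_le_mul_of_nonneg_left (g1.trans g2) (by positivity)
      _ = ε / 3 * N := by ring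
  have b2 : Y * ∑ s ∈ Ico B (K + 1), (s : ℝ) ^ m ≤ ε / 3 * N := by
    have g1 : ∑ s ∈ Ico B (K + 1), (s : ℝ) ^ m ≤ ((K : ℝ) + 1) ^ (m + 1) := by
      have g2 : ∀ s ∈ Ico B (K + 1), (s : ℝ) ^ m ≤ ((K : ℝ) + 1) ^ m := by
        intro s hs
        rw [mem_Ico] at hs
        apply pow_le_pow_left₀ (Nat.cast_nonneg _)
        have : (s : ℝ) ≤ K + 1 := by exact_mod_cast hs.2.le
        exact this
      refine (sum_le_sum g2).trans ?_
      rw [sum_const, nsmul_eq_mul, Nat.card_Ico, pow_succ, mul_comm]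
      apply mul_le_mul_of_nonneg_left _ (by positivity)
      have : ((K + 1 - B : ℕ) : ℝ) ≤ ((K + 1 : ℕ) : ℝ) := by exact_mod_cast Nat.sub_le _ _
      push_cast at this
      linarith
    calc Y * ∑ s ∈ Ico B (K + 1), (s : ℝ) ^ m ≤ Y * ((K : ℝ) + 1) ^ (m + 1) :=
          mul_le_mul_of_nonneg_left g1 hY0
      _ = X * (((K : ℝ) + 1) ^ (m + 1) * Real.exp (-t * eL X)) := by rw [hY]; ring
      _ ≤ X * (c * ε / 3 * Real.exp (-(1 / 2) * eL X)) := mul_le_mul_of_nonneg_left h4 hX0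
      _ = ε / 3 * (c * (X * Real.exp (-(1 / 2) * eL X))) := by ring
      _ ≤ ε / 3 * N := mul_le_mul_of_nonneg_left h2 (by positivity)
  have b3 : 2 ^ (v + 1) * (X * (1 + Real.log X)) * ∑ s ∈ Ico (K + 1) (L + 1), (s : ℝ) ^ m / 2 ^ s ≤
      ε / 3 * N := by
    have g1 := hgeo (K + 1) (L + 1)
    calc 2 ^ (v + 1) * (X * (1 + Real.log X)) * ∑ s ∈ Ico (K + 1) (L + 1), (s : ℝ) ^ m / 2 ^ s ≤
          2 ^ (v + 1) * (X * (1 + Real.log X)) * (A * (3 / 4) ^ (K + 1)) :=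
          mul_le_mul_of_nonneg_left g1 (by positivity)
      _ = X * (2 ^ (v + 1) * A * (1 + Real.log X) * (3 / 4) ^ (K + 1)) := by ring
      _ ≤ X * (c * ε / 3 * Real.exp (-(1 / 2) * eL X)) := mul_le_mul_of_nonneg_left h5 hX0
      _ = ε / 3 * (c * (X * Real.exp (-(1 / 2) * eL X))) := by ring
      _ ≤ ε / 3 * N := mul_le_mul_of_nonneg_left h2 (by positivity)
  rw [e1, e2]
  linarith

end Pool.Agent.R413.CK
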